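import Pool.Agent.Lib.MP_c42713_pr.Defs

/-! # Expectations and covariances with respect to a finite weight -/

namespace SKG

variable {X : Type*} [Fintype X]

/-- expectation with respect to a (not normalised) weight -/
noncomputable def Ex (w f : X → ℝ) : ℝ := (∑ x, w x * f x) / ∑ x, w x

/-- covariance -/
noncomputable def Cv (w f g : X → ℝ) : ℝ := Ex w (fun x => f x * g x) - Ex w f * Ex w g

/-- third cumulant -/
noncomputable def k3 (w f g h : X → ℝ) : ℝ :=
  Ex w (fun x => (f x - Ex w f) * (g x - Ex w g) * (h x - Ex w h))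

/-- fourth centred moment -/
noncomputable def k4 (w f g h k : X → ℝ) : ℝ :=
  Ex w (fun x => (f x - Ex w f) * (g x - Ex w g) * (h x - Ex w h) * (k x - Ex w k))

/-- a nonnegative weight with positive total mass -/
structure IsW (w : X → ℝ) : Prop where
  nonneg : ∀ x, 0 ≤ w x
  pos : 0 < ∑ x, w x

/-- exponential tilt -/
noncomputable def tilt (w a : X → ℝ) : X → ℝ := fun x => w x * Real.exp (a x)

theorem Ex_add (w f g : X → ℝ) : Ex w (fun x => f x + g x) = Ex w f + Ex w g := by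
  unfold Ex; rw [← add_div, ← Finset.sum_add_distrib]; congr 1
  exact Finset.sum_congr rfl fun x _ => by ring

theorem Ex_sub (w f g : X → ℝ) : Ex w (fun x => f x - g x) = Ex w f - Ex w g := by
  unfold Ex; rw [← sub_div, ← Finset.sum_sub_distrib]; congr 1
  exact Finset.sum_congr rfl fun x _ => by ring

theorem Ex_smul (w : X → ℝ) (a : ℝ) (f : X → ℝ) : Ex w (fun x => a * f x) = a * Ex w f := by
  unfold Ex; rw [← mul_div_assoc, Finset.mul_sum]; congr 1
  exact Finset.sum_congr rfl fun x _ => by ring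

theorem Ex_neg (w f : X → ℝ) : Ex w (fun x => - f x) = - Ex w f := by
  have := Ex_smul w (-1) f
  simpa using this

theorem Ex_sum {ι : Type*} (s : Finset ι) (w : X → ℝ) (f : ι → X → ℝ) :
    Ex w (fun x => ∑ i ∈ s, f i x) = ∑ i ∈ s, Ex w (f i) := by
  unfold Ex; rw [← Finset.sum_div, Finset.sum_comm]; congr 1
  exact Finset.sum_congr rfl fun x _ => by rw [Finset.mul_sum]

theorem Ex_const {w : X → ℝ} (hw : IsW w) (a : ℝ) : Ex w (fun _ => a) = a := by
  unfold Ex; rw [← Finset.sum_mul, mul_div_assoc, mul_comm, div_mul_cancel₀]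
  exact hw.pos.ne'

theorem Ex_nonneg {w : X → ℝ} (hw : IsW w) {f : X → ℝ} (hf : ∀ x, 0 ≤ f x) : 0 ≤ Ex w f :=
  div_nonneg (Finset.sum_nonneg fun x _ => mul_nonneg (hw.nonneg x) (hf x)) hw.pos.le

theorem Ex_mono {w : X → ℝ} (hw : IsW w) {f g : X → ℝ} (h : ∀ x, f x ≤ g x) : Ex w f ≤ Ex w g := by
  have := Ex_nonneg hw (f := fun x => g x - f x) (fun x => sub_nonneg.2 (h x))
  rw [Ex_sub] at this; linarith

theorem Ex_congr_support {w f g : X → ℝ} (h : ∀ x, w x ≠ 0 → f x = g x) : Ex w f = Ex w g := by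
  unfold Ex; congr 1
  refine Finset.sum_congr rfl fun x _ => ?_
  by_cases hx : w x = 0
  · simp [hx]
  · rw [h x hx]

theorem Ex_scale {w : X → ℝ} {a : ℝ} (ha : a ≠ 0) (f : X → ℝ) :
    Ex (fun x => a * w x) f = Ex w f := by
  unfold Ex
  have h1 : (∑ x, a * w x * f x) = a * ∑ x, w x * f x := by
    rw [Finset.mul_sum]; exact Finset.sum_congr rfl fun x _ => by ring
  have h2 : (∑ x, a * w x) = a * ∑ x, w x := by rw [Finset.mul_sum]
  rw [h1, h2, mul_div_mul_left _ _ ha]

theorem Cv_scale {w : X → ℝ} {a : ℝ} (ha : a ≠ 0) (f g : X → ℝ) :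
    Cv (fun x => a * w x) f g = Cv w f g := by
  unfold Cv; rw [Ex_scale ha, Ex_scale ha, Ex_scale ha]

theorem Cv_comm (w f g : X → ℝ) : Cv w f g = Cv w g f := by
  unfold Cv; rw [mul_comm (Ex w f)]; congr 2; funext x; ring

theorem Cv_add_left (w f g h : X → ℝ) : Cv w (fun x => f x + g x) h = Cv w f h + Cv w g h := by
  unfold Cv
  have : (fun x => (f x + g x) * h x) = fun x => f x * h x + g x * h x := by funext x; ring
  rw [this, Ex_add, Ex_add]; ring

theorem Cv_sub_left (w f g h : X → ℝ) : Cv w (fun x => f x - g x) h = Cv w f h - Cv w g h := by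
  unfold Cv
  have : (fun x => (f x - g x) * h x) = fun x => f x * h x - g x * h x := by funext x; ring
  rw [this, Ex_sub, Ex_sub]; ring

theorem Cv_smul_left (w : X → ℝ) (a : ℝ) (f g : X → ℝ) : Cv w (fun x => a * f x) g = a * Cv w f g := by
  unfold Cv
  have : (fun x => a * f x * g x) = fun x => a * (f x * g x) := by funext x; ring
  rw [this, Ex_smul, Ex_smul]; ring

theorem Cv_add_right (w f g h : X → ℝ) : Cv w f (fun x => g x + h x) = Cv w f g + Cv w f h := by
  rw [Cv_comm, Cv_add_left, Cv_comm w g, Cv_comm w h]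

theorem Cv_sub_right (w f g h : X → ℝ) : Cv w f (fun x => g x - h x) = Cv w f g - Cv w f h := by
  rw [Cv_comm, Cv_sub_left, Cv_comm w g, Cv_comm w h]

theorem Cv_smul_right (w : X → ℝ) (a : ℝ) (f g : X → ℝ) : Cv w f (fun x => a * g x) = a * Cv w f g := by
  rw [Cv_comm, Cv_smul_left, Cv_comm]

theorem Cv_sum_left {ι : Type*} (s : Finset ι) (w : X → ℝ) (f : ι → X → ℝ) (g : X → ℝ) :
    Cv w (fun x => ∑ i ∈ s, f i x) g = ∑ i ∈ s, Cv w (f i) g := by
  unfold Cv
  have : (fun x => (∑ i ∈ s, f i x) * g x) = fun x => ∑ i ∈ s, f i x * g x := by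
    funext x; rw [Finset.sum_mul]
  rw [this, Ex_sum, Ex_sum, Finset.sum_sub_distrib, Finset.sum_mul]

theorem Cv_sum_right {ι : Type*} (s : Finset ι) (w : X → ℝ) (g : X → ℝ) (f : ι → X → ℝ) :
    Cv w g (fun x => ∑ i ∈ s, f i x) = ∑ i ∈ s, Cv w g (f i) := by
  rw [Cv_comm, Cv_sum_left]; exact Finset.sum_congr rfl fun i _ => Cv_comm _ _ _

theorem Cv_const_left {w : X → ℝ} (hw : IsW w) (a : ℝ) (g : X → ℝ) : Cv w (fun _ => a) g = 0 := by
  unfold Cv; rw [Ex_smul, Ex_const hw]; ring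

theorem Cv_const_right {w : X → ℝ} (hw : IsW w) (a : ℝ) (g : X → ℝ) : Cv w g (fun _ => a) = 0 := by
  rw [Cv_comm, Cv_const_left hw]

/-- covariance as a centred moment -/
theorem Cv_eq_centred {w : X → ℝ} (hw : IsW w) (f g : X → ℝ) :
    Cv w f g = Ex w (fun x => (f x - Ex w f) * (g x - Ex w g)) := by
  have h : (fun x => (f x - Ex w f) * (g x - Ex w g)) =
      fun x => (f x * g x - Ex w g * f x) - (Ex w f * g x - Ex w f * Ex w g) := by
    funext x; ring
  rw [h, Ex_sub, Ex_sub, Ex_sub, Ex_smul, Ex_smul, Ex_const hw]; unfold Cv; ring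

theorem Cv_self_nonneg {w : X → ℝ} (hw : IsW w) (f : X → ℝ) : 0 ≤ Cv w f f := by
  rw [Cv_eq_centred hw]; exact Ex_nonneg hw fun x => mul_self_nonneg _

/-- Cauchy-Schwarz for covariances -/
theorem Cv_sq_le {w : X → ℝ} (hw : IsW w) (f g : X → ℝ) : Cv w f g ^ 2 ≤ Cv w f f * Cv w g g := by
  have key : ∀ s : ℝ, 0 ≤ Cv w f f - 2 * s * Cv w f g + s ^ 2 * Cv w g g := by
    intro s
    have h := Cv_self_nonneg hw (fun x => f x - s * g x)
    have e : Cv w (fun x => f x - s * g x) (fun x => f x - s * g x)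
        = Cv w f f - 2 * s * Cv w f g + s ^ 2 * Cv w g g := by
      rw [Cv_sub_left, Cv_sub_right, Cv_sub_right, Cv_smul_left, Cv_smul_right, Cv_smul_left,
        Cv_smul_right, Cv_comm w g f]; ring
    rw [e] at h; exact h
  have hg := Cv_self_nonneg hw g
  rcases hg.eq_or_lt with h0 | hpos
  · rw [← h0]
    by_contra hne
    have hne' : Cv w f f * 0 < Cv w f g ^ 2 := lt_of_not_ge hne
    have hc : Cv w f g ≠ 0 := by rintro h; rw [h] at hne'; norm_num at hne'
    have h1 := key ((Cv w f f + 1) / (2 * Cv w f g))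
    rw [← h0] at h1
    have e : 2 * ((Cv w f f + 1) / (2 * Cv w f g)) * Cv w f g = Cv w f f + 1 := by
      field_simp
    linarith
  · have h1 := key (Cv w f g / Cv w g g)
    have h2 : Cv w f f - 2 * (Cv w f g / Cv w g g) * Cv w f g + (Cv w f g / Cv w g g) ^ 2 * Cv w g g
        = (Cv w f f * Cv w g g - Cv w f g ^ 2) / Cv w g g := by
      field_simp; ring
    rw [h2] at h1
    have := (le_div_iff₀ hpos).1 h1
    linarith

theorem isW_tilt {w : X → ℝ} (hw : IsW w) (a : X → ℝ) : IsW (tilt w a) := by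
  refine ⟨fun x => mul_nonneg (hw.nonneg x) (Real.exp_pos _).le, ?_⟩
  obtain ⟨x, hx⟩ : ∃ x, 0 < w x := by
    by_contra h
    have : ∑ x, w x ≤ 0 := Finset.sum_nonpos fun x _ => not_lt.1 fun hx => h ⟨x, hx⟩
    linarith [hw.pos]
  exact Finset.sum_pos' (fun y _ => mul_nonneg (hw.nonneg y) (Real.exp_pos _).le)
    ⟨x, Finset.mem_univ _, mul_pos hx (Real.exp_pos _)⟩

end SKG
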