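import Mathlib

/-! # Glauber dynamics for the SK model: definitions used in the final statement -/

namespace SKG

open MeasureTheory ProbabilityTheory

/-- the spin value of a Boolean: `true` is `+1`, `false` is `-1` -/
def sg (b : Bool) : ℝ := if b then 1 else -1

/-- spin configurations -/
abbrev Conf (n : ℕ) := Fin n → Bool

/-- the quadratic form `x^T J x` of a spin configuration -/
noncomputable def quad {n : ℕ} (J : Matrix (Fin n) (Fin n) ℝ) (x : Conf n) : ℝ :=
  ∑ i, ∑ j, J i j * sg (x i) * sg (x j)

/-- the linear form `v^T x` of a spin configuration -/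
noncomputable def lin {n : ℕ} (v : Fin n → ℝ) (x : Conf n) : ℝ := ∑ i, v i * sg (x i)

/-- the Gibbs weight `exp (x^T J x / 2 + h^T x)` -/
noncomputable def wt {n : ℕ} (J : Matrix (Fin n) (Fin n) ℝ) (h : Fin n → ℝ) (x : Conf n) : ℝ :=
  Real.exp (quad J x / 2 + lin h x)

/-- the Gibbs measure `μ_{J,h}` -/
noncomputable def gibbs {n : ℕ} (J : Matrix (Fin n) (Fin n) ℝ) (h : Fin n → ℝ) (x : Conf n) : ℝ :=
  wt J h x / ∑ y, wt J h y

/-- Transition matrix of Glauber dynamics for a positive probability `μ` on configurations:
pick a site `i` uniformly at random and resample `x i` from the conditional law of `μ` given the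
other coordinates. -/
noncomputable def glauber {n : ℕ} (μ : Conf n → ℝ) : Matrix (Conf n) (Conf n) ℝ := fun x y =>
  (∑ i, if (∀ j, j ≠ i → y j = x j) then
      μ y / (μ (Function.update x i true) + μ (Function.update x i false)) else 0) / n

/-- total variation distance of two mass functions on a finite set -/
noncomputable def tv {α : Type*} [Fintype α] (p q : α → ℝ) : ℝ := (∑ x, |p x - q x|) / 2

/-- From every starting state the law of the chain at time `t` is within total variation
distance `1/4` of `μ_{J,h}`. -/
def MixedAt {n : ℕ} (J : Matrix (Fin n) (Fin n) ℝ) (h : Fin n → ℝ) (t : ℕ) : Prop :=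
  ∀ x : Conf n, tv ((glauber (gibbs J h) ^ t) x) (gibbs J h) ≤ 1 / 4

/-- `T_{1/4}(J,h) ≤ T`. -/
def MixLE {n : ℕ} (J : Matrix (Fin n) (Fin n) ℝ) (h : Fin n → ℝ) (T : ℝ) : Prop :=
  ∃ t : ℕ, (t : ℝ) ≤ T ∧ MixedAt J h t

/-- sample space for GOE: one standard normal for each entry (only those on and above the
diagonal are used) -/
abbrev Smp (n : ℕ) := Fin n × Fin n → ℝ

/-- product of standard Gaussian measures -/
noncomputable def gauss (n : ℕ) : Measure (Smp n) := Measure.pi (fun _ => gaussianReal 0 1)

/-- the GOE matrix: symmetric, `W_ij ~ N(0,1/n)` for `i < j` and `W_ii ~ N(0,2/n)`, independent -/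
noncomputable def goe (n : ℕ) (g : Smp n) : Matrix (Fin n) (Fin n) ℝ := fun i j =>
  if i = j then Real.sqrt (2 / n) * g (i, i)
  else if i < j then g (i, j) / Real.sqrt n else g (j, i) / Real.sqrt n

end SKG
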