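import Pool.Agent.Lib.MP_c42713_pr.Basic

/-! # Definitions for the covariance flow -/

namespace SKG

variable {n d : ℕ}

/-- coordinate function -/
def S (i : Fin n) (x : Conf n) : ℝ := sg (x i)

/-- covariance matrix -/
noncomputable def cv2 (w : Conf n → ℝ) (i j : Fin n) : ℝ := Cv w (S i) (S j)

/-- variance `1 - m_i^2` of spin `i` -/
noncomputable def dg (w : Conf n → ℝ) (i : Fin n) : ℝ := 1 - Ex w (S i) ^ 2

/-- `ω(D)/D` for the polynomial `ω(D) = ∑ a_k D^(k+1)` -/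
noncomputable def omh (a : Fin d → ℝ) (D : ℝ) : ℝ := ∑ k, a k * D ^ (k : ℕ)

/-- `ω(D) = ∑ a_k D^(k+1)` -/
noncomputable def om (a : Fin d → ℝ) (D : ℝ) : ℝ := D * omh a D

/-- `ω'(D)` -/
noncomputable def omD (a : Fin d → ℝ) (D : ℝ) : ℝ := ∑ k, a k * ((k : ℕ) + 1) * D ^ (k : ℕ)

/-- `ω''(D)` -/
noncomputable def omDD (a : Fin d → ℝ) (D : ℝ) : ℝ :=
  ∑ k, a k * ((k : ℕ) + 1) * (k : ℕ) * D ^ ((k : ℕ) - 1)

/-- `ψ(D) = ω'(D) - 2(1-D) ω''(D)` -/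
noncomputable def psi (a : Fin d → ℝ) (D : ℝ) : ℝ := omD a D - 2 * (1 - D) * omDD a D

/-- `G = ∑ ξ_i^2 ω(D_i) - Var(ξ·x)` -/
noncomputable def GG (w : Conf n → ℝ) (a : Fin d → ℝ) (ξ : Fin n → ℝ) : ℝ :=
  ∑ i, ξ i ^ 2 * om a (dg w i) - Cv w (lin ξ) (lin ξ)

/-- the quadratic form of `Q = E + diag C` -/
noncomputable def QF (E : Matrix (Fin n) (Fin n) ℝ) (C v : Fin n → ℝ) : ℝ :=
  ∑ k, ∑ l, E k l * v k * v l + ∑ k, C k * v k ^ 2

/-- first derivative of `G` under the tilt by `c` -/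
noncomputable def G1 (w : Conf n → ℝ) (a : Fin d → ℝ) (ξ : Fin n → ℝ) (c : Conf n → ℝ) : ℝ :=
  ∑ j, ξ j ^ 2 * (omD a (dg w j) * (-2 * Ex w (S j) * Cv w (S j) c)) - k3 w (lin ξ) (lin ξ) c

/-- second derivative of `G` under the tilt by `c` -/
noncomputable def G2 (w : Conf n → ℝ) (a : Fin d → ℝ) (ξ : Fin n → ℝ) (c : Conf n → ℝ) : ℝ :=
  ∑ j, ξ j ^ 2 * (omDD a (dg w j) * (4 * Ex w (S j) ^ 2 * Cv w (S j) c ^ 2) +
      omD a (dg w j) * (-2 * Cv w (S j) c ^ 2 - 2 * Ex w (S j) * k3 w (S j) c c)) -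
    (k4 w (lin ξ) (lin ξ) c c - Cv w (lin ξ) (lin ξ) * Cv w c c - 2 * Cv w (lin ξ) c ^ 2)

/-- Hessian of `G` with respect to the external field -/
noncomputable def Hm (w : Conf n → ℝ) (a : Fin d → ℝ) (ξ : Fin n → ℝ) (k l : Fin n) : ℝ :=
  ∑ j, ξ j ^ 2 * (omDD a (dg w j) * (4 * Ex w (S j) ^ 2 * (cv2 w j k * cv2 w j l)) +
      omD a (dg w j) * (-2 * (cv2 w j k * cv2 w j l) - 2 * Ex w (S j) * k3 w (S j) (S k) (S l))) -
    (k4 w (lin ξ) (lin ξ) (S k) (S l) - Cv w (lin ξ) (lin ξ) * cv2 w k l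
      - 2 * (Cv w (lin ξ) (S k) * Cv w (lin ξ) (S l)))

/-- the parameters `u` with all `|u_i| ≤ 1` -/
def Cube (u : Fin n → ℝ) : Prop := ∀ i, |u i| ≤ 1

/-- Ising weight with magnetisation parameters `u` (fields `artanh u_i`; `u_i = ±1` pins a spin) -/
noncomputable def iw (J : Matrix (Fin n) (Fin n) ℝ) (u : Fin n → ℝ) (x : Conf n) : ℝ :=
  Real.exp (quad J x / 2) * ∏ i, (1 + u i * sg (x i))

/-- covariance bound `Σ ≤ ω(D)` for all fields and all pinnings -/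
def CB (J : Matrix (Fin n) (Fin n) ℝ) (a : Fin d → ℝ) : Prop :=
  ∀ u, Cube u → ∀ ξ : Fin n → ℝ, 0 ≤ GG (iw J u) a ξ

/-- partition function -/
noncomputable def Zs (J : Matrix (Fin n) (Fin n) ℝ) (u : Fin n → ℝ) : ℝ := ∑ x, iw J u x

/-- `D_i = (1 - u_i^2) dd_i` -/
noncomputable def dd (J : Matrix (Fin n) (Fin n) ℝ) (u : Fin n → ℝ) (i : Fin n) : ℝ :=
  Zs J (Function.update u i 1) * Zs J (Function.update u i (-1)) / Zs J u ^ 2

/-- `Σ_ij = √(1-u_i^2) √(1-u_j^2) cc_ij` -/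
noncomputable def cc (J : Matrix (Fin n) (Fin n) ℝ) (u : Fin n → ℝ) (i j : Fin n) : ℝ :=
  if i = j then dd J u i else
    Real.sqrt (1 - u i ^ 2) * Real.sqrt (1 - u j ^ 2) *
      (Zs J (Function.update (Function.update u i 1) j 1) *
          Zs J (Function.update (Function.update u i (-1)) j (-1)) -
        Zs J (Function.update (Function.update u i 1) j (-1)) *
          Zs J (Function.update (Function.update u i (-1)) j 1)) / (4 * Zs J u ^ 2)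

/-- the desingularised form of `G` (with `η_i = √(1-u_i^2) ξ_i`) -/
noncomputable def gg (J : Matrix (Fin n) (Fin n) ℝ) (a : Fin d → ℝ) (u η : Fin n → ℝ) : ℝ :=
  ∑ i, η i ^ 2 * (dd J u i * omh a ((1 - u i ^ 2) * dd J u i)) - ∑ i, ∑ j, η i * η j * cc J u i j

/-- strict form of the covariance bound -/
def SB (J : Matrix (Fin n) (Fin n) ℝ) (a : Fin d → ℝ) : Prop :=
  ∀ u, Cube u → ∀ η : Fin n → ℝ, η ≠ 0 → 0 < gg J a u η

end SKG
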