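import Mathlib

/-! Two spin inequality (discrete Bakry-Emery for Glauber dynamics). -/

namespace SKG

open Real

/-- Sum over the four configurations of two spins. -/
noncomputable def S4 (F : ℝ → ℝ → ℝ) : ℝ := F 1 1 + F 1 (-1) + F (-1) 1 + F (-1) (-1)

theorem inv_sq_bd {p θ : ℝ} (hp : |p| ≤ θ) (hθ : θ ≤ 1 / 20) :
    |(1 / (1 + p)) ^ 2 - (1 - 2 * p)| ≤ 4 * θ ^ 2 := by
  have h1 := abs_le.mp hp
  have hθ0 : 0 ≤ θ := le_trans (abs_nonneg p) hp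
  have h2 : (19 / 20 : ℝ) ≤ 1 + p := by linarith [h1.1]
  have h3 : 0 < 1 + p := by linarith
  have e : (1 / (1 + p)) ^ 2 - (1 - 2 * p) = p ^ 2 * (3 + 2 * p) / (1 + p) ^ 2 := by
    field_simp
    ring
  have h4 : p ^ 2 ≤ θ ^ 2 := by
    rw [← sq_abs p]
    exact pow_le_pow_left₀ (abs_nonneg p) hp 2
  have h5 : 0 ≤ 3 + 2 * p := by linarith [h1.1]
  rw [e, abs_of_nonneg (by positivity), div_le_iff₀ (by positivity)]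
  have h6 : (19 / 20 : ℝ) ^ 2 ≤ (1 + p) ^ 2 := pow_le_pow_left₀ (by norm_num) h2 2
  have h7 : 3 + 2 * p ≤ 31 / 10 := by linarith [h1.2]
  have h8 : p ^ 2 * (3 + 2 * p) ≤ θ ^ 2 * (31 / 10) := by
    apply mul_le_mul h4 h7 h5 (sq_nonneg θ)
  nlinarith [sq_nonneg θ, mul_le_mul_of_nonneg_left h6 (sq_nonneg θ)]

theorem om_bd {τ θ z p q : ℝ} (hτ : |τ| = θ) (hz : |z| ≤ θ) (hp : |p| ≤ θ) (hq : |q| ≤ θ)
    (hθ : θ ≤ 1 / 20) :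
    |(1 - τ ^ 2) * (1 + z) * (1 / (1 + p)) ^ 2 * (1 / (1 + q)) ^ 2 - (1 + z - 2 * p - 2 * q)|
      ≤ 20 * θ ^ 2 := by
  have hθ0 : 0 ≤ θ := by rw [← hτ]; exact abs_nonneg _
  obtain ⟨ε1, h1e⟩ : ∃ ε, ε = (1 / (1 + p)) ^ 2 - (1 - 2 * p) := ⟨_, rfl⟩
  obtain ⟨ε2, h2e⟩ : ∃ ε, ε = (1 / (1 + q)) ^ 2 - (1 - 2 * q) := ⟨_, rfl⟩
  have h1 : |ε1| ≤ 4 * θ ^ 2 := by rw [h1e]; exact inv_sq_bd hp hθ
  have h2 : |ε2| ≤ 4 * θ ^ 2 := by rw [h2e]; exact inv_sq_bd hq hθ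
  obtain ⟨ε3, h3e⟩ : ∃ ε, ε = -τ ^ 2 * (1 + z) := ⟨_, rfl⟩
  have hτ2 : τ ^ 2 = θ ^ 2 := by rw [← hτ, sq_abs]
  have h3 : |ε3| ≤ 2 * θ ^ 2 := by
    rw [h3e, abs_mul, abs_neg, abs_of_nonneg (sq_nonneg τ), hτ2]
    have : |1 + z| ≤ 2 := by
      rw [abs_le]; constructor <;> linarith [(abs_le.mp hz).1, (abs_le.mp hz).2]
    nlinarith [sq_nonneg θ]
  have e1 : (1 / (1 + p)) ^ 2 = 1 + (-2 * p + ε1) := by rw [h1e]; ring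
  have e2 : (1 / (1 + q)) ^ 2 = 1 + (-2 * q + ε2) := by rw [h2e]; ring
  have e3 : (1 - τ ^ 2) * (1 + z) = 1 + (z + ε3) := by rw [h3e]; ring
  rw [e3, e1, e2]
  obtain ⟨A, hA⟩ : ∃ A, A = z + ε3 := ⟨_, rfl⟩
  obtain ⟨B, hB⟩ : ∃ B, B = -2 * p + ε1 := ⟨_, rfl⟩
  obtain ⟨D, hD⟩ : ∃ D, D = -2 * q + ε2 := ⟨_, rfl⟩
  have hθ2 : θ ^ 2 ≤ 1 / 20 * θ := by nlinarith
  have bA : |A| ≤ 11 / 10 * θ := by
    rw [hA]
    calc |z + ε3| ≤ |z| + |ε3| := abs_add_le _ _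
      _ ≤ 11 / 10 * θ := by linarith
  have bB : |B| ≤ 22 / 10 * θ := by
    rw [hB]
    calc |-2 * p + ε1| ≤ |-2 * p| + |ε1| := abs_add_le _ _
      _ = 2 * |p| + |ε1| := by rw [abs_mul]; norm_num
      _ ≤ 22 / 10 * θ := by linarith
  have bD : |D| ≤ 22 / 10 * θ := by
    rw [hD]
    calc |-2 * q + ε2| ≤ |-2 * q| + |ε2| := abs_add_le _ _
      _ = 2 * |q| + |ε2| := by rw [abs_mul]; norm_num
      _ ≤ 22 / 10 * θ := by linarith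
  rw [← hA, ← hB, ← hD]
  have e : (1 + A) * (1 + B) * (1 + D) - (1 + z - 2 * p - 2 * q)
      = ε3 + ε1 + ε2 + (A * B) + (A * D) + (B * D) + (A * B * D) := by
    rw [hA, hB, hD]; ring
  rw [e]
  have t1 : |A * B| ≤ 11 / 10 * θ * (22 / 10 * θ) := by
    rw [abs_mul]; exact mul_le_mul bA bB (abs_nonneg _) (by positivity)
  have t2 : |A * D| ≤ 11 / 10 * θ * (22 / 10 * θ) := by
    rw [abs_mul]; exact mul_le_mul bA bD (abs_nonneg _) (by positivity)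
  have t3 : |B * D| ≤ 22 / 10 * θ * (22 / 10 * θ) := by
    rw [abs_mul]; exact mul_le_mul bB bD (abs_nonneg _) (by positivity)
  have t4 : |A * B * D| ≤ 11 / 10 * θ * (22 / 10 * θ) * (22 / 10 * θ) := by
    rw [abs_mul]; exact mul_le_mul t1 bD (abs_nonneg _) (by positivity)
  have t5 : θ ^ 3 ≤ 1 / 20 * θ ^ 2 := by
    have := mul_le_mul_of_nonneg_left hθ (sq_nonneg θ)
    calc θ ^ 3 = θ ^ 2 * θ := by ring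
      _ ≤ θ ^ 2 * (1 / 20) := this
      _ = 1 / 20 * θ ^ 2 := by ring
  have s1 : |A * B| ≤ 121 / 50 * θ ^ 2 := by
    calc |A * B| ≤ 11 / 10 * θ * (22 / 10 * θ) := t1
      _ = 121 / 50 * θ ^ 2 := by ring
  have s2 : |A * D| ≤ 121 / 50 * θ ^ 2 := by
    calc |A * D| ≤ 11 / 10 * θ * (22 / 10 * θ) := t2
      _ = 121 / 50 * θ ^ 2 := by ring
  have s3 : |B * D| ≤ 121 / 25 * θ ^ 2 := by
    calc |B * D| ≤ 22 / 10 * θ * (22 / 10 * θ) := t3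
      _ = 121 / 25 * θ ^ 2 := by ring
  have s4 : |A * B * D| ≤ 1331 / 250 * θ ^ 3 := by
    calc |A * B * D| ≤ 11 / 10 * θ * (22 / 10 * θ) * (22 / 10 * θ) := t4
      _ = 1331 / 250 * θ ^ 3 := by ring
  have k1 := abs_le.mp h1
  have k2 := abs_le.mp h2
  have k3 := abs_le.mp h3
  have k4 := abs_le.mp s1
  have k5 := abs_le.mp s2
  have k6 := abs_le.mp s3
  have k7 := abs_le.mp s4
  have k8 : 0 ≤ θ ^ 2 := sq_nonneg θ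
  rw [abs_le]
  constructor
  · linarith [k1.1, k2.1, k3.1, k4.1, k5.1, k6.1, k7.1]
  · linarith [k1.2, k2.2, k3.2, k4.2, k5.2, k6.2, k7.2]

/-- `t` after one flip: `(α + τ y) / (1 + α τ y)`. -/
theorem t_bd {α τ θ y : ℝ} (hα : |α| ≤ 1) (hτ : |τ| = θ) (hθ : θ ≤ 1 / 20) (hy : |y| = 1) :
    ((α + τ * y) / (1 + α * τ * y)) ^ 2 ≤ 1 ∧
      α ^ 2 - 22 / 10 * θ ≤ ((α + τ * y) / (1 + α * τ * y)) ^ 2 := by
  have hθ0 : 0 ≤ θ := by rw [← hτ]; exact abs_nonneg _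
  obtain ⟨σ, hσ⟩ : ∃ σ, σ = τ * y := ⟨_, rfl⟩
  have hσ1 : |σ| ≤ θ := by rw [hσ, abs_mul, hy, hτ, mul_one]
  have hασ : |α * σ| ≤ θ := by
    rw [abs_mul]
    calc |α| * |σ| ≤ 1 * θ := mul_le_mul hα hσ1 (abs_nonneg _) zero_le_one
      _ = θ := one_mul _
  have e0 : α * τ * y = α * σ := by rw [hσ]; ring
  rw [e0, ← hσ]
  have h1 := abs_le.mp hασ
  have h2 := abs_le.mp hσ1
  have h3 := abs_le.mp hα
  have hpos : (19 / 20 : ℝ) ≤ 1 + α * σ := by linarith [h1.1]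
  have hp0 : 0 < 1 + α * σ := by linarith
  obtain ⟨t, ht⟩ : ∃ t, t = (α + σ) / (1 + α * σ) := ⟨_, rfl⟩
  rw [← ht]
  have hα2 : α ^ 2 ≤ 1 := by rw [sq_le_one_iff_abs_le_one]; exact hα
  have hσ2 : σ ^ 2 ≤ 1 := by
    rw [sq_le_one_iff_abs_le_one]; linarith
  have ht1 : |t| ≤ 1 := by
    rw [ht, abs_div, abs_of_pos hp0, div_le_one hp0, abs_le]
    constructor
    · nlinarith [mul_nonneg (by linarith [h3.1] : 0 ≤ 1 + α) (by linarith [h2.1] : 0 ≤ 1 + σ)]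
    · nlinarith [mul_nonneg (by linarith [h3.2] : 0 ≤ 1 - α) (by linarith [h2.2] : 0 ≤ 1 - σ)]
  refine ⟨by rw [sq_le_one_iff_abs_le_one]; exact ht1, ?_⟩
  have hd : t - α = σ * (1 - α ^ 2) / (1 + α * σ) := by
    rw [ht]; field_simp; ring
  have hd1 : |t - α| ≤ 11 / 10 * θ := by
    rw [hd, abs_div, abs_of_pos hp0, div_le_iff₀ hp0, abs_mul]
    have : |1 - α ^ 2| ≤ 1 := by
      rw [abs_le]; constructor <;> nlinarith [sq_nonneg α]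
    calc |σ| * |1 - α ^ 2| ≤ θ * 1 := mul_le_mul hσ1 this (abs_nonneg _) hθ0
      _ ≤ 11 / 10 * θ * (19 / 20) := by linarith
      _ ≤ 11 / 10 * θ * (1 + α * σ) := by
          apply mul_le_mul_of_nonneg_left hpos (by linarith)
  have hs : |t + α| ≤ 2 := by
    calc |t + α| ≤ |t| + |α| := abs_add_le _ _
      _ ≤ 2 := by linarith
  have : |(t - α) * (t + α)| ≤ 11 / 10 * θ * 2 := by
    rw [abs_mul]; exact mul_le_mul hd1 hs (abs_nonneg _) (by linarith)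
  have h5 := (abs_le.mp this).1
  have h6 : (t - α) * (t + α) = t ^ 2 - α ^ 2 := by ring
  linarith

theorem point_bd {α γ τ J x y P Q c θ : ℝ} (hα : |α| ≤ 1) (hγ : |γ| ≤ 1) (hτ : |τ| = θ)
    (hθ : θ ≤ 1 / 20) (hJ : |J - τ| ≤ θ ^ 3) (hJ2 : θ ≤ |J|) (hx : |x| = 1) (hy : |y| = 1) :
    (1 - τ ^ 2) * (1 + τ * x * y) * (1 / (1 + α * τ * y)) ^ 2 * (1 / (1 + γ * τ * x)) ^ 2 *
      (-J * P * Q - J ^ 2 * (((α + τ * y) / (1 + α * τ * y)) ^ 2 * P ^ 2 +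
        ((γ + τ * x) / (1 + γ * τ * x)) ^ 2 * Q ^ 2) + c ^ 2 / 2 - 40 * |J| ^ 3 * (P ^ 2 + Q ^ 2))
    ≤ -τ * (1 + τ * x * y - 2 * (α * τ * y) - 2 * (γ * τ * x)) * (P * Q)
      - τ ^ 2 * (α ^ 2 * P ^ 2 + γ ^ 2 * Q ^ 2) + (1 / 2 + 3 * θ) * c ^ 2
      - 3 * θ ^ 3 * (P ^ 2 + Q ^ 2) := by
  have hθ0 : 0 ≤ θ := by rw [← hτ]; exact abs_nonneg _
  have hτ2 : τ ^ 2 = θ ^ 2 := by rw [← hτ, sq_abs]
  have hz : |τ * x * y| ≤ θ := by rw [abs_mul, abs_mul, hx, hy, hτ]; linarith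
  have hp : |α * τ * y| ≤ θ := by
    rw [abs_mul, abs_mul, hy, hτ, mul_one]
    calc |α| * θ ≤ 1 * θ := mul_le_mul_of_nonneg_right hα hθ0
      _ = θ := one_mul _
  have hq : |γ * τ * x| ≤ θ := by
    rw [abs_mul, abs_mul, hx, hτ, mul_one]
    calc |γ| * θ ≤ 1 * θ := mul_le_mul_of_nonneg_right hγ hθ0
      _ = θ := one_mul _
  have hΩ := om_bd hτ hz hp hq hθ
  obtain ⟨t1a, t1b⟩ := t_bd hα hτ hθ hy
  obtain ⟨t2a, t2b⟩ := t_bd hγ hτ hθ hx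
  obtain ⟨T1, hT1⟩ : ∃ T, T = ((α + τ * y) / (1 + α * τ * y)) ^ 2 := ⟨_, rfl⟩
  obtain ⟨T2, hT2⟩ : ∃ T, T = ((γ + τ * x) / (1 + γ * τ * x)) ^ 2 := ⟨_, rfl⟩
  rw [← hT1] at t1a t1b ⊢
  rw [← hT2] at t2a t2b ⊢
  obtain ⟨Ω, hΩe⟩ : ∃ Ω, Ω = (1 - τ ^ 2) * (1 + τ * x * y) * (1 / (1 + α * τ * y)) ^ 2 *
    (1 / (1 + γ * τ * x)) ^ 2 := ⟨_, rfl⟩
  rw [← hΩe] at hΩ ⊢
  obtain ⟨O1, hO1⟩ : ∃ O1, O1 = 1 + τ * x * y - 2 * (α * τ * y) - 2 * (γ * τ * x) := ⟨_, rfl⟩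
  rw [← hO1] at hΩ ⊢
  have hθ2 : 20 * θ ^ 2 ≤ θ := by nlinarith
  have bO : |O1 - 1| ≤ 5 * θ := by
    have a1 := abs_le.mp hz
    have a2 := abs_le.mp hp
    have a3 := abs_le.mp hq
    rw [hO1, abs_le]
    constructor <;> linarith [a1.1, a1.2, a2.1, a2.2, a3.1, a3.2]
  have bO' := abs_le.mp bO
  have bΩ' := abs_le.mp hΩ
  have Ωlo : 1 - 6 * θ ≤ Ω := by linarith [bO'.1, bΩ'.1]
  have Ωhi : Ω ≤ 1 + 6 * θ := by linarith [bO'.2, bΩ'.2]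
  have Ω7 : 7 / 10 ≤ Ω := by linarith
  have Ω13 : Ω ≤ 13 / 10 := by linarith
  have hV : 0 ≤ P ^ 2 + Q ^ 2 := by positivity
  have hPQ : |P * Q| ≤ (P ^ 2 + Q ^ 2) / 2 := by
    rw [abs_le]; constructor <;> nlinarith [sq_nonneg (P + Q), sq_nonneg (P - Q)]
  have hθ3 : 0 ≤ θ ^ 3 := by positivity
  -- cross term
  have c1 : |Ω * J - τ * O1| ≤ 22 * θ ^ 3 := by
    have e : Ω * J - τ * O1 = Ω * (J - τ) + τ * (Ω - O1) := by ring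
    rw [e]
    calc |Ω * (J - τ) + τ * (Ω - O1)| ≤ |Ω * (J - τ)| + |τ * (Ω - O1)| := abs_add_le _ _
      _ = |Ω| * |J - τ| + |τ| * |Ω - O1| := by rw [abs_mul, abs_mul]
      _ ≤ 13 / 10 * θ ^ 3 + θ * (20 * θ ^ 2) := by
          apply add_le_add
          · apply mul_le_mul _ hJ (abs_nonneg _) (by norm_num)
            rw [abs_of_nonneg (by linarith)]; exact Ω13
          · rw [hτ]; exact mul_le_mul_of_nonneg_left hΩ hθ0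
      _ ≤ 22 * θ ^ 3 := by
          have : θ * (20 * θ ^ 2) = 20 * θ ^ 3 := by ring
          linarith
  have c2 : |(Ω * J - τ * O1) * (P * Q)| ≤ 22 * θ ^ 3 * ((P ^ 2 + Q ^ 2) / 2) := by
    rw [abs_mul]
    exact mul_le_mul c1 hPQ (abs_nonneg _) (by positivity)
  have c3 := (abs_le.mp c2).1
  -- square terms
  have J2 : θ ^ 2 ≤ J ^ 2 := by
    rw [← sq_abs J]; exact pow_le_pow_left₀ hθ0 hJ2 2
  have J3 : θ ^ 3 ≤ |J| ^ 3 := pow_le_pow_left₀ hθ0 hJ2 3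
  have hlo : θ ^ 2 - 6 * θ ^ 3 ≤ Ω * J ^ 2 := by
    have : (1 - 6 * θ) * θ ^ 2 ≤ Ω * J ^ 2 :=
      mul_le_mul Ωlo J2 (sq_nonneg θ) (by linarith)
    calc θ ^ 2 - 6 * θ ^ 3 = (1 - 6 * θ) * θ ^ 2 := by ring
      _ ≤ _ := this
  have sqt : ∀ {T a : ℝ}, 0 ≤ T → T ≤ 1 → a - 22 / 10 * θ ≤ T →
      θ ^ 2 * a - 9 * θ ^ 3 ≤ Ω * J ^ 2 * T := by
    intro T a hT0 hT1 hTa
    have g1 : (θ ^ 2 - 6 * θ ^ 3) * T ≤ Ω * J ^ 2 * T := mul_le_mul_of_nonneg_right hlo hT0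
    have g2 : θ ^ 2 * (a - 22 / 10 * θ) ≤ θ ^ 2 * T := mul_le_mul_of_nonneg_left hTa (sq_nonneg θ)
    have g3 : θ ^ 3 * T ≤ θ ^ 3 * 1 := mul_le_mul_of_nonneg_left hT1 hθ3
    have g4 : θ ^ 2 * (a - 22 / 10 * θ) = θ ^ 2 * a - 22 / 10 * θ ^ 3 := by ring
    have g5 : (θ ^ 2 - 6 * θ ^ 3) * T = θ ^ 2 * T - 6 * (θ ^ 3 * T) := by ring
    linarith
  have q1 := sqt (by rw [hT1]; positivity) t1a t1b
  have q2 := sqt (by rw [hT2]; positivity) t2a t2b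
  have q1' := mul_le_mul_of_nonneg_right q1 (sq_nonneg P)
  have q2' := mul_le_mul_of_nonneg_right q2 (sq_nonneg Q)
  have q3 : Ω * (c ^ 2 / 2) ≤ (1 + 6 * θ) * (c ^ 2 / 2) :=
    mul_le_mul_of_nonneg_right Ωhi (by positivity)
  have q4 : 7 / 10 * (40 * θ ^ 3 * (P ^ 2 + Q ^ 2)) ≤ Ω * (40 * |J| ^ 3 * (P ^ 2 + Q ^ 2)) := by
    apply mul_le_mul Ω7 _ (by positivity) (by linarith)
    apply mul_le_mul_of_nonneg_right _ hV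
    linarith
  have eL : Ω * (-J * P * Q - J ^ 2 * (T1 * P ^ 2 + T2 * Q ^ 2) + c ^ 2 / 2
      - 40 * |J| ^ 3 * (P ^ 2 + Q ^ 2))
      = -((Ω * J - τ * O1) * (P * Q)) - τ * O1 * (P * Q) - Ω * J ^ 2 * T1 * P ^ 2
        - Ω * J ^ 2 * T2 * Q ^ 2 + Ω * (c ^ 2 / 2) - Ω * (40 * |J| ^ 3 * (P ^ 2 + Q ^ 2)) := by
    ring
  rw [eL, hτ2]
  have hV3 : 0 ≤ θ ^ 3 * (P ^ 2 + Q ^ 2) := by positivity
  have r1 : (θ ^ 2 * α ^ 2 - 9 * θ ^ 3) * P ^ 2 = θ ^ 2 * (α ^ 2 * P ^ 2) - 9 * (θ ^ 3 * P ^ 2) := by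
    ring
  have r2 : (θ ^ 2 * γ ^ 2 - 9 * θ ^ 3) * Q ^ 2 = θ ^ 2 * (γ ^ 2 * Q ^ 2) - 9 * (θ ^ 3 * Q ^ 2) := by
    ring
  have r3 : (1 + 6 * θ) * (c ^ 2 / 2) = (1 / 2 + 3 * θ) * c ^ 2 := by ring
  have r4 : 7 / 10 * (40 * θ ^ 3 * (P ^ 2 + Q ^ 2)) = 28 * (θ ^ 3 * (P ^ 2 + Q ^ 2)) := by ring
  have r5 : 22 * θ ^ 3 * ((P ^ 2 + Q ^ 2) / 2) = 11 * (θ ^ 3 * (P ^ 2 + Q ^ 2)) := by ring
  have r6 : θ ^ 3 * (P ^ 2 + Q ^ 2) = θ ^ 3 * P ^ 2 + θ ^ 3 * Q ^ 2 := by ring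
  have r7 : θ ^ 2 * (α ^ 2 * P ^ 2 + γ ^ 2 * Q ^ 2)
      = θ ^ 2 * (α ^ 2 * P ^ 2) + θ ^ 2 * (γ ^ 2 * Q ^ 2) := by ring
  have r8 : -τ * O1 * (P * Q) = -(τ * O1 * (P * Q)) := by ring
  have r9 : 3 * θ ^ 3 * (P ^ 2 + Q ^ 2) = 3 * (θ ^ 3 * (P ^ 2 + Q ^ 2)) := by ring
  rw [r1] at q1'
  rw [r2] at q2'
  rw [r3] at q3
  rw [r4] at q4
  rw [r5] at c3
  rw [r7, r8, r9]
  linarith

end SKG
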