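import Mathlib
import Pool.Agent.Lib.MP_c42713_pr.G2Two

namespace SKG

open Real

theorem fin_bd {α γ τ X Y c θ : ℝ} (hα : |α| ≤ 1) (hγ : |γ| ≤ 1) (hτ : |τ| = θ)
    (hθ : θ ≤ 1 / 20) :
    -τ * (X * Y * (1 - 3 * (α * γ * τ)) - c * X * γ * τ * (1 - α ^ 2)
        - c * Y * α * τ * (1 - γ ^ 2) + c ^ 2 * τ * (1 - α ^ 2) * (1 - γ ^ 2))
      - τ ^ 2 * (α ^ 2 * (X ^ 2 + c ^ 2 * (1 - γ ^ 2)) + γ ^ 2 * (Y ^ 2 + c ^ 2 * (1 - α ^ 2)))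
      + (1 / 2 + 3 * θ) * c ^ 2
      - 3 * θ ^ 3 * (X ^ 2 + c ^ 2 * (1 - γ ^ 2) + (Y ^ 2 + c ^ 2 * (1 - α ^ 2)))
    ≤ ((1 + α * γ * τ - τ ^ 2 * (α ^ 2 + γ ^ 2 - α ^ 2 * γ ^ 2) - α * γ * τ ^ 3) * c ^ 2
        - τ * (1 - α * γ * τ) * (X * Y)
        + τ ^ 2 * c * (γ * (1 - α ^ 2) * X + α * (1 - γ ^ 2) * Y))
      / ((1 - α ^ 2 * τ ^ 2) * (1 - γ ^ 2 * τ ^ 2)) := by
  have hθ0 : 0 ≤ θ := by rw [← hτ]; exact abs_nonneg _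
  have hτ2 : τ ^ 2 = θ ^ 2 := by rw [← hτ, sq_abs]
  have hα2 : α ^ 2 ≤ 1 := by rw [sq_le_one_iff_abs_le_one]; exact hα
  have hγ2 : γ ^ 2 ≤ 1 := by rw [sq_le_one_iff_abs_le_one]; exact hγ
  have hα0 := sq_nonneg α
  have hγ0 := sq_nonneg γ
  have hαγ : |α * γ| ≤ 1 := by
    rw [abs_mul]
    calc |α| * |γ| ≤ 1 * 1 := mul_le_mul hα hγ (abs_nonneg _) zero_le_one
      _ = 1 := one_mul _
  have hu : |α * γ * τ| ≤ θ := by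
    rw [abs_mul, hτ]
    calc |α * γ| * θ ≤ 1 * θ := mul_le_mul_of_nonneg_right hαγ hθ0
      _ = θ := one_mul _
  have hu' := abs_le.mp hu
  have hθ2 : θ ^ 2 ≤ 1 / 20 * θ := by nlinarith
  have hθ3 : θ ^ 3 ≤ 1 / 20 * θ ^ 2 := by
    have := mul_le_mul_of_nonneg_left hθ (sq_nonneg θ)
    calc θ ^ 3 = θ ^ 2 * θ := by ring
      _ ≤ θ ^ 2 * (1 / 20) := this
      _ = 1 / 20 * θ ^ 2 := by ring
  have hT2 : 0 ≤ θ ^ 2 := sq_nonneg θ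
  have hT3 : 0 ≤ θ ^ 3 := by positivity
  -- the denominator
  obtain ⟨a, ha⟩ : ∃ a, a = α ^ 2 * τ ^ 2 := ⟨_, rfl⟩
  obtain ⟨g, hg⟩ : ∃ g, g = γ ^ 2 * τ ^ 2 := ⟨_, rfl⟩
  have ha1 : a ≤ θ ^ 2 := by
    rw [ha, hτ2]
    calc α ^ 2 * θ ^ 2 ≤ 1 * θ ^ 2 := mul_le_mul_of_nonneg_right hα2 hT2
      _ = θ ^ 2 := one_mul _
  have hg1 : g ≤ θ ^ 2 := by
    rw [hg, hτ2]
    calc γ ^ 2 * θ ^ 2 ≤ 1 * θ ^ 2 := mul_le_mul_of_nonneg_right hγ2 hT2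
      _ = θ ^ 2 := one_mul _
  have ha0 : 0 ≤ a := by rw [ha]; positivity
  have hg0 : 0 ≤ g := by rw [hg]; positivity
  obtain ⟨D, hD⟩ : ∃ D, D = (1 - a) * (1 - g) := ⟨_, rfl⟩
  have hD1 : D ≤ 1 := by rw [hD]; nlinarith
  have hDlo : 1 - 2 * θ ^ 2 ≤ D := by rw [hD]; nlinarith
  have hDpos : 0 < D := by linarith
  obtain ⟨K, hK⟩ : ∃ K, K = 1 + α * γ * τ - τ ^ 2 * (α ^ 2 + γ ^ 2 - α ^ 2 * γ ^ 2)
    - α * γ * τ ^ 3 := ⟨_, rfl⟩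
  have hw : 0 ≤ α ^ 2 + γ ^ 2 - α ^ 2 * γ ^ 2 ∧ α ^ 2 + γ ^ 2 - α ^ 2 * γ ^ 2 ≤ 1 := by
    constructor
    · nlinarith [mul_nonneg hα0 (sub_nonneg.2 hγ2)]
    · nlinarith [mul_nonneg (sub_nonneg.2 hα2) (sub_nonneg.2 hγ2)]
  have hK1 : 1 - 11 / 10 * θ ≤ K := by
    have e1 : τ ^ 2 * (α ^ 2 + γ ^ 2 - α ^ 2 * γ ^ 2) ≤ θ ^ 2 := by
      rw [hτ2]
      calc θ ^ 2 * (α ^ 2 + γ ^ 2 - α ^ 2 * γ ^ 2) ≤ θ ^ 2 * 1 :=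
            mul_le_mul_of_nonneg_left hw.2 hT2
        _ = θ ^ 2 := mul_one _
    have e2 : α * γ * τ ^ 3 ≤ θ ^ 3 := by
      calc α * γ * τ ^ 3 = (α * γ * τ) * τ ^ 2 := by ring
        _ ≤ θ * τ ^ 2 := mul_le_mul_of_nonneg_right hu'.2 (sq_nonneg τ)
        _ = θ ^ 3 := by rw [hτ2]; ring
    rw [hK]
    linarith [hu'.1]
  have hK0 : 0 ≤ K := by linarith
  -- negative parts
  have hXY : |X * Y| ≤ (X ^ 2 + Y ^ 2) / 2 := by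
    rw [abs_le]; constructor <;> nlinarith [sq_nonneg (X + Y), sq_nonneg (X - Y)]
  obtain ⟨R, hR⟩ : ∃ R, R = - τ * (1 - α * γ * τ) * (X * Y)
      + τ ^ 2 * c * (γ * (1 - α ^ 2) * X + α * (1 - γ ^ 2) * Y) := ⟨_, rfl⟩
  have hg' : |γ * (1 - α ^ 2)| ≤ 1 := by
    rw [abs_mul]
    calc |γ| * |1 - α ^ 2| ≤ 1 * 1 := by
          apply mul_le_mul hγ _ (abs_nonneg _) zero_le_one
          rw [abs_le]; constructor <;> linarith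
      _ = 1 := one_mul _
  have ha' : |α * (1 - γ ^ 2)| ≤ 1 := by
    rw [abs_mul]
    calc |α| * |1 - γ ^ 2| ≤ 1 * 1 := by
          apply mul_le_mul hα _ (abs_nonneg _) zero_le_one
          rw [abs_le]; constructor <;> linarith
      _ = 1 := one_mul _
  have cX : |c * (γ * (1 - α ^ 2) * X)| ≤ (c ^ 2 + X ^ 2) / 2 := by
    have h1 : |c * X| ≤ (c ^ 2 + X ^ 2) / 2 := by
      rw [abs_le]; constructor <;> nlinarith [sq_nonneg (c + X), sq_nonneg (c - X)]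
    calc |c * (γ * (1 - α ^ 2) * X)| = |γ * (1 - α ^ 2)| * |c * X| := by
          rw [← abs_mul]; ring_nf
      _ ≤ 1 * |c * X| := mul_le_mul_of_nonneg_right hg' (abs_nonneg _)
      _ ≤ (c ^ 2 + X ^ 2) / 2 := by linarith
  have cY : |c * (α * (1 - γ ^ 2) * Y)| ≤ (c ^ 2 + Y ^ 2) / 2 := by
    have h1 : |c * Y| ≤ (c ^ 2 + Y ^ 2) / 2 := by
      rw [abs_le]; constructor <;> nlinarith [sq_nonneg (c + Y), sq_nonneg (c - Y)]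
    calc |c * (α * (1 - γ ^ 2) * Y)| = |α * (1 - γ ^ 2)| * |c * Y| := by
          rw [← abs_mul]; ring_nf
      _ ≤ 1 * |c * Y| := mul_le_mul_of_nonneg_right ha' (abs_nonneg _)
      _ ≤ (c ^ 2 + Y ^ 2) / 2 := by linarith
  have hR1 : |R| ≤ 6 / 10 * θ * (X ^ 2 + Y ^ 2) + θ ^ 2 * c ^ 2 := by
    have p1 : |- τ * (1 - α * γ * τ) * (X * Y)| ≤ θ * (21 / 20) * ((X ^ 2 + Y ^ 2) / 2) := by
      rw [abs_mul, abs_mul, abs_neg, hτ]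
      apply mul_le_mul _ hXY (abs_nonneg _) (by positivity)
      apply mul_le_mul_of_nonneg_left _ hθ0
      rw [abs_le]; constructor <;> linarith [hu'.1, hu'.2]
    have p2 : |τ ^ 2 * c * (γ * (1 - α ^ 2) * X + α * (1 - γ ^ 2) * Y)|
        ≤ θ ^ 2 * ((c ^ 2 + X ^ 2) / 2 + (c ^ 2 + Y ^ 2) / 2) := by
      have e : τ ^ 2 * c * (γ * (1 - α ^ 2) * X + α * (1 - γ ^ 2) * Y)
          = τ ^ 2 * (c * (γ * (1 - α ^ 2) * X) + c * (α * (1 - γ ^ 2) * Y)) := by ring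
      rw [e, abs_mul, abs_of_nonneg (sq_nonneg τ), hτ2]
      apply mul_le_mul_of_nonneg_left _ hT2
      exact le_trans (abs_add_le _ _) (add_le_add cX cY)
    have p3 := abs_add_le (- τ * (1 - α * γ * τ) * (X * Y))
      (τ ^ 2 * c * (γ * (1 - α ^ 2) * X + α * (1 - γ ^ 2) * Y))
    rw [hR]
    have p4 : θ ^ 2 * (X ^ 2 + Y ^ 2) ≤ 1 / 20 * θ * (X ^ 2 + Y ^ 2) :=
      mul_le_mul_of_nonneg_right hθ2 (by positivity)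
    have p5 : θ ^ 2 * ((c ^ 2 + X ^ 2) / 2 + (c ^ 2 + Y ^ 2) / 2)
        = θ ^ 2 * c ^ 2 + θ ^ 2 * (X ^ 2 + Y ^ 2) / 2 := by ring
    have p6 : θ * (21 / 20) * ((X ^ 2 + Y ^ 2) / 2) = 21 / 40 * (θ * (X ^ 2 + Y ^ 2)) := by ring
    have p7 : 0 ≤ θ * (X ^ 2 + Y ^ 2) := by positivity
    linarith
  have hR2 := (abs_le.mp hR1).1
  -- division
  have eM : (1 + α * γ * τ - τ ^ 2 * (α ^ 2 + γ ^ 2 - α ^ 2 * γ ^ 2) - α * γ * τ ^ 3) * c ^ 2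
        - τ * (1 - α * γ * τ) * (X * Y)
        + τ ^ 2 * c * (γ * (1 - α ^ 2) * X + α * (1 - γ ^ 2) * Y) = K * c ^ 2 + R := by
    rw [hK, hR]; ring
  have eD : (1 - α ^ 2 * τ ^ 2) * (1 - γ ^ 2 * τ ^ 2) = D := by rw [hD, ha, hg]
  rw [eM, eD]
  have hdiv : K * c ^ 2 + R - 3 * θ ^ 2 * (6 / 10 * θ * (X ^ 2 + Y ^ 2) + θ ^ 2 * c ^ 2)
      ≤ (K * c ^ 2 + R) / D := by
    rw [le_div_iff₀ hDpos]
    obtain ⟨B, hB⟩ : ∃ B, B = 6 / 10 * θ * (X ^ 2 + Y ^ 2) + θ ^ 2 * c ^ 2 := ⟨_, rfl⟩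
    rw [← hB] at hR2 ⊢
    have hB0 : 0 ≤ B := by rw [hB]; positivity
    have hKc : 0 ≤ K * c ^ 2 := by positivity
    obtain ⟨η, hη⟩ : ∃ η, η = 1 - D := ⟨_, rfl⟩
    have hη0 : 0 ≤ η := by rw [hη]; linarith
    have hη1 : η ≤ 2 * θ ^ 2 := by rw [hη]; linarith
    have eD' : D = 1 - η := by rw [hη]; ring
    rw [eD']
    have h1 : -(2 * θ ^ 2 * B) ≤ η * (K * c ^ 2 + R) := by
      have : η * (-B) ≤ η * (K * c ^ 2 + R) :=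
        mul_le_mul_of_nonneg_left (by linarith) hη0
      have h2 : η * B ≤ 2 * θ ^ 2 * B := mul_le_mul_of_nonneg_right hη1 hB0
      linarith
    have h3 : 3 * θ ^ 2 * B * η ≤ θ ^ 2 * B := by
      have hθs : 3 * η ≤ 1 := by
        have : θ ^ 2 ≤ 1 / 400 := by nlinarith
        linarith
      have hTB : 0 ≤ θ ^ 2 * B := by positivity
      calc 3 * θ ^ 2 * B * η = (θ ^ 2 * B) * (3 * η) := by ring
        _ ≤ (θ ^ 2 * B) * 1 := mul_le_mul_of_nonneg_left hθs hTB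
        _ = θ ^ 2 * B := mul_one _
    have e : (K * c ^ 2 + R - 3 * θ ^ 2 * B) * (1 - η)
        = K * c ^ 2 + R - η * (K * c ^ 2 + R) - 3 * θ ^ 2 * B + 3 * θ ^ 2 * B * η := by ring
    rw [e]
    linarith
  refine le_trans ?_ hdiv
  have eK : K * c ^ 2 + R - (-τ * (X * Y * (1 - 3 * (α * γ * τ)) - c * X * γ * τ * (1 - α ^ 2)
        - c * Y * α * τ * (1 - γ ^ 2) + c ^ 2 * τ * (1 - α ^ 2) * (1 - γ ^ 2))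
      - τ ^ 2 * (α ^ 2 * (X ^ 2 + c ^ 2 * (1 - γ ^ 2)) + γ ^ 2 * (Y ^ 2 + c ^ 2 * (1 - α ^ 2)))
      + (1 / 2 + 3 * θ) * c ^ 2
      - 3 * θ ^ 3 * (X ^ 2 + c ^ 2 * (1 - γ ^ 2) + (Y ^ 2 + c ^ 2 * (1 - α ^ 2))))
      = (K - 1 / 2 - 3 * θ) * c ^ 2 + τ ^ 2 * (α * X - γ * Y) ^ 2
        + τ ^ 2 * c ^ 2 * ((1 - α ^ 2) * (1 - γ ^ 2) + α ^ 2 * (1 - γ ^ 2) + γ ^ 2 * (1 - α ^ 2))
        + 3 * (θ ^ 3 * (X ^ 2 + Y ^ 2)) + 3 * θ ^ 3 * c ^ 2 * ((1 - γ ^ 2) + (1 - α ^ 2)) := by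
    rw [hR]; ring
  have z1 : 0 ≤ τ ^ 2 * (α * X - γ * Y) ^ 2 := by positivity
  have z2 : 0 ≤ τ ^ 2 * c ^ 2 * ((1 - α ^ 2) * (1 - γ ^ 2) + α ^ 2 * (1 - γ ^ 2)
      + γ ^ 2 * (1 - α ^ 2)) := by
    have y1 : 0 ≤ 1 - α ^ 2 := sub_nonneg.2 hα2
    have y2 : 0 ≤ 1 - γ ^ 2 := sub_nonneg.2 hγ2
    positivity
  have z3 : 0 ≤ 3 * θ ^ 3 * c ^ 2 * ((1 - γ ^ 2) + (1 - α ^ 2)) := by
    have y1 : 0 ≤ 1 - α ^ 2 := sub_nonneg.2 hα2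
    have y2 : 0 ≤ 1 - γ ^ 2 := sub_nonneg.2 hγ2
    positivity
  have z4 : (1 / 4 : ℝ) * c ^ 2 ≤ (K - 1 / 2 - 3 * θ) * c ^ 2 :=
    mul_le_mul_of_nonneg_right (by linarith) (sq_nonneg c)
  have z5 : 3 * θ ^ 2 * (6 / 10 * θ * (X ^ 2 + Y ^ 2) + θ ^ 2 * c ^ 2)
      = 18 / 10 * (θ ^ 3 * (X ^ 2 + Y ^ 2)) + 3 * (θ ^ 4 * c ^ 2) := by ring
  have z6 : 0 ≤ θ ^ 3 * (X ^ 2 + Y ^ 2) := by positivity
  have z7 : θ ^ 4 * c ^ 2 ≤ 1 / 20 * c ^ 2 := by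
    apply mul_le_mul_of_nonneg_right _ (sq_nonneg c)
    have : θ ^ 4 ≤ 1 / 20 * θ ^ 3 := by
      have := mul_le_mul_of_nonneg_left hθ hT3
      calc θ ^ 4 = θ ^ 3 * θ := by ring
        _ ≤ θ ^ 3 * (1 / 20) := this
        _ = 1 / 20 * θ ^ 3 := by ring
    nlinarith
  rw [z5]
  linarith [sq_nonneg c]

end SKG
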