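import Mathlib
import Pool.Agent.Lib.MP_c42713_pr.G2TwoB

namespace SKG

open Real

theorem sinh_le_mul_cosh {u : ℝ} (hu : 0 ≤ u) : sinh u ≤ u * cosh u := by
  rcases eq_or_lt_of_le hu with h | h
  · rw [← h]; simp
  · obtain ⟨c, hc, hc2⟩ := exists_deriv_eq_slope Real.sinh h Real.continuous_sinh.continuousOn
      Real.differentiable_sinh.differentiableOn
    rw [Real.deriv_sinh, Real.sinh_zero, sub_zero, sub_zero, eq_div_iff (ne_of_gt h)] at hc2
    rw [← hc2]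
    have h1 : cosh c ≤ cosh u := by
      rw [Real.cosh_le_cosh, abs_of_pos hc.1, abs_of_pos h]
      exact hc.2.le
    calc cosh c * u ≤ cosh u * u := mul_le_mul_of_nonneg_right h1 hu
      _ = u * cosh u := by ring

theorem tanh_le_self' {u : ℝ} (hu : 0 ≤ u) : tanh u ≤ u := by
  rw [Real.tanh_eq_sinh_div_cosh, div_le_iff₀ (Real.cosh_pos u)]
  exact sinh_le_mul_cosh hu

theorem tanh_nonneg' {u : ℝ} (hu : 0 ≤ u) : 0 ≤ tanh u := by
  rw [Real.tanh_eq_sinh_div_cosh]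
  exact div_nonneg (Real.sinh_nonneg_iff.2 hu) (Real.cosh_pos u).le

theorem self_sub_tanh_le {u : ℝ} (hu : 0 ≤ u) (hu2 : u ≤ 1 / 20) : u - tanh u ≤ tanh u ^ 3 := by
  obtain ⟨S, hS⟩ : ∃ S, S = sinh u := ⟨_, rfl⟩
  obtain ⟨C, hC⟩ : ∃ C, C = cosh u := ⟨_, rfl⟩
  have hS1 : u ≤ S := by rw [hS]; exact Real.self_le_sinh_iff.2 hu
  have hC0 : 1 ≤ C := by rw [hC]; exact Real.one_le_cosh u
  have hC1 : C ≤ 1 + 51 / 100 * u ^ 2 := by
    have h1 : C ≤ exp (u ^ 2 / 2) := by rw [hC]; exact Real.cosh_le_exp_half_sq u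
    have h2 : exp (u ^ 2 / 2) ≤ 1 / (1 - u ^ 2 / 2) := by
      have h3 : 1 - u ^ 2 / 2 ≤ exp (-(u ^ 2 / 2)) := by
        have := Real.add_one_le_exp (-(u ^ 2 / 2))
        linarith
      rw [Real.exp_neg] at h3
      have h4 : 0 < 1 - u ^ 2 / 2 := by nlinarith
      rw [le_div_iff₀ h4]
      have h5 := Real.exp_pos (u ^ 2 / 2)
      calc exp (u ^ 2 / 2) * (1 - u ^ 2 / 2) ≤ exp (u ^ 2 / 2) * (exp (u ^ 2 / 2))⁻¹ :=
            mul_le_mul_of_nonneg_left h3 h5.le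
        _ = 1 := mul_inv_cancel₀ h5.ne'
    have h6 : 1 / (1 - u ^ 2 / 2) ≤ 1 + 51 / 100 * u ^ 2 := by
      have h4 : 0 < 1 - u ^ 2 / 2 := by nlinarith
      rw [div_le_iff₀ h4]
      have h7 : u ^ 2 ≤ 1 / 400 := by nlinarith
      nlinarith [sq_nonneg u, mul_nonneg (sq_nonneg u) (sub_nonneg.2 h7)]
    linarith
  have hCp : 0 < C := by linarith
  rw [Real.tanh_eq_sinh_div_cosh, ← hS, ← hC]
  have e : u - S / C - (S / C) ^ 3 = (u * C ^ 3 - S * C ^ 2 - S ^ 3) / C ^ 3 := by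
    field_simp
  have h8 : u * C ^ 3 - S * C ^ 2 - S ^ 3 ≤ 0 := by
    have h9 : u * C ^ 2 ≤ S * C ^ 2 := mul_le_mul_of_nonneg_right hS1 (sq_nonneg C)
    have h10 : u ^ 3 ≤ S ^ 3 := pow_le_pow_left₀ hu hS1 3
    have h11 : C ^ 2 * (C - 1) ≤ u ^ 2 := by
      have h7 : u ^ 2 ≤ 1 / 400 := by nlinarith
      have h12 : C ^ 2 ≤ 3 / 2 := by nlinarith
      have h13 : C - 1 ≤ 51 / 100 * u ^ 2 := by linarith
      calc C ^ 2 * (C - 1) ≤ 3 / 2 * (51 / 100 * u ^ 2) :=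
            mul_le_mul h12 h13 (by linarith) (by norm_num)
        _ ≤ u ^ 2 := by nlinarith [sq_nonneg u]
    have h14 : u * (C ^ 2 * (C - 1)) ≤ u * u ^ 2 := mul_le_mul_of_nonneg_left h11 hu
    nlinarith
  have h15 : u - S / C - (S / C) ^ 3 ≤ 0 := by
    rw [e]
    exact div_nonpos_of_nonpos_of_nonneg h8 (by positivity)
  linarith

theorem tanh_small {J : ℝ} (hJ : |J| ≤ 1 / 20) :
    |tanh J| ≤ |J| ∧ |J - tanh J| ≤ |tanh J| ^ 3 := by
  have key : ∀ u : ℝ, 0 ≤ u → u ≤ 1 / 20 → |tanh u| ≤ |u| ∧ |u - tanh u| ≤ |tanh u| ^ 3 := by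
    intro u hu hu2
    rw [abs_of_nonneg (tanh_nonneg' hu), abs_of_nonneg hu,
      abs_of_nonneg (sub_nonneg.2 (tanh_le_self' hu))]
    exact ⟨tanh_le_self' hu, self_sub_tanh_le hu hu2⟩
  rcases le_total 0 J with h | h
  · rw [abs_of_nonneg h] at hJ
    exact key J h hJ
  · rw [abs_of_nonpos h] at hJ
    have := key (-J) (by linarith) hJ
    rw [Real.tanh_neg, abs_neg, abs_neg] at this
    refine ⟨this.1, ?_⟩
    have e : |J - tanh J| = |-J - -tanh J| := by rw [← abs_neg]; ring_nf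
    rw [e]
    exact this.2

theorem exp_pm (u : ℝ) {x : ℝ} (hx : x = 1 ∨ x = -1) :
    exp (u * x) = cosh u * (1 + tanh u * x) := by
  have hc := (Real.cosh_pos u).ne'
  rcases hx with h | h
  · rw [h, mul_one, mul_one, Real.tanh_eq_sinh_div_cosh]
    field_simp
    rw [Real.cosh_add_sinh]
  · rw [h, mul_neg_one, mul_neg_one, Real.tanh_eq_sinh_div_cosh]
    have : cosh u * (1 + -(sinh u / cosh u)) = cosh u - sinh u := by field_simp; ring
    rw [this, Real.cosh_sub_sinh]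

theorem tanh_pm (a J : ℝ) {y : ℝ} (hy : y = 1 ∨ y = -1) :
    tanh (a + J * y) = (tanh a + tanh J * y) / (1 + tanh a * tanh J * y) := by
  have hca := (Real.cosh_pos a).ne'
  have hcJ := (Real.cosh_pos J).ne'
  have key : ∀ K : ℝ, tanh (a + K) = (tanh a + tanh K) / (1 + tanh a * tanh K) := by
    intro K
    have hcK := (Real.cosh_pos K).ne'
    have hcs := (Real.cosh_pos (a + K)).ne'
    have hD : 1 + sinh a / cosh a * (sinh K / cosh K) ≠ 0 := by
      have : 1 + sinh a / cosh a * (sinh K / cosh K)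
          = cosh (a + K) / (cosh a * cosh K) := by
        rw [Real.cosh_add]; field_simp
      rw [this]
      positivity
    rw [Real.tanh_eq_sinh_div_cosh, Real.tanh_eq_sinh_div_cosh a, Real.tanh_eq_sinh_div_cosh K,
      div_eq_div_iff hcs hD, Real.sinh_add, Real.cosh_add]
    field_simp
  rcases hy with h | h
  · rw [h, mul_one, mul_one, mul_one, key]
  · rw [h, mul_neg_one, mul_neg_one, mul_neg_one, key, Real.tanh_neg]
    ring_nf

end SKG
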