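import Mathlib
import Pool.Agent.Lib.MP_c42713_pr.G2TwoC

namespace SKG

open Real

/-- rational form of the upper bound on the left hand side -/
theorem sum_point {α γ τ J c1 c2 c θ : ℝ} (hα : |α| ≤ 1) (hγ : |γ| ≤ 1) (hτ : |τ| = θ)
    (hθ : θ ≤ 1 / 20) (hJ : |J - τ| ≤ θ ^ 3) (hJ2 : θ ≤ |J|) :
    S4 (fun x y => (1 + α * x) * (1 + γ * y) *
      ((1 - τ ^ 2) * (1 + τ * x * y) * (1 / (1 + α * τ * y)) ^ 2 * (1 / (1 + γ * τ * x)) ^ 2 *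
      (-J * (c1 + c * y) * (c2 + c * x) - J ^ 2 *
        (((α + τ * y) / (1 + α * τ * y)) ^ 2 * (c1 + c * y) ^ 2 +
        ((γ + τ * x) / (1 + γ * τ * x)) ^ 2 * (c2 + c * x) ^ 2) + c ^ 2 / 2 -
        40 * |J| ^ 3 * ((c1 + c * y) ^ 2 + (c2 + c * x) ^ 2))))
    ≤ S4 (fun x y => x * y * (1 - τ * x * y) * (c1 + c * y) * (c2 + c * x) /
        ((1 + α * τ * y) * (1 + γ * τ * x))) := by
  have hα' := abs_le.mp hα
  have hγ' := abs_le.mp hγ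
  have hθ0 : 0 ≤ θ := by rw [← hτ]; exact abs_nonneg _
  have h1 : S4 (fun x y => (1 + α * x) * (1 + γ * y) *
      ((1 - τ ^ 2) * (1 + τ * x * y) * (1 / (1 + α * τ * y)) ^ 2 * (1 / (1 + γ * τ * x)) ^ 2 *
      (-J * (c1 + c * y) * (c2 + c * x) - J ^ 2 *
        (((α + τ * y) / (1 + α * τ * y)) ^ 2 * (c1 + c * y) ^ 2 +
        ((γ + τ * x) / (1 + γ * τ * x)) ^ 2 * (c2 + c * x) ^ 2) + c ^ 2 / 2 -
        40 * |J| ^ 3 * ((c1 + c * y) ^ 2 + (c2 + c * x) ^ 2))))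
      ≤ S4 (fun x y => (1 + α * x) * (1 + γ * y) *
        (-τ * (1 + τ * x * y - 2 * (α * τ * y) - 2 * (γ * τ * x)) * ((c1 + c * y) * (c2 + c * x))
      - τ ^ 2 * (α ^ 2 * (c1 + c * y) ^ 2 + γ ^ 2 * (c2 + c * x) ^ 2) + (1 / 2 + 3 * θ) * c ^ 2
      - 3 * θ ^ 3 * ((c1 + c * y) ^ 2 + (c2 + c * x) ^ 2))) := by
    have key : ∀ x y : ℝ, |x| = 1 → |y| = 1 → 0 ≤ (1 + α * x) * (1 + γ * y) := by
      intro x y hx hy
      have a1 : |α * x| ≤ 1 := by rw [abs_mul, hx, mul_one]; exact hα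
      have a2 : |γ * y| ≤ 1 := by rw [abs_mul, hy, mul_one]; exact hγ
      exact mul_nonneg (by linarith [(abs_le.mp a1).1]) (by linarith [(abs_le.mp a2).1])
    have n1 : |(1 : ℝ)| = 1 := abs_one
    have n2 : |(-1 : ℝ)| = 1 := by rw [abs_neg, abs_one]
    unfold S4
    have p1 := mul_le_mul_of_nonneg_left (point_bd (P := c1 + c * 1) (Q := c2 + c * 1) (c := c)
      hα hγ hτ hθ hJ hJ2 n1 n1) (key 1 1 n1 n1)
    have p2 := mul_le_mul_of_nonneg_left (point_bd (P := c1 + c * (-1)) (Q := c2 + c * 1) (c := c)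
      hα hγ hτ hθ hJ hJ2 n1 n2) (key 1 (-1) n1 n2)
    have p3 := mul_le_mul_of_nonneg_left (point_bd (P := c1 + c * 1) (Q := c2 + c * (-1)) (c := c)
      hα hγ hτ hθ hJ hJ2 n2 n1) (key (-1) 1 n2 n1)
    have p4 := mul_le_mul_of_nonneg_left (point_bd (P := c1 + c * (-1)) (Q := c2 + c * (-1))
      (c := c) hα hγ hτ hθ hJ hJ2 n2 n2) (key (-1) (-1) n2 n2)
    exact add_le_add (add_le_add (add_le_add p1 p2) p3) p4
  refine le_trans h1 ?_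
  have h2 := fin_bd (X := c1 + γ * c) (Y := c2 + α * c) (c := c) hα hγ hτ hθ
  have e1 : S4 (fun x y => (1 + α * x) * (1 + γ * y) *
        (-τ * (1 + τ * x * y - 2 * (α * τ * y) - 2 * (γ * τ * x)) * ((c1 + c * y) * (c2 + c * x))
      - τ ^ 2 * (α ^ 2 * (c1 + c * y) ^ 2 + γ ^ 2 * (c2 + c * x) ^ 2) + (1 / 2 + 3 * θ) * c ^ 2
      - 3 * θ ^ 3 * ((c1 + c * y) ^ 2 + (c2 + c * x) ^ 2)))
      = 4 * (-τ * ((c1 + γ * c) * (c2 + α * c) * (1 - 3 * (α * γ * τ))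
        - c * (c1 + γ * c) * γ * τ * (1 - α ^ 2)
        - c * (c2 + α * c) * α * τ * (1 - γ ^ 2) + c ^ 2 * τ * (1 - α ^ 2) * (1 - γ ^ 2))
      - τ ^ 2 * (α ^ 2 * ((c1 + γ * c) ^ 2 + c ^ 2 * (1 - γ ^ 2))
        + γ ^ 2 * ((c2 + α * c) ^ 2 + c ^ 2 * (1 - α ^ 2)))
      + (1 / 2 + 3 * θ) * c ^ 2
      - 3 * θ ^ 3 * ((c1 + γ * c) ^ 2 + c ^ 2 * (1 - γ ^ 2)
        + ((c2 + α * c) ^ 2 + c ^ 2 * (1 - α ^ 2)))) := by
    unfold S4; ring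
  have hu : |α * τ| ≤ 1 / 20 := by
    rw [abs_mul, hτ]
    calc |α| * θ ≤ 1 * θ := mul_le_mul_of_nonneg_right hα hθ0
      _ ≤ 1 / 20 := by linarith
  have hv : |γ * τ| ≤ 1 / 20 := by
    rw [abs_mul, hτ]
    calc |γ| * θ ≤ 1 * θ := mul_le_mul_of_nonneg_right hγ hθ0
      _ ≤ 1 / 20 := by linarith
  have hu' := abs_le.mp hu
  have hv' := abs_le.mp hv
  have d1 : 1 + α * τ * 1 ≠ 0 := by intro h; linarith [hu'.1]
  have d2 : 1 + α * τ * (-1) ≠ 0 := by intro h; linarith [hu'.2]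
  have d3 : 1 + γ * τ * 1 ≠ 0 := by intro h; linarith [hv'.1]
  have d4 : 1 + γ * τ * (-1) ≠ 0 := by intro h; linarith [hv'.2]
  have d5 : (1 - α ^ 2 * τ ^ 2) = (1 + α * τ * 1) * (1 + α * τ * (-1)) := by ring
  have d6 : (1 - γ ^ 2 * τ ^ 2) = (1 + γ * τ * 1) * (1 + γ * τ * (-1)) := by ring
  have e2 : S4 (fun x y => x * y * (1 - τ * x * y) * (c1 + c * y) * (c2 + c * x) /
        ((1 + α * τ * y) * (1 + γ * τ * x)))
      = 4 * (((1 + α * γ * τ - τ ^ 2 * (α ^ 2 + γ ^ 2 - α ^ 2 * γ ^ 2) - α * γ * τ ^ 3) * c ^ 2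
        - τ * (1 - α * γ * τ) * ((c1 + γ * c) * (c2 + α * c))
        + τ ^ 2 * c * (γ * (1 - α ^ 2) * (c1 + γ * c) + α * (1 - γ ^ 2) * (c2 + α * c)))
      / ((1 - α ^ 2 * τ ^ 2) * (1 - γ ^ 2 * τ ^ 2))) := by
    rw [d5, d6]
    unfold S4
    obtain ⟨A, hA⟩ : ∃ A, A = 1 + α * τ * 1 := ⟨_, rfl⟩
    obtain ⟨B, hB⟩ : ∃ B, B = 1 + α * τ * (-1) := ⟨_, rfl⟩
    obtain ⟨C, hC⟩ : ∃ C, C = 1 + γ * τ * 1 := ⟨_, rfl⟩
    obtain ⟨D, hD⟩ : ∃ D, D = 1 + γ * τ * (-1) := ⟨_, rfl⟩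
    simp only [← hA, ← hB, ← hC, ← hD]
    rw [← hA] at d1
    rw [← hB] at d2
    rw [← hC] at d3
    rw [← hD] at d4
    field_simp
    rw [hA, hB, hC, hD]
    ring
  rw [e1, e2]
  linarith

theorem s_form {α τ y : ℝ} (hy : y = 1 ∨ y = -1) (h : 1 + α * τ * y ≠ 0) :
    1 - ((α + τ * y) / (1 + α * τ * y)) ^ 2
      = (1 - α ^ 2) * (1 - τ ^ 2) * (1 / (1 + α * τ * y)) ^ 2 := by
  have hy2 : y ^ 2 = 1 := by rcases hy with h | h <;> rw [h] <;> norm_num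
  rw [div_pow, div_pow, one_pow, mul_one_div, eq_div_iff (pow_ne_zero 2 h), sub_mul,
    div_mul_cancel₀ _ (pow_ne_zero 2 h)]
  linear_combination (α ^ 2 * τ ^ 2 - τ ^ 2) * hy2

theorem d_form {α τ x y : ℝ} (hx : x = 1 ∨ x = -1) (h : 1 + α * τ * y ≠ 0) :
    x - (α + τ * y) / (1 + α * τ * y)
      = (x - α) * (1 - τ * x * y) / (1 + α * τ * y) := by
  have hx2 : x ^ 2 = 1 := by rcases hx with h | h <;> rw [h] <;> norm_num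
  rw [eq_div_iff h, sub_mul, div_mul_cancel₀ _ h]
  linear_combination (τ * y) * hx2

end SKG
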