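import Mathlib
import Pool.Agent.Lib.MP_c42713_pr.G2TwoD

namespace SKG

open Real

theorem S4_mono {F G : ℝ → ℝ → ℝ}
    (h : ∀ x y : ℝ, (x = 1 ∨ x = -1) → (y = 1 ∨ y = -1) → F x y ≤ G x y) : S4 F ≤ S4 G := by
  unfold S4
  exact add_le_add (add_le_add (add_le_add (h _ _ (Or.inl rfl) (Or.inl rfl))
    (h _ _ (Or.inl rfl) (Or.inr rfl))) (h _ _ (Or.inr rfl) (Or.inl rfl)))
    (h _ _ (Or.inr rfl) (Or.inr rfl))

theorem S4_congr {F G : ℝ → ℝ → ℝ}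
    (h : ∀ x y : ℝ, (x = 1 ∨ x = -1) → (y = 1 ∨ y = -1) → F x y = G x y) : S4 F = S4 G := by
  unfold S4
  rw [h _ _ (Or.inl rfl) (Or.inl rfl), h _ _ (Or.inl rfl) (Or.inr rfl),
    h _ _ (Or.inr rfl) (Or.inl rfl), h _ _ (Or.inr rfl) (Or.inr rfl)]

theorem S4_mul (k : ℝ) (F : ℝ → ℝ → ℝ) : S4 (fun x y => k * F x y) = k * S4 F := by
  unfold S4; ring

/-- **Two spin inequality.** For the two spin measure with weight `exp (J x y + a x + b y)`,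
`t₁ = tanh (a + J y)`, `t₂ = tanh (b + J x)`, `ψ₁ = c1 + c y`, `ψ₂ = c2 + c x`:
the expectation of `(x - t₁)ψ₁ (y - t₂)ψ₂` is bounded below. -/
theorem two_spin (a b J c1 c2 c : ℝ) (hJ : |J| ≤ 1 / 20) :
    S4 (fun x y => exp (J * x * y + a * x + b * y) *
      (-J * ((1 - tanh (a + J * y) ^ 2) * (c1 + c * y)) * ((1 - tanh (b + J * x) ^ 2) * (c2 + c * x))
       - J ^ 2 * ((1 - tanh (a + J * y) ^ 2) * (1 - tanh (b + J * x) ^ 2)) *
          (tanh (a + J * y) ^ 2 * (c1 + c * y) ^ 2 + tanh (b + J * x) ^ 2 * (c2 + c * x) ^ 2)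
       + 1 / 2 * c ^ 2 * ((1 - tanh (a + J * y) ^ 2) * (1 - tanh (b + J * x) ^ 2))
       - 40 * |J| ^ 3 * ((1 - tanh (a + J * y) ^ 2) * (1 - tanh (b + J * x) ^ 2)) *
          ((c1 + c * y) ^ 2 + (c2 + c * x) ^ 2)))
    ≤ S4 (fun x y => exp (J * x * y + a * x + b * y) *
      (((x - tanh (a + J * y)) * (c1 + c * y)) * ((y - tanh (b + J * x)) * (c2 + c * x)))) := by
  obtain ⟨α, hα⟩ : ∃ α, α = tanh a := ⟨_, rfl⟩
  obtain ⟨γ, hγ⟩ : ∃ γ, γ = tanh b := ⟨_, rfl⟩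
  obtain ⟨τ, hτ⟩ : ∃ τ, τ = tanh J := ⟨_, rfl⟩
  have hα1 : |α| < 1 := by rw [hα]; exact Real.abs_tanh_lt_one a
  have hγ1 : |γ| < 1 := by rw [hγ]; exact Real.abs_tanh_lt_one b
  obtain ⟨t1, t2⟩ := tanh_small hJ
  rw [← hτ] at t1 t2
  have hθ : |τ| ≤ 1 / 20 := le_trans t1 hJ
  have hτ0 : 0 ≤ |τ| := abs_nonneg _
  have hu : ∀ z y : ℝ, |z| < 1 → (y = 1 ∨ y = -1) → 1 + z * τ * y ≠ 0 := by
    intro z y hz hy h
    have hy1 : |y| = 1 := by rcases hy with h | h <;> rw [h] <;> simp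
    have : |z * τ * y| ≤ 1 / 20 := by
      rw [abs_mul, abs_mul, hy1, mul_one]
      calc |z| * |τ| ≤ 1 * |τ| := mul_le_mul_of_nonneg_right hz.le hτ0
        _ ≤ 1 / 20 := by linarith
    linarith [(abs_le.mp this).1]
  obtain ⟨k, hk⟩ : ∃ k, k = cosh J * cosh a * cosh b * ((1 - α ^ 2) * (1 - γ ^ 2) * (1 - τ ^ 2)) :=
    ⟨_, rfl⟩
  have hk0 : 0 ≤ k := by
    rw [hk]
    have g1 : 0 ≤ 1 - α ^ 2 := by
      rw [sub_nonneg, sq_le_one_iff_abs_le_one]; exact hα1.le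
    have g2 : 0 ≤ 1 - γ ^ 2 := by
      rw [sub_nonneg, sq_le_one_iff_abs_le_one]; exact hγ1.le
    have g3 : 0 ≤ 1 - τ ^ 2 := by
      rw [sub_nonneg, sq_le_one_iff_abs_le_one]; linarith
    have h1 := Real.cosh_pos J
    have h2 := Real.cosh_pos a
    have h3 := Real.cosh_pos b
    positivity
  have hexp : ∀ x y : ℝ, (x = 1 ∨ x = -1) → (y = 1 ∨ y = -1) →
      exp (J * x * y + a * x + b * y) = cosh J * cosh a * cosh b *
        ((1 + τ * x * y) * (1 + α * x) * (1 + γ * y)) := by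
    intro x y hx hy
    have hxy : x * y = 1 ∨ x * y = -1 := by
      rcases hx with h | h <;> rcases hy with h' | h' <;> rw [h, h'] <;> norm_num
    rw [Real.exp_add, Real.exp_add, mul_assoc J x y, exp_pm J hxy, exp_pm a hx, exp_pm b hy,
      ← hα, ← hγ, ← hτ]
    ring
  have hL : S4 (fun x y => exp (J * x * y + a * x + b * y) *
      (-J * ((1 - tanh (a + J * y) ^ 2) * (c1 + c * y)) * ((1 - tanh (b + J * x) ^ 2) * (c2 + c * x))
       - J ^ 2 * ((1 - tanh (a + J * y) ^ 2) * (1 - tanh (b + J * x) ^ 2)) *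
          (tanh (a + J * y) ^ 2 * (c1 + c * y) ^ 2 + tanh (b + J * x) ^ 2 * (c2 + c * x) ^ 2)
       + 1 / 2 * c ^ 2 * ((1 - tanh (a + J * y) ^ 2) * (1 - tanh (b + J * x) ^ 2))
       - 40 * |J| ^ 3 * ((1 - tanh (a + J * y) ^ 2) * (1 - tanh (b + J * x) ^ 2)) *
          ((c1 + c * y) ^ 2 + (c2 + c * x) ^ 2)))
      = k * S4 (fun x y => (1 + α * x) * (1 + γ * y) *
      ((1 - τ ^ 2) * (1 + τ * x * y) * (1 / (1 + α * τ * y)) ^ 2 * (1 / (1 + γ * τ * x)) ^ 2 *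
      (-J * (c1 + c * y) * (c2 + c * x) - J ^ 2 *
        (((α + τ * y) / (1 + α * τ * y)) ^ 2 * (c1 + c * y) ^ 2 +
        ((γ + τ * x) / (1 + γ * τ * x)) ^ 2 * (c2 + c * x) ^ 2) + c ^ 2 / 2 -
        40 * |J| ^ 3 * ((c1 + c * y) ^ 2 + (c2 + c * x) ^ 2)))) := by
    rw [← S4_mul]
    apply S4_congr
    intro x y hx hy
    rw [hexp x y hx hy, tanh_pm a J hy, tanh_pm b J hx, ← hα, ← hγ, ← hτ,
      s_form hy (hu α y hα1 hy), s_form hx (hu γ x hγ1 hx), hk]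
    obtain ⟨E1, hE1⟩ : ∃ E, E = 1 / (1 + α * τ * y) := ⟨_, rfl⟩
    obtain ⟨E2, hE2⟩ : ∃ E, E = 1 / (1 + γ * τ * x) := ⟨_, rfl⟩
    obtain ⟨T1, hT1⟩ : ∃ T, T = (α + τ * y) / (1 + α * τ * y) := ⟨_, rfl⟩
    obtain ⟨T2, hT2⟩ : ∃ T, T = (γ + τ * x) / (1 + γ * τ * x) := ⟨_, rfl⟩
    rw [← hE1, ← hE2, ← hT1, ← hT2]
    ring
  have hR : S4 (fun x y => exp (J * x * y + a * x + b * y) *
      (((x - tanh (a + J * y)) * (c1 + c * y)) * ((y - tanh (b + J * x)) * (c2 + c * x))))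
      = k * S4 (fun x y => x * y * (1 - τ * x * y) * (c1 + c * y) * (c2 + c * x) /
        ((1 + α * τ * y) * (1 + γ * τ * x))) := by
    rw [← S4_mul]
    apply S4_congr
    intro x y hx hy
    have n1 := hu α y hα1 hy
    have n2 := hu γ x hγ1 hx
    have hyx : 1 - γ * 0 = (1 : ℝ) := by ring
    rw [hexp x y hx hy, tanh_pm a J hy, tanh_pm b J hx, ← hα, ← hγ, ← hτ,
      d_form hx n1, d_form hy n2, hk]
    have hx2 : x ^ 2 = 1 := by rcases hx with h | h <;> rw [h] <;> norm_num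
    have hy2 : y ^ 2 = 1 := by rcases hy with h | h <;> rw [h] <;> norm_num
    have i1 : (1 + α * x) * (x - α) = x * (1 - α ^ 2) := by
      linear_combination α * hx2
    have i2 : (1 + γ * y) * (y - γ) = y * (1 - γ ^ 2) := by
      linear_combination γ * hy2
    have i3 : (1 + τ * x * y) * (1 - τ * y * x) = 1 - τ ^ 2 := by
      have : (1 + τ * x * y) * (1 - τ * y * x) = 1 - τ ^ 2 * (x ^ 2 * y ^ 2) := by ring
      rw [this, hx2, hy2]; ring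
    obtain ⟨A, hA⟩ : ∃ A, A = 1 + α * τ * y := ⟨_, rfl⟩
    obtain ⟨B, hB⟩ : ∃ B, B = 1 + γ * τ * x := ⟨_, rfl⟩
    rw [← hA] at n1
    rw [← hB] at n2
    rw [← hA, ← hB]
    have e1 : cosh J * cosh a * cosh b * ((1 + τ * x * y) * (1 + α * x) * (1 + γ * y)) *
        ((x - α) * (1 - τ * x * y) / A * (c1 + c * y) *
          ((y - γ) * (1 - τ * y * x) / B * (c2 + c * x)))
        = cosh J * cosh a * cosh b * (((1 + α * x) * (x - α)) * ((1 + γ * y) * (y - γ)) *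
          ((1 + τ * x * y) * (1 - τ * y * x)) * (1 - τ * x * y) * (c1 + c * y) * (c2 + c * x)) /
          (A * B) := by
      field_simp
    rw [e1, i1, i2, i3]
    ring
  rw [hL, hR]
  exact mul_le_mul_of_nonneg_left (sum_point hα1.le hγ1.le rfl hθ t2 t1) hk0

end SKG
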