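import Pool.Agent.Lib.MP_c42713_pr.FlowDefs

/-! # The good event for the matrix and the two steps of the path -/

namespace SKG

variable {n : ℕ}

/-- the deterministic properties of the matrix that are used -/
structure Good (W : Matrix (Fin n) (Fin n) ℝ) (ε : ℝ) : Prop where
  symm : W.IsSymm
  norm : ∀ v : Fin n → ℝ, |∑ i, ∑ j, W i j * v i * v j| ≤ (2 + ε) * ∑ i, v i ^ 2
  diag : ∀ j, |W j j| ≤ ε
  sq : ∀ j, |∑ k, W j k ^ 2 - 1| ≤ ε

/-- off-diagonal part -/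
def offd (M : Matrix (Fin n) (Fin n) ℝ) : Matrix (Fin n) (Fin n) ℝ :=
  fun i j => if i = j then 0 else M i j

/-- `βL (1 - (L-W)^2/(4L^2))` -/
noncomputable def Qone (β L : ℝ) (W : Matrix (Fin n) (Fin n) ℝ) : Matrix (Fin n) (Fin n) ℝ :=
  (β * L) • ((1 : Matrix (Fin n) (Fin n) ℝ) -
    (1 / (4 * L ^ 2)) • ((L • (1 : Matrix (Fin n) (Fin n) ℝ) - W) * (L • (1 : Matrix (Fin n) (Fin n) ℝ) - W)))

/-- `βL (L+W)^2/(4L^2)` -/
noncomputable def Qtwo (β L : ℝ) (W : Matrix (Fin n) (Fin n) ℝ) : Matrix (Fin n) (Fin n) ℝ :=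
  (β * L) • ((1 / (4 * L ^ 2)) •
    ((L • (1 : Matrix (Fin n) (Fin n) ℝ) + W) * (L • (1 : Matrix (Fin n) (Fin n) ℝ) + W)))

end SKG
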