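import Pool.Agent.Lib.MP_c42713_pr.Defs
import Pool.Agent.Lib.MP_c42713_pr.MatDefs

/-! # Gaussian definitions -/

namespace SKG

open MeasureTheory ProbabilityTheory

/-- standard Gaussian measure on `ι → ℝ`; `gauss n` is `stdG (Fin n × Fin n)` by definition -/
noncomputable def stdG (ι : Type) [Fintype ι] : Measure (ι → ℝ) :=
  Measure.pi (fun _ => gaussianReal 0 1)

instance (ι : Type) [Fintype ι] : IsProbabilityMeasure (stdG ι) := by
  unfold stdG; infer_instance

theorem gauss_eq (n : ℕ) : gauss n = stdG (Fin n × Fin n) := rfl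

instance (n : ℕ) : IsProbabilityMeasure (gauss n) := by
  rw [gauss_eq]; infer_instance

/-- coefficient vector of `u^T W u` with an additional `1` at an unused place `p0` -/
noncomputable def va {n : ℕ} (p0 : Fin n × Fin n) (u : Fin n → ℝ) : Fin n × Fin n → ℝ := fun p =>
  if p.1 = p.2 then u p.1 ^ 2 else if p.1 < p.2 then Real.sqrt 2 * u p.1 * u p.2
  else if p = p0 then 1 else 0

/-- comparison vector, supported on unused places `q i` -/
noncomputable def vb {n : ℕ} (q : Fin n → Fin n × Fin n) (u : Fin n → ℝ) : Fin n × Fin n → ℝ :=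
  fun p => ∑ i, if q i = p then Real.sqrt 2 * u i else 0

/-- the places `q i` and `p0` are different and below the diagonal (not used by `goe`) -/
structure Low {n : ℕ} (q : Fin n → Fin n × Fin n) (p0 : Fin n × Fin n) : Prop where
  inj : Function.Injective q
  lowq : ∀ i, (q i).2 < (q i).1
  lowp : p0.2 < p0.1
  ne : ∀ i, q i ≠ p0

end SKG
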