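import Pool.Agent.Lib.MP_c42713_pr.Basic

namespace SKG

variable {X : Type*} [Fintype X]

theorem JTilt_sum (w c f : X → ℝ) (s : ℝ) :
    HasDerivAt (fun s => ∑ x, tilt w (fun x => s * c x) x * f x)
      (∑ x, tilt w (fun x => s * c x) x * (f x * c x)) s := by
  refine HasDerivAt.fun_sum fun x _ => ?_
  unfold tilt
  have h1 : HasDerivAt (fun s : ℝ => s * c x) (c x) s := by
    simpa using (hasDerivAt_id s).mul_const (c x)
  have h2 := ((h1.exp).const_mul (w x)).mul_const (f x)
  refine h2.congr_deriv ?_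
  ring

/-- derivative of an expectation along an exponential tilt -/
theorem hasDerivAt_Ex {w : X → ℝ} (hw : IsW w) (c f : X → ℝ) (s : ℝ) :
    HasDerivAt (fun s => Ex (tilt w (fun x => s * c x)) f)
      (Cv (tilt w (fun x => s * c x)) f c) s := by
  have h1 := JTilt_sum w c f s
  have h2 := JTilt_sum w c (fun _ => 1) s
  simp only [mul_one, one_mul] at h2
  have hpos := (isW_tilt hw (fun x => s * c x)).pos
  have h3 := h1.div h2 hpos.ne'
  refine h3.congr_deriv ?_
  unfold Cv Ex
  field_simp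

theorem k3_raw {w : X → ℝ} (hw : IsW w) (f g h : X → ℝ) :
    k3 w f g h = Ex w (fun x => f x * g x * h x) - Ex w (fun x => f x * g x) * Ex w h -
      Ex w (fun x => f x * h x) * Ex w g - Ex w (fun x => g x * h x) * Ex w f +
      2 * Ex w f * Ex w g * Ex w h := by
  unfold k3
  have e : (fun x => (f x - Ex w f) * (g x - Ex w g) * (h x - Ex w h)) = fun x =>
      (((f x * g x * h x - Ex w h * (f x * g x)) - Ex w g * (f x * h x)) -
        Ex w f * (g x * h x)) + ((Ex w g * Ex w h) * f x + ((Ex w f * Ex w h) * g x +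
        ((Ex w f * Ex w g) * h x - Ex w f * Ex w g * Ex w h))) := by
    funext x
    ring
  rw [e]
  rw [Ex_add, Ex_sub, Ex_sub, Ex_sub, Ex_smul, Ex_smul, Ex_smul, Ex_add, Ex_smul, Ex_add, Ex_smul,
    Ex_sub, Ex_smul, Ex_const hw]
  ring

theorem k4_raw {w : X → ℝ} (hw : IsW w) (f g h k : X → ℝ) :
    k4 w f g h k = Ex w (fun x => f x * g x * h x * k x) -
      Ex w (fun x => g x * h x * k x) * Ex w f - Ex w (fun x => f x * h x * k x) * Ex w g -
      Ex w (fun x => f x * g x * k x) * Ex w h - Ex w (fun x => f x * g x * h x) * Ex w k +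
      Ex w (fun x => f x * g x) * Ex w h * Ex w k + Ex w (fun x => f x * h x) * Ex w g * Ex w k +
      Ex w (fun x => f x * k x) * Ex w g * Ex w h + Ex w (fun x => g x * h x) * Ex w f * Ex w k +
      Ex w (fun x => g x * k x) * Ex w f * Ex w h + Ex w (fun x => h x * k x) * Ex w f * Ex w g -
      3 * Ex w f * Ex w g * Ex w h * Ex w k := by
  unfold k4
  have e : (fun x => (f x - Ex w f) * (g x - Ex w g) * (h x - Ex w h) * (k x - Ex w k)) = fun x =>
      ((((f x * g x * h x * k x - Ex w f * (g x * h x * k x)) - Ex w g * (f x * h x * k x)) -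
        Ex w h * (f x * g x * k x)) - Ex w k * (f x * g x * h x)) +
      ((Ex w h * Ex w k) * (f x * g x) + ((Ex w g * Ex w k) * (f x * h x) +
      ((Ex w g * Ex w h) * (f x * k x) + ((Ex w f * Ex w k) * (g x * h x) +
      ((Ex w f * Ex w h) * (g x * k x) + (Ex w f * Ex w g) * (h x * k x)))))) -
      ((Ex w g * Ex w h * Ex w k) * f x + ((Ex w f * Ex w h * Ex w k) * g x +
      ((Ex w f * Ex w g * Ex w k) * h x + ((Ex w f * Ex w g * Ex w h) * k x -
        Ex w f * Ex w g * Ex w h * Ex w k)))) := by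
    funext x
    ring
  rw [e]
  rw [Ex_sub, Ex_add, Ex_sub, Ex_sub, Ex_sub, Ex_sub, Ex_smul, Ex_smul, Ex_smul, Ex_smul,
    Ex_add, Ex_smul, Ex_add, Ex_smul, Ex_add, Ex_smul, Ex_add, Ex_smul, Ex_add, Ex_smul, Ex_smul,
    Ex_add, Ex_smul, Ex_add, Ex_smul, Ex_add, Ex_smul, Ex_sub, Ex_smul, Ex_const hw]
  ring

/-- derivative of a covariance along an exponential tilt is the third cumulant -/
theorem hasDerivAt_Cv {w : X → ℝ} (hw : IsW w) (c f g : X → ℝ) (s : ℝ) :
    HasDerivAt (fun s => Cv (tilt w (fun x => s * c x)) f g)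
      (k3 (tilt w (fun x => s * c x)) f g c) s := by
  have h1 := hasDerivAt_Ex hw c (fun x => f x * g x) s
  have h2 := hasDerivAt_Ex hw c f s
  have h3 := hasDerivAt_Ex hw c g s
  refine (h1.sub (h2.mul h3)).congr_deriv ?_
  rw [k3_raw (isW_tilt hw _)]
  unfold Cv
  ring

/-- derivative of the third cumulant along an exponential tilt -/
theorem hasDerivAt_k3 {w : X → ℝ} (hw : IsW w) (c f g h : X → ℝ) (s : ℝ) :
    HasDerivAt (fun s => k3 (tilt w (fun x => s * c x)) f g h)
      (k4 (tilt w (fun x => s * c x)) f g h c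
        - Cv (tilt w (fun x => s * c x)) f c * Cv (tilt w (fun x => s * c x)) g h
        - Cv (tilt w (fun x => s * c x)) g c * Cv (tilt w (fun x => s * c x)) f h
        - Cv (tilt w (fun x => s * c x)) h c * Cv (tilt w (fun x => s * c x)) f g) s := by
  have e : (fun s => k3 (tilt w (fun x => s * c x)) f g h) = fun s =>
      Ex (tilt w (fun x => s * c x)) (fun x => f x * g x * h x) -
        Ex (tilt w (fun x => s * c x)) (fun x => f x * g x) * Ex (tilt w (fun x => s * c x)) h -
        Ex (tilt w (fun x => s * c x)) (fun x => f x * h x) * Ex (tilt w (fun x => s * c x)) g -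
        Ex (tilt w (fun x => s * c x)) (fun x => g x * h x) * Ex (tilt w (fun x => s * c x)) f +
        2 * Ex (tilt w (fun x => s * c x)) f * Ex (tilt w (fun x => s * c x)) g *
          Ex (tilt w (fun x => s * c x)) h := by
    funext s
    rw [k3_raw (isW_tilt hw _)]
  rw [e]
  have h1 := hasDerivAt_Ex hw c (fun x => f x * g x * h x) s
  have h2 := hasDerivAt_Ex hw c (fun x => f x * g x) s
  have h3 := hasDerivAt_Ex hw c (fun x => f x * h x) s
  have h4 := hasDerivAt_Ex hw c (fun x => g x * h x) s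
  have h5 := hasDerivAt_Ex hw c f s
  have h6 := hasDerivAt_Ex hw c g s
  have h7 := hasDerivAt_Ex hw c h s
  refine ((((h1.sub (h2.mul h7)).sub (h3.mul h6)).sub (h4.mul h5)).add
    (((h5.const_mul 2).mul h6).mul h7)).congr_deriv ?_
  rw [k4_raw (isW_tilt hw _)]
  unfold Cv
  simp only [Pi.mul_apply]
  ring

end SKG
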