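import Pool.Agent.Lib.MP_c42713_pr.JPin
import Pool.Agent.Lib.MP_c42713_pr.JTilt

namespace SKG

variable {n d : ℕ}

theorem JAssoc_tilt_zero {X : Type*} [Fintype X] (w c : X → ℝ) : tilt w (fun x => 0 * c x) = w := by
  funext x
  show w x * Real.exp (0 * c x) = w x
  rw [zero_mul, Real.exp_zero, mul_one]

/-- mean value theorem between the two pinned measures -/
theorem pin_mvt (J : Matrix (Fin n) (Fin n) ℝ) (hJ : J.IsSymm) (j : Fin n) (hj : J j j = 0)
    {u : Fin n → ℝ} (hu : Cube u) (e : Fin n → ℝ) (he : e j = 0) :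
    ∃ s : ℝ, Ex (iw J (Function.update u j 1)) (lin e) - Ex (iw J (Function.update u j (-1))) (lin e)
      = 2 * Cv (tilt (iw J (Function.update u j 1)) (fun x => s * lin (J j) x)) (lin e) (lin (J j)) := by
  have hw : IsW (iw J (Function.update u j 1)) := isW_iw J (JPin_cube hu j (by norm_num))
  have hd := hasDerivAt_Ex hw (lin (J j)) (lin e)
  obtain ⟨s, -, hs⟩ := exists_hasDerivAt_eq_slope
    (fun s => Ex (tilt (iw J (Function.update u j 1)) (fun x => s * lin (J j) x)) (lin e))
    (fun s => Cv (tilt (iw J (Function.update u j 1)) (fun x => s * lin (J j) x)) (lin e) (lin (J j)))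
    (show (-2 : ℝ) < 0 by norm_num) (fun x _ => (hd x).continuousAt.continuousWithinAt)
    (fun x _ => hd x)
  refine ⟨s, ?_⟩
  have hf : ∀ (x : Conf n) b, lin e (Function.update x j b) = lin e x := by
    intro x b
    unfold lin
    refine Finset.sum_congr rfl fun i _ => ?_
    by_cases h : i = j
    · subst h
      rw [he, zero_mul, zero_mul]
    · rw [Function.update_of_ne h]
  have hs2 : Cv (tilt (iw J (Function.update u j 1)) (fun x => s * lin (J j) x)) (lin e) (lin (J j)) =
      (Ex (tilt (iw J (Function.update u j 1)) (fun x => 0 * lin (J j) x)) (lin e) -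
        Ex (tilt (iw J (Function.update u j 1)) (fun x => -2 * lin (J j) x)) (lin e)) / (0 - (-2)) := hs
  rw [JAssoc_tilt_zero, ← Ex_flip J hJ j hj u (lin e) hf] at hs2
  rw [hs2]
  ring

/-- polarisation: `Cov(ℓ,f) ≥ -Var(ℓ - λ f)/(4λ)` -/
theorem Cv_polar {X : Type*} [Fintype X] {w : X → ℝ} (hw : IsW w) (l f : X → ℝ) (lam : ℝ)
    (hlam : 0 < lam) :
    -(Cv w (fun x => l x - lam * f x) (fun x => l x - lam * f x) / (4 * lam)) ≤ Cv w l f := by
  have h1 : 0 ≤ Cv w (fun x => l x + lam * f x) (fun x => l x + lam * f x) := Cv_self_nonneg hw _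
  have h2 : Cv w (fun x => l x + lam * f x) (fun x => l x + lam * f x) =
      Cv w (fun x => l x - lam * f x) (fun x => l x - lam * f x) + 4 * lam * Cv w l f := by
    rw [Cv_add_left, Cv_add_right, Cv_add_right, Cv_sub_left, Cv_sub_right, Cv_sub_right]
    simp only [Cv_smul_left, Cv_smul_right]
    rw [Cv_comm w f l]
    ring
  rw [h2] at h1
  rw [neg_le_iff_add_nonneg, ← sub_nonneg]
  have h3 : 0 ≤ (Cv w (fun x => l x - lam * f x) (fun x => l x - lam * f x) + 4 * lam * Cv w l f) / (4 * lam) :=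
    div_nonneg h1 (by positivity)
  have h4 : (Cv w (fun x => l x - lam * f x) (fun x => l x - lam * f x) + 4 * lam * Cv w l f) / (4 * lam) =
      Cv w l f + Cv w (fun x => l x - lam * f x) (fun x => l x - lam * f x) / (4 * lam) := by
    field_simp
    ring
  rw [h4] at h3
  linarith

theorem JAssoc_dg {w : Conf n → ℝ} (hw : IsW w) (i : Fin n) : dg w i ∈ Set.Icc (0 : ℝ) 1 := by
  have h1 := Cv_self_nonneg hw (S i)
  have h2 : Cv w (S i) (S i) = dg w i := by
    unfold Cv dg
    have : (fun x => S i x * S i x) = fun _ : Conf n => (1 : ℝ) := by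
      funext x
      exact JPin_sg (x i)
    rw [this, Ex_const hw]
    ring
  rw [h2] at h1
  refine ⟨h1, ?_⟩
  unfold dg
  nlinarith [sq_nonneg (Ex w (S i))]

/-- association bound -/
theorem assoc (J : Matrix (Fin n) (Fin n) ℝ) (hJ : J.IsSymm) (hJ0 : ∀ i, J i i = 0)
    (a : Fin d → ℝ) (B : ℝ) (hB : ∀ D ∈ Set.Icc (0 : ℝ) 1, om a D ≤ B) (hCB : CB J a)
    (e : Fin n → ℝ) (j : Fin n) (he : e j = 0) (lam κ : ℝ) (hlam : 0 < lam)
    (hr : ∑ k, (e k - lam * J j k) ^ 2 ≤ 4 * lam * κ) {u : Fin n → ℝ} (hu : Cube u) :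
    -(dg (iw J u) j * (B * κ)) ≤ ∑ k, e k * cv2 (iw J u) j k := by
  have hB0 : 0 ≤ B := by
    have := hB 0 ⟨le_rfl, zero_le_one⟩
    unfold om at this
    rwa [zero_mul] at this
  have hdg : dg (iw J u) j ∈ Set.Icc (0 : ℝ) 1 := JAssoc_dg (isW_iw J hu) j
  have h1 : ∑ k, e k * cv2 (iw J u) j k = Cv (iw J u) (S j) (lin e) := by
    have : lin e = fun x => ∑ k, e k * S k x := rfl
    rw [this, Cv_sum_right]
    refine Finset.sum_congr rfl fun k _ => ?_
    rw [Cv_smul_right]
    rfl
  obtain ⟨s, hs⟩ := pin_mvt J hJ j (hJ0 j) hu e he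
  rw [h1, Cv_pin J hu j (lin e), hs]
  have hcube : Cube (Function.update u j 1) := JPin_cube hu j (by norm_num)
  have hw : IsW (tilt (iw J (Function.update u j 1)) (fun x => s * lin (J j) x)) := isW_tilt (isW_iw J hcube) _
  have hlin : (fun x => s * lin (J j) x) = lin (fun k => s * J j k) := by
    funext x
    unfold lin
    rw [Finset.mul_sum]
    exact Finset.sum_congr rfl fun k _ => by ring
  obtain ⟨u', hu', -, -, c, hc, hcx⟩ := iw_tilt J hcube (fun k => s * J j k)
  have hp := Cv_polar hw (lin e) (lin (J j)) lam hlam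
  have hr1 : (fun x : Conf n => lin e x - lam * lin (J j) x) = lin (fun k => e k - lam * J j k) := by
    funext x
    unfold lin
    rw [Finset.mul_sum, ← Finset.sum_sub_distrib]
    exact Finset.sum_congr rfl fun k _ => by ring
  rw [hr1] at hp
  have hv : Cv (tilt (iw J (Function.update u j 1)) (fun x => s * lin (J j) x))
      (lin (fun k => e k - lam * J j k)) (lin (fun k => e k - lam * J j k)) ≤ B * (4 * lam * κ) := by
    have e1 : tilt (iw J (Function.update u j 1)) (fun x => s * lin (J j) x) = fun x => c * iw J u' x := by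
      rw [hlin]
      exact funext hcx
    rw [e1, Cv_scale hc.ne']
    have h2 := hCB u' hu' (fun k => e k - lam * J j k)
    unfold GG at h2
    have h3 : ∑ i, (e i - lam * J j i) ^ 2 * om a (dg (iw J u') i) ≤ ∑ i, (e i - lam * J j i) ^ 2 * B := by
      refine Finset.sum_le_sum fun i _ => ?_
      exact mul_le_mul_of_nonneg_left (hB _ (JAssoc_dg (isW_iw J hu') i)) (sq_nonneg _)
    rw [← Finset.sum_mul] at h3
    have h4 : (∑ i, (e i - lam * J j i) ^ 2) * B ≤ (4 * lam * κ) * B := mul_le_mul_of_nonneg_right hr hB0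
    linarith
  have h5 : Cv (tilt (iw J (Function.update u j 1)) (fun x => s * lin (J j) x))
      (lin (fun k => e k - lam * J j k)) (lin (fun k => e k - lam * J j k)) / (4 * lam) ≤ B * κ := by
    rw [div_le_iff₀ (by positivity)]
    linarith
  have h6 : -(B * κ) ≤ Cv (tilt (iw J (Function.update u j 1)) (fun x => s * lin (J j) x)) (lin e) (lin (J j)) := by
    linarith
  have h7 := mul_le_mul_of_nonneg_left h6 hdg.1
  linarith

end SKG
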