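import Pool.Agent.Lib.MP_c42713_pr.FlowDefs

namespace SKG

variable {n d : ℕ}

theorem sg_sq (b : Bool) : sg b ^ 2 = 1 := by cases b <;> simp [sg]

/-- the diagonal of the covariance matrix -/
theorem cv2_self {w : Conf n → ℝ} (hw : IsW w) (k : Fin n) : cv2 w k k = dg w k := by
  unfold cv2 Cv dg
  have h : (fun x : Conf n => S k x * S k x) = fun _ => 1 := by
    funext x
    have := sg_sq (x k)
    unfold S
    rw [← this]; ring
  rw [h, Ex_const hw]; ring

private theorem JDiag_sq (k : Fin n) (x : Conf n) : S k x * S k x = 1 := by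
  have := sg_sq (x k)
  unfold S
  rw [← this]; ring

/-- `E[X_f X_k^2] = -2 m_k Cov(f, x_k)`, because `x_k^2 = 1` -/
theorem k3_diag {w : Conf n → ℝ} (hw : IsW w) (f : Conf n → ℝ) (k : Fin n) :
    k3 w f (S k) (S k) = -2 * Ex w (S k) * Cv w f (S k) := by
  unfold k3
  have h : (fun x => (f x - Ex w f) * (S k x - Ex w (S k)) * (S k x - Ex w (S k))) =
      fun x => dg w k * (f x - Ex w f) -
        (2 * Ex w (S k)) * ((f x - Ex w f) * (S k x - Ex w (S k))) := by
    funext x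
    unfold dg
    linear_combination (f x - Ex w f) * JDiag_sq k x
  rw [h, Ex_sub, Ex_smul, Ex_smul, ← Cv_eq_centred hw, Ex_sub, Ex_const hw]
  ring

/-- `E[X_f X_g X_k^2] = D_k Cov(f,g) - 2 m_k E[X_f X_g X_k]` -/
theorem k4_diag {w : Conf n → ℝ} (hw : IsW w) (f g : Conf n → ℝ) (k : Fin n) :
    k4 w f g (S k) (S k) = dg w k * Cv w f g - 2 * Ex w (S k) * k3 w f g (S k) := by
  unfold k4 k3
  have h : (fun x => (f x - Ex w f) * (g x - Ex w g) * (S k x - Ex w (S k)) *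
        (S k x - Ex w (S k))) =
      fun x => dg w k * ((f x - Ex w f) * (g x - Ex w g)) -
        (2 * Ex w (S k)) * ((f x - Ex w f) * (g x - Ex w g) * (S k x - Ex w (S k))) := by
    funext x
    unfold dg
    linear_combination (f x - Ex w f) * (g x - Ex w g) * JDiag_sq k x
  rw [h, Ex_sub, Ex_smul, Ex_smul, ← Cv_eq_centred hw]

/-- diagonal of the Hessian -/
theorem Hm_diag {w : Conf n → ℝ} (hw : IsW w) (a : Fin d → ℝ) (ξ : Fin n → ℝ) (k : Fin n) :
    Hm w a ξ k k = -2 * ∑ j, ξ j ^ 2 * psi a (dg w j) * cv2 w j k ^ 2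
      + 2 * Cv w (S k) (lin ξ) ^ 2 - 2 * Ex w (S k) * G1 w a ξ (S k) := by
  unfold Hm G1
  rw [k4_diag hw, cv2_self hw, Cv_comm w (S k) (lin ξ)]
  have h : ∑ j, ξ j ^ 2 * (omDD a (dg w j) * (4 * Ex w (S j) ^ 2 * (cv2 w j k * cv2 w j k)) +
      omD a (dg w j) * (-2 * (cv2 w j k * cv2 w j k) - 2 * Ex w (S j) * k3 w (S j) (S k) (S k))) =
      -2 * ∑ j, ξ j ^ 2 * psi a (dg w j) * cv2 w j k ^ 2 - 2 * Ex w (S k) *
        ∑ j, ξ j ^ 2 * (omD a (dg w j) * (-2 * Ex w (S j) * Cv w (S j) (S k))) := by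
    rw [Finset.mul_sum, Finset.mul_sum, ← Finset.sum_sub_distrib]
    refine Finset.sum_congr rfl fun j _ => ?_
    rw [k3_diag hw]
    have e : Ex w (S j) ^ 2 = 1 - dg w j := by unfold dg; ring
    rw [e]
    unfold psi cv2
    ring
  rw [h]
  ring

end SKG
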