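import Pool.Agent.Lib.MP_c42713_pr.FlowDefs

namespace SKG

variable {n d : ℕ}

theorem isW_iw (J : Matrix (Fin n) (Fin n) ℝ) {u : Fin n → ℝ} (hu : Cube u) : IsW (iw J u) := by
  have h0 : ∀ x, 0 ≤ iw J u x := by
    intro x
    refine mul_nonneg (Real.exp_pos _).le (Finset.prod_nonneg fun i _ => ?_)
    have := abs_le.1 (hu i)
    cases x i <;> simp only [sg] <;> norm_num <;> linarith
  refine ⟨h0, ?_⟩
  refine Finset.sum_pos' (fun y _ => h0 y) ⟨fun i => decide (0 ≤ u i), Finset.mem_univ _, ?_⟩
  refine mul_pos (Real.exp_pos _) (Finset.prod_pos fun i _ => ?_)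
  by_cases h : 0 ≤ u i
  · simp only [sg, h, decide_true, if_true]
    linarith
  · simp only [sg, h, decide_false]
    push Not at h
    norm_num
    linarith

private theorem JIw_den {u : ℝ} (hu : |u| ≤ 1) (v : ℝ) : 0 < Real.cosh v + u * Real.sinh v := by
  have h1 := abs_le.1 hu
  have h2 : 0 < Real.cosh v + Real.sinh v := by
    rw [Real.cosh_add_sinh]; exact Real.exp_pos _
  have h3 : 0 < Real.cosh v - Real.sinh v := by
    rw [Real.cosh_sub_sinh]; exact Real.exp_pos _
  have e : Real.cosh v + u * Real.sinh v =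
      ((1 + u) * (Real.cosh v + Real.sinh v) + (1 - u) * (Real.cosh v - Real.sinh v)) / 2 := by ring
  rw [e]
  have h4 : 0 ≤ (1 + u) * (Real.cosh v + Real.sinh v) := mul_nonneg (by linarith) h2.le
  have h5 : 0 ≤ (1 - u) * (Real.cosh v - Real.sinh v) := mul_nonneg (by linarith) h3.le
  rcases le_total 0 u with h | h
  · have : 0 < (1 + u) * (Real.cosh v + Real.sinh v) := mul_pos (by linarith) h2
    linarith
  · have : 0 < (1 - u) * (Real.cosh v - Real.sinh v) := mul_pos (by linarith) h3
    linarith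

private theorem JIw_one {u : ℝ} (hu : |u| ≤ 1) (v : ℝ) (b : Bool) :
    (1 + u * sg b) * Real.exp (v * sg b) = (Real.cosh v + u * Real.sinh v) *
      (1 + (Real.sinh v + u * Real.cosh v) / (Real.cosh v + u * Real.sinh v) * sg b) := by
  have hd := (JIw_den hu v).ne'
  cases b
  · simp only [sg]
    norm_num
    rw [← Real.cosh_sub_sinh]
    field_simp
    ring
  · simp only [sg]
    norm_num
    rw [← Real.cosh_add_sinh]
    field_simp
    ring

private theorem JIw_quad_add (J E : Matrix (Fin n) (Fin n) ℝ) (s : ℝ) (x : Conf n) :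
    quad (J + s • E) x = quad J x + s * quad E x := by
  unfold quad
  rw [Finset.mul_sum, ← Finset.sum_add_distrib]
  refine Finset.sum_congr rfl fun i _ => ?_
  rw [Finset.mul_sum, ← Finset.sum_add_distrib]
  refine Finset.sum_congr rfl fun j _ => ?_
  simp only [Matrix.add_apply, Matrix.smul_apply, smul_eq_mul]
  ring

/-- the class of Ising weights is closed under linear tilts -/
theorem iw_tilt (J : Matrix (Fin n) (Fin n) ℝ) {u : Fin n → ℝ} (hu : Cube u) (v : Fin n → ℝ) :
    ∃ u', Cube u' ∧ (∀ i, |u i| = 1 → u' i = u i) ∧ (∀ i, |u i| < 1 → |u' i| < 1) ∧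
      ∃ c : ℝ, 0 < c ∧ ∀ x, tilt (iw J u) (lin v) x = c * iw J u' x := by
  have hsq : ∀ i, (Real.cosh (v i) + u i * Real.sinh (v i)) ^ 2 -
      (Real.sinh (v i) + u i * Real.cosh (v i)) ^ 2 = 1 - u i ^ 2 := by
    intro i
    have := Real.cosh_sq_sub_sinh_sq (v i)
    linear_combination (1 - u i ^ 2) * this
  refine ⟨fun i => (Real.sinh (v i) + u i * Real.cosh (v i)) /
    (Real.cosh (v i) + u i * Real.sinh (v i)), fun i => ?_, fun i hi => ?_, fun i hi => ?_,
    ∏ i, (Real.cosh (v i) + u i * Real.sinh (v i)), Finset.prod_pos fun i _ => JIw_den (hu i) _,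
    fun x => ?_⟩
  · have hd := JIw_den (hu i) (v i)
    rw [abs_div, abs_of_pos hd, div_le_one hd]
    refine abs_le_of_sq_le_sq ?_ hd.le
    have h1 := hsq i
    have h2 : u i ^ 2 ≤ 1 := by
      rw [← sq_abs]
      have := abs_nonneg (u i)
      have := hu i
      nlinarith
    linarith
  · have hd := JIw_den (hu i) (v i)
    beta_reduce
    rw [div_eq_iff hd.ne']
    have h2 : u i ^ 2 = 1 := by rw [← sq_abs, hi]; norm_num
    linear_combination (- Real.sinh (v i)) * h2
  · have hd := JIw_den (hu i) (v i)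
    beta_reduce
    rw [abs_div, abs_of_pos hd, div_lt_one hd]
    refine abs_lt_of_sq_lt_sq ?_ hd.le
    have h1 := hsq i
    have h2 : u i ^ 2 < 1 := by
      rw [← sq_abs]
      have := abs_nonneg (u i)
      nlinarith
    linarith
  · unfold tilt iw lin
    rw [Real.exp_sum, mul_assoc, ← Finset.prod_mul_distrib,
      Finset.prod_congr rfl fun i _ => JIw_one (hu i) (v i) (x i), Finset.prod_mul_distrib]
    ring

/-- changing the interaction is a tilt -/
theorem iw_time (J E : Matrix (Fin n) (Fin n) ℝ) (u : Fin n → ℝ) (s : ℝ) :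
    iw (J + s • E) u = tilt (iw J u) (fun x => s * (quad E x / 2)) := by
  funext x
  unfold iw tilt
  rw [JIw_quad_add, show (quad J x + s * quad E x) / 2 = quad J x / 2 + s * (quad E x / 2) by ring,
    Real.exp_add]
  ring

/-- the weight with external fields is an Ising weight with `u_i = tanh h_i` -/
theorem wt_eq_iw (J : Matrix (Fin n) (Fin n) ℝ) (h : Fin n → ℝ) (x : Conf n) :
    wt J h x = (∏ i, Real.cosh (h i)) * iw J (fun i => Real.tanh (h i)) x := by
  unfold wt iw lin
  rw [Real.exp_add, Real.exp_sum]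
  have e : ∀ i, Real.exp (h i * sg (x i)) = Real.cosh (h i) * (1 + Real.tanh (h i) * sg (x i)) := by
    intro i
    have hc := (Real.cosh_pos (h i)).ne'
    rw [Real.tanh_eq_sinh_div_cosh]
    cases x i
    · simp only [sg]
      norm_num
      rw [← Real.cosh_sub_sinh]
      field_simp
      ring
    · simp only [sg]
      norm_num
      rw [← Real.cosh_add_sinh]
      field_simp
  rw [Finset.prod_congr rfl fun i _ => e i, Finset.prod_mul_distrib]
  ring

/-- only the off-diagonal part of the interaction matters -/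
theorem iw_diag (J J' : Matrix (Fin n) (Fin n) ℝ) (hJ : ∀ i j, i ≠ j → J i j = J' i j)
    (u : Fin n → ℝ) : ∃ c : ℝ, 0 < c ∧ ∀ x, iw J u x = c * iw J' u x := by
  refine ⟨Real.exp ((∑ i, (J i i - J' i i)) / 2), Real.exp_pos _, fun x => ?_⟩
  have e : quad J x = quad J' x + ∑ i, (J i i - J' i i) := by
    unfold quad
    rw [← Finset.sum_add_distrib]
    refine Finset.sum_congr rfl fun i _ => ?_
    rw [← sub_eq_iff_eq_add', ← Finset.sum_sub_distrib, Finset.sum_eq_single i]
    · have hs : sg (x i) * sg (x i) = 1 := by cases x i <;> simp [sg]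
      linear_combination (J i i - J' i i) * hs
    · intro j _ hj
      rw [hJ i j hj.symm, sub_self]
    · intro h
      exact absurd (Finset.mem_univ i) h
  unfold iw
  rw [e, add_div, Real.exp_add]
  ring

end SKG
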