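import Pool.Agent.Lib.MP_c42713_pr.LocDefs
import Pool.Agent.Lib.MP_c42713_pr.JDiag
import Pool.Agent.Lib.MP_c42713_pr.JIw

namespace SKG

variable {n : ℕ}

theorem JCmpA_sg_mul (a b : Bool) : sg a * sg b = if b = a then 1 else -1 := by
  cases a <;> cases b <;> simp [sg]

theorem JCmpA_sg_abs (b : Bool) : |sg b| = 1 := by
  cases b <;> simp [sg]

theorem JCmpA_pos {a : ℝ} (ha : |a| < 1) (b : Bool) : 0 < 1 + a * sg b := by
  have h := abs_lt.1 ha
  cases b
  · simp only [sg]
    norm_num
    linarith [h.2]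
  · simp only [sg]
    norm_num
    linarith [h.1]

/-- pinning an Ising weight gives an Ising weight -/
theorem pw_iw (J : Matrix (Fin n) (Fin n) ℝ) {u : Fin n → ℝ} (hu : ∀ i, |u i| < 1)
    (T : Finset (Fin n)) (x : Conf n) :
    ∃ u', Cube u' ∧ ∃ c : ℝ, 0 < c ∧ ∀ y, pw (iw J u) T x y = c * iw J u' y := by
  classical
  refine ⟨fun i => if i ∈ T then u i else sg (x i), ?_,
    ∏ i, (if i ∈ T then 1 else (1 + u i * sg (x i)) / 2), ?_, ?_⟩
  · intro i
    dsimp only
    split_ifs
    · exact (hu i).le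
    · exact (JCmpA_sg_abs _).le
  · refine Finset.prod_pos fun i _ => ?_
    split_ifs
    · exact one_pos
    · exact half_pos (JCmpA_pos (hu i) _)
  · intro y
    unfold pw
    split_ifs with h
    · unfold iw
      rw [mul_left_comm, ← Finset.prod_mul_distrib]
      congr 1
      refine Finset.prod_congr rfl fun i _ => ?_
      dsimp only
      split_ifs with hi
      · rw [one_mul]
      · rw [h i hi, JCmpA_sg_mul, if_pos rfl]
        ring
    · have h' : ∃ k, k ∉ T ∧ y k ≠ x k := by
        by_contra hc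
        refine h fun k hk => ?_
        by_contra hk2
        exact hc ⟨k, hk, hk2⟩
      obtain ⟨k, hk, hk2⟩ := h'
      unfold iw
      rw [Finset.prod_eq_zero (f := fun i => 1 + (if i ∈ T then u i else sg (x i)) * sg (y i))
        (Finset.mem_univ k), mul_zero, mul_zero]
      rw [if_neg hk, JCmpA_sg_mul, if_neg hk2]
      norm_num

theorem iw_pos (J : Matrix (Fin n) (Fin n) ℝ) {u : Fin n → ℝ} (hu : ∀ i, |u i| < 1) (x : Conf n) :
    0 < iw J u x :=
  mul_pos (Real.exp_pos _) (Finset.prod_pos fun i _ => JCmpA_pos (hu i) _)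

/-- sums of products -/
theorem JCmpA_sum (g : Fin n → Bool → ℝ) : ∑ y : Conf n, ∏ k, g k (y k) = ∏ k, ∑ b, g k b := by
  have h := Finset.prod_univ_sum (κ := fun _ : Fin n => Bool)
    (fun _ : Fin n => (Finset.univ : Finset Bool)) g
  rw [Fintype.piFinset_univ] at h
  exact h.symm

/-- a spin as a product -/
theorem JCmpA_S (i : Fin n) (y : Conf n) : S i y = ∏ k, (if k = i then sg (y k) else 1) := by
  rw [Finset.prod_ite_eq' Finset.univ i (fun k => sg (y k)), if_pos (Finset.mem_univ i)]
  rfl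

/-- the spins of a product weight are uncorrelated -/
theorem JCmpA_cov (g : Fin n → Bool → ℝ) (hZ : 0 < ∑ y : Conf n, ∏ k, g k (y k)) {i j : Fin n}
    (hij : i ≠ j) : Cv (fun y : Conf n => ∏ k, g k (y k)) (S i) (S j) = 0 := by
  obtain ⟨Z, hZe⟩ : ∃ Z : ℝ, Z = ∑ y : Conf n, ∏ k, g k (y k) := ⟨_, rfl⟩
  have e1 : ∀ l : Fin n, ∑ y : Conf n, (∏ k, g k (y k)) * S l y =
      ∏ k, ∑ b, g k b * (if k = l then sg b else 1) := by
    intro l
    rw [← JCmpA_sum (fun k b => g k b * (if k = l then sg b else 1))]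
    refine Finset.sum_congr rfl fun y _ => ?_
    rw [JCmpA_S, ← Finset.prod_mul_distrib]
  have e2 : ∑ y : Conf n, (∏ k, g k (y k)) * (S i y * S j y) =
      ∏ k, ∑ b, g k b * ((if k = i then sg b else 1) * (if k = j then sg b else 1)) := by
    rw [← JCmpA_sum (fun k b => g k b * ((if k = i then sg b else 1) *
      (if k = j then sg b else 1)))]
    refine Finset.sum_congr rfl fun y _ => ?_
    rw [JCmpA_S, JCmpA_S, ← Finset.prod_mul_distrib, ← Finset.prod_mul_distrib]
  have e3 : (∑ y : Conf n, ∏ k, g k (y k)) *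
      (∑ y : Conf n, (∏ k, g k (y k)) * (S i y * S j y)) =
      (∑ y : Conf n, (∏ k, g k (y k)) * S i y) * (∑ y : Conf n, (∏ k, g k (y k)) * S j y) := by
    rw [e1, e1, e2, JCmpA_sum, ← Finset.prod_mul_distrib, ← Finset.prod_mul_distrib]
    refine Finset.prod_congr rfl fun k _ => ?_
    by_cases hi : k = i
    · have hj : k ≠ j := fun h => hij (hi.symm.trans h)
      simp only [if_pos hi, if_neg hj, mul_one]
      ring
    · by_cases hj : k = j
      · simp only [if_neg hi, if_pos hj, one_mul, mul_one]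
      · simp only [if_neg hi, if_neg hj, mul_one]
  show (∑ y : Conf n, (∏ k, g k (y k)) * (S i y * S j y)) / (∑ y : Conf n, ∏ k, g k (y k)) -
    (∑ y : Conf n, (∏ k, g k (y k)) * S i y) / (∑ y : Conf n, ∏ k, g k (y k)) *
      ((∑ y : Conf n, (∏ k, g k (y k)) * S j y) / (∑ y : Conf n, ∏ k, g k (y k))) = 0
  rw [← hZe] at hZ e3 ⊢
  have hZ0 := hZ.ne'
  rw [div_mul_div_comm, ← e3, mul_div_mul_left _ _ hZ0, sub_self]

/-- the interaction energy of a configuration which agrees with `x` off `T` -/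
theorem JCmpA_quad (J : Matrix (Fin n) (Fin n) ℝ) (T : Finset (Fin n))
    (hJ : ∀ i ∈ T, ∀ j ∈ T, J i j = 0) (x : Conf n) : ∃ (C : ℝ) (a : Fin n → ℝ), ∀ y : Conf n,
    (∀ k, k ∉ T → y k = x k) → quad J y = C + ∑ i, (if i ∈ T then a i * sg (y i) else 0) := by
  classical
  refine ⟨∑ i, ∑ j, (if i ∈ T ∨ j ∈ T then 0 else J i j * sg (x i) * sg (x j)),
    fun i => ∑ j, (if j ∈ T then 0 else (J i j + J j i) * sg (x j)), ?_⟩
  intro y hy
  unfold quad
  have e1 : ∀ i j, J i j * sg (y i) * sg (y j) =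
      (if i ∈ T ∨ j ∈ T then 0 else J i j * sg (x i) * sg (x j)) +
      ((if i ∈ T then (if j ∈ T then 0 else J i j * sg (x j) * sg (y i)) else 0) +
       (if j ∈ T then (if i ∈ T then 0 else J i j * sg (x i) * sg (y j)) else 0)) := by
    intro i j
    by_cases hi : i ∈ T
    · by_cases hj : j ∈ T
      · rw [hJ i hi j hj]
        simp [hi, hj]
      · rw [hy j hj]
        simp only [hi, hj, if_true, if_false, true_or]
        ring
    · by_cases hj : j ∈ T
      · rw [hy i hi]
        simp only [hi, hj, if_true, if_false, or_true]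
        ring
      · rw [hy i hi, hy j hj]
        simp [hi, hj]
  have e2 : ∑ i, ∑ j, (if j ∈ T then (if i ∈ T then 0 else J i j * sg (x i) * sg (y j)) else 0) =
      ∑ i, ∑ j, (if i ∈ T then (if j ∈ T then 0 else J j i * sg (x j) * sg (y i)) else 0) := by
    rw [Finset.sum_comm]
  rw [Finset.sum_congr rfl fun i _ => Finset.sum_congr rfl fun j _ => e1 i j]
  simp only [Finset.sum_add_distrib]
  rw [e2]
  congr 1
  rw [← Finset.sum_add_distrib]
  refine Finset.sum_congr rfl fun i _ => ?_
  rw [← Finset.sum_add_distrib]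
  split_ifs with hi
  · rw [Finset.sum_mul]
    refine Finset.sum_congr rfl fun j _ => ?_
    split_ifs
    · ring
    · ring
  · simp

/-- covariances of spins which do not interact with each other: if `J` vanishes on `T0 × T0`
then the pinned weights satisfy the bound with `B = 1` -/
theorem PB_free (J : Matrix (Fin n) (Fin n) ℝ) (T0 : Finset (Fin n))
    (hJ : ∀ i ∈ T0, ∀ j ∈ T0, J i j = 0) {u : Fin n → ℝ} (hu : ∀ i, |u i| < 1) :
    PB (iw J u) T0 1 := by
  classical
  intro T hT x ξ
  obtain ⟨C, a, hq⟩ := JCmpA_quad J T (fun i hi j hj => hJ i (hT hi) j (hT hj)) x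
  -- the pinned weight is a weight
  obtain ⟨u', hu', c, hc, hpw⟩ := pw_iw J hu T x
  have hW : IsW (pw (iw J u) T x) := by
    have h1 := isW_iw J hu'
    refine ⟨fun y => ?_, ?_⟩
    · rw [hpw]
      exact mul_nonneg hc.le (h1.nonneg y)
    · rw [Finset.sum_congr rfl fun y _ => hpw y, ← Finset.mul_sum]
      exact mul_pos hc h1.pos
  -- product structure
  obtain ⟨g, hg⟩ : ∃ g : Fin n → Bool → ℝ, g = fun i b => if i ∈ T then
      Real.exp (a i * sg b / 2) * (1 + u i * sg b) else
      (if b = x i then 1 + u i * sg b else 0) := ⟨_, rfl⟩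
  have hprod : pw (iw J u) T x = fun y => Real.exp (C / 2) * ∏ k, g k (y k) := by
    funext y
    unfold pw
    split_ifs with h
    · unfold iw
      rw [hq y h, add_div, Real.exp_add, mul_assoc, Finset.sum_div, Real.exp_sum,
        ← Finset.prod_mul_distrib]
      congr 1
      refine Finset.prod_congr rfl fun i _ => ?_
      rw [hg]
      dsimp only
      split_ifs with hi h2
      · rfl
      · rw [zero_div, Real.exp_zero, one_mul]
      · exact absurd (h i hi) h2
    · have h' : ∃ k, k ∉ T ∧ y k ≠ x k := by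
        by_contra hc2
        refine h fun k hk => ?_
        by_contra hk2
        exact hc2 ⟨k, hk, hk2⟩
      obtain ⟨k, hk, hk2⟩ := h'
      rw [Finset.prod_eq_zero (Finset.mem_univ k), mul_zero]
      rw [hg]
      dsimp only
      rw [if_neg hk, if_neg hk2]
  have hexp : Real.exp (C / 2) ≠ 0 := (Real.exp_pos _).ne'
  have hZ : 0 < ∑ y : Conf n, ∏ k, g k (y k) := by
    have h1 := hW.pos
    rw [hprod, ← Finset.mul_sum] at h1
    exact (mul_pos_iff_of_pos_left (Real.exp_pos _)).1 h1
  have hcov : ∀ i j : Fin n, i ≠ j → cv2 (pw (iw J u) T x) i j = 0 := by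
    intro i j hij
    unfold cv2
    rw [hprod, Cv_scale hexp]
    exact JCmpA_cov g hZ hij
  have e : Cv (pw (iw J u) T x) (lin ξ) (lin ξ) =
      ∑ i, ∑ j, ξ i * (ξ j * cv2 (pw (iw J u) T x) i j) := by
    have el : lin ξ = fun x => ∑ i, ξ i * S i x := by
      funext x
      rfl
    rw [el, Cv_sum_left]
    refine Finset.sum_congr rfl fun i _ => ?_
    rw [Cv_smul_left, Cv_sum_right, Finset.mul_sum]
    refine Finset.sum_congr rfl fun j _ => ?_
    rw [Cv_smul_right]
    rfl
  rw [e, one_mul]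
  refine le_of_eq (Finset.sum_congr rfl fun i _ => ?_)
  rw [Finset.sum_eq_single i]
  · rw [cv2_self hW]
    ring
  · intro j _ hj
    rw [hcov i j hj.symm]
    ring
  · intro h
    exact absurd (Finset.mem_univ i) h

end SKG
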