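import Mathlib

namespace SKG

private theorem JComb_count {n : ℕ} (K : ℕ) (F : Finset (Fin n) → ℝ) (T : Finset (Fin n)) :
    ∑ i ∈ T, ∑ S ∈ Finset.powersetCard K (T.erase i), F S
      = ((T.card : ℝ) - K) * ∑ S ∈ Finset.powersetCard K T, F S := by
  rw [Finset.sum_comm' (s := T) (t := fun i => Finset.powersetCard K (T.erase i))
    (t' := Finset.powersetCard K T) (s' := fun S => T \ S)]
  · rw [Finset.mul_sum]
    apply Finset.sum_congr rfl
    intro S hS
    rw [Finset.mem_powersetCard] at hS
    rw [Finset.sum_const, nsmul_eq_mul, Finset.card_sdiff_of_subset hS.1, hS.2,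
      Nat.cast_sub (by rw [← hS.2]; exact Finset.card_le_card hS.1)]
  · intro i S
    rw [Finset.mem_powersetCard, Finset.mem_powersetCard, Finset.mem_sdiff,
      Finset.subset_erase]
    tauto

private theorem JComb_aux {n : ℕ} (K : ℕ) (F : Finset (Fin n) → ℝ)
    (h : ∀ T : Finset (Fin n), ((T.card : ℝ) - K) * F T ≤ ∑ i ∈ T, F (T.erase i)) :
    ∀ m : ℕ, ∀ T : Finset (Fin n), T.card = K + m →
      F T ≤ ∑ S ∈ Finset.powersetCard K T, F S := by
  intro m
  induction m with
  | zero =>
    intro T hT
    have hKT : K = T.card := by omega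
    have : Finset.powersetCard K T = {T} := by
      rw [hKT]
      exact Finset.powersetCard_self T
    rw [this, Finset.sum_singleton]
  | succ m ih =>
    intro T hT
    have h1 := h T
    have h2 : ∑ i ∈ T, F (T.erase i)
        ≤ ∑ i ∈ T, ∑ S ∈ Finset.powersetCard K (T.erase i), F S := by
      apply Finset.sum_le_sum
      intro i hi
      apply ih
      rw [Finset.card_erase_of_mem hi, hT]
      omega
    rw [JComb_count] at h2
    have hpos : (0 : ℝ) < (T.card : ℝ) - K := by
      rw [hT]; push_cast; linarith [Nat.cast_nonneg (α := ℝ) m]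
    exact le_of_mul_le_mul_left (le_trans h1 h2) hpos

/-- combinatorial iteration: the products telescope to `1` -/
theorem comb_iter {n : ℕ} (K : ℕ) (hK : K ≤ n) (F : Finset (Fin n) → ℝ) (hF : ∀ T, 0 ≤ F T)
    (h : ∀ T : Finset (Fin n), ((T.card : ℝ) - K) * F T ≤ ∑ i ∈ T, F (T.erase i)) :
    F Finset.univ ≤ ∑ T ∈ Finset.powersetCard K (Finset.univ : Finset (Fin n)), F T := by
  apply JComb_aux K F h (n - K)
  rw [Finset.card_univ, Fintype.card_fin]
  omega

/-- the case `B = 1` (tensorisation) -/
theorem comb_prod {n : ℕ} (F : Finset (Fin n) → ℝ) (T0 : Finset (Fin n)) (h0 : F ∅ = 0)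
    (h : ∀ T ⊆ T0, ((T.card : ℝ) - 1) * F T ≤ ∑ i ∈ T, F (T.erase i)) :
    F T0 ≤ ∑ i ∈ T0, F {i} := by
  have key : ∀ m : ℕ, ∀ T ⊆ T0, T.card = m → F T ≤ ∑ i ∈ T, F {i} := by
    intro m
    induction m with
    | zero =>
      intro T _ hc
      rw [Finset.card_eq_zero] at hc
      rw [hc, h0]; simp
    | succ m ih =>
      intro T hT hc
      rcases Nat.eq_zero_or_pos m with hm | hm
      · subst hm
        obtain ⟨a, rfl⟩ := Finset.card_eq_one.1 (by simpa using hc)
        simp
      · have h1 := h T hT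
        have h2 : ∑ i ∈ T, F (T.erase i) ≤ ∑ i ∈ T, ∑ j ∈ T.erase i, F {j} := by
          apply Finset.sum_le_sum
          intro i hi
          apply ih
          · exact (Finset.erase_subset _ _).trans hT
          · rw [Finset.card_erase_of_mem hi, hc]; omega
        have h3 : ∑ i ∈ T, ∑ j ∈ T.erase i, F {j} = ((T.card : ℝ) - 1) * ∑ j ∈ T, F {j} := by
          have : ∀ i ∈ T, ∑ j ∈ T.erase i, F {j} = ∑ j ∈ T, F {j} - F {i} := by
            intro i hi
            rw [← Finset.sum_erase_add T (fun j => F {j}) hi]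
            ring
          rw [Finset.sum_congr rfl this, Finset.sum_sub_distrib, Finset.sum_const,
            nsmul_eq_mul]
          ring
        rw [h3] at h2
        have hpos : (0 : ℝ) < (T.card : ℝ) - 1 := by
          rw [hc]; push_cast
          have : (0 : ℝ) < m := by exact_mod_cast hm
          linarith
        exact le_of_mul_le_mul_left (le_trans h1 h2) hpos
  exact key _ T0 (Finset.Subset.refl _) rfl

end SKG
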