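import Pool.Agent.Lib.MP_c42713_pr.JLocB
import Pool.Agent.Lib.MP_c42713_pr.JComb
import Pool.Agent.Lib.MP_c42713_pr.JCmpA

namespace SKG

variable {n : ℕ}

/-- comparison of local variances for comparable weights -/
theorem FS_compare {w w' : Conf n → ℝ} (hw : ∀ x, 0 < w x) (hw' : ∀ x, 0 < w' x) (c : ℝ)
    (hc : 0 < c) (h : ∀ x, w x ≤ c * w' x) (T : Finset (Fin n)) (f : Conf n → ℝ) :
    FS w T f ≤ c * FS w' T f := by
  have _hc := hc
  have _hw' := hw'
  refine (FS_le hw T f (cE w' T f) fun x y hxy => cE_congr w' T f hxy).trans ?_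
  unfold FS
  rw [Finset.mul_sum]
  refine Finset.sum_le_sum fun x _ => ?_
  rw [← mul_assoc]
  exact mul_le_mul_of_nonneg_right (h x) (sq_nonneg _)

theorem JCmp_empty (w : Conf n → ℝ) (hw : ∀ x, 0 < w x) (f : Conf n → ℝ) : FS w ∅ f = 0 := by
  classical
  unfold FS
  refine Finset.sum_eq_zero fun x _ => ?_
  have hp : pw w ∅ x = fun y => if y = x then w y else 0 := by
    funext y
    unfold pw
    by_cases h : y = x
    · rw [if_pos h, if_pos (fun k _ => congrFun h k)]
    · rw [if_neg h, if_neg]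
      intro h2
      exact h (funext fun k => h2 k (Finset.notMem_empty k))
  have hE : cE w ∅ f x = f x := by
    unfold cE Ex
    rw [hp]
    have e1 : ∑ y, (if y = x then w y else 0) * f y = w x * f x := by
      rw [Finset.sum_eq_single x]
      · rw [if_pos rfl]
      · intro y _ hy
        rw [if_neg hy, zero_mul]
      · intro h
        exact absurd (Finset.mem_univ x) h
    have e2 : ∑ y, (if y = x then w y else 0) = w x := by
      rw [Finset.sum_ite_eq' Finset.univ x w, if_pos (Finset.mem_univ x)]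
    rw [e1, e2, mul_comm, mul_div_assoc, div_self (hw x).ne', mul_one]
  rw [hE]
  ring

open Classical in
/-- the interaction with the entries in `T × T` removed -/
noncomputable def JCmp_J (J : Matrix (Fin n) (Fin n) ℝ) (T : Finset (Fin n)) :
    Matrix (Fin n) (Fin n) ℝ := fun i j => if i ∈ T ∧ j ∈ T then 0 else J i j

theorem JCmp_quad (J : Matrix (Fin n) (Fin n) ℝ) (hJ : ∀ i j, |J i j| ≤ 1) (T : Finset (Fin n))
    (x : Conf n) : |quad J x - quad (JCmp_J J T) x| ≤ (T.card : ℝ) ^ 2 := by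
  classical
  have e1 : quad J x - quad (JCmp_J J T) x =
      ∑ i ∈ T, ∑ j ∈ T, J i j * sg (x i) * sg (x j) := by
    unfold quad
    rw [← Finset.sum_sub_distrib, ← Finset.sum_subset (Finset.subset_univ T)]
    · refine Finset.sum_congr rfl fun i hi => ?_
      rw [← Finset.sum_sub_distrib, ← Finset.sum_subset (Finset.subset_univ T)]
      · refine Finset.sum_congr rfl fun j hj => ?_
        unfold JCmp_J
        rw [if_pos ⟨hi, hj⟩]
        ring
      · intro j _ hj
        unfold JCmp_J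
        rw [if_neg (fun h => hj h.2), sub_self]
    · intro i _ hi
      rw [← Finset.sum_sub_distrib]
      refine Finset.sum_eq_zero fun j _ => ?_
      unfold JCmp_J
      rw [if_neg (fun h => hi h.1), sub_self]
  rw [e1]
  refine (Finset.abs_sum_le_sum_abs _ _).trans ?_
  have e2 : ∀ i ∈ T, |∑ j ∈ T, J i j * sg (x i) * sg (x j)| ≤ T.card := by
    intro i _
    refine (Finset.abs_sum_le_sum_abs _ _).trans ?_
    have e3 : ∀ j ∈ T, |J i j * sg (x i) * sg (x j)| ≤ 1 := by
      intro j _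
      rw [abs_mul, abs_mul]
      have h1 : ∀ b : Bool, |sg b| = 1 := by
        intro b
        cases b <;> simp [sg]
      rw [h1, h1, mul_one, mul_one]
      exact hJ i j
    refine (Finset.sum_le_sum e3).trans ?_
    rw [Finset.sum_const, nsmul_eq_mul, mul_one]
  refine (Finset.sum_le_sum e2).trans ?_
  rw [Finset.sum_const, nsmul_eq_mul, pow_two]

theorem JCmp_exp {a b c : ℝ} (h : |a - b| ≤ c) {P : ℝ} (hP : 0 ≤ P) :
    Real.exp (a / 2) * P ≤ Real.exp (c / 2) * (Real.exp (b / 2) * P) := by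
  rw [← mul_assoc, ← Real.exp_add]
  refine mul_le_mul_of_nonneg_right (Real.exp_le_exp.2 ?_) hP
  have := (abs_le.1 h).2
  linarith

/-- small blocks: `FS T ≤ exp(K^2) ∑_{i∈T} FS {i}` when the couplings are at most `1` -/
theorem FS_block (J : Matrix (Fin n) (Fin n) ℝ) (hJ : ∀ i j, |J i j| ≤ 1) {u : Fin n → ℝ}
    (hu : ∀ i, |u i| < 1) (T : Finset (Fin n)) (f : Conf n → ℝ) :
    FS (iw J u) T f ≤ Real.exp ((T.card : ℝ) ^ 2) * ∑ i ∈ T, FS (iw J u) {i} f := by
  classical
  obtain ⟨J', hJ'⟩ : ∃ J' : Matrix (Fin n) (Fin n) ℝ, J' = JCmp_J J T := ⟨_, rfl⟩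
  obtain ⟨c, hc⟩ : ∃ c : ℝ, c = Real.exp ((T.card : ℝ) ^ 2 / 2) := ⟨_, rfl⟩
  have hc0 : 0 < c := by rw [hc]; exact Real.exp_pos _
  have hcc : Real.exp ((T.card : ℝ) ^ 2) = c * c := by
    rw [hc, ← Real.exp_add]
    congr 1
    ring
  have hP : ∀ x : Conf n, 0 ≤ ∏ i, (1 + u i * sg (x i)) := fun x =>
    Finset.prod_nonneg fun i _ => by
      have h1 := abs_lt.1 (hu i)
      cases x i
      · simp only [sg]
        norm_num
        linarith [h1.2]
      · simp only [sg]
        norm_num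
        linarith [h1.1]
  have hw := iw_pos J hu
  have hw' := iw_pos J' hu
  have h1 : ∀ x, iw J u x ≤ c * iw J' u x := by
    intro x
    rw [hc, hJ']
    exact JCmp_exp (JCmp_quad J hJ T x) (hP x)
  have h2 : ∀ x, iw J' u x ≤ c * iw J u x := by
    intro x
    rw [hc, hJ']
    exact JCmp_exp (by rw [abs_sub_comm]; exact JCmp_quad J hJ T x) (hP x)
  have h3 : FS (iw J' u) T f ≤ ∑ i ∈ T, FS (iw J' u) {i} f := by
    refine comb_prod (fun T' => FS (iw J' u) T' f) T (JCmp_empty _ hw' f) ?_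
    intro T' hT'
    refine FS_local hw' T 1 zero_le_one ?_ T' hT' f
    refine PB_free J' T (fun i hi j hj => ?_) hu
    rw [hJ']
    unfold JCmp_J
    rw [if_pos ⟨hi, hj⟩]
  calc FS (iw J u) T f ≤ c * FS (iw J' u) T f := FS_compare hw hw' c hc0 h1 T f
    _ ≤ c * ∑ i ∈ T, FS (iw J' u) {i} f := mul_le_mul_of_nonneg_left h3 hc0.le
    _ ≤ c * ∑ i ∈ T, c * FS (iw J u) {i} f :=
        mul_le_mul_of_nonneg_left (Finset.sum_le_sum fun i _ =>
          FS_compare hw' hw c hc0 h2 {i} f) hc0.le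
    _ = Real.exp ((T.card : ℝ) ^ 2) * ∑ i ∈ T, FS (iw J u) {i} f := by
        rw [hcc, ← Finset.mul_sum, mul_assoc]

end SKG
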