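import Pool.Agent.Lib.MP_c42713_pr.JFact

namespace SKG

variable {n d : ℕ}

private theorem JCont_Zs (J0 E : Matrix (Fin n) (Fin n) ℝ) {X : Type*} [TopologicalSpace X] {t : X → ℝ}
    {u : X → Fin n → ℝ} (ht : Continuous t) (hu : Continuous u) :
    Continuous fun x => Zs (J0 + t x • E) (u x) := by
  unfold Zs iw quad
  refine continuous_finset_sum _ fun y _ => ?_
  refine Continuous.mul (Real.continuous_exp.comp (Continuous.div_const
    (continuous_finset_sum _ fun i _ => continuous_finset_sum _ fun j _ => ?_) _))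
    (continuous_finset_prod _ fun i _ => ?_)
  · simp only [Matrix.add_apply, Matrix.smul_apply, smul_eq_mul]
    fun_prop
  · have : Continuous fun x => u x i := (continuous_apply i).comp hu
    fun_prop

/-- joint continuity of the desingularised form up to the boundary of the cube -/
theorem cont_gg (J0 E : Matrix (Fin n) (Fin n) ℝ) (a : Fin d → ℝ → ℝ)
    (ha : ∀ k, ContinuousOn (a k) (Set.Icc 0 1)) :
    ContinuousOn (fun p : ℝ × ((Fin n → ℝ) × (Fin n → ℝ)) =>
        gg (J0 + p.1 • E) (fun k => a k p.1) p.2.1 p.2.2)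
      (Set.Icc 0 1 ×ˢ ({u | Cube u} ×ˢ Set.univ)) := by
  set D : Set (ℝ × ((Fin n → ℝ) × (Fin n → ℝ))) := Set.Icc 0 1 ×ˢ ({u | Cube u} ×ˢ Set.univ) with hD
  have ct : Continuous fun p : ℝ × ((Fin n → ℝ) × (Fin n → ℝ)) => p.1 := continuous_fst
  have cu : Continuous fun p : ℝ × ((Fin n → ℝ) × (Fin n → ℝ)) => p.2.1 := continuous_fst.comp continuous_snd
  have cη : Continuous fun p : ℝ × ((Fin n → ℝ) × (Fin n → ℝ)) => p.2.2 := continuous_snd.comp continuous_snd
  have cui : ∀ i, Continuous fun p : ℝ × ((Fin n → ℝ) × (Fin n → ℝ)) => p.2.1 i :=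
    fun i => (continuous_apply i).comp cu
  have cηi : ∀ i, Continuous fun p : ℝ × ((Fin n → ℝ) × (Fin n → ℝ)) => p.2.2 i :=
    fun i => (continuous_apply i).comp cη
  have hZ : ∀ p ∈ D, Zs (J0 + p.1 • E) p.2.1 ≠ 0 := by
    rintro p ⟨-, hp, -⟩
    exact (Zs_pos _ hp).ne'
  have hcs : ∀ i, Continuous fun p : ℝ × ((Fin n → ℝ) × (Fin n → ℝ)) => Real.sqrt (1 - p.2.1 i ^ 2) := by
    intro i
    have := cui i
    fun_prop
  have hdd : ∀ i, ContinuousOn (fun p : ℝ × ((Fin n → ℝ) × (Fin n → ℝ)) => dd (J0 + p.1 • E) p.2.1 i) D := by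
    intro i
    unfold dd
    refine ContinuousOn.div (Continuous.continuousOn ?_) (Continuous.continuousOn ?_)
      (fun p hp => pow_ne_zero 2 (hZ p hp))
    · exact (JCont_Zs J0 E ct (cu.update i continuous_const)).mul
        (JCont_Zs J0 E ct (cu.update i continuous_const))
    · exact (JCont_Zs J0 E ct cu).pow 2
  have hcc : ∀ i j, ContinuousOn (fun p : ℝ × ((Fin n → ℝ) × (Fin n → ℝ)) => cc (J0 + p.1 • E) p.2.1 i j) D := by
    intro i j
    unfold cc
    by_cases h : i = j
    · simp only [if_pos h]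
      exact hdd i
    · simp only [if_neg h]
      refine ContinuousOn.div (Continuous.continuousOn ?_) (Continuous.continuousOn ?_)
        (fun p hp => mul_ne_zero (by norm_num) (pow_ne_zero 2 (hZ p hp)))
      · refine Continuous.mul ((hcs i).mul (hcs j)) (Continuous.sub (Continuous.mul ?_ ?_) (Continuous.mul ?_ ?_)) <;>
        exact JCont_Zs J0 E ct ((cu.update i continuous_const).update j continuous_const)
      · exact continuous_const.mul ((JCont_Zs J0 E ct cu).pow 2)
  have hak : ∀ k, ContinuousOn (fun p : ℝ × ((Fin n → ℝ) × (Fin n → ℝ)) => a k p.1) D := by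
    intro k
    refine (ha k).comp ct.continuousOn ?_
    rintro p ⟨hp, -⟩
    exact hp
  unfold gg
  refine ContinuousOn.sub (continuousOn_finset_sum _ fun i _ => ?_)
    (continuousOn_finset_sum _ fun i _ => continuousOn_finset_sum _ fun j _ => ?_)
  · refine ContinuousOn.mul ((cηi i).pow 2).continuousOn (ContinuousOn.mul (hdd i) ?_)
    unfold omh
    refine continuousOn_finset_sum _ fun k _ => ?_
    refine ContinuousOn.mul (hak k) (ContinuousOn.pow (ContinuousOn.mul ?_ (hdd i)) _)
    exact (continuous_const.sub ((cui i).pow 2)).continuousOn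
  · exact ContinuousOn.mul ((cηi i).mul (cηi j)).continuousOn (hcc i j)

/-- `gg` is a quadratic form in `η` -/
theorem gg_smul (J : Matrix (Fin n) (Fin n) ℝ) (a : Fin d → ℝ) (u η : Fin n → ℝ) (s : ℝ) :
    gg J a u (fun i => s * η i) = s ^ 2 * gg J a u η := by
  unfold gg
  rw [mul_sub, Finset.mul_sum, Finset.mul_sum]
  congr 1
  · refine Finset.sum_congr rfl fun i _ => ?_
    ring
  · refine Finset.sum_congr rfl fun i _ => ?_
    rw [Finset.mul_sum]
    refine Finset.sum_congr rfl fun j _ => ?_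
    ring

/-- the relevant compact set -/
theorem isCompact_cube_sphere (n : ℕ) :
    IsCompact ({u : Fin n → ℝ | Cube u} ×ˢ {η : Fin n → ℝ | ∑ i, η i ^ 2 = 1}) := by
  have h1 : IsCompact (Set.pi Set.univ fun _ : Fin n => Set.Icc (-1 : ℝ) 1) :=
    isCompact_univ_pi fun _ => isCompact_Icc
  have h2 : {u : Fin n → ℝ | Cube u} = Set.pi Set.univ fun _ : Fin n => Set.Icc (-1 : ℝ) 1 := by
    ext u
    simp only [Set.mem_setOf_eq, Set.mem_pi, Set.mem_univ, forall_true_left, Set.mem_Icc]
    exact forall_congr' fun i => abs_le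
  refine IsCompact.prod (h2 ▸ h1) (h1.of_isClosed_subset ?_ ?_)
  · exact isClosed_eq (continuous_finset_sum _ fun i _ => (continuous_apply i).pow 2) continuous_const
  · intro η hη i _
    rw [Set.mem_Icc, ← abs_le, ← sq_le_one_iff_abs_le_one]
    have hη' : ∑ i, η i ^ 2 = 1 := hη
    rw [← hη']
    exact Finset.single_le_sum (f := fun i => η i ^ 2) (fun j _ => sq_nonneg _) (Finset.mem_univ i)

end SKG
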