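import Pool.Agent.Lib.MP_c42713_pr.JFact

namespace SKG

variable {n d : ℕ}

theorem JMono_mem (J : Matrix (Fin n) (Fin n) ℝ) {u : Fin n → ℝ} (hu : Cube u) (i : Fin n) :
    (1 - u i ^ 2) * dd J u i ∈ Set.Icc (0 : ℝ) 1 := by
  constructor
  · have h1 : 0 ≤ 1 - u i ^ 2 := by
      have := hu i
      rw [abs_le] at this
      nlinarith
    exact mul_nonneg h1 (dd_pos J hu i).le
  · rw [← dg_fact J hu i]
    unfold dg
    have := sq_nonneg (Ex (iw J u) (S i))
    linarith

/-- monotonicity of the strict bound in `ω` -/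
theorem SB_mono {d' : ℕ} (J : Matrix (Fin n) (Fin n) ℝ) (a : Fin d → ℝ) (a' : Fin d' → ℝ)
    (h : ∀ D ∈ Set.Icc (0 : ℝ) 1, omh a D ≤ omh a' D) (hS : SB J a) : SB J a' := by
  intro u hu η hη
  refine lt_of_lt_of_le (hS u hu η hη) ?_
  unfold gg
  refine sub_le_sub_right (Finset.sum_le_sum fun i _ => ?_) _
  refine mul_le_mul_of_nonneg_left ?_ (sq_nonneg _)
  exact mul_le_mul_of_nonneg_left (h _ (JMono_mem J hu i)) (dd_pos J hu i).le

theorem JMono_Zs (u : Fin n → ℝ) : Zs (0 : Matrix (Fin n) (Fin n) ℝ) u = 2 ^ n := by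
  unfold Zs iw
  have h1 : ∀ x : Conf n, quad (0 : Matrix (Fin n) (Fin n) ℝ) x = 0 := by
    intro x
    unfold quad
    simp
  simp only [h1, zero_div, Real.exp_zero, one_mul]
  have h2 : ∑ x : Conf n, ∏ i, (1 + u i * sg (x i)) = ∏ i : Fin n, ∑ b : Bool, (1 + u i * sg b) := by
    rw [Finset.prod_univ_sum, Fintype.piFinset_univ]
  rw [h2]
  have h3 : ∀ i : Fin n, ∑ b : Bool, (1 + u i * sg b) = 2 := by
    intro i
    rw [Fintype.sum_bool]
    simp [sg]
    ring
  simp only [h3, Finset.prod_const, Finset.card_univ, Fintype.card_fin]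

/-- the strict bound for the product measure -/
theorem SB_zero (a : Fin d → ℝ) (h : ∀ D ∈ Set.Icc (0 : ℝ) 1, 1 < omh a D) :
    SB (0 : Matrix (Fin n) (Fin n) ℝ) a := by
  intro u hu η hη
  have hdd : ∀ i, dd (0 : Matrix (Fin n) (Fin n) ℝ) u i = 1 := by
    intro i
    unfold dd
    rw [JMono_Zs, JMono_Zs, JMono_Zs]
    have : (2 : ℝ) ^ n ≠ 0 := by positivity
    field_simp
  have hcc : ∀ i j, cc (0 : Matrix (Fin n) (Fin n) ℝ) u i j = if i = j then 1 else 0 := by
    intro i j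
    unfold cc
    by_cases hij : i = j
    · rw [if_pos hij, if_pos hij, hdd]
    · rw [if_neg hij, if_neg hij]
      simp only [JMono_Zs]
      simp
  have hgg : gg (0 : Matrix (Fin n) (Fin n) ℝ) a u η =
      ∑ i, η i ^ 2 * (omh a ((1 - u i ^ 2) * 1) - 1) := by
    unfold gg
    simp only [hdd, hcc, mul_ite, mul_one, mul_zero, Finset.sum_ite_eq, Finset.mem_univ, if_true,
      one_mul]
    rw [← Finset.sum_sub_distrib]
    exact Finset.sum_congr rfl fun i _ => by ring
  have hmem : ∀ i, (1 - u i ^ 2) * 1 ∈ Set.Icc (0 : ℝ) 1 := by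
    intro i
    have := JMono_mem (0 : Matrix (Fin n) (Fin n) ℝ) hu i
    rwa [hdd] at this
  rw [hgg]
  obtain ⟨i, hi⟩ : ∃ i, η i ≠ 0 := by
    by_contra hcon
    push Not at hcon
    exact hη (funext hcon)
  refine Finset.sum_pos' (fun j _ => ?_) ⟨i, Finset.mem_univ _, ?_⟩
  · exact mul_nonneg (sq_nonneg _) (by have := h _ (hmem j); linarith)
  · exact mul_pos (by positivity) (by have := h _ (hmem i); linarith)

end SKG
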