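import Pool.Agent.Lib.MP_c42713_pr.JMat

namespace SKG

variable {n : ℕ}

theorem JPathA_sq_sub (W : Matrix (Fin n) (Fin n) ℝ) (L : ℝ) :
    (L • (1 : Matrix (Fin n) (Fin n) ℝ) - W) * (L • (1 : Matrix (Fin n) (Fin n) ℝ) - W) =
      (L ^ 2) • (1 : Matrix (Fin n) (Fin n) ℝ) - (2 * L) • W + W * W := by
  rw [sub_mul, mul_sub, mul_sub]
  simp only [Matrix.smul_mul, Matrix.mul_smul, Matrix.one_mul, Matrix.mul_one, smul_smul]
  rw [two_mul, add_smul, sq]
  abel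

theorem JPathA_sq_add (W : Matrix (Fin n) (Fin n) ℝ) (L : ℝ) :
    (L • (1 : Matrix (Fin n) (Fin n) ℝ) + W) * (L • (1 : Matrix (Fin n) (Fin n) ℝ) + W) =
      (L ^ 2) • (1 : Matrix (Fin n) (Fin n) ℝ) + (2 * L) • W + W * W := by
  rw [add_mul, mul_add, mul_add]
  simp only [Matrix.smul_mul, Matrix.mul_smul, Matrix.one_mul, Matrix.mul_one, smul_smul]
  rw [two_mul, add_smul, sq]
  abel

theorem JPathA_one (W : Matrix (Fin n) (Fin n) ℝ) (β L : ℝ) (i j : Fin n) :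
    Qone β L W i j = β * L * ((if i = j then 1 else 0) -
      1 / (4 * L ^ 2) * (L ^ 2 * (if i = j then 1 else 0) - 2 * L * W i j + (W * W) i j)) := by
  unfold Qone
  rw [JPathA_sq_sub]
  simp only [Matrix.smul_apply, Matrix.sub_apply, Matrix.add_apply, Matrix.one_apply, smul_eq_mul]

theorem JPathA_two (W : Matrix (Fin n) (Fin n) ℝ) (β L : ℝ) (i j : Fin n) :
    Qtwo β L W i j = β * L * (1 / (4 * L ^ 2) *
      (L ^ 2 * (if i = j then 1 else 0) + 2 * L * W i j + (W * W) i j)) := by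
  unfold Qtwo
  rw [JPathA_sq_add]
  simp only [Matrix.smul_apply, Matrix.add_apply, Matrix.one_apply, smul_eq_mul]

theorem Q_symm (W : Matrix (Fin n) (Fin n) ℝ) (hW : W.IsSymm) (β L : ℝ) :
    (Qone β L W).IsSymm ∧ (Qtwo β L W).IsSymm := by
  have hWW : ∀ i j, (W * W) i j = (W * W) j i := by
    intro i j
    simp only [Matrix.mul_apply]
    refine Finset.sum_congr rfl fun k _ => ?_
    rw [hW.apply k i, hW.apply j k, mul_comm]
  constructor
  · ext i j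
    rw [Matrix.transpose_apply, JPathA_one, JPathA_one, hWW i j, hW.apply i j]
    simp only [eq_comm]
  · ext i j
    rw [Matrix.transpose_apply, JPathA_two, JPathA_two, hWW i j, hW.apply i j]
    simp only [eq_comm]

/-- the two steps add up to `β W` off the diagonal -/
theorem Q_sum (W : Matrix (Fin n) (Fin n) ℝ) (β L : ℝ) (hL : 0 < L) :
    offd (Qone β L W) + offd (Qtwo β L W) = offd (β • W) := by
  ext i j
  simp only [Matrix.add_apply, offd, Matrix.smul_apply, smul_eq_mul]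
  by_cases h : i = j
  · simp [h]
  · simp only [if_neg h]
    rw [JPathA_one, JPathA_two]
    simp only [if_neg h]
    field_simp
    ring

/-- quadratic forms of the squares -/
theorem JPathA_form (W : Matrix (Fin n) (Fin n) ℝ) (hW : W.IsSymm) (v : Fin n → ℝ) :
    ∑ i, ∑ j, (W * W) i j * v i * v j = ∑ k, (∑ j, W k j * v j) ^ 2 := by
  have h1 : ∀ k, (∑ j, W k j * v j) ^ 2 = ∑ i, ∑ j, W i k * W k j * v i * v j := by
    intro k
    rw [sq, Finset.sum_mul_sum]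
    refine Finset.sum_congr rfl fun i _ => Finset.sum_congr rfl fun j _ => ?_
    rw [hW.apply k i]
    ring
  have h2 : ∀ i, ∑ j, (W * W) i j * v i * v j = ∑ k, ∑ j, W i k * W k j * v i * v j := by
    intro i
    rw [Finset.sum_comm]
    refine Finset.sum_congr rfl fun j _ => ?_
    rw [Matrix.mul_apply, Finset.sum_mul, Finset.sum_mul]
  simp only [h2]
  rw [Finset.sum_comm]
  exact Finset.sum_congr rfl fun k _ => (h1 k).symm

theorem JPathA_id (v : Fin n → ℝ) :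
    ∑ i, ∑ j, (if i = j then (1:ℝ) else 0) * v i * v j = ∑ i, v i ^ 2 := by
  refine Finset.sum_congr rfl fun i _ => ?_
  simp [sq]

theorem JPathA_form_one (W : Matrix (Fin n) (Fin n) ℝ) (β L : ℝ) (v : Fin n → ℝ) :
    ∑ i, ∑ j, Qone β L W i j * v i * v j = β * L * (∑ i, v i ^ 2 - 1 / (4 * L ^ 2) *
      (L ^ 2 * ∑ i, v i ^ 2 - 2 * L * ∑ i, ∑ j, W i j * v i * v j +
        ∑ i, ∑ j, (W * W) i j * v i * v j)) := by
  rw [← JPathA_id v]
  simp only [Finset.mul_sum, ← Finset.sum_add_distrib, ← Finset.sum_sub_distrib]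
  refine Finset.sum_congr rfl fun i _ => Finset.sum_congr rfl fun j _ => ?_
  rw [JPathA_one]
  ring

theorem JPathA_form_two (W : Matrix (Fin n) (Fin n) ℝ) (β L : ℝ) (v : Fin n → ℝ) :
    ∑ i, ∑ j, Qtwo β L W i j * v i * v j = β * L * (1 / (4 * L ^ 2) *
      (L ^ 2 * ∑ i, v i ^ 2 + 2 * L * ∑ i, ∑ j, W i j * v i * v j +
        ∑ i, ∑ j, (W * W) i j * v i * v j)) := by
  rw [← JPathA_id v]
  simp only [Finset.mul_sum, ← Finset.sum_add_distrib]
  refine Finset.sum_congr rfl fun i _ => Finset.sum_congr rfl fun j _ => ?_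
  rw [JPathA_two]
  ring

/-- `0 ≤ |(L - W) v|² ≤ 4 L² |v|²` and the same for `L + W` -/
theorem JPathA_bd (W : Matrix (Fin n) (Fin n) ℝ) (hW : W.IsSymm) (L : ℝ) (hL : 0 ≤ L)
    (h : ∀ v : Fin n → ℝ, |∑ i, ∑ j, W i j * v i * v j| ≤ L * ∑ i, v i ^ 2) (v : Fin n → ℝ) :
    (0 ≤ L ^ 2 * ∑ i, v i ^ 2 - 2 * L * ∑ i, ∑ j, W i j * v i * v j +
        ∑ i, ∑ j, (W * W) i j * v i * v j) ∧
    (L ^ 2 * ∑ i, v i ^ 2 - 2 * L * ∑ i, ∑ j, W i j * v i * v j +
        ∑ i, ∑ j, (W * W) i j * v i * v j ≤ 4 * L ^ 2 * ∑ i, v i ^ 2) ∧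
    (0 ≤ L ^ 2 * ∑ i, v i ^ 2 + 2 * L * ∑ i, ∑ j, W i j * v i * v j +
        ∑ i, ∑ j, (W * W) i j * v i * v j) ∧
    (L ^ 2 * ∑ i, v i ^ 2 + 2 * L * ∑ i, ∑ j, W i j * v i * v j +
        ∑ i, ∑ j, (W * W) i j * v i * v j ≤ 4 * L ^ 2 * ∑ i, v i ^ 2) := by
  have h1 := h v
  have h2 := norm_of_form W hW L hL h v
  rw [JPathA_form W hW]
  have e1 : ∀ σ : ℝ, L ^ 2 * ∑ i, v i ^ 2 + 2 * (σ * L) * ∑ i, ∑ j, W i j * v i * v j +
      σ ^ 2 * ∑ k, (∑ j, W k j * v j) ^ 2 = ∑ k, (L * v k + σ * ∑ j, W k j * v j) ^ 2 := by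
    intro σ
    simp only [Finset.mul_sum, ← Finset.sum_add_distrib]
    refine Finset.sum_congr rfl fun k _ => ?_
    have e2 : ∑ j, 2 * (σ * L) * (W k j * v k * v j) = 2 * (σ * L) * v k * ∑ j, W k j * v j := by
      rw [Finset.mul_sum]
      refine Finset.sum_congr rfl fun j _ => ?_
      ring
    rw [e2, ← Finset.mul_sum]
    ring
  have p1 : 0 ≤ ∑ k, (L * v k + 1 * ∑ j, W k j * v j) ^ 2 :=
    Finset.sum_nonneg fun k _ => sq_nonneg _
  have p2 : 0 ≤ ∑ k, (L * v k + (-1) * ∑ j, W k j * v j) ^ 2 :=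
    Finset.sum_nonneg fun k _ => sq_nonneg _
  rw [← e1] at p1 p2
  rw [abs_le] at h1
  have h3 : L * ∑ i, ∑ j, W i j * v i * v j ≤ L * (L * ∑ i, v i ^ 2) :=
    mul_le_mul_of_nonneg_left h1.2 hL
  have h4 : L * (-(L * ∑ i, v i ^ 2)) ≤ L * ∑ i, ∑ j, W i j * v i * v j :=
    mul_le_mul_of_nonneg_left h1.1 hL
  refine ⟨?_, ?_, ?_, ?_⟩ <;> nlinarith

theorem JPathA_diag (W : Matrix (Fin n) (Fin n) ℝ) (hW : W.IsSymm) (j : Fin n) :
    (W * W) j j = ∑ k, W j k ^ 2 := by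
  rw [Matrix.mul_apply]
  refine Finset.sum_congr rfl fun k _ => ?_
  rw [← hW.apply j k, sq]

/-- form bounds and diagonal bound for the first step -/
theorem Qone_bounds (W : Matrix (Fin n) (Fin n) ℝ) (β ε : ℝ) (hβ : 0 < β) (h0 : 0 < ε)
    (h1 : ε ≤ 1 / 10000) (hW : Good W ε) :
    (∀ v, 0 ≤ QF (offd (Qone β (2 + ε) W)) (fun j => Qone β (2 + ε) W j j) v) ∧
    (∀ v, QF (offd (Qone β (2 + ε) W)) (fun j => Qone β (2 + ε) W j j) v
      ≤ β * (2 + ε) * ∑ i, v i ^ 2) ∧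
    (∀ j, β * (2 + ε) * (687 / 1000) ≤ Qone β (2 + ε) W j j) := by
  set L : ℝ := 2 + ε with hL
  have hL0 : 0 < L := by positivity
  have hL4 : 0 < 4 * L ^ 2 := by positivity
  have hβL : 0 < β * L := by positivity
  refine ⟨?_, ?_, ?_⟩
  · intro v
    obtain ⟨b1, b2, -, -⟩ := JPathA_bd W hW.symm L hL0.le hW.norm v
    rw [QF_offd, JPathA_form_one]
    apply mul_nonneg hβL.le
    rw [one_div, inv_mul_eq_div, sub_nonneg, div_le_iff₀ hL4]
    linarith
  · intro v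
    obtain ⟨b1, b2, -, -⟩ := JPathA_bd W hW.symm L hL0.le hW.norm v
    rw [QF_offd, JPathA_form_one]
    apply mul_le_mul_of_nonneg_left _ hβL.le
    have : 0 ≤ 1 / (4 * L ^ 2) * (L ^ 2 * ∑ i, v i ^ 2 - 2 * L * ∑ i, ∑ j, W i j * v i * v j +
        ∑ i, ∑ j, (W * W) i j * v i * v j) := by positivity
    linarith
  · intro j
    rw [JPathA_one, JPathA_diag W hW.symm]
    apply mul_le_mul_of_nonneg_left _ hβL.le
    have d1 := hW.diag j
    have d2 := hW.sq j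
    rw [abs_le] at d1 d2
    simp only [if_true]
    rw [one_div, inv_mul_eq_div, le_sub_iff_add_le, ← le_sub_iff_add_le', div_le_iff₀ hL4]
    rw [hL]
    nlinarith

/-- form bounds and diagonal bound for the second step -/
theorem Qtwo_bounds (W : Matrix (Fin n) (Fin n) ℝ) (β ε : ℝ) (hβ : 0 < β) (h0 : 0 < ε)
    (h1 : ε ≤ 1 / 10000) (hW : Good W ε) :
    (∀ v, 0 ≤ QF (offd (Qtwo β (2 + ε) W)) (fun j => Qtwo β (2 + ε) W j j) v) ∧
    (∀ v, QF (offd (Qtwo β (2 + ε) W)) (fun j => Qtwo β (2 + ε) W j j) v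
      ≤ β * (2 + ε) * ∑ i, v i ^ 2) ∧
    (∀ j, β * (2 + ε) * (312 / 1000) ≤ Qtwo β (2 + ε) W j j) := by
  set L : ℝ := 2 + ε with hL
  have hL0 : 0 < L := by positivity
  have hL4 : 0 < 4 * L ^ 2 := by positivity
  have hβL : 0 < β * L := by positivity
  refine ⟨?_, ?_, ?_⟩
  · intro v
    obtain ⟨-, -, b1, b2⟩ := JPathA_bd W hW.symm L hL0.le hW.norm v
    rw [QF_offd, JPathA_form_two]
    positivity
  · intro v
    obtain ⟨-, -, b1, b2⟩ := JPathA_bd W hW.symm L hL0.le hW.norm v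
    rw [QF_offd, JPathA_form_two]
    apply mul_le_mul_of_nonneg_left _ hβL.le
    rw [one_div, inv_mul_eq_div, div_le_iff₀ hL4]
    linarith
  · intro j
    rw [JPathA_two, JPathA_diag W hW.symm]
    apply mul_le_mul_of_nonneg_left _ hβL.le
    have d1 := hW.diag j
    have d2 := hW.sq j
    rw [abs_le] at d1 d2
    simp only [if_true]
    rw [one_div, inv_mul_eq_div, le_div_iff₀ hL4]
    rw [hL]
    nlinarith

/-- association hypothesis in the second step -/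
theorem Qtwo_assoc (W : Matrix (Fin n) (Fin n) ℝ) (β ε : ℝ) (hβ : 0 < β) (hβ1 : β ≤ 2 / 5)
    (h0 : 0 < ε) (h1 : ε ≤ 1 / 10000) (hW : Good W ε) :
    ∀ t ∈ Set.Ioc (0 : ℝ) 1, ∀ j, ∃ lam > 0,
      ∑ k, (offd (Qtwo β (2 + ε) W) j k -
          lam * (offd (Qone β (2 + ε) W) + t • offd (Qtwo β (2 + ε) W)) j k) ^ 2
        ≤ 4 * lam * (19 / 2000 * (β * (2 + ε)) * (1 - t / 2)) := by
  intro t ht j
  set L : ℝ := 2 + ε with hL
  have hL0 : 0 < L := by positivity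
  have ht1 : (0:ℝ) < 1 + t := by linarith [ht.1]
  refine ⟨1 / (1 + t), by positivity, ?_⟩
  set s : ℝ := (W * W) j j with hs
  -- the entries
  have e1 : ∀ k, (offd (Qtwo β L W) j k -
      1 / (1 + t) * (offd (Qone β L W) + t • offd (Qtwo β L W)) j k) ^ 2 =
      (β / (2 * L * (1 + t))) ^ 2 * (if j = k then 0 else (W * W) j k ^ 2) := by
    intro k
    simp only [Matrix.add_apply, offd, Matrix.smul_apply, smul_eq_mul]
    by_cases h : j = k
    · simp [h]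
    · simp only [if_neg h]
      rw [JPathA_one, JPathA_two]
      simp only [if_neg h]
      field_simp
      ring
  simp only [e1]
  rw [← Finset.mul_sum]
  have e2 : ∑ k, (if j = k then 0 else (W * W) j k ^ 2) = ∑ k, (W * W) j k ^ 2 - s ^ 2 := by
    rw [eq_sub_iff_add_eq]
    have : s ^ 2 = ∑ k, (if j = k then (W * W) j k ^ 2 else 0) := by
      simp [hs]
    rw [this, ← Finset.sum_add_distrib]
    refine Finset.sum_congr rfl fun k _ => ?_
    by_cases h : j = k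
    · simp [h]
    · simp [h]
  have e3 : ∑ k, (W * W) j k ^ 2 ≤ L ^ 2 * s := by
    have := norm_of_form W hW.symm L hL0.le hW.norm (fun i => W i j)
    have e4 : ∀ k, (W * W) j k = ∑ i, W k i * W i j := by
      intro k
      rw [Matrix.mul_apply]
      refine Finset.sum_congr rfl fun i _ => ?_
      rw [hW.symm.apply i j, hW.symm.apply k i, mul_comm]
    have e5 : s = ∑ i, W i j ^ 2 := by
      rw [hs, Matrix.mul_apply]
      refine Finset.sum_congr rfl fun i _ => ?_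
      rw [hW.symm.apply i j, sq]
    simp only [e4]
    rw [e5]
    exact this
  have hsd := hW.sq j
  rw [← JPathA_diag W hW.symm, ← hs, abs_le] at hsd
  rw [e2]
  have hcoef : 0 ≤ (β / (2 * L * (1 + t))) ^ 2 := sq_nonneg _
  refine (mul_le_mul_of_nonneg_left (sub_le_sub_right e3 (s ^ 2)) hcoef).trans ?_
  have hmain : β * (L ^ 2 * s - s ^ 2) ≤ 4 * (19 / 2000) * L * (4 * L ^ 2) := by
    have hs2 : L ^ 2 * s - s ^ 2 ≤ L ^ 2 * (1 + ε) - (1 + ε) ^ 2 := by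
      have : 0 ≤ (1 + ε - s) * (L ^ 2 - (1 + ε) - s) := by
        apply mul_nonneg
        · linarith [hsd.2]
        · rw [hL]; nlinarith [hsd.2]
      nlinarith
    have hs3 : 0 ≤ L ^ 2 * (1 + ε) - (1 + ε) ^ 2 := by
      rw [hL]; nlinarith
    have hs4 : β * (L ^ 2 * s - s ^ 2) ≤ 2 / 5 * (L ^ 2 * (1 + ε) - (1 + ε) ^ 2) := by
      calc β * (L ^ 2 * s - s ^ 2) ≤ β * (L ^ 2 * (1 + ε) - (1 + ε) ^ 2) :=
            mul_le_mul_of_nonneg_left hs2 hβ.le
        _ ≤ _ := mul_le_mul_of_nonneg_right hβ1 hs3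
    refine hs4.trans ?_
    rw [hL]
    nlinarith [pow_pos h0 2, pow_pos h0 3]
  have ht2 : 1 ≤ (1 + t) * (1 - t / 2) := by
    have := ht.1; have := ht.2
    nlinarith
  have h5 : (β / (2 * L * (1 + t))) ^ 2 * (L ^ 2 * s - s ^ 2) =
      β * (β * (L ^ 2 * s - s ^ 2)) / (4 * L ^ 2 * (1 + t) ^ 2) := by
    field_simp
    ring
  have h6 : 4 * (1 / (1 + t)) * (19 / 2000 * (β * L) * (1 - t / 2)) =
      β * (4 * (19 / 2000) * L * (4 * L ^ 2)) * ((1 + t) * (1 - t / 2)) /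
        (4 * L ^ 2 * (1 + t) ^ 2) := by
    field_simp
  rw [h5, h6]
  apply div_le_div_of_nonneg_right _ (by positivity)
  have h7 : β * (β * (L ^ 2 * s - s ^ 2)) ≤ β * (4 * (19 / 2000) * L * (4 * L ^ 2)) :=
    mul_le_mul_of_nonneg_left hmain hβ.le
  have h8 : 0 ≤ β * (4 * (19 / 2000) * L * (4 * L ^ 2)) := by positivity
  nlinarith

end SKG
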