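import Mathlib

namespace SKG

/-- phase 1: `u(s)` -/
noncomputable def U1 (s : ℝ) : ℝ := 9999 / 10000 - s / 200 - 287 / 2000 * s ^ 2 - 3 / 100 * s ^ 4

/-- phase 1: `-u'(s)` -/
noncomputable def V1 (s : ℝ) : ℝ := 1 / 200 + 287 / 1000 * s + 3 / 25 * s ^ 3

private theorem box1_0_pos (p q r t : ℝ) (hp : 0 ≤ p) (hq : 0 ≤ q) (hr : 0 ≤ r) (ht : 0 ≤ t) :
    0 ≤ (53 / 20000) * (p ^ 0 * q ^ 5) * (r ^ 0 * t ^ 3)
      + (306001 / 40000000) * (p ^ 0 * q ^ 5) * (r ^ 1 * t ^ 2)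
      + (147001 / 20000000) * (p ^ 0 * q ^ 5) * (r ^ 2 * t ^ 1)
      + (94001 / 40000000) * (p ^ 0 * q ^ 5) * (r ^ 3 * t ^ 0)
      + (4857 / 20000) * (p ^ 1 * q ^ 4) * (r ^ 0 * t ^ 3)
      + (15288419 / 40000000) * (p ^ 1 * q ^ 4) * (r ^ 1 * t ^ 2)
      + (2695523 / 16000000) * (p ^ 1 * q ^ 4) * (r ^ 2 * t ^ 1)
      + (2328777 / 80000000) * (p ^ 1 * q ^ 4) * (r ^ 3 * t ^ 0)
      + (9449 / 10000) * (p ^ 2 * q ^ 3) * (r ^ 0 * t ^ 3)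
      + (143651861 / 100000000) * (p ^ 2 * q ^ 3) * (r ^ 1 * t ^ 2)
      + (56770367 / 100000000) * (p ^ 2 * q ^ 3) * (r ^ 2 * t ^ 1)
      + (853407 / 12500000) * (p ^ 2 * q ^ 3) * (r ^ 3 * t ^ 0)
      + (73277 / 50000) * (p ^ 3 * q ^ 2) * (r ^ 0 * t ^ 3)
      + (230866027 / 100000000) * (p ^ 3 * q ^ 2) * (r ^ 1 * t ^ 2)
      + (197908837 / 200000000) * (p ^ 3 * q ^ 2) * (r ^ 2 * t ^ 1)
      + (24597283 / 200000000) * (p ^ 3 * q ^ 2) * (r ^ 3 * t ^ 0)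
      + (105453 / 100000) * (p ^ 4 * q ^ 1) * (r ^ 0 * t ^ 3)
      + (1799895557 / 1000000000) * (p ^ 4 * q ^ 1) * (r ^ 1 * t ^ 2)
      + (229046501 / 250000000) * (p ^ 4 * q ^ 1) * (r ^ 2 * t ^ 1)
      + (147382947 / 1000000000) * (p ^ 4 * q ^ 1) * (r ^ 3 * t ^ 0)
      + (29369 / 100000) * (p ^ 5 * q ^ 0) * (r ^ 0 * t ^ 3)
      + (891863 / 1600000) * (p ^ 5 * q ^ 0) * (r ^ 1 * t ^ 2)
      + (677003023 / 2000000000) * (p ^ 5 * q ^ 0) * (r ^ 2 * t ^ 1)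
      + (133929273 / 2000000000) * (p ^ 5 * q ^ 0) * (r ^ 3 * t ^ 0) := by
  positivity

private theorem box1_0 (s D : ℝ) (hs0 : 0 ≤ s) (hs1 : s ≤ 4 / 5) (hD0 : 0 ≤ D) (hD1 : D ≤ 1 / 2) :
    0 < V1 s * (1 + 5 * s / 16 * D) + 5 / 16 * U1 s * D
      + 687 / 1000 * U1 s * D * (1 - 4 * (5 * s / 16) + 6 * (5 * s / 16) * D)
      - D * (1 + 5 * s / 16 * D) ^ 2 := by
  obtain ⟨p, hp⟩ : ∃ p : ℝ, p = (s - 0) / (4 / 5) := ⟨_, rfl⟩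
  obtain ⟨r, hr⟩ : ∃ r : ℝ, r = (D - 0) / (1 / 2) := ⟨_, rfl⟩
  have hs : s = 0 + (4 / 5) * p := by rw [hp]; ring
  have hD : D = 0 + (1 / 2) * r := by rw [hr]; ring
  have hp0 : 0 ≤ p := by linarith
  have hp1 : 0 ≤ 1 - p := by linarith
  have hr0 : 0 ≤ r := by linarith
  have hr1 : 0 ≤ 1 - r := by linarith
  have key := box1_0_pos p (1 - p) r (1 - r) hp0 hp1 hr0 hr1
  have e : V1 s * (1 + 5 * s / 16 * D) + 5 / 16 * U1 s * D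
      + 687 / 1000 * U1 s * D * (1 - 4 * (5 * s / 16) + 6 * (5 * s / 16) * D)
      - D * (1 + 5 * s / 16 * D) ^ 2 = 47 / 20000 + ((53 / 20000) * (p ^ 0 * (1 - p) ^ 5) * (r ^ 0 * (1 - r) ^ 3)
      + (306001 / 40000000) * (p ^ 0 * (1 - p) ^ 5) * (r ^ 1 * (1 - r) ^ 2)
      + (147001 / 20000000) * (p ^ 0 * (1 - p) ^ 5) * (r ^ 2 * (1 - r) ^ 1)
      + (94001 / 40000000) * (p ^ 0 * (1 - p) ^ 5) * (r ^ 3 * (1 - r) ^ 0)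
      + (4857 / 20000) * (p ^ 1 * (1 - p) ^ 4) * (r ^ 0 * (1 - r) ^ 3)
      + (15288419 / 40000000) * (p ^ 1 * (1 - p) ^ 4) * (r ^ 1 * (1 - r) ^ 2)
      + (2695523 / 16000000) * (p ^ 1 * (1 - p) ^ 4) * (r ^ 2 * (1 - r) ^ 1)
      + (2328777 / 80000000) * (p ^ 1 * (1 - p) ^ 4) * (r ^ 3 * (1 - r) ^ 0)
      + (9449 / 10000) * (p ^ 2 * (1 - p) ^ 3) * (r ^ 0 * (1 - r) ^ 3)
      + (143651861 / 100000000) * (p ^ 2 * (1 - p) ^ 3) * (r ^ 1 * (1 - r) ^ 2)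
      + (56770367 / 100000000) * (p ^ 2 * (1 - p) ^ 3) * (r ^ 2 * (1 - r) ^ 1)
      + (853407 / 12500000) * (p ^ 2 * (1 - p) ^ 3) * (r ^ 3 * (1 - r) ^ 0)
      + (73277 / 50000) * (p ^ 3 * (1 - p) ^ 2) * (r ^ 0 * (1 - r) ^ 3)
      + (230866027 / 100000000) * (p ^ 3 * (1 - p) ^ 2) * (r ^ 1 * (1 - r) ^ 2)
      + (197908837 / 200000000) * (p ^ 3 * (1 - p) ^ 2) * (r ^ 2 * (1 - r) ^ 1)
      + (24597283 / 200000000) * (p ^ 3 * (1 - p) ^ 2) * (r ^ 3 * (1 - r) ^ 0)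
      + (105453 / 100000) * (p ^ 4 * (1 - p) ^ 1) * (r ^ 0 * (1 - r) ^ 3)
      + (1799895557 / 1000000000) * (p ^ 4 * (1 - p) ^ 1) * (r ^ 1 * (1 - r) ^ 2)
      + (229046501 / 250000000) * (p ^ 4 * (1 - p) ^ 1) * (r ^ 2 * (1 - r) ^ 1)
      + (147382947 / 1000000000) * (p ^ 4 * (1 - p) ^ 1) * (r ^ 3 * (1 - r) ^ 0)
      + (29369 / 100000) * (p ^ 5 * (1 - p) ^ 0) * (r ^ 0 * (1 - r) ^ 3)
      + (891863 / 1600000) * (p ^ 5 * (1 - p) ^ 0) * (r ^ 1 * (1 - r) ^ 2)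
      + (677003023 / 2000000000) * (p ^ 5 * (1 - p) ^ 0) * (r ^ 2 * (1 - r) ^ 1)
      + (133929273 / 2000000000) * (p ^ 5 * (1 - p) ^ 0) * (r ^ 3 * (1 - r) ^ 0)) := by
    rw [hs, hD]; unfold U1 V1; ring
  rw [e]; linarith

private theorem box1_1_pos (p q r t : ℝ) (hp : 0 ≤ p) (hq : 0 ≤ q) (hr : 0 ≤ r) (ht : 0 ≤ t) :
    0 ≤ (139961 / 40000000) * (p ^ 0 * q ^ 5) * (r ^ 0 * t ^ 3)
      + (827767 / 80000000) * (p ^ 0 * q ^ 5) * (r ^ 1 * t ^ 2)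
      + (101971 / 10000000) * (p ^ 0 * q ^ 5) * (r ^ 2 * t ^ 1)
      + (267923 / 80000000) * (p ^ 0 * q ^ 5) * (r ^ 3 * t ^ 0)
      + (4187987 / 160000000) * (p ^ 1 * q ^ 4) * (r ^ 0 * t ^ 3)
      + (2314581 / 40000000) * (p ^ 1 * q ^ 4) * (r ^ 1 * t ^ 2)
      + (34418687 / 640000000) * (p ^ 1 * q ^ 4) * (r ^ 2 * t ^ 1)
      + (14137339 / 640000000) * (p ^ 1 * q ^ 4) * (r ^ 3 * t ^ 0)
      + (12708583 / 200000000) * (p ^ 2 * q ^ 3) * (r ^ 0 * t ^ 3)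
      + (41729001 / 400000000) * (p ^ 2 * q ^ 3) * (r ^ 1 * t ^ 2)
      + (66229303 / 800000000) * (p ^ 2 * q ^ 3) * (r ^ 2 * t ^ 1)
      + (66820641 / 1600000000) * (p ^ 2 * q ^ 3) * (r ^ 3 * t ^ 0)
      + (30894131 / 400000000) * (p ^ 3 * q ^ 2) * (r ^ 0 * t ^ 3)
      + (37705169 / 400000000) * (p ^ 3 * q ^ 2) * (r ^ 1 * t ^ 2)
      + (81507451 / 1600000000) * (p ^ 3 * q ^ 2) * (r ^ 2 * t ^ 1)
      + (1659107 / 50000000) * (p ^ 3 * q ^ 2) * (r ^ 3 * t ^ 0)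
      + (12785663 / 250000000) * (p ^ 4 * q ^ 1) * (r ^ 0 * t ^ 3)
      + (6952209 / 125000000) * (p ^ 4 * q ^ 1) * (r ^ 1 * t ^ 2)
      + (72161957 / 4000000000) * (p ^ 4 * q ^ 1) * (r ^ 2 * t ^ 1)
      + (102664379 / 8000000000) * (p ^ 4 * q ^ 1) * (r ^ 3 * t ^ 0)
      + (59229287 / 4000000000) * (p ^ 5 * q ^ 0) * (r ^ 0 * t ^ 3)
      + (36451533 / 2000000000) * (p ^ 5 * q ^ 0) * (r ^ 1 * t ^ 2)
      + (100977707 / 16000000000) * (p ^ 5 * q ^ 0) * (r ^ 2 * t ^ 1)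
      + (42376341 / 16000000000) * (p ^ 5 * q ^ 0) * (r ^ 3 * t ^ 0) := by
  positivity

private theorem box1_1 (s D : ℝ) (hs0 : 0 ≤ s) (hs1 : s ≤ 2 / 5) (hD0 : 1 / 2 ≤ D) (hD1 : D ≤ 3 / 4) :
    0 < V1 s * (1 + 5 * s / 16 * D) + 5 / 16 * U1 s * D
      + 687 / 1000 * U1 s * D * (1 - 4 * (5 * s / 16) + 6 * (5 * s / 16) * D)
      - D * (1 + 5 * s / 16 * D) ^ 2 := by
  obtain ⟨p, hp⟩ : ∃ p : ℝ, p = (s - 0) / (2 / 5) := ⟨_, rfl⟩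
  obtain ⟨r, hr⟩ : ∃ r : ℝ, r = (D - 1 / 2) / (1 / 4) := ⟨_, rfl⟩
  have hs : s = 0 + (2 / 5) * p := by rw [hp]; ring
  have hD : D = 1 / 2 + (1 / 4) * r := by rw [hr]; ring
  have hp0 : 0 ≤ p := by linarith
  have hp1 : 0 ≤ 1 - p := by linarith
  have hr0 : 0 ≤ r := by linarith
  have hr1 : 0 ≤ 1 - r := by linarith
  have key := box1_1_pos p (1 - p) r (1 - r) hp0 hp1 hr0 hr1
  have e : V1 s * (1 + 5 * s / 16 * D) + 5 / 16 * U1 s * D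
      + 687 / 1000 * U1 s * D * (1 - 4 * (5 * s / 16) + 6 * (5 * s / 16) * D)
      - D * (1 + 5 * s / 16 * D) ^ 2 = 1201 / 1000000 + ((139961 / 40000000) * (p ^ 0 * (1 - p) ^ 5) * (r ^ 0 * (1 - r) ^ 3)
      + (827767 / 80000000) * (p ^ 0 * (1 - p) ^ 5) * (r ^ 1 * (1 - r) ^ 2)
      + (101971 / 10000000) * (p ^ 0 * (1 - p) ^ 5) * (r ^ 2 * (1 - r) ^ 1)
      + (267923 / 80000000) * (p ^ 0 * (1 - p) ^ 5) * (r ^ 3 * (1 - r) ^ 0)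
      + (4187987 / 160000000) * (p ^ 1 * (1 - p) ^ 4) * (r ^ 0 * (1 - r) ^ 3)
      + (2314581 / 40000000) * (p ^ 1 * (1 - p) ^ 4) * (r ^ 1 * (1 - r) ^ 2)
      + (34418687 / 640000000) * (p ^ 1 * (1 - p) ^ 4) * (r ^ 2 * (1 - r) ^ 1)
      + (14137339 / 640000000) * (p ^ 1 * (1 - p) ^ 4) * (r ^ 3 * (1 - r) ^ 0)
      + (12708583 / 200000000) * (p ^ 2 * (1 - p) ^ 3) * (r ^ 0 * (1 - r) ^ 3)
      + (41729001 / 400000000) * (p ^ 2 * (1 - p) ^ 3) * (r ^ 1 * (1 - r) ^ 2)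
      + (66229303 / 800000000) * (p ^ 2 * (1 - p) ^ 3) * (r ^ 2 * (1 - r) ^ 1)
      + (66820641 / 1600000000) * (p ^ 2 * (1 - p) ^ 3) * (r ^ 3 * (1 - r) ^ 0)
      + (30894131 / 400000000) * (p ^ 3 * (1 - p) ^ 2) * (r ^ 0 * (1 - r) ^ 3)
      + (37705169 / 400000000) * (p ^ 3 * (1 - p) ^ 2) * (r ^ 1 * (1 - r) ^ 2)
      + (81507451 / 1600000000) * (p ^ 3 * (1 - p) ^ 2) * (r ^ 2 * (1 - r) ^ 1)
      + (1659107 / 50000000) * (p ^ 3 * (1 - p) ^ 2) * (r ^ 3 * (1 - r) ^ 0)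
      + (12785663 / 250000000) * (p ^ 4 * (1 - p) ^ 1) * (r ^ 0 * (1 - r) ^ 3)
      + (6952209 / 125000000) * (p ^ 4 * (1 - p) ^ 1) * (r ^ 1 * (1 - r) ^ 2)
      + (72161957 / 4000000000) * (p ^ 4 * (1 - p) ^ 1) * (r ^ 2 * (1 - r) ^ 1)
      + (102664379 / 8000000000) * (p ^ 4 * (1 - p) ^ 1) * (r ^ 3 * (1 - r) ^ 0)
      + (59229287 / 4000000000) * (p ^ 5 * (1 - p) ^ 0) * (r ^ 0 * (1 - r) ^ 3)
      + (36451533 / 2000000000) * (p ^ 5 * (1 - p) ^ 0) * (r ^ 1 * (1 - r) ^ 2)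
      + (100977707 / 16000000000) * (p ^ 5 * (1 - p) ^ 0) * (r ^ 2 * (1 - r) ^ 1)
      + (42376341 / 16000000000) * (p ^ 5 * (1 - p) ^ 0) * (r ^ 3 * (1 - r) ^ 0)) := by
    rw [hs, hD]; unfold U1 V1; ring
  rw [e]; linarith

private theorem box1_2_pos (p q r t : ℝ) (hp : 0 ≤ p) (hq : 0 ≤ q) (hr : 0 ≤ r) (ht : 0 ≤ t) :
    0 ≤ (57425287 / 4000000000) * (p ^ 0 * q ^ 5) * (r ^ 0 * t ^ 3)
      + (33745533 / 2000000000) * (p ^ 0 * q ^ 5) * (r ^ 1 * t ^ 2)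
      + (79329707 / 16000000000) * (p ^ 0 * q ^ 5) * (r ^ 2 * t ^ 1)
      + (35160341 / 16000000000) * (p ^ 0 * q ^ 5) * (r ^ 3 * t ^ 0)
      + (189351131 / 2000000000) * (p ^ 1 * q ^ 4) * (r ^ 0 * t ^ 3)
      + (119874993 / 1000000000) * (p ^ 1 * q ^ 4) * (r ^ 1 * t ^ 2)
      + (306444621 / 8000000000) * (p ^ 1 * q ^ 4) * (r ^ 2 * t ^ 1)
      + (45588663 / 4000000000) * (p ^ 1 * q ^ 4) * (r ^ 3 * t ^ 0)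
      + (511753963 / 2000000000) * (p ^ 2 * q ^ 3) * (r ^ 0 * t ^ 3)
      + (729644413 / 2000000000) * (p ^ 2 * q ^ 3) * (r ^ 1 * t ^ 2)
      + (1164260083 / 8000000000) * (p ^ 2 * q ^ 3) * (r ^ 2 * t ^ 1)
      + (63897227 / 2000000000) * (p ^ 2 * q ^ 3) * (r ^ 3 * t ^ 0)
      + (176260571 / 500000000) * (p ^ 3 * q ^ 2) * (r ^ 0 * t ^ 3)
      + (1141924449 / 2000000000) * (p ^ 3 * q ^ 2) * (r ^ 1 * t ^ 2)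
      + (562506211 / 2000000000) * (p ^ 3 * q ^ 2) * (r ^ 2 * t ^ 1)
      + (453668059 / 8000000000) * (p ^ 3 * q ^ 2) * (r ^ 3 * t ^ 0)
      + (978372259 / 4000000000) * (p ^ 4 * q ^ 1) * (r ^ 0 * t ^ 3)
      + (443260401 / 1000000000) * (p ^ 4 * q ^ 1) * (r ^ 1 * t ^ 2)
      + (4076263119 / 16000000000) * (p ^ 4 * q ^ 1) * (r ^ 2 * t ^ 1)
      + (835085739 / 16000000000) * (p ^ 4 * q ^ 1) * (r ^ 3 * t ^ 0)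
      + (135325273 / 2000000000) * (p ^ 5 * q ^ 0) * (r ^ 0 * t ^ 3)
      + (268368217 / 2000000000) * (p ^ 5 * q ^ 0) * (r ^ 1 * t ^ 2)
      + (685652983 / 8000000000) * (p ^ 5 * q ^ 0) * (r ^ 2 * t ^ 1)
      + (145668707 / 8000000000) * (p ^ 5 * q ^ 0) * (r ^ 3 * t ^ 0) := by
  positivity

private theorem box1_2 (s D : ℝ) (hs0 : 2 / 5 ≤ s) (hs1 : s ≤ 4 / 5) (hD0 : 1 / 2 ≤ D) (hD1 : D ≤ 3 / 4) :
    0 < V1 s * (1 + 5 * s / 16 * D) + 5 / 16 * U1 s * D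
      + 687 / 1000 * U1 s * D * (1 - 4 * (5 * s / 16) + 6 * (5 * s / 16) * D)
      - D * (1 + 5 * s / 16 * D) ^ 2 := by
  obtain ⟨p, hp⟩ : ∃ p : ℝ, p = (s - 2 / 5) / (2 / 5) := ⟨_, rfl⟩
  obtain ⟨r, hr⟩ : ∃ r : ℝ, r = (D - 1 / 2) / (1 / 4) := ⟨_, rfl⟩
  have hs : s = 2 / 5 + (2 / 5) * p := by rw [hp]; ring
  have hD : D = 1 / 2 + (1 / 4) * r := by rw [hr]; ring
  have hp0 : 0 ≤ p := by linarith
  have hp1 : 0 ≤ 1 - p := by linarith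
  have hr0 : 0 ≤ r := by linarith
  have hr1 : 0 ≤ 1 - r := by linarith
  have key := box1_2_pos p (1 - p) r (1 - r) hp0 hp1 hr0 hr1
  have e : V1 s * (1 + 5 * s / 16 * D) + 5 / 16 * U1 s * D
      + 687 / 1000 * U1 s * D * (1 - 4 * (5 * s / 16) + 6 * (5 * s / 16) * D)
      - D * (1 + 5 * s / 16 * D) ^ 2 = 413 / 250000 + ((57425287 / 4000000000) * (p ^ 0 * (1 - p) ^ 5) * (r ^ 0 * (1 - r) ^ 3)
      + (33745533 / 2000000000) * (p ^ 0 * (1 - p) ^ 5) * (r ^ 1 * (1 - r) ^ 2)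
      + (79329707 / 16000000000) * (p ^ 0 * (1 - p) ^ 5) * (r ^ 2 * (1 - r) ^ 1)
      + (35160341 / 16000000000) * (p ^ 0 * (1 - p) ^ 5) * (r ^ 3 * (1 - r) ^ 0)
      + (189351131 / 2000000000) * (p ^ 1 * (1 - p) ^ 4) * (r ^ 0 * (1 - r) ^ 3)
      + (119874993 / 1000000000) * (p ^ 1 * (1 - p) ^ 4) * (r ^ 1 * (1 - r) ^ 2)
      + (306444621 / 8000000000) * (p ^ 1 * (1 - p) ^ 4) * (r ^ 2 * (1 - r) ^ 1)
      + (45588663 / 4000000000) * (p ^ 1 * (1 - p) ^ 4) * (r ^ 3 * (1 - r) ^ 0)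
      + (511753963 / 2000000000) * (p ^ 2 * (1 - p) ^ 3) * (r ^ 0 * (1 - r) ^ 3)
      + (729644413 / 2000000000) * (p ^ 2 * (1 - p) ^ 3) * (r ^ 1 * (1 - r) ^ 2)
      + (1164260083 / 8000000000) * (p ^ 2 * (1 - p) ^ 3) * (r ^ 2 * (1 - r) ^ 1)
      + (63897227 / 2000000000) * (p ^ 2 * (1 - p) ^ 3) * (r ^ 3 * (1 - r) ^ 0)
      + (176260571 / 500000000) * (p ^ 3 * (1 - p) ^ 2) * (r ^ 0 * (1 - r) ^ 3)
      + (1141924449 / 2000000000) * (p ^ 3 * (1 - p) ^ 2) * (r ^ 1 * (1 - r) ^ 2)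
      + (562506211 / 2000000000) * (p ^ 3 * (1 - p) ^ 2) * (r ^ 2 * (1 - r) ^ 1)
      + (453668059 / 8000000000) * (p ^ 3 * (1 - p) ^ 2) * (r ^ 3 * (1 - r) ^ 0)
      + (978372259 / 4000000000) * (p ^ 4 * (1 - p) ^ 1) * (r ^ 0 * (1 - r) ^ 3)
      + (443260401 / 1000000000) * (p ^ 4 * (1 - p) ^ 1) * (r ^ 1 * (1 - r) ^ 2)
      + (4076263119 / 16000000000) * (p ^ 4 * (1 - p) ^ 1) * (r ^ 2 * (1 - r) ^ 1)
      + (835085739 / 16000000000) * (p ^ 4 * (1 - p) ^ 1) * (r ^ 3 * (1 - r) ^ 0)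
      + (135325273 / 2000000000) * (p ^ 5 * (1 - p) ^ 0) * (r ^ 0 * (1 - r) ^ 3)
      + (268368217 / 2000000000) * (p ^ 5 * (1 - p) ^ 0) * (r ^ 1 * (1 - r) ^ 2)
      + (685652983 / 8000000000) * (p ^ 5 * (1 - p) ^ 0) * (r ^ 2 * (1 - r) ^ 1)
      + (145668707 / 8000000000) * (p ^ 5 * (1 - p) ^ 0) * (r ^ 3 * (1 - r) ^ 0)) := by
    rw [hs, hD]; unfold U1 V1; ring
  rw [e]; linarith

private theorem box1_3_pos (p q r t : ℝ) (hp : 0 ≤ p) (hq : 0 ≤ q) (hr : 0 ≤ r) (ht : 0 ≤ t) :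
    0 ≤ (332483 / 80000000) * (p ^ 0 * q ^ 5) * (r ^ 0 * t ^ 3)
      + (19709 / 1600000) * (p ^ 0 * q ^ 5) * (r ^ 1 * t ^ 2)
      + (973451 / 80000000) * (p ^ 0 * q ^ 5) * (r ^ 2 * t ^ 1)
      + (80121 / 20000000) * (p ^ 0 * q ^ 5) * (r ^ 3 * t ^ 0)
      + (10070079 / 320000000) * (p ^ 1 * q ^ 4) * (r ^ 0 * t ^ 3)
      + (38443547 / 320000000) * (p ^ 1 * q ^ 4) * (r ^ 1 * t ^ 2)
      + (14321199 / 80000000) * (p ^ 1 * q ^ 4) * (r ^ 2 * t ^ 1)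
      + (903479 / 10000000) * (p ^ 1 * q ^ 4) * (r ^ 3 * t ^ 0)
      + (797381 / 25000000) * (p ^ 2 * q ^ 3) * (r ^ 0 * t ^ 3)
      + (13142201 / 80000000) * (p ^ 2 * q ^ 3) * (r ^ 1 * t ^ 2)
      + (71284371 / 200000000) * (p ^ 2 * q ^ 3) * (r ^ 2 * t ^ 1)
      + (11153151 / 50000000) * (p ^ 2 * q ^ 3) * (r ^ 3 * t ^ 0)
      + (633127 / 160000000) * (p ^ 3 * q ^ 2) * (r ^ 0 * t ^ 3)
      + (33644137 / 800000000) * (p ^ 3 * q ^ 2) * (r ^ 1 * t ^ 2)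
      + (47616587 / 200000000) * (p ^ 3 * q ^ 2) * (r ^ 2 * t ^ 1)
      + (2463189 / 12500000) * (p ^ 3 * q ^ 2) * (r ^ 3 * t ^ 0)
      + (39265551 / 2000000000) * (p ^ 4 * q ^ 1) * (r ^ 0 * t ^ 3)
      + (7170751 / 400000000) * (p ^ 4 * q ^ 1) * (r ^ 1 * t ^ 2)
      + (141168927 / 2000000000) * (p ^ 4 * q ^ 1) * (r ^ 2 * t ^ 1)
      + (34680337 / 500000000) * (p ^ 4 * q ^ 1) * (r ^ 3 * t ^ 0)
      + (155732707 / 8000000000) * (p ^ 5 * q ^ 0) * (r ^ 0 * t ^ 3)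
      + (218551259 / 8000000000) * (p ^ 5 * q ^ 0) * (r ^ 1 * t ^ 2)
      + (5453871 / 400000000) * (p ^ 5 * q ^ 0) * (r ^ 2 * t ^ 1)
      + (1201449 / 250000000) * (p ^ 5 * q ^ 0) * (r ^ 3 * t ^ 0) := by
  positivity

private theorem box1_3 (s D : ℝ) (hs0 : 0 ≤ s) (hs1 : s ≤ 4 / 5) (hD0 : 3 / 4 ≤ D) (hD1 : D ≤ 1) :
    0 < V1 s * (1 + 5 * s / 16 * D) + 5 / 16 * U1 s * D
      + 687 / 1000 * U1 s * D * (1 - 4 * (5 * s / 16) + 6 * (5 * s / 16) * D)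
      - D * (1 + 5 * s / 16 * D) ^ 2 := by
  obtain ⟨p, hp⟩ : ∃ p : ℝ, p = (s - 0) / (4 / 5) := ⟨_, rfl⟩
  obtain ⟨r, hr⟩ : ∃ r : ℝ, r = (D - 3 / 4) / (1 / 4) := ⟨_, rfl⟩
  have hs : s = 0 + (4 / 5) * p := by rw [hp]; ring
  have hD : D = 3 / 4 + (1 / 4) * r := by rw [hr]; ring
  have hp0 : 0 ≤ p := by linarith
  have hp1 : 0 ≤ 1 - p := by linarith
  have hr0 : 0 ≤ r := by linarith
  have hr1 : 0 ≤ 1 - r := by linarith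
  have key := box1_3_pos p (1 - p) r (1 - r) hp0 hp1 hr0 hr1
  have e : V1 s * (1 + 5 * s / 16 * D) + 5 / 16 * U1 s * D
      + 687 / 1000 * U1 s * D * (1 - 4 * (5 * s / 16) + 6 * (5 * s / 16) * D)
      - D * (1 + 5 * s / 16 * D) ^ 2 = 197 / 500000 + ((332483 / 80000000) * (p ^ 0 * (1 - p) ^ 5) * (r ^ 0 * (1 - r) ^ 3)
      + (19709 / 1600000) * (p ^ 0 * (1 - p) ^ 5) * (r ^ 1 * (1 - r) ^ 2)
      + (973451 / 80000000) * (p ^ 0 * (1 - p) ^ 5) * (r ^ 2 * (1 - r) ^ 1)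
      + (80121 / 20000000) * (p ^ 0 * (1 - p) ^ 5) * (r ^ 3 * (1 - r) ^ 0)
      + (10070079 / 320000000) * (p ^ 1 * (1 - p) ^ 4) * (r ^ 0 * (1 - r) ^ 3)
      + (38443547 / 320000000) * (p ^ 1 * (1 - p) ^ 4) * (r ^ 1 * (1 - r) ^ 2)
      + (14321199 / 80000000) * (p ^ 1 * (1 - p) ^ 4) * (r ^ 2 * (1 - r) ^ 1)
      + (903479 / 10000000) * (p ^ 1 * (1 - p) ^ 4) * (r ^ 3 * (1 - r) ^ 0)
      + (797381 / 25000000) * (p ^ 2 * (1 - p) ^ 3) * (r ^ 0 * (1 - r) ^ 3)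
      + (13142201 / 80000000) * (p ^ 2 * (1 - p) ^ 3) * (r ^ 1 * (1 - r) ^ 2)
      + (71284371 / 200000000) * (p ^ 2 * (1 - p) ^ 3) * (r ^ 2 * (1 - r) ^ 1)
      + (11153151 / 50000000) * (p ^ 2 * (1 - p) ^ 3) * (r ^ 3 * (1 - r) ^ 0)
      + (633127 / 160000000) * (p ^ 3 * (1 - p) ^ 2) * (r ^ 0 * (1 - r) ^ 3)
      + (33644137 / 800000000) * (p ^ 3 * (1 - p) ^ 2) * (r ^ 1 * (1 - r) ^ 2)
      + (47616587 / 200000000) * (p ^ 3 * (1 - p) ^ 2) * (r ^ 2 * (1 - r) ^ 1)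
      + (2463189 / 12500000) * (p ^ 3 * (1 - p) ^ 2) * (r ^ 3 * (1 - r) ^ 0)
      + (39265551 / 2000000000) * (p ^ 4 * (1 - p) ^ 1) * (r ^ 0 * (1 - r) ^ 3)
      + (7170751 / 400000000) * (p ^ 4 * (1 - p) ^ 1) * (r ^ 1 * (1 - r) ^ 2)
      + (141168927 / 2000000000) * (p ^ 4 * (1 - p) ^ 1) * (r ^ 2 * (1 - r) ^ 1)
      + (34680337 / 500000000) * (p ^ 4 * (1 - p) ^ 1) * (r ^ 3 * (1 - r) ^ 0)
      + (155732707 / 8000000000) * (p ^ 5 * (1 - p) ^ 0) * (r ^ 0 * (1 - r) ^ 3)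
      + (218551259 / 8000000000) * (p ^ 5 * (1 - p) ^ 0) * (r ^ 1 * (1 - r) ^ 2)
      + (5453871 / 400000000) * (p ^ 5 * (1 - p) ^ 0) * (r ^ 2 * (1 - r) ^ 1)
      + (1201449 / 250000000) * (p ^ 5 * (1 - p) ^ 0) * (r ^ 3 * (1 - r) ^ 0)) := by
    rw [hs, hD]; unfold U1 V1; ring
  rw [e]; linarith

/-- the polynomial inequality of phase 1 (`c = 5s/16`); numerically the left side is at least
`0.0037` on the whole box -/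
theorem scal1 (s D : ℝ) (hs0 : 0 ≤ s) (hs1 : s ≤ 4 / 5) (hD0 : 0 ≤ D) (hD1 : D ≤ 1) :
    0 < V1 s * (1 + 5 * s / 16 * D) + 5 / 16 * U1 s * D
      + 687 / 1000 * U1 s * D * (1 - 4 * (5 * s / 16) + 6 * (5 * s / 16) * D)
      - D * (1 + 5 * s / 16 * D) ^ 2 := by
  by_cases h1 : D ≤ 1 / 2
  · exact box1_0 s D hs0 hs1 hD0 h1
  · by_cases h2 : D ≤ 3 / 4
    · by_cases h3 : s ≤ 2 / 5
      · exact box1_1 s D hs0 h3 (by linarith) h2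
      · exact box1_2 s D (by linarith) hs1 (by linarith) h2
    · exact box1_3 s D hs0 hs1 (by linarith) hD1

end SKG
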