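import Pool.Agent.Lib.MP_c42713_pr.FlowDefs
import Pool.Agent.Lib.MP_c42713_pr.JScal1

namespace SKG

private theorem JPh1_omh2 (a : Fin 2 → ℝ) (D : ℝ) : omh a D = a 0 + a 1 * D := by
  unfold omh
  rw [Fin.sum_univ_two]
  simp

private theorem JPh1_om2 (a : Fin 2 → ℝ) (D : ℝ) : om a D = D * (a 0 + a 1 * D) := by
  unfold om
  rw [JPh1_omh2]

private theorem JPh1_psi2 (a : Fin 2 → ℝ) (D : ℝ) : psi a D = a 0 - 4 * a 1 + 6 * a 1 * D := by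
  unfold psi omD omDD
  rw [Fin.sum_univ_two, Fin.sum_univ_two]
  simp
  ring

private theorem JPh1_bounds {s : ℝ} (h0 : 0 ≤ s) (h1 : s ≤ 4 / 5) : 0 < U1 s ∧ U1 s < 1 := by
  have h2 : s ^ 2 ≤ (4 / 5) ^ 2 := pow_le_pow_left₀ h0 h1 2
  have h4 : s ^ 4 ≤ (4 / 5) ^ 4 := pow_le_pow_left₀ h0 h1 4
  have h2' : 0 ≤ s ^ 2 := pow_nonneg h0 2
  have h4' : 0 ≤ s ^ 4 := pow_nonneg h0 4
  unfold U1
  constructor <;> norm_num at * <;> linarith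

private theorem JPh1_U1_deriv (s : ℝ) : HasDerivAt U1 (-V1 s) s := by
  have h2 : HasDerivAt (fun s : ℝ => s ^ 2) (2 * s) s := by
    simpa using hasDerivAt_pow 2 s
  have h4 : HasDerivAt (fun s : ℝ => s ^ 4) (4 * s ^ 3) s := by
    simpa using hasDerivAt_pow 4 s
  have h : HasDerivAt (fun s : ℝ => 9999 / 10000 - s / 200 - 287 / 2000 * s ^ 2 - 3 / 100 * s ^ 4)
      (0 - 1 / 200 - 287 / 2000 * (2 * s) - 3 / 100 * (4 * s ^ 3)) s :=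
    (((hasDerivAt_const s _).sub ((hasDerivAt_id' s).div_const 200)).sub
      (h2.const_mul (287 / 2000))).sub (h4.const_mul (3 / 100))
  have e : -V1 s = 0 - 1 / 200 - 287 / 2000 * (2 * s) - 3 / 100 * (4 * s ^ 3) := by
    unfold V1
    ring
  rw [e]
  exact h

private theorem JPh1_mem {τ t : ℝ} (h0 : 0 < τ) (h1 : τ ≤ 4 / 5) (ht0 : 0 ≤ t) (ht1 : t ≤ 1) :
    0 ≤ τ * t ∧ τ * t ≤ 4 / 5 := by
  refine ⟨mul_nonneg h0.le ht0, ?_⟩
  calc τ * t ≤ τ * 1 := mul_le_mul_of_nonneg_left ht1 h0.le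
    _ ≤ 4 / 5 := by linarith

/-- coefficients of `ω` in phase 1: `ω = (D + c D^2)/u` with `u = U1(τt)`, `c = 5τt/16` -/
noncomputable def a1 (τ : ℝ) : Fin 2 → ℝ → ℝ :=
  ![fun t => 1 / U1 (τ * t), fun t => (5 / 16 * (τ * t)) / U1 (τ * t)]

/-- their derivatives -/
noncomputable def a1' (τ : ℝ) : Fin 2 → ℝ → ℝ :=
  ![fun t => τ * V1 (τ * t) / U1 (τ * t) ^ 2,
    fun t => τ * (5 / 16) / U1 (τ * t) + 5 / 16 * (τ * t) * (τ * V1 (τ * t)) / U1 (τ * t) ^ 2]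

/-- all scalar hypotheses of the phase theorem in phase 1 -/
theorem ph1 (τ : ℝ) (h0 : 0 < τ) (h1 : τ ≤ 4 / 5) :
    (∀ k, ContinuousOn (a1 τ k) (Set.Icc 0 1)) ∧
    (∀ k, ∀ t ∈ Set.Ioc (0 : ℝ) 1, HasDerivAt (a1 τ k) (a1' τ k t) t) ∧
    (∀ t ∈ Set.Icc (0 : ℝ) 1, ∀ D ∈ Set.Icc (0 : ℝ) 1,
      om (fun k => a1 τ k t) D ≤ (1 + 5 / 16 * (τ * t)) / U1 (τ * t)) ∧
    (∀ t ∈ Set.Icc (0 : ℝ) 1, ∀ D ∈ Set.Icc (0 : ℝ) 1, 0 ≤ psi (fun k => a1 τ k t) D) ∧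
    (∀ t ∈ Set.Icc (0 : ℝ) 1, ∀ D ∈ Set.Icc (0 : ℝ) 1, 1 < omh (fun k => a1 τ k t) D) ∧
    (∀ t ∈ Set.Ioc (0 : ℝ) 1, ∀ D ∈ Set.Ioc (0 : ℝ) 1,
      0 < om (fun k => a1' τ k t) D + (τ * (687 / 1000)) * D ^ 2 * psi (fun k => a1 τ k t) D
        - τ * om (fun k => a1 τ k t) D ^ 2) := by
  have hmem : ∀ t ∈ Set.Icc (0 : ℝ) 1, 0 ≤ τ * t ∧ τ * t ≤ 4 / 5 := fun t ht =>
    JPh1_mem h0 h1 ht.1 ht.2
  have hU : ∀ t ∈ Set.Icc (0 : ℝ) 1, 0 < U1 (τ * t) ∧ U1 (τ * t) < 1 := fun t ht =>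
    JPh1_bounds (hmem t ht).1 (hmem t ht).2
  have hdU : ∀ t : ℝ, HasDerivAt (fun t => U1 (τ * t)) (-V1 (τ * t) * τ) t := by
    intro t
    have e1 : HasDerivAt (fun t : ℝ => τ * t) τ t := by
      simpa using (hasDerivAt_id' t).const_mul τ
    exact (JPh1_U1_deriv (τ * t)).comp t e1
  have hder0 : ∀ t ∈ Set.Icc (0 : ℝ) 1, HasDerivAt (a1 τ 0) (a1' τ 0 t) t := by
    intro t ht
    have hne := (hU t ht).1.ne'
    have h2 := (hasDerivAt_const t (1 : ℝ)).div (hdU t) hne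
    have e : a1' τ 0 t = (0 * U1 (τ * t) - 1 * (-V1 (τ * t) * τ)) / U1 (τ * t) ^ 2 := by
      show τ * V1 (τ * t) / U1 (τ * t) ^ 2 = _
      congr 1
      ring
    rw [e]
    exact h2
  have hder1 : ∀ t ∈ Set.Icc (0 : ℝ) 1, HasDerivAt (a1 τ 1) (a1' τ 1 t) t := by
    intro t ht
    have hne := (hU t ht).1.ne'
    have e1 : HasDerivAt (fun t : ℝ => 5 / 16 * (τ * t)) (5 / 16 * τ) t := by
      simpa using ((hasDerivAt_id' t).const_mul τ).const_mul (5 / 16)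
    have h2 := e1.div (hdU t) hne
    have e : a1' τ 1 t = (5 / 16 * τ * U1 (τ * t) - 5 / 16 * (τ * t) * (-V1 (τ * t) * τ))
        / U1 (τ * t) ^ 2 := by
      show τ * (5 / 16) / U1 (τ * t) + 5 / 16 * (τ * t) * (τ * V1 (τ * t)) / U1 (τ * t) ^ 2 = _
      field_simp
      ring
    rw [e]
    exact h2
  have v0 : ∀ t, a1 τ 0 t = 1 / U1 (τ * t) := fun t => rfl
  have v1 : ∀ t, a1 τ 1 t = (5 / 16 * (τ * t)) / U1 (τ * t) := fun t => rfl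
  have v0' : ∀ t, a1' τ 0 t = τ * V1 (τ * t) / U1 (τ * t) ^ 2 := fun t => rfl
  have v1' : ∀ t, a1' τ 1 t = τ * (5 / 16) / U1 (τ * t)
      + 5 / 16 * (τ * t) * (τ * V1 (τ * t)) / U1 (τ * t) ^ 2 := fun t => rfl
  refine ⟨?_, ?_, ?_, ?_, ?_, ?_⟩
  · intro k
    fin_cases k
    · exact fun t ht => (hder0 t ht).continuousAt.continuousWithinAt
    · exact fun t ht => (hder1 t ht).continuousAt.continuousWithinAt
  · intro k t ht
    have ht' : t ∈ Set.Icc (0 : ℝ) 1 := ⟨ht.1.le, ht.2⟩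
    fin_cases k
    · exact hder0 t ht'
    · exact hder1 t ht'
  · intro t ht D hD
    obtain ⟨hs0, hs1⟩ := hmem t ht
    obtain ⟨hUp, hU1⟩ := hU t ht
    rw [JPh1_om2, v0, v1]
    have e : D * (1 / U1 (τ * t) + 5 / 16 * (τ * t) / U1 (τ * t) * D)
        = (D * (1 + 5 / 16 * (τ * t) * D)) / U1 (τ * t) := by
      field_simp
    rw [e]
    refine div_le_div_of_nonneg_right ?_ hUp.le
    have h3 : D * (1 + 5 / 16 * (τ * t) * D) ≤ 1 * (1 + 5 / 16 * (τ * t) * 1) := by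
      have h4 : 0 ≤ 5 / 16 * (τ * t) := by linarith
      have h5 : 5 / 16 * (τ * t) * D ≤ 5 / 16 * (τ * t) * 1 := mul_le_mul_of_nonneg_left hD.2 h4
      have h6 : 0 ≤ 5 / 16 * (τ * t) * D := mul_nonneg h4 hD.1
      exact mul_le_mul hD.2 (by linarith) (by linarith) zero_le_one
    linarith
  · intro t ht D hD
    obtain ⟨hs0, hs1⟩ := hmem t ht
    obtain ⟨hUp, hU1⟩ := hU t ht
    rw [JPh1_psi2, v0, v1]
    have e : 1 / U1 (τ * t) - 4 * (5 / 16 * (τ * t) / U1 (τ * t))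
          + 6 * (5 / 16 * (τ * t) / U1 (τ * t)) * D
        = (1 - 5 / 4 * (τ * t) + 15 / 8 * ((τ * t) * D)) / U1 (τ * t) := by
      field_simp
      ring
    rw [e]
    refine div_nonneg ?_ hUp.le
    have h3 : 0 ≤ (τ * t) * D := mul_nonneg hs0 hD.1
    linarith
  · intro t ht D hD
    obtain ⟨hs0, hs1⟩ := hmem t ht
    obtain ⟨hUp, hU1⟩ := hU t ht
    rw [JPh1_omh2, v0, v1]
    have h3 : 1 < 1 / U1 (τ * t) := by
      rw [lt_div_iff₀ hUp]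
      linarith
    have h4 : 0 ≤ 5 / 16 * (τ * t) / U1 (τ * t) * D :=
      mul_nonneg (div_nonneg (by linarith) hUp.le) hD.1
    linarith
  · intro t ht D hD
    have ht' : t ∈ Set.Icc (0 : ℝ) 1 := ⟨ht.1.le, ht.2⟩
    obtain ⟨hs0, hs1⟩ := hmem t ht'
    obtain ⟨hUp, hU1⟩ := hU t ht'
    have hsc := scal1 (τ * t) D hs0 hs1 hD.1.le hD.2
    rw [JPh1_om2, JPh1_om2, JPh1_psi2, v0, v1, v0', v1']
    have e : D * (τ * V1 (τ * t) / U1 (τ * t) ^ 2 + (τ * (5 / 16) / U1 (τ * t)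
            + 5 / 16 * (τ * t) * (τ * V1 (τ * t)) / U1 (τ * t) ^ 2) * D)
          + τ * (687 / 1000) * D ^ 2 * (1 / U1 (τ * t) - 4 * (5 / 16 * (τ * t) / U1 (τ * t))
            + 6 * (5 / 16 * (τ * t) / U1 (τ * t)) * D)
          - τ * (D * (1 / U1 (τ * t) + 5 / 16 * (τ * t) / U1 (τ * t) * D)) ^ 2
        = τ * D / U1 (τ * t) ^ 2 * (V1 (τ * t) * (1 + 5 * (τ * t) / 16 * D)
            + 5 / 16 * U1 (τ * t) * D
            + 687 / 1000 * U1 (τ * t) * D * (1 - 4 * (5 * (τ * t) / 16)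
              + 6 * (5 * (τ * t) / 16) * D)
            - D * (1 + 5 * (τ * t) / 16 * D) ^ 2) := by
      have hne := hUp.ne'
      generalize U1 (τ * t) = U at hne ⊢
      generalize V1 (τ * t) = V
      generalize τ * t = s
      field_simp
      ring
    rw [e]
    exact mul_pos (div_pos (mul_pos h0 hD.1) (pow_pos hUp 2)) hsc

end SKG
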