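import Mathlib

namespace SKG

/-- phase 2: `u(s)` -/
noncomputable def U2 (s : ℝ) : ℝ :=
  8917 / 10000 - 1899 / 2000 * s - 27 / 160 * s ^ 2 - 1 / 40 * s ^ 3

/-- phase 2: `-u'(s)` -/
noncomputable def V2 (s : ℝ) : ℝ := 1899 / 2000 + 27 / 80 * s + 3 / 40 * s ^ 2

private theorem box2_0_pos (p q r t : ℝ) (hp : 0 ≤ p) (hq : 0 ≤ q) (hr : 0 ≤ r) (ht : 0 ≤ t) :
    0 ≤ (473249 / 500000) * (p ^ 0 * q ^ 3) * (r ^ 0 * t ^ 3)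
      + (2076869 / 1000000) * (p ^ 0 * q ^ 3) * (r ^ 1 * t ^ 2)
      + (5979673 / 5000000) * (p ^ 0 * q ^ 3) * (r ^ 2 * t ^ 1)
      + (7659 / 2500000) * (p ^ 0 * q ^ 3) * (r ^ 3 * t ^ 0)
      + (1554747 / 500000) * (p ^ 1 * q ^ 2) * (r ^ 0 * t ^ 3)
      + (7108107 / 1000000) * (p ^ 1 * q ^ 2) * (r ^ 1 * t ^ 2)
      + (8390247 / 2000000) * (p ^ 1 * q ^ 2) * (r ^ 2 * t ^ 1)
      + (18021 / 2000000) * (p ^ 1 * q ^ 2) * (r ^ 3 * t ^ 0)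
      + (1713747 / 500000) * (p ^ 2 * q ^ 1) * (r ^ 0 * t ^ 3)
      + (8141607 / 1000000) * (p ^ 2 * q ^ 1) * (r ^ 1 * t ^ 2)
      + (3074937 / 625000) * (p ^ 2 * q ^ 1) * (r ^ 2 * t ^ 1)
      + (91431 / 5000000) * (p ^ 2 * q ^ 1) * (r ^ 3 * t ^ 0)
      + (632249 / 500000) * (p ^ 3 * q ^ 0) * (r ^ 0 * t ^ 3)
      + (3110369 / 1000000) * (p ^ 3 * q ^ 0) * (r ^ 1 * t ^ 2)
      + (19147199 / 10000000) * (p ^ 3 * q ^ 0) * (r ^ 2 * t ^ 1)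
      + (63489 / 10000000) * (p ^ 3 * q ^ 0) * (r ^ 3 * t ^ 0) := by
  positivity

private theorem box2_0 (s D : ℝ) (hs0 : 0 ≤ s) (hs1 : s ≤ 4 / 5) (hD0 : 0 ≤ D) (hD1 : D ≤ 1) :
    0 < V2 s * (1 + D / 4) + 3 / 2 * (312 / 1000) * U2 s * D ^ 2
      - D * (1 + D / 4) ^ 2 - 15 / 8 * (19 / 1000 * (1 - 5 / 8 * s)) * D ^ 2 := by
  obtain ⟨p, hp⟩ : ∃ p : ℝ, p = (s - 0) / (4 / 5) := ⟨_, rfl⟩
  obtain ⟨r, hr⟩ : ∃ r : ℝ, r = (D - 0) / (1) := ⟨_, rfl⟩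
  have hs : s = 0 + (4 / 5) * p := by rw [hp]; ring
  have hD : D = 0 + (1) * r := by rw [hr]; ring
  have hp0 : 0 ≤ p := by linarith
  have hp1 : 0 ≤ 1 - p := by linarith
  have hr0 : 0 ≤ r := by linarith
  have hr1 : 0 ≤ 1 - r := by linarith
  have key := box2_0_pos p (1 - p) r (1 - r) hp0 hp1 hr0 hr1
  have e : V2 s * (1 + D / 4) + 3 / 2 * (312 / 1000) * U2 s * D ^ 2
      - D * (1 + D / 4) ^ 2 - 15 / 8 * (19 / 1000 * (1 - 5 / 8 * s)) * D ^ 2 = 1501 / 500000 + ((473249 / 500000) * (p ^ 0 * (1 - p) ^ 3) * (r ^ 0 * (1 - r) ^ 3)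
      + (2076869 / 1000000) * (p ^ 0 * (1 - p) ^ 3) * (r ^ 1 * (1 - r) ^ 2)
      + (5979673 / 5000000) * (p ^ 0 * (1 - p) ^ 3) * (r ^ 2 * (1 - r) ^ 1)
      + (7659 / 2500000) * (p ^ 0 * (1 - p) ^ 3) * (r ^ 3 * (1 - r) ^ 0)
      + (1554747 / 500000) * (p ^ 1 * (1 - p) ^ 2) * (r ^ 0 * (1 - r) ^ 3)
      + (7108107 / 1000000) * (p ^ 1 * (1 - p) ^ 2) * (r ^ 1 * (1 - r) ^ 2)
      + (8390247 / 2000000) * (p ^ 1 * (1 - p) ^ 2) * (r ^ 2 * (1 - r) ^ 1)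
      + (18021 / 2000000) * (p ^ 1 * (1 - p) ^ 2) * (r ^ 3 * (1 - r) ^ 0)
      + (1713747 / 500000) * (p ^ 2 * (1 - p) ^ 1) * (r ^ 0 * (1 - r) ^ 3)
      + (8141607 / 1000000) * (p ^ 2 * (1 - p) ^ 1) * (r ^ 1 * (1 - r) ^ 2)
      + (3074937 / 625000) * (p ^ 2 * (1 - p) ^ 1) * (r ^ 2 * (1 - r) ^ 1)
      + (91431 / 5000000) * (p ^ 2 * (1 - p) ^ 1) * (r ^ 3 * (1 - r) ^ 0)
      + (632249 / 500000) * (p ^ 3 * (1 - p) ^ 0) * (r ^ 0 * (1 - r) ^ 3)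
      + (3110369 / 1000000) * (p ^ 3 * (1 - p) ^ 0) * (r ^ 1 * (1 - r) ^ 2)
      + (19147199 / 10000000) * (p ^ 3 * (1 - p) ^ 0) * (r ^ 2 * (1 - r) ^ 1)
      + (63489 / 10000000) * (p ^ 3 * (1 - p) ^ 0) * (r ^ 3 * (1 - r) ^ 0)) := by
    rw [hs, hD]; unfold U2 V2; ring
  rw [e]; linarith

/-- the polynomial inequality of phase 2 (`c = 1/4`); numerically the left side is at least
`0.006` on the whole box -/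
theorem scal2 (s D : ℝ) (hs0 : 0 ≤ s) (hs1 : s ≤ 4 / 5) (hD0 : 0 ≤ D) (hD1 : D ≤ 1) :
    0 < V2 s * (1 + D / 4) + 3 / 2 * (312 / 1000) * U2 s * D ^ 2
      - D * (1 + D / 4) ^ 2 - 15 / 8 * (19 / 1000 * (1 - 5 / 8 * s)) * D ^ 2 :=
  box2_0 s D hs0 hs1 hD0 hD1

end SKG
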