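import Pool.Agent.Lib.MP_c42713_pr.FlowDefs
import Pool.Agent.Lib.MP_c42713_pr.JScal2

namespace SKG

/-- coefficients of `ω` in phase 2: `ω = (D + D^2/4)/u` with `u = U2(τt)` -/
noncomputable def a2 (τ : ℝ) : Fin 2 → ℝ → ℝ :=
  ![fun t => 1 / U2 (τ * t), fun t => (1 / 4) / U2 (τ * t)]

/-- their derivatives -/
noncomputable def a2' (τ : ℝ) : Fin 2 → ℝ → ℝ :=
  ![fun t => τ * V2 (τ * t) / U2 (τ * t) ^ 2, fun t => (1 / 4) * (τ * V2 (τ * t)) / U2 (τ * t) ^ 2]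

private theorem JPh2_U2_lower {s : ℝ} (h0 : 0 ≤ s) (h1 : s ≤ 4 / 5) : 113 / 10000 ≤ U2 s := by
  unfold U2
  have h2 : s ^ 2 ≤ (4 / 5) ^ 2 := pow_le_pow_left₀ h0 h1 2
  have h3 : s ^ 3 ≤ (4 / 5) ^ 3 := pow_le_pow_left₀ h0 h1 3
  linarith

private theorem JPh2_U2_upper {s : ℝ} (h0 : 0 ≤ s) : U2 s ≤ 8917 / 10000 := by
  unfold U2
  have h2 : 0 ≤ s ^ 2 := by positivity
  have h3 : 0 ≤ s ^ 3 := by positivity
  linarith

private theorem JPh2_deriv (τ t : ℝ) :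
    HasDerivAt (fun t => U2 (τ * t)) (-(τ * V2 (τ * t))) t := by
  unfold U2 V2
  have hd : HasDerivAt (fun t : ℝ => τ * t) τ t := by
    simpa using (hasDerivAt_id t).const_mul τ
  have h2 := hd.pow 2
  have h3 := hd.pow 3
  have h := (((hasDerivAt_const t (8917 / 10000 : ℝ)).sub (hd.const_mul (1899 / 2000))).sub
    (h2.const_mul (27 / 160))).sub (h3.const_mul (1 / 40))
  refine h.congr_deriv ?_
  norm_num
  ring

private theorem JPh2_arg {τ t : ℝ} (h0 : 0 < τ) (h1 : τ ≤ 4 / 5) (ht0 : 0 ≤ t) (ht1 : t ≤ 1) :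
    0 ≤ τ * t ∧ τ * t ≤ 4 / 5 := by
  constructor
  · positivity
  · nlinarith

private theorem JPh2_omh (τ t D : ℝ) :
    omh (fun k => a2 τ k t) D = (1 + D / 4) / U2 (τ * t) := by
  unfold omh a2
  simp [Fin.sum_univ_two]
  ring

private theorem JPh2_psi (τ t D : ℝ) :
    psi (fun k => a2 τ k t) D = 3 / 2 * D / U2 (τ * t) := by
  unfold psi omD omDD a2
  simp [Fin.sum_univ_two]
  ring

private theorem JPh2_om' (τ t D : ℝ) :
    om (fun k => a2' τ k t) D = τ * D * (V2 (τ * t) * (1 + D / 4)) / U2 (τ * t) ^ 2 := by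
  unfold om omh a2'
  simp [Fin.sum_univ_two]
  ring

/-- all scalar hypotheses of the phase theorem in phase 2 -/
theorem ph2 (τ : ℝ) (h0 : 0 < τ) (h1 : τ ≤ 4 / 5) :
    (∀ k, ContinuousOn (a2 τ k) (Set.Icc 0 1)) ∧
    (∀ k, ∀ t ∈ Set.Ioc (0 : ℝ) 1, HasDerivAt (a2 τ k) (a2' τ k t) t) ∧
    (∀ t ∈ Set.Icc (0 : ℝ) 1, ∀ D ∈ Set.Icc (0 : ℝ) 1,
      om (fun k => a2 τ k t) D ≤ (5 / 4) / U2 (τ * t)) ∧
    (∀ t ∈ Set.Icc (0 : ℝ) 1, ∀ D ∈ Set.Icc (0 : ℝ) 1, 0 ≤ psi (fun k => a2 τ k t) D) ∧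
    (∀ t ∈ Set.Icc (0 : ℝ) 1, ∀ D ∈ Set.Icc (0 : ℝ) 1, 1 < omh (fun k => a2 τ k t) D) ∧
    (∀ t ∈ Set.Ioc (0 : ℝ) 1, ∀ D ∈ Set.Ioc (0 : ℝ) 1,
      0 < om (fun k => a2' τ k t) D
        + (τ * (312 / 1000) - 2 * ((5 / 4) / U2 (τ * t)) * (19 / 2000 * τ * (1 - t / 2))) * D ^ 2
          * psi (fun k => a2 τ k t) D
        - τ * om (fun k => a2 τ k t) D ^ 2) ∧
    (∀ D ∈ Set.Icc (0 : ℝ) 1, omh (fun k => a2 τ k 1) D ≤ 111) := by
  have hUpos : ∀ t ∈ Set.Icc (0 : ℝ) 1, 0 < U2 (τ * t) := fun t ht => by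
    obtain ⟨ha, hb⟩ := JPh2_arg h0 h1 ht.1 ht.2
    exact lt_of_lt_of_le (by norm_num) (JPh2_U2_lower ha hb)
  have hder : ∀ k, ∀ t ∈ Set.Icc (0 : ℝ) 1, HasDerivAt (a2 τ k) (a2' τ k t) t := by
    intro k t ht
    have hU := hUpos t ht
    have hd := (JPh2_deriv τ t).inv hU.ne'
    fin_cases k
    · refine (hd.const_mul 1).congr_deriv ?_ |>.congr_of_eventuallyEq ?_
      · simp [a2']
      · refine Filter.Eventually.of_forall fun s => ?_
        simp [a2]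
    · refine (hd.const_mul (1 / 4)).congr_deriv ?_ |>.congr_of_eventuallyEq ?_
      · simp [a2']; ring
      · refine Filter.Eventually.of_forall fun s => ?_
        simp [a2]; ring
  refine ⟨?_, ?_, ?_, ?_, ?_, ?_, ?_⟩
  · intro k t ht
    exact (hder k t ht).continuousAt.continuousWithinAt
  · intro k t ht
    exact hder k t ⟨ht.1.le, ht.2⟩
  · intro t ht D hD
    have hU := hUpos t ht
    rw [om, JPh2_omh, ← mul_div_assoc]
    refine div_le_div_of_nonneg_right ?_ hU.le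
    nlinarith [hD.1, hD.2]
  · intro t ht D hD
    have hU := hUpos t ht
    rw [JPh2_psi]
    have := hD.1
    positivity
  · intro t ht D hD
    have hU := hUpos t ht
    obtain ⟨ha, hb⟩ := JPh2_arg h0 h1 ht.1 ht.2
    have hu := JPh2_U2_upper ha
    rw [JPh2_omh, lt_div_iff₀ hU]
    linarith [hD.1]
  · intro t ht D hD
    have hU := hUpos t ⟨ht.1.le, ht.2⟩
    obtain ⟨ha, hb⟩ := JPh2_arg h0 h1 ht.1.le ht.2
    have hs := scal2 (τ * t) D ha hb hD.1.le hD.2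
    have hDpos := hD.1
    have key : om (fun k => a2' τ k t) D
        + (τ * (312 / 1000) - 2 * ((5 / 4) / U2 (τ * t)) * (19 / 2000 * τ * (1 - t / 2))) * D ^ 2
          * psi (fun k => a2 τ k t) D
        - τ * om (fun k => a2 τ k t) D ^ 2 =
        (τ * D / U2 (τ * t) ^ 2) * (V2 (τ * t) * (1 + D / 4)
          + 3 / 2 * (312 / 1000) * U2 (τ * t) * D ^ 2
          - D * (1 + D / 4) ^ 2 - 15 / 8 * (19 / 1000 * (1 - t / 2)) * D ^ 2) := by
      rw [JPh2_om', JPh2_psi, om, JPh2_omh]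
      field_simp
      ring
    rw [key]
    refine mul_pos (by positivity) ?_
    have hst : 5 / 8 * (τ * t) ≤ t / 2 := by nlinarith [ht.1]
    have hD2 : 0 < D ^ 2 := by positivity
    nlinarith [mul_le_mul_of_nonneg_right hst hD2.le]
  · intro D hD
    have ha : 0 ≤ τ * 1 := by linarith
    have hb : τ * 1 ≤ 4 / 5 := by linarith
    have hl := JPh2_U2_lower ha hb
    have hU : 0 < U2 (τ * 1) := lt_of_lt_of_le (by norm_num) hl
    rw [JPh2_omh, div_le_iff₀ hU]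
    linarith [hD.2]

end SKG
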