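import Pool.Agent.Lib.MP_c42713_pr.JPhase
import Pool.Agent.Lib.MP_c42713_pr.JPh1
import Pool.Agent.Lib.MP_c42713_pr.JPh2
import Pool.Agent.Lib.MP_c42713_pr.JMono
import Pool.Agent.Lib.MP_c42713_pr.JPathA

namespace SKG

variable {n : ℕ}

private theorem u_compare (τ : ℝ) (h0 : 0 < τ) (h1 : τ ≤ 4 / 5) (D : ℝ) (hD : D ∈ Set.Icc (0 : ℝ) 1) :
    omh (fun k => a1 τ k 1) D ≤ omh (fun k => a2 τ k 0) D := by
  obtain ⟨hD0, hD1⟩ := hD
  have e1 : omh (fun k => a1 τ k 1) D = (1 + 5 / 16 * τ * D) / U1 τ := by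
    simp [omh, a1, Fin.sum_univ_two]; ring
  have e2 : omh (fun k => a2 τ k 0) D = (1 + 1 / 4 * D) / U2 0 := by
    simp [omh, a2, Fin.sum_univ_two]; ring
  rw [e1, e2]
  have hU2 : U2 0 = 8917 / 10000 := by unfold U2; norm_num
  have hU1 : 8917 / 10000 ≤ U1 τ := by
    unfold U1
    have h2 : τ ^ 2 ≤ (4 / 5) ^ 2 := by gcongr
    have h4 : τ ^ 4 ≤ (4 / 5) ^ 4 := by gcongr
    nlinarith
  rw [hU2]
  have h5 : 1 + 5 / 16 * τ * D ≤ 1 + 1 / 4 * D := by nlinarith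
  have h6 : 0 ≤ 1 + 1 / 4 * D := by linarith
  exact div_le_div₀ h6 h5 (by norm_num) hU1

/-- Covariance bound at the final time, uniformly in all fields and all pinnings. -/
theorem cov_final (β ε : ℝ) (hβ : 0 < β) (h0 : 0 < ε) (h1 : ε ≤ 1 / 10000)
    (hL : β * (2 + ε) ≤ 4 / 5) (W : Matrix (Fin n) (Fin n) ℝ) (hW : Good W ε)
    {u : Fin n → ℝ} (hu : Cube u) (ξ : Fin n → ℝ) :
    Cv (iw (β • W) u) (lin ξ) (lin ξ) ≤ 111 * ∑ i, ξ i ^ 2 * dg (iw (β • W) u) i := by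
  have hβ1 : β ≤ 2 / 5 := by nlinarith
  set τ := β * (2 + ε) with hτ
  have hτ0 : 0 < τ := by positivity
  obtain ⟨Q1s, Q2s⟩ := Q_symm W hW.symm β (2 + ε)
  obtain ⟨b1, b2, b3⟩ := Qone_bounds W β ε hβ h0 h1 hW
  obtain ⟨c1, c2, c3⟩ := Qtwo_bounds W β ε hβ h0 h1 hW
  obtain ⟨p1, p2, p3, p4, p5, p6⟩ := ph1 τ hτ0 hL
  obtain ⟨q1, q2, q3, q4, q5, q6, q7⟩ := ph2 τ hτ0 hL
  have hoff : ∀ (M : Matrix (Fin n) (Fin n) ℝ) i, offd M i i = 0 := fun M i => by simp [offd]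
  -- phase one
  have ph1' := phase (0 : Matrix (Fin n) (Fin n) ℝ) (offd (Qone β (2 + ε) W)) (by
      unfold Matrix.IsSymm; simp) (fun i => rfl) (offd_symm Q1s) (hoff _)
    (fun j => Qone β (2 + ε) W j j) τ (687 / 1000) (fun _ => 0) hτ0.le b3 b1 b2
    (fun t ht j => ⟨1 / t, by have := ht.1; positivity, by
      have ht0 : t ≠ 0 := ht.1.ne'
      have : ∀ k, (offd (Qone β (2 + ε) W) j k -
          1 / t * ((0 : Matrix (Fin n) (Fin n) ℝ) + t • offd (Qone β (2 + ε) W)) j k) ^ 2 = 0 := by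
        intro k
        simp only [Matrix.add_apply, Matrix.zero_apply, Matrix.smul_apply, smul_eq_mul, zero_add]
        field_simp
        simp
      rw [Finset.sum_congr rfl fun k _ => this k]; simp⟩)
    (a1 τ) (a1' τ) p1 p2 (fun t => (1 + 5 / 16 * (τ * t)) / U1 (τ * t)) p3 p4
    (fun t ht => p5 t ht 0 (by simp)) (fun t ht D hD => by
      have := p6 t ht D hD
      simpa using this)
    (SB_zero _ (fun D hD => p5 0 (by simp) D hD))
  have s1 := ph1' 1 (by simp)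
  have s1' : SB (offd (Qone β (2 + ε) W)) (fun k => a1 τ k 1) := by
    simpa using s1
  -- phase two
  have s2 : SB (offd (Qone β (2 + ε) W)) (fun k => a2 τ k 0) :=
    SB_mono _ _ _ (fun D hD => u_compare τ hτ0 hL D hD) s1'
  have ph2' := phase (offd (Qone β (2 + ε) W)) (offd (Qtwo β (2 + ε) W)) (offd_symm Q1s) (hoff _)
    (offd_symm Q2s) (hoff _) (fun j => Qtwo β (2 + ε) W j j) τ (312 / 1000)
    (fun t => 19 / 2000 * τ * (1 - t / 2)) hτ0.le c3 c1 c2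
    (Qtwo_assoc W β ε hβ hβ1 h0 h1 hW)
    (a2 τ) (a2' τ) q1 q2 (fun t => (5 / 4) / U2 (τ * t)) q3 q4
    (fun t ht => q5 t ht 0 (by simp)) q6 s2
  have s3 := ph2' 1 (by simp)
  have s3' : SB (offd (β • W)) (fun k => a2 τ k 1) := by
    have := Q_sum W β (2 + ε) (by linarith)
    rw [← this]; simpa using s3
  -- conclusion
  obtain ⟨c, hc, hcx⟩ := iw_diag (β • W) (offd (β • W)) (fun i j hij => by simp [offd, hij]) u
  have hfun : iw (β • W) u = fun x => c * iw (offd (β • W)) u x := funext hcx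
  have hCB := CB_of_SB (offd (β • W)) (fun k => a2 τ k 1) (fun u hu η => by
    by_cases hη : η = 0
    · subst hη; simp [gg]
    · exact (s3' u hu η hη).le) u hu ξ
  rw [hfun]
  have hD : ∀ i, dg (fun x => c * iw (offd (β • W)) u x) i = dg (iw (offd (β • W)) u) i := by
    intro i; unfold dg; rw [Ex_scale hc.ne']
  rw [Cv_scale hc.ne']
  simp only [hD]
  unfold GG at hCB
  have hle : ∑ i, ξ i ^ 2 * om (fun k => a2 τ k 1) (dg (iw (offd (β • W)) u) i) ≤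
      111 * ∑ i, ξ i ^ 2 * dg (iw (offd (β • W)) u) i := by
    rw [Finset.mul_sum]
    refine Finset.sum_le_sum fun i _ => ?_
    have hw := isW_iw (offd (β • W)) hu
    have hd0 : 0 ≤ dg (iw (offd (β • W)) u) i := by
      rw [dg_fact _ hu]
      have h3 : u i ^ 2 ≤ 1 := (sq_le_one_iff_abs_le_one _).2 (hu i)
      have := dd_pos (offd (β • W)) hu i
      nlinarith
    have hd1 : dg (iw (offd (β • W)) u) i ≤ 1 := by
      unfold dg; nlinarith [sq_nonneg (Ex (iw (offd (β • W)) u) (S i))]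
    have h7 := q7 _ ⟨hd0, hd1⟩
    unfold om
    have h8 : 0 ≤ ξ i ^ 2 * dg (iw (offd (β • W)) u) i := by positivity
    calc ξ i ^ 2 * (dg (iw (offd (β • W)) u) i * omh (fun k => a2 τ k 1) (dg (iw (offd (β • W)) u) i))
        = (ξ i ^ 2 * dg (iw (offd (β • W)) u) i) * omh (fun k => a2 τ k 1) (dg (iw (offd (β • W)) u) i) := by ring
      _ ≤ (ξ i ^ 2 * dg (iw (offd (β • W)) u) i) * 111 := mul_le_mul_of_nonneg_left h7 h8
      _ = 111 * (ξ i ^ 2 * dg (iw (offd (β • W)) u) i) := by ring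
  linarith

end SKG
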