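import Pool.Agent.Lib.MP_c42713_pr.FlowDefs

namespace SKG

variable {n : ℕ}

/-- duality: from `Var(ξ·x) ≤ B ∑ ξ_i^2 D_i` to `∑ Cov(f,x_i)^2/D_i ≤ B Var f` -/
theorem dual_bound {w : Conf n → ℝ} (hw : IsW w) (B : ℝ) (hB : 0 ≤ B)
    (h : ∀ ξ : Fin n → ℝ, Cv w (lin ξ) (lin ξ) ≤ B * ∑ i, ξ i ^ 2 * dg w i)
    (T : Finset (Fin n)) (hT : ∀ i ∈ T, 0 < dg w i) (f : Conf n → ℝ) :
    ∑ i ∈ T, Cv w f (S i) ^ 2 / dg w i ≤ B * Cv w f f := by
  classical
  obtain ⟨ξ, hξ⟩ : ∃ ξ : Fin n → ℝ, ξ = fun i => if i ∈ T then Cv w f (S i) / dg w i else 0 :=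
    ⟨_, rfl⟩
  obtain ⟨X, hX⟩ : ∃ X : ℝ, X = ∑ i ∈ T, Cv w f (S i) ^ 2 / dg w i := ⟨_, rfl⟩
  have hX0 : 0 ≤ X := by
    rw [hX]
    exact Finset.sum_nonneg fun i hi => div_nonneg (sq_nonneg _) (hT i hi).le
  have hf := Cv_self_nonneg hw f
  have e1 : Cv w f (lin ξ) = X := by
    have e : lin ξ = fun x => ∑ i, ξ i * S i x := by
      funext x
      rfl
    rw [e, Cv_sum_right, hX, ← Finset.sum_subset (Finset.subset_univ T)]
    · refine Finset.sum_congr rfl fun i hi => ?_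
      rw [Cv_smul_right, hξ]
      dsimp only
      rw [if_pos hi]
      ring
    · intro i _ hi
      rw [Cv_smul_right, hξ]
      dsimp only
      rw [if_neg hi, zero_mul]
  have e2 : ∑ i, ξ i ^ 2 * dg w i = X := by
    rw [hX, ← Finset.sum_subset (Finset.subset_univ T)]
    · refine Finset.sum_congr rfl fun i hi => ?_
      rw [hξ]
      dsimp only
      rw [if_pos hi]
      have := (hT i hi).ne'
      field_simp
    · intro i _ hi
      rw [hξ]
      dsimp only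
      rw [if_neg hi]
      ring
  have h1 := Cv_sq_le hw f (lin ξ)
  have h2 := h ξ
  rw [e1] at h1
  rw [e2] at h2
  rw [← hX]
  have h3 : X ^ 2 ≤ Cv w f f * (B * X) := h1.trans (mul_le_mul_of_nonneg_left h2 hf)
  rcases hX0.eq_or_lt with h0 | h0
  · rw [← h0]
    exact mul_nonneg hB hf
  · have h4 : X * X ≤ B * Cv w f f * X := by
      calc X * X = X ^ 2 := by ring
        _ ≤ Cv w f f * (B * X) := h3
        _ = B * Cv w f f * X := by ring
    exact le_of_mul_le_mul_right h4 h0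

end SKG
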