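import Pool.Agent.Lib.MP_c42713_pr.JPin

namespace SKG

variable {n d : ℕ}

private theorem JFact_sg (b : Bool) : sg b * sg b = 1 := by cases b <;> simp [sg]

private theorem JFact_cube {u : Fin n → ℝ} (hu : Cube u) (i : Fin n) {c : ℝ} (hc : |c| ≤ 1) :
    Cube (Function.update u i c) := by
  intro j
  by_cases h : j = i
  · subst h; rw [Function.update_self]; exact hc
  · rw [Function.update_of_ne h]; exact hu j

theorem Zs_pos (J : Matrix (Fin n) (Fin n) ℝ) {u : Fin n → ℝ} (hu : Cube u) : 0 < Zs J u :=
  (isW_iw J hu).pos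

theorem dd_pos (J : Matrix (Fin n) (Fin n) ℝ) {u : Fin n → ℝ} (hu : Cube u) (i : Fin n) :
    0 < dd J u i := by
  unfold dd
  have h1 := Zs_pos J (JFact_cube hu i (c := 1) (by norm_num))
  have h2 := Zs_pos J (JFact_cube hu i (c := -1) (by norm_num))
  have h3 := Zs_pos J hu
  positivity

/-- the weight as an affine function of one parameter -/
private theorem JFact_iw1 (J : Matrix (Fin n) (Fin n) ℝ) (u : Fin n → ℝ) (i : Fin n) (c : ℝ) (x : Conf n) :
    iw J (Function.update u i c) x = (1 + c * sg (x i)) *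
      (Real.exp (quad J x / 2) * ∏ l ∈ Finset.univ.erase i, (1 + u l * sg (x l))) := by
  unfold iw
  rw [← Finset.mul_prod_erase Finset.univ _ (Finset.mem_univ i), Function.update_self]
  have : ∏ l ∈ Finset.univ.erase i, (1 + Function.update u i c l * sg (x l)) =
      ∏ l ∈ Finset.univ.erase i, (1 + u l * sg (x l)) := by
    refine Finset.prod_congr rfl fun l hl => ?_
    rw [Function.update_of_ne (Finset.ne_of_mem_erase hl)]
  rw [this]
  ring

/-- the weight as a biaffine function of two parameters -/
private theorem JFact_iw2 (J : Matrix (Fin n) (Fin n) ℝ) (u : Fin n → ℝ) {i j : Fin n} (hij : i ≠ j) (c c' : ℝ)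
    (x : Conf n) :
    iw J (Function.update (Function.update u i c) j c') x = (1 + c * sg (x i)) * (1 + c' * sg (x j)) *
      (Real.exp (quad J x / 2) * ∏ l ∈ (Finset.univ.erase j).erase i, (1 + u l * sg (x l))) := by
  rw [JFact_iw1]
  rw [← Finset.mul_prod_erase (Finset.univ.erase j) _ (Finset.mem_erase.2 ⟨hij, Finset.mem_univ i⟩),
    Function.update_self]
  have : ∏ l ∈ (Finset.univ.erase j).erase i, (1 + Function.update u i c l * sg (x l)) =
      ∏ l ∈ (Finset.univ.erase j).erase i, (1 + u l * sg (x l)) := by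
    refine Finset.prod_congr rfl fun l hl => ?_
    rw [Function.update_of_ne (Finset.ne_of_mem_erase hl)]
  rw [this]
  ring

theorem dg_fact (J : Matrix (Fin n) (Fin n) ℝ) {u : Fin n → ℝ} (hu : Cube u) (i : Fin n) :
    dg (iw J u) i = (1 - u i ^ 2) * dd J u i := by
  set P : Conf n → ℝ := fun x =>
    Real.exp (quad J x / 2) * ∏ l ∈ Finset.univ.erase i, (1 + u l * sg (x l)) with hP
  set A : ℝ := ∑ x, P x with hA
  set B : ℝ := ∑ x, sg (x i) * P x with hB
  have hiw : ∀ c x, iw J (Function.update u i c) x = (1 + c * sg (x i)) * P x := fun c x => JFact_iw1 J u i c x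
  have hZ : ∀ c, Zs J (Function.update u i c) = A + c * B := by
    intro c
    unfold Zs
    rw [hA, hB, Finset.mul_sum, ← Finset.sum_add_distrib]
    refine Finset.sum_congr rfl fun x _ => ?_
    rw [hiw]
    ring
  have hZu : Zs J u = A + u i * B := by
    have := hZ (u i)
    rwa [Function.update_eq_self] at this
  have hm : ∑ x, iw J u x * S i x = B + u i * A := by
    rw [hA, hB, Finset.mul_sum, ← Finset.sum_add_distrib]
    refine Finset.sum_congr rfl fun x _ => ?_
    have h1 := hiw (u i) x
    rw [Function.update_eq_self] at h1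
    rw [h1]
    unfold S
    linear_combination (u i * P x) * JFact_sg (x i)
  have hpos := Zs_pos J hu
  have hE : Ex (iw J u) (S i) = (B + u i * A) / (A + u i * B) := by
    unfold Ex
    rw [hm, ← hZu]
    rfl
  unfold dg dd
  rw [hE, hZ, hZ, hZu]
  rw [hZu] at hpos
  have hne : A + u i * B ≠ 0 := hpos.ne'
  have h1 : 1 - ((B + u i * A) / (A + u i * B)) ^ 2 =
      ((A + u i * B) ^ 2 - (B + u i * A) ^ 2) / (A + u i * B) ^ 2 := by
    rw [div_pow, sub_div, div_self (pow_ne_zero 2 hne)]
  rw [h1, mul_div_assoc']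
  congr 1
  ring

theorem cv2_fact (J : Matrix (Fin n) (Fin n) ℝ) {u : Fin n → ℝ} (hu : Cube u) (i j : Fin n) :
    cv2 (iw J u) i j = Real.sqrt (1 - u i ^ 2) * Real.sqrt (1 - u j ^ 2) * cc J u i j := by
  have hnn : ∀ i, 0 ≤ 1 - u i ^ 2 := by
    intro i
    have := (sq_le_one_iff_abs_le_one (u i)).2 (hu i)
    linarith
  have hsi := Real.mul_self_sqrt (hnn i)
  have hsj := Real.mul_self_sqrt (hnn j)
  by_cases hij : i = j
  · subst hij
    unfold cc
    rw [if_pos rfl, hsi, ← dg_fact J hu i]
    unfold cv2 Cv dg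
    have h1 : (fun x : Conf n => S i x * S i x) = fun _ => 1 := by
      funext x
      exact JFact_sg (x i)
    rw [h1, Ex_const (isW_iw J hu)]
    ring
  · set P : Conf n → ℝ := fun x =>
      Real.exp (quad J x / 2) * ∏ l ∈ (Finset.univ.erase j).erase i, (1 + u l * sg (x l)) with hP
    set A : ℝ := ∑ x, P x with hA
    set B : ℝ := ∑ x, sg (x i) * P x with hB
    set C : ℝ := ∑ x, sg (x j) * P x with hC
    set E : ℝ := ∑ x, sg (x i) * sg (x j) * P x with hE
    have hiw : ∀ c c' x, iw J (Function.update (Function.update u i c) j c') x =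
        (1 + c * sg (x i)) * (1 + c' * sg (x j)) * P x := fun c c' x => JFact_iw2 J u hij c c' x
    have hiwu : ∀ x, iw J u x = (1 + u i * sg (x i)) * (1 + u j * sg (x j)) * P x := by
      intro x
      have := hiw (u i) (u j) x
      rwa [Function.update_eq_self, Function.update_eq_self] at this
    have hZ : ∀ c c', Zs J (Function.update (Function.update u i c) j c') = A + c * B + c' * C + c * c' * E := by
      intro c c'
      unfold Zs
      rw [hA, hB, hC, hE, Finset.mul_sum, Finset.mul_sum, Finset.mul_sum, ← Finset.sum_add_distrib,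
        ← Finset.sum_add_distrib, ← Finset.sum_add_distrib]
      refine Finset.sum_congr rfl fun x _ => ?_
      rw [hiw]
      ring
    have hZu : Zs J u = A + u i * B + u j * C + u i * u j * E := by
      have := hZ (u i) (u j)
      rwa [Function.update_eq_self, Function.update_eq_self] at this
    have hmi : ∑ x, iw J u x * S i x = B + u i * A + u j * E + u i * u j * C := by
      rw [hA, hB, hC, hE, Finset.mul_sum, Finset.mul_sum, Finset.mul_sum, ← Finset.sum_add_distrib,
        ← Finset.sum_add_distrib, ← Finset.sum_add_distrib]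
      refine Finset.sum_congr rfl fun x _ => ?_
      rw [hiwu]
      unfold S
      linear_combination (u i * (1 + u j * sg (x j)) * P x) * JFact_sg (x i)
    have hmj : ∑ x, iw J u x * S j x = C + u j * A + u i * E + u i * u j * B := by
      rw [hA, hB, hC, hE, Finset.mul_sum, Finset.mul_sum, Finset.mul_sum, ← Finset.sum_add_distrib,
        ← Finset.sum_add_distrib, ← Finset.sum_add_distrib]
      refine Finset.sum_congr rfl fun x _ => ?_
      rw [hiwu]
      unfold S
      linear_combination (u j * (1 + u i * sg (x i)) * P x) * JFact_sg (x j)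
    have hmij : ∑ x, iw J u x * (S i x * S j x) = E + u i * C + u j * B + u i * u j * A := by
      rw [hA, hB, hC, hE, Finset.mul_sum, Finset.mul_sum, Finset.mul_sum, ← Finset.sum_add_distrib,
        ← Finset.sum_add_distrib, ← Finset.sum_add_distrib]
      refine Finset.sum_congr rfl fun x _ => ?_
      rw [hiwu]
      unfold S
      linear_combination (u i * sg (x j) * (1 + u j * sg (x j)) * P x) * JFact_sg (x i) +
        (u j * sg (x i) * P x + u i * u j * P x) * JFact_sg (x j)
    have hpos := Zs_pos J hu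
    have hEi : Ex (iw J u) (S i) = (B + u i * A + u j * E + u i * u j * C) / Zs J u := by
      unfold Ex
      rw [hmi]
      rfl
    have hEj : Ex (iw J u) (S j) = (C + u j * A + u i * E + u i * u j * B) / Zs J u := by
      unfold Ex
      rw [hmj]
      rfl
    have hEij : Ex (iw J u) (fun x => S i x * S j x) = (E + u i * C + u j * B + u i * u j * A) / Zs J u := by
      unfold Ex
      rw [hmij]
      rfl
    unfold cc
    rw [if_neg hij]
    have hR : Real.sqrt (1 - u i ^ 2) * Real.sqrt (1 - u j ^ 2) *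
        (Real.sqrt (1 - u i ^ 2) * Real.sqrt (1 - u j ^ 2) *
          (Zs J (Function.update (Function.update u i 1) j 1) *
              Zs J (Function.update (Function.update u i (-1)) j (-1)) -
            Zs J (Function.update (Function.update u i 1) j (-1)) *
              Zs J (Function.update (Function.update u i (-1)) j 1)) / (4 * Zs J u ^ 2)) =
        (1 - u i ^ 2) * (1 - u j ^ 2) * (4 * (A * E - B * C)) / (4 * Zs J u ^ 2) := by
      rw [hZ, hZ, hZ, hZ]
      have h1 : ∀ s t W : ℝ, s * t * (s * t * ((A + 1 * B + 1 * C + 1 * 1 * E) *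
          (A + -1 * B + -1 * C + -1 * -1 * E) - (A + 1 * B + -1 * C + 1 * -1 * E) *
          (A + -1 * B + 1 * C + -1 * 1 * E)) / (4 * W ^ 2)) =
          (s * s) * (t * t) * (4 * (A * E - B * C)) / (4 * W ^ 2) := by
        intro s t W
        ring
      rw [h1, hsi, hsj]
    rw [hR]
    unfold cv2 Cv
    rw [hEi, hEj, hEij, hZu]
    rw [hZu] at hpos
    have hne : A + u i * B + u j * C + u i * u j * E ≠ 0 := hpos.ne'
    have h1 : ∀ W N N1 N2 R : ℝ, W ≠ 0 → N * W - N1 * N2 = R → N / W - N1 / W * (N2 / W) = 4 * R / (4 * W ^ 2) := by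
      intro W N N1 N2 R hW hR
      rw [← hR]
      field_simp
    rw [h1 _ _ _ _ ((1 - u i ^ 2) * (1 - u j ^ 2) * (A * E - B * C)) hne (by ring)]
    congr 1
    ring

theorem GG_eq_gg (J : Matrix (Fin n) (Fin n) ℝ) {u : Fin n → ℝ} (hu : Cube u) (a : Fin d → ℝ)
    (ξ : Fin n → ℝ) :
    GG (iw J u) a ξ = gg J a u (fun i => Real.sqrt (1 - u i ^ 2) * ξ i) := by
  have hnn : ∀ i, 0 ≤ 1 - u i ^ 2 := by
    intro i
    have := (sq_le_one_iff_abs_le_one (u i)).2 (hu i)
    linarith
  have hlin : lin ξ = fun x : Conf n => ∑ i, ξ i * S i x := rfl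
  have hcv : Cv (iw J u) (lin ξ) (lin ξ) = ∑ i, ∑ j, ξ i * ξ j * cv2 (iw J u) i j := by
    rw [hlin, Cv_sum_left]
    refine Finset.sum_congr rfl fun i _ => ?_
    rw [Cv_sum_right]
    refine Finset.sum_congr rfl fun j _ => ?_
    rw [Cv_smul_left, Cv_smul_right]
    unfold cv2
    ring
  unfold GG gg
  rw [hcv]
  congr 1
  · refine Finset.sum_congr rfl fun i _ => ?_
    unfold om
    rw [dg_fact J hu i, mul_pow, Real.sq_sqrt (hnn i)]
    ring
  · refine Finset.sum_congr rfl fun i _ => Finset.sum_congr rfl fun j _ => ?_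
    rw [cv2_fact J hu i j]
    ring

end SKG
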