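import Mathlib

namespace SKG

/-- the first time at which a continuous function on a compact family fails to be positive -/
theorem first_time {Y : Type*} [TopologicalSpace Y] {K : Set Y} (hK : IsCompact K)
    (f : ℝ → Y → ℝ) (hf : ContinuousOn (fun p : ℝ × Y => f p.1 p.2) (Set.Icc 0 1 ×ˢ K))
    (h0 : ∀ y ∈ K, 0 < f 0 y) (h1 : ∃ t ∈ Set.Icc (0 : ℝ) 1, ∃ y ∈ K, f t y ≤ 0) :
    ∃ t ∈ Set.Ioc (0 : ℝ) 1, (∀ s ∈ Set.Icc 0 t, ∀ y ∈ K, 0 ≤ f s y) ∧ ∃ y ∈ K, f t y = 0 := by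
  classical
  set C : Set (ℝ × Y) := Set.Icc 0 1 ×ˢ K with hC
  have hCc : IsCompact C := isCompact_Icc.prod hK
  haveI : CompactSpace C := isCompact_iff_compactSpace.1 hCc
  have hg : Continuous (fun p : C => f p.1.1 p.1.2) := continuousOn_iff_continuous_restrict.1 hf
  have hcl : IsClosed {p : C | f p.1.1 p.1.2 ≤ 0} := isClosed_le hg continuous_const
  have hA : IsCompact ((fun p : C => p.1.1) '' {p : C | f p.1.1 p.1.2 ≤ 0}) :=
    hcl.isCompact.image (continuous_fst.comp continuous_subtype_val)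
  have hne : ((fun p : C => p.1.1) '' {p : C | f p.1.1 p.1.2 ≤ 0}).Nonempty := by
    obtain ⟨t, ht, y, hy, hty⟩ := h1
    exact ⟨t, ⟨⟨(t, y), ⟨ht, hy⟩⟩, hty, rfl⟩⟩
  obtain ⟨t, ht, hmin⟩ := hA.exists_isLeast hne
  obtain ⟨⟨⟨t', y⟩, hty⟩, hle, rfl⟩ := ht
  have hle' : f t' y ≤ 0 := hle
  have hty1 : t' ∈ Set.Icc (0 : ℝ) 1 := hty.1
  have hty2 : y ∈ K := hty.2
  have ht0 : 0 < t' := by
    rcases hty1.1.eq_or_lt with h | h
    · rw [← h] at hle'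
      exact absurd hle' (not_le.2 (h0 y hty2))
    · exact h
  have hpos : ∀ s ∈ Set.Ico 0 t', ∀ z ∈ K, 0 < f s z := by
    intro s hs z hz
    by_contra hcon
    have h3 : t' ≤ s := hmin ⟨⟨(s, z), ⟨⟨hs.1, hs.2.le.trans hty1.2⟩, hz⟩⟩, not_lt.1 hcon, rfl⟩
    exact absurd hs.2 (not_lt.2 h3)
  have hnn : ∀ z ∈ K, 0 ≤ f t' z := by
    intro z hz
    have hc : ContinuousOn (fun s => f s z) (Set.Icc 0 1) := by
      have h2 : ContinuousOn (fun s : ℝ => (s, z)) (Set.Icc 0 1) := by fun_prop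
      exact hf.comp h2 (fun s hs => ⟨hs, hz⟩)
    have h3 : Filter.Tendsto (fun s => f s z) (nhdsWithin t' (Set.Ioo 0 t')) (nhds (f t' z)) :=
      (hc t' hty1).mono (fun s hs => ⟨hs.1.le, hs.2.le.trans hty1.2⟩)
    haveI : (nhdsWithin t' (Set.Ioo 0 t')).NeBot := by
      rw [nhdsWithin_Ioo_eq_nhdsLT ht0]
      infer_instance
    refine ge_of_tendsto h3 ?_
    filter_upwards [self_mem_nhdsWithin] with s hs
    exact (hpos s ⟨hs.1.le, hs.2⟩ z hz).le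
  refine ⟨t', ⟨ht0, hty1.2⟩, ?_, y, hty2, le_antisymm hle' (hnn y hty2)⟩
  intro s hs z hz
  rcases hs.2.eq_or_lt with h | h
  · rw [h]; exact hnn z hz
  · exact (hpos s ⟨hs.1, h⟩ z hz).le

end SKG
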