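import Pool.Agent.Lib.MP_c42713_pr.FlowDefs
import Pool.Agent.Lib.MP_c42713_pr.JTilt

namespace SKG

variable {n d : ℕ}

theorem JGrad_om_eq (a : Fin d → ℝ) (D : ℝ) : om a D = ∑ k : Fin d, a k * D ^ ((k : ℕ) + 1) := by
  unfold om omh
  rw [Finset.mul_sum]
  refine Finset.sum_congr rfl fun k _ => ?_
  ring

theorem hasDerivAt_om (a : Fin d → ℝ) (D : ℝ) : HasDerivAt (om a) (omD a D) D := by
  have e : om a = fun D => ∑ k : Fin d, a k * D ^ ((k : ℕ) + 1) := by
    funext D
    exact JGrad_om_eq a D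
  rw [e]
  unfold omD
  refine HasDerivAt.fun_sum fun k _ => ?_
  refine ((hasDerivAt_pow ((k : ℕ) + 1) D).const_mul (a k)).congr_deriv ?_
  push_cast
  ring

theorem hasDerivAt_omD (a : Fin d → ℝ) (D : ℝ) : HasDerivAt (omD a) (omDD a D) D := by
  have e : omD a = fun D => ∑ k : Fin d, a k * ((k : ℕ) + 1) * D ^ (k : ℕ) := by
    funext D
    rfl
  rw [e]
  unfold omDD
  refine HasDerivAt.fun_sum fun k _ => ?_
  refine ((hasDerivAt_pow (k : ℕ) D).const_mul (a k * ((k : ℕ) + 1))).congr_deriv ?_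
  ring

theorem JGrad_dg {w : Conf n → ℝ} (hw : IsW w) (c : Conf n → ℝ) (j : Fin n) (s : ℝ) :
    HasDerivAt (fun s => dg (tilt w (fun x => s * c x)) j)
      (-2 * Ex (tilt w (fun x => s * c x)) (S j) * Cv (tilt w (fun x => s * c x)) (S j) c) s := by
  unfold dg
  refine (((hasDerivAt_Ex hw c (S j) s).fun_pow 2).const_sub 1).congr_deriv ?_
  push_cast
  ring

/-- first derivative of `GG` along a tilt -/
theorem hasDerivAt_GG {w : Conf n → ℝ} (hw : IsW w) (a : Fin d → ℝ) (ξ : Fin n → ℝ)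
    (c : Conf n → ℝ) (s : ℝ) :
    HasDerivAt (fun s => GG (tilt w (fun x => s * c x)) a ξ)
      (G1 (tilt w (fun x => s * c x)) a ξ c) s := by
  unfold GG G1
  refine HasDerivAt.fun_sub (HasDerivAt.fun_sum fun j _ => ?_) (hasDerivAt_Cv hw c _ _ s)
  refine HasDerivAt.const_mul _ ?_
  exact HasDerivAt.comp (h₂ := om a) s (hasDerivAt_om a (dg (tilt w (fun x => s * c x)) j))
    (JGrad_dg hw c j s)

/-- second derivative of `GG` along a tilt -/
theorem hasDerivAt_G1 {w : Conf n → ℝ} (hw : IsW w) (a : Fin d → ℝ) (ξ : Fin n → ℝ)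
    (c : Conf n → ℝ) (s : ℝ) :
    HasDerivAt (fun s => G1 (tilt w (fun x => s * c x)) a ξ c)
      (G2 (tilt w (fun x => s * c x)) a ξ c) s := by
  unfold G1 G2
  refine HasDerivAt.fun_sub (HasDerivAt.fun_sum fun j _ => ?_) ?_
  · refine HasDerivAt.const_mul _ ?_
    have h1 : HasDerivAt (fun s => omD a (dg (tilt w (fun x => s * c x)) j))
        (omDD a (dg (tilt w (fun x => s * c x)) j) *
          (-2 * Ex (tilt w (fun x => s * c x)) (S j) * Cv (tilt w (fun x => s * c x)) (S j) c)) s :=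
      HasDerivAt.comp (h₂ := omD a) s (hasDerivAt_omD a (dg (tilt w (fun x => s * c x)) j))
        (JGrad_dg hw c j s)
    have h2 := ((hasDerivAt_Ex hw c (S j) s).const_mul (-2)).fun_mul (hasDerivAt_Cv hw c (S j) c s)
    refine (h1.fun_mul h2).congr_deriv ?_
    ring
  · refine (hasDerivAt_k3 hw c (lin ξ) (lin ξ) c s).congr_deriv ?_
    ring

end SKG
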