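import Pool.Agent.Lib.MP_c42713_pr.FlowDefs

namespace SKG

variable {n d : ℕ}

theorem JHess_lin (v : Fin n → ℝ) : (lin v : Conf n → ℝ) = fun x => ∑ k, v k * S k x := rfl

theorem JHess_Ex_lin (w : Conf n → ℝ) (v : Fin n → ℝ) : Ex w (lin v) = ∑ k, v k * Ex w (S k) := by
  rw [JHess_lin, Ex_sum]
  exact Finset.sum_congr rfl fun k _ => Ex_smul _ _ _

theorem JHess_centred (w : Conf n → ℝ) (v : Fin n → ℝ) (x : Conf n) :
    lin v x - Ex w (lin v) = ∑ k, v k * (S k x - Ex w (S k)) := by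
  rw [JHess_Ex_lin, JHess_lin]
  simp only [mul_sub, Finset.sum_sub_distrib]

theorem JHess_Cv (w : Conf n → ℝ) (v : Fin n → ℝ) (f : Conf n → ℝ) :
    Cv w f (lin v) = ∑ k, v k * Cv w f (S k) := by
  rw [JHess_lin, Cv_sum_right]
  exact Finset.sum_congr rfl fun k _ => Cv_smul_right _ _ _ _

theorem JHess_k3 (w : Conf n → ℝ) (v : Fin n → ℝ) (f g : Conf n → ℝ) :
    k3 w f g (lin v) = ∑ k, v k * k3 w f g (S k) := by
  unfold k3
  simp only [JHess_centred]
  have h : (fun x => (f x - Ex w f) * (g x - Ex w g) * ∑ k, v k * (S k x - Ex w (S k))) =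
      fun x => ∑ k, v k * ((f x - Ex w f) * (g x - Ex w g) * (S k x - Ex w (S k))) := by
    funext x
    rw [Finset.mul_sum]
    exact Finset.sum_congr rfl fun k _ => by ring
  rw [h, Ex_sum]
  exact Finset.sum_congr rfl fun k _ => Ex_smul _ _ _

/-- the double sum -/
noncomputable def JHess_T (v : Fin n → ℝ) (F : Fin n → Fin n → ℝ) : ℝ := ∑ k, ∑ l, v k * v l * F k l

theorem JHess_T_add (v : Fin n → ℝ) (F G : Fin n → Fin n → ℝ) :
    JHess_T v (fun k l => F k l + G k l) = JHess_T v F + JHess_T v G := by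
  unfold JHess_T
  simp only [mul_add, Finset.sum_add_distrib]

theorem JHess_T_smul (v : Fin n → ℝ) (c : ℝ) (F : Fin n → Fin n → ℝ) :
    JHess_T v (fun k l => c * F k l) = c * JHess_T v F := by
  unfold JHess_T
  simp only [Finset.mul_sum]
  refine Finset.sum_congr rfl fun k _ => Finset.sum_congr rfl fun l _ => by ring

theorem JHess_T_sum (v : Fin n → ℝ) (F : Fin n → Fin n → Fin n → ℝ) :
    JHess_T v (fun k l => ∑ j, F j k l) = ∑ j, JHess_T v (F j) := by
  unfold JHess_T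
  simp only [Finset.mul_sum]
  conv_rhs => rw [Finset.sum_comm]
  refine Finset.sum_congr rfl fun k _ => ?_
  rw [Finset.sum_comm]

theorem JHess_T_mul (v a : Fin n → ℝ) : JHess_T v (fun k l => a k * a l) = (∑ k, v k * a k) ^ 2 := by
  unfold JHess_T
  rw [sq, Finset.sum_mul_sum]
  refine Finset.sum_congr rfl fun k _ => Finset.sum_congr rfl fun l _ => by ring

theorem JHess_k3_two (w : Conf n → ℝ) (v : Fin n → ℝ) (f : Conf n → ℝ) :
    k3 w f (lin v) (lin v) = JHess_T v (fun k l => k3 w f (S k) (S l)) := by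
  unfold k3 JHess_T
  simp only [JHess_centred]
  have h : (fun x => (f x - Ex w f) * (∑ k, v k * (S k x - Ex w (S k))) *
      ∑ k, v k * (S k x - Ex w (S k))) =
      fun x => ∑ k, ∑ l, v k * v l *
        ((f x - Ex w f) * (S k x - Ex w (S k)) * (S l x - Ex w (S l))) := by
    funext x
    rw [mul_assoc, Finset.sum_mul_sum, Finset.mul_sum]
    refine Finset.sum_congr rfl fun k _ => ?_
    rw [Finset.mul_sum]
    exact Finset.sum_congr rfl fun l _ => by ring
  rw [h, Ex_sum]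
  refine Finset.sum_congr rfl fun k _ => ?_
  rw [Ex_sum]
  exact Finset.sum_congr rfl fun l _ => Ex_smul _ _ _

theorem JHess_k4_two (w : Conf n → ℝ) (v : Fin n → ℝ) (f g : Conf n → ℝ) :
    k4 w f g (lin v) (lin v) = JHess_T v (fun k l => k4 w f g (S k) (S l)) := by
  unfold k4 JHess_T
  simp only [JHess_centred]
  have h : (fun x => (f x - Ex w f) * (g x - Ex w g) * (∑ k, v k * (S k x - Ex w (S k))) *
      ∑ k, v k * (S k x - Ex w (S k))) =
      fun x => ∑ k, ∑ l, v k * v l *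
        ((f x - Ex w f) * (g x - Ex w g) * (S k x - Ex w (S k)) * (S l x - Ex w (S l))) := by
    funext x
    rw [mul_assoc, Finset.sum_mul_sum, Finset.mul_sum]
    refine Finset.sum_congr rfl fun k _ => ?_
    rw [Finset.mul_sum]
    exact Finset.sum_congr rfl fun l _ => by ring
  rw [h, Ex_sum]
  refine Finset.sum_congr rfl fun k _ => ?_
  rw [Ex_sum]
  exact Finset.sum_congr rfl fun l _ => Ex_smul _ _ _

theorem JHess_Cv_two (w : Conf n → ℝ) (v : Fin n → ℝ) :
    Cv w (lin v) (lin v) = JHess_T v (fun k l => cv2 w k l) := by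
  unfold JHess_T cv2
  rw [JHess_Cv]
  have h : ∀ l, Cv w (lin v) (S l) = ∑ k, v k * Cv w (S k) (S l) := by
    intro l
    rw [Cv_comm, JHess_Cv]
    exact Finset.sum_congr rfl fun k _ => by rw [Cv_comm]
  simp only [h, Finset.mul_sum]
  rw [Finset.sum_comm]
  refine Finset.sum_congr rfl fun k _ => Finset.sum_congr rfl fun l _ => by ring

/-- `G1` is linear in the direction -/
theorem G1_lin (w : Conf n → ℝ) (a : Fin d → ℝ) (ξ v : Fin n → ℝ) :
    G1 w a ξ (lin v) = ∑ k, v k * G1 w a ξ (S k) := by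
  unfold G1
  rw [JHess_k3]
  simp only [JHess_Cv, mul_sub, Finset.sum_sub_distrib, Finset.mul_sum]
  congr 1
  rw [Finset.sum_comm]
  refine Finset.sum_congr rfl fun k _ => Finset.sum_congr rfl fun l _ => by ring

/-- `G2` in a linear direction is the quadratic form of the Hessian -/
theorem G2_lin (w : Conf n → ℝ) (a : Fin d → ℝ) (ξ v : Fin n → ℝ) :
    G2 w a ξ (lin v) = ∑ k, ∑ l, v k * v l * Hm w a ξ k l := by
  change _ = JHess_T v (Hm w a ξ)
  have h1 : Hm w a ξ = fun k l =>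
      (∑ j, ((ξ j ^ 2 * (omDD a (dg w j) * (4 * Ex w (S j) ^ 2) - 2 * omD a (dg w j))) *
          (cv2 w j k * cv2 w j l) +
        (ξ j ^ 2 * (omD a (dg w j) * (-2 * Ex w (S j)))) * k3 w (S j) (S k) (S l))) +
      ((-1) * k4 w (lin ξ) (lin ξ) (S k) (S l) + (Cv w (lin ξ) (lin ξ) * cv2 w k l +
        2 * (Cv w (lin ξ) (S k) * Cv w (lin ξ) (S l)))) := by
    funext k l
    unfold Hm
    have : ∀ j, ξ j ^ 2 * (omDD a (dg w j) * (4 * Ex w (S j) ^ 2 * (cv2 w j k * cv2 w j l)) +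
      omD a (dg w j) * (-2 * (cv2 w j k * cv2 w j l) - 2 * Ex w (S j) * k3 w (S j) (S k) (S l))) =
      (ξ j ^ 2 * (omDD a (dg w j) * (4 * Ex w (S j) ^ 2) - 2 * omD a (dg w j))) *
          (cv2 w j k * cv2 w j l) +
        (ξ j ^ 2 * (omD a (dg w j) * (-2 * Ex w (S j)))) * k3 w (S j) (S k) (S l) := by
      intro j
      ring
    simp only [this]
    ring
  rw [h1, JHess_T_add, JHess_T_add, JHess_T_add, JHess_T_smul, JHess_T_smul, JHess_T_smul,
    JHess_T_sum, ← JHess_k4_two, ← JHess_Cv_two, JHess_T_mul, ← JHess_Cv]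
  have h2 : ∀ j, JHess_T v (fun k l =>
      (ξ j ^ 2 * (omDD a (dg w j) * (4 * Ex w (S j) ^ 2) - 2 * omD a (dg w j))) *
          (cv2 w j k * cv2 w j l) +
        (ξ j ^ 2 * (omD a (dg w j) * (-2 * Ex w (S j)))) * k3 w (S j) (S k) (S l)) =
      ξ j ^ 2 * (omDD a (dg w j) * (4 * Ex w (S j) ^ 2 * Cv w (S j) (lin v) ^ 2) +
      omD a (dg w j) * (-2 * Cv w (S j) (lin v) ^ 2 -
        2 * Ex w (S j) * k3 w (S j) (lin v) (lin v))) := by
    intro j
    rw [JHess_T_add, JHess_T_smul, JHess_T_smul, JHess_T_mul, ← JHess_k3_two]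
    have : (∑ k, v k * cv2 w j k) = Cv w (S j) (lin v) := (JHess_Cv w v (S j)).symm
    rw [this]
    ring
  simp only [h2]
  unfold G2
  ring

theorem Hm_symm (w : Conf n → ℝ) (a : Fin d → ℝ) (ξ : Fin n → ℝ) (k l : Fin n) :
    Hm w a ξ k l = Hm w a ξ l k := by
  have h1 : ∀ j, k3 w (S j) (S k) (S l) = k3 w (S j) (S l) (S k) := by
    intro j
    unfold k3
    congr 1
    funext x
    ring
  have h2 : k4 w (lin ξ) (lin ξ) (S k) (S l) = k4 w (lin ξ) (lin ξ) (S l) (S k) := by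
    unfold k4
    congr 1
    funext x
    ring
  have h3 : cv2 w k l = cv2 w l k := Cv_comm _ _ _
  unfold Hm
  rw [h2, h3]
  simp only [h1]
  congr 1
  · refine Finset.sum_congr rfl fun j _ => by ring
  · ring

end SKG
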