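import Pool.Agent.Lib.MP_c42713_pr.LocDefs

namespace SKG

variable {n : ℕ}

theorem isW_pw {w : Conf n → ℝ} (hw : ∀ x, 0 < w x) (T : Finset (Fin n)) (x : Conf n) :
    IsW (pw w T x) := by
  have h0 : ∀ y, 0 ≤ pw w T x y := by
    intro y
    unfold pw
    split_ifs
    · exact (hw y).le
    · exact le_rfl
  refine ⟨h0, Finset.sum_pos' (fun y _ => h0 y) ⟨x, Finset.mem_univ _, ?_⟩⟩
  unfold pw
  rw [if_pos (fun _ _ => rfl)]
  exact hw x

theorem JLocA_pw_congr (w : Conf n → ℝ) (T : Finset (Fin n)) {x y : Conf n}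
    (h : ∀ k, k ∉ T → x k = y k) : pw w T x = pw w T y := by
  funext z
  unfold pw
  have : (∀ k, k ∉ T → z k = x k) ↔ (∀ k, k ∉ T → z k = y k) := by
    constructor
    · intro h1 k hk
      rw [h1 k hk, h k hk]
    · intro h1 k hk
      rw [h1 k hk, h k hk]
  simp only [this]

/-- the conditional expectation does not depend on the coordinates in `T` -/
theorem cE_congr (w : Conf n → ℝ) (T : Finset (Fin n)) (f : Conf n → ℝ) {x y : Conf n}
    (h : ∀ k, k ∉ T → x k = y k) : cE w T f x = cE w T f y := by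
  unfold cE
  rw [JLocA_pw_congr w T h]

/-- averaging property -/
theorem sum_cE_mul {w : Conf n → ℝ} (hw : ∀ x, 0 < w x) (T : Finset (Fin n)) (f g : Conf n → ℝ)
    (hg : ∀ x y, (∀ k, k ∉ T → x k = y k) → g x = g y) :
    ∑ x, w x * (cE w T f x * g x) = ∑ x, w x * (f x * g x) := by
  have h1 : ∀ x, w x * (cE w T f x * g x) =
      ∑ y, w x * (pw w T x y * f y / (∑ z, pw w T x z)) * g x := by
    intro x
    unfold cE Ex
    rw [← Finset.sum_mul, ← Finset.mul_sum, ← Finset.sum_div]
    ring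
  have h2 : ∀ x y, w x * (pw w T x y * f y / (∑ z, pw w T x z)) * g x =
      (w y * (f y * g y)) * (pw w T y x / (∑ z, pw w T y z)) := by
    intro x y
    by_cases hxy : ∀ k, k ∉ T → y k = x k
    · have hyx : ∀ k, k ∉ T → x k = y k := fun k hk => (hxy k hk).symm
      have e1 : pw w T x y = w y := by unfold pw; rw [if_pos hxy]
      have e2 : pw w T y x = w x := by unfold pw; rw [if_pos hyx]
      rw [e1, e2, hg x y hyx, JLocA_pw_congr w T hyx]
      ring
    · have hyx : ¬ ∀ k, k ∉ T → x k = y k := fun h => hxy (fun k hk => (h k hk).symm)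
      have e1 : pw w T x y = 0 := by unfold pw; rw [if_neg hxy]
      have e2 : pw w T y x = 0 := by unfold pw; rw [if_neg hyx]
      rw [e1, e2]
      simp
  calc ∑ x, w x * (cE w T f x * g x)
      = ∑ x, ∑ y, w x * (pw w T x y * f y / (∑ z, pw w T x z)) * g x :=
        Finset.sum_congr rfl fun x _ => h1 x
    _ = ∑ x, ∑ y, (w y * (f y * g y)) * (pw w T y x / (∑ z, pw w T y z)) :=
        Finset.sum_congr rfl fun x _ => Finset.sum_congr rfl fun y _ => h2 x y
    _ = ∑ y, ∑ x, (w y * (f y * g y)) * (pw w T y x / (∑ z, pw w T y z)) := Finset.sum_comm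
    _ = ∑ y, w y * (f y * g y) := by
        refine Finset.sum_congr rfl fun y _ => ?_
        rw [← Finset.mul_sum, ← Finset.sum_div, div_self (isW_pw hw T y).pos.ne', mul_one]

/-- tower property -/
theorem cE_tower {w : Conf n → ℝ} (hw : ∀ x, 0 < w x) {T T' : Finset (Fin n)} (h : T ⊆ T')
    (f : Conf n → ℝ) (x : Conf n) : cE w T' (cE w T f) x = cE w T' f x := by
  classical
  have h1 : ∀ F : Conf n → ℝ, cE w T' F x =
      (∑ y, w y * (F y * (if ∀ k, k ∉ T' → y k = x k then (1:ℝ) else 0))) / ∑ y, pw w T' x y := by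
    intro F
    show (∑ y, pw w T' x y * F y) / _ = _
    congr 1
    refine Finset.sum_congr rfl fun y _ => ?_
    unfold pw
    by_cases hy : ∀ k, k ∉ T' → y k = x k
    · rw [if_pos hy, if_pos hy]; ring
    · rw [if_neg hy, if_neg hy]; ring
  rw [h1, h1, sum_cE_mul hw T f]
  intro y z hyz
  have : (∀ k, k ∉ T' → y k = x k) ↔ (∀ k, k ∉ T' → z k = x k) := by
    constructor
    · intro h2 k hk
      rw [← hyz k (fun hh => hk (h hh)), h2 k hk]
    · intro h2 k hk
      rw [hyz k (fun hh => hk (h hh)), h2 k hk]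
  simp only [this]

/-- variational characterisation of the local variance -/
theorem FS_le {w : Conf n → ℝ} (hw : ∀ x, 0 < w x) (T : Finset (Fin n)) (f g : Conf n → ℝ)
    (hg : ∀ x y, (∀ k, k ∉ T → x k = y k) → g x = g y) :
    FS w T f ≤ ∑ x, w x * (f x - g x) ^ 2 := by
  have hcg : ∀ x y, (∀ k, k ∉ T → x k = y k) → cE w T f x - g x = cE w T f y - g y := by
    intro x y hxy
    rw [cE_congr w T f hxy, hg x y hxy]
  have h1 := sum_cE_mul hw T f (fun x => cE w T f x - g x) hcg
  have h2 : ∑ x, w x * (f x - g x) ^ 2 = FS w T f + ∑ x, w x * (cE w T f x - g x) ^ 2 +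
      2 * (∑ x, w x * (f x * (cE w T f x - g x)) -
        ∑ x, w x * (cE w T f x * (cE w T f x - g x))) := by
    unfold FS
    rw [← Finset.sum_sub_distrib, Finset.mul_sum, ← Finset.sum_add_distrib,
      ← Finset.sum_add_distrib]
    exact Finset.sum_congr rfl fun x _ => by ring
  have h3 : 0 ≤ ∑ x, w x * (cE w T f x - g x) ^ 2 :=
    Finset.sum_nonneg fun x _ => mul_nonneg (hw x).le (sq_nonneg _)
  rw [h2, h1]
  linarith

/-- the local variance is an average of pinned variances -/
theorem FS_eq_avg {w : Conf n → ℝ} (hw : ∀ x, 0 < w x) (T : Finset (Fin n)) (f : Conf n → ℝ) :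
    FS w T f = ∑ x, w x * Cv (pw w T x) f f := by
  have h1 := sum_cE_mul hw T f (cE w T f) (fun x y hxy => cE_congr w T f hxy)
  have h2 := sum_cE_mul hw T (fun x => f x * f x) (fun _ => 1) (fun _ _ _ => rfl)
  have h3 : ∑ x, w x * Cv (pw w T x) f f =
      ∑ x, w x * (cE w T (fun x => f x * f x) x * 1) - ∑ x, w x * (cE w T f x * cE w T f x) := by
    rw [← Finset.sum_sub_distrib]
    refine Finset.sum_congr rfl fun x _ => ?_
    show w x * (Ex (pw w T x) (fun x => f x * f x) - Ex (pw w T x) f * Ex (pw w T x) f) =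
      w x * (Ex (pw w T x) (fun x => f x * f x) * 1) -
        w x * (Ex (pw w T x) f * Ex (pw w T x) f)
    ring
  have h4 : FS w T f = ∑ x, w x * (f x * f x * 1) - ∑ x, w x * (cE w T f x * cE w T f x) +
      2 * (∑ x, w x * (cE w T f x * cE w T f x) - ∑ x, w x * (f x * cE w T f x)) := by
    unfold FS
    rw [← Finset.sum_sub_distrib, ← Finset.sum_sub_distrib, Finset.mul_sum,
      ← Finset.sum_add_distrib]
    exact Finset.sum_congr rfl fun x _ => by ring
  rw [h3, h4, h2, h1]
  ring

end SKG
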