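import Pool.Agent.Lib.MP_c42713_pr.JLocA
import Pool.Agent.Lib.MP_c42713_pr.JDiag
import Pool.Agent.Lib.MP_c42713_pr.JDual

namespace SKG

variable {n : ℕ}

private theorem JLocB_pw_update (w : Conf n → ℝ) (T : Finset (Fin n)) (x : Conf n)
    {i : Fin n} (hi : i ∈ T) (b : Bool) :
    pw w T x (Function.update x i b) = w (Function.update x i b) := by
  unfold pw
  rw [if_pos]
  intro k hk
  rw [Function.update_of_ne]
  rintro rfl
  exact hk hi

/-- a free spin is not deterministic -/
theorem dg_pw_pos {w : Conf n → ℝ} (hw : ∀ x, 0 < w x) (T : Finset (Fin n)) (x : Conf n)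
    {i : Fin n} (hi : i ∈ T) : 0 < dg (pw w T x) i := by
  have hW := isW_pw hw T x
  rw [← cv2_self hW]
  unfold cv2
  rw [Cv_eq_centred hW]
  set m := Ex (pw w T x) (S i) with hm
  change 0 < (∑ y, pw w T x y * ((S i y - m) * (S i y - m))) / ∑ y, pw w T x y
  refine div_pos (Finset.sum_pos' (fun y _ => mul_nonneg (hW.nonneg y) (mul_self_nonneg _)) ?_)
    hW.pos
  by_cases h1 : m = 1
  · refine ⟨Function.update x i false, Finset.mem_univ _, ?_⟩
    rw [JLocB_pw_update w T x hi]
    refine mul_pos (hw _) (mul_self_pos.2 ?_)
    have : S i (Function.update x i false) = -1 := by simp [S, sg]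
    rw [this, h1]
    norm_num
  · refine ⟨Function.update x i true, Finset.mem_univ _, ?_⟩
    rw [JLocB_pw_update w T x hi]
    refine mul_pos (hw _) (mul_self_pos.2 ?_)
    have : S i (Function.update x i true) = 1 := by simp [S, sg]
    rw [this]
    exact sub_ne_zero.2 (Ne.symm h1)

private theorem JLocB_pw_support {w : Conf n → ℝ} {T : Finset (Fin n)} {x y : Conf n}
    (h : pw w T x y ≠ 0) : ∀ k, k ∉ T → y k = x k := by
  unfold pw at h
  by_contra hne
  exact h (if_neg hne)

/-- law of total variance when one more spin is pinned, averaged over the pinning -/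
theorem FS_erase {w : Conf n → ℝ} (hw : ∀ x, 0 < w x) (T : Finset (Fin n)) {i : Fin n}
    (hi : i ∈ T) (f : Conf n → ℝ) :
    FS w T f = FS w (T.erase i) f +
      ∑ x, w x * (Cv (pw w T x) f (S i) ^ 2 / dg (pw w T x) i) := by
  set T' := T.erase i with hT'
  have hsub : T' ⊆ T := Finset.erase_subset _ _
  set h : Conf n → ℝ := fun x => cE w T' f x with hh
  have hTh : ∀ x, cE w T h x = cE w T f x := fun x => cE_tower hw hsub f x
  -- step 1: orthogonal decomposition
  have hcross : ∑ x, w x * ((f x - h x) * (h x - cE w T f x)) = 0 := by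
    have := sum_cE_mul hw T' f (fun x => h x - cE w T f x) (fun x y hxy => by
      have e1 : h x = h y := cE_congr w T' f hxy
      have e2 : cE w T f x = cE w T f y :=
        cE_congr w T f fun k hk => hxy k fun hk' => hk (hsub hk')
      rw [e1, e2])
    have e : ∀ x, w x * ((f x - h x) * (h x - cE w T f x)) =
        w x * (f x * (h x - cE w T f x)) - w x * (cE w T' f x * (h x - cE w T f x)) := by
      intro x
      simp only [hh]
      ring
    rw [Finset.sum_congr rfl fun x _ => e x, Finset.sum_sub_distrib, this, sub_self]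
  have hdec : FS w T f = FS w T' f + FS w T h := by
    have e : ∀ x, w x * (f x - cE w T f x) ^ 2 = w x * (f x - h x) ^ 2 +
        w x * (h x - cE w T f x) ^ 2 + 2 * (w x * ((f x - h x) * (h x - cE w T f x))) := by
      intro x
      ring
    unfold FS
    rw [Finset.sum_congr rfl fun x _ => e x, Finset.sum_add_distrib, Finset.sum_add_distrib,
      ← Finset.mul_sum, hcross, mul_zero, add_zero]
    congr 1
    exact Finset.sum_congr rfl fun x _ => by rw [hTh]
  rw [hdec, FS_eq_avg hw T h]
  congr 1
  refine Finset.sum_congr rfl fun x _ => ?_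
  congr 1
  have hW := isW_pw hw T x
  have hD := dg_pw_pos hw T x hi
  -- on the fibre, `h` is an affine function of the spin `i`
  have haff : ∀ y, pw w T x y ≠ 0 →
      h y = (h (Function.update x i true) + h (Function.update x i false)) / 2 +
        (h (Function.update x i true) - h (Function.update x i false)) / 2 * S i y := by
    intro y hy
    have hs := JLocB_pw_support hy
    have hy' : h y = h (Function.update x i (y i)) := by
      refine cE_congr w T' f fun k hk => ?_
      by_cases hki : k = i
      · subst hki
        rw [Function.update_self]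
      · rw [Function.update_of_ne hki]
        refine hs k fun hkT => hk ?_
        rw [hT']
        exact Finset.mem_erase.2 ⟨hki, hkT⟩
    rw [hy']
    unfold S sg
    cases y i <;> simp <;> ring
  set a := (h (Function.update x i true) + h (Function.update x i false)) / 2
  set b := (h (Function.update x i true) - h (Function.update x i false)) / 2
  have hself : Cv (pw w T x) (S i) (S i) = dg (pw w T x) i := cv2_self hW i
  have hhS : Cv (pw w T x) h (S i) = b * dg (pw w T x) i := by
    have e1 : Cv (pw w T x) h (S i) = Cv (pw w T x) (fun y => a + b * S i y) (S i) := by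
      unfold Cv
      rw [Ex_congr_support (g := fun y => (a + b * S i y) * S i y) fun y hy => by rw [haff y hy],
        Ex_congr_support (f := h) (g := fun y => a + b * S i y) haff]
    rw [e1, Cv_add_left (pw w T x) (fun _ => a) (fun y => b * S i y), Cv_const_left hW,
      Cv_smul_left, zero_add, hself]
  have hhh : Cv (pw w T x) h h = b ^ 2 * dg (pw w T x) i := by
    have e1 : Cv (pw w T x) h h = Cv (pw w T x) h (fun y => a + b * S i y) := by
      unfold Cv
      rw [Ex_congr_support (f := fun y => h y * h y) (g := fun y => h y * (a + b * S i y))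
        fun y hy => by rw [← haff y hy],
        Ex_congr_support (f := h) (g := fun y => a + b * S i y) haff]
    rw [e1, Cv_add_right (pw w T x) h (fun _ => a) (fun y => b * S i y), Cv_const_right hW,
      Cv_smul_right, zero_add, hhS]
    ring
  have hfS : Cv (pw w T x) f (S i) = Cv (pw w T x) h (S i) := by
    unfold Cv
    have e1 : Ex (pw w T x) h = Ex (pw w T x) f := hTh x
    have e2 : Ex (pw w T x) (fun y => h y * S i y) = Ex (pw w T x) (fun y => f y * S i y) := by
      have e3 : (fun y => h y * S i y) = fun y => cE w T' (fun z => f z * S i z) y := by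
        funext y
        simp only [hh]
        unfold cE
        rw [Ex_congr_support (w := pw w T' y) (f := fun z => f z * S i z)
          (g := fun z => S i y * f z) fun z hz => by
            have : z i = y i := JLocB_pw_support hz i (by rw [hT']; simp)
            unfold S
            rw [this]
            ring, Ex_smul, mul_comm]
      rw [e3]
      exact cE_tower hw hsub (fun z => f z * S i z) x
    rw [e1, e2]
  rw [hfS, hhS, hhh]
  field_simp

/-- the local inequality -/
theorem FS_local {w : Conf n → ℝ} (hw : ∀ x, 0 < w x) (T0 : Finset (Fin n)) (B : ℝ) (hB : 0 ≤ B)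
    (h : PB w T0 B) (T : Finset (Fin n)) (hT : T ⊆ T0) (f : Conf n → ℝ) :
    ((T.card : ℝ) - B) * FS w T f ≤ ∑ i ∈ T, FS w (T.erase i) f := by
  have h1 : ∑ i ∈ T, FS w (T.erase i) f = (T.card : ℝ) * FS w T f -
      ∑ x, w x * ∑ i ∈ T, Cv (pw w T x) f (S i) ^ 2 / dg (pw w T x) i := by
    have e : ∀ i ∈ T, FS w (T.erase i) f = FS w T f -
        ∑ x, w x * (Cv (pw w T x) f (S i) ^ 2 / dg (pw w T x) i) := by
      intro i hi
      rw [FS_erase hw T hi f]
      ring
    rw [Finset.sum_congr rfl e, Finset.sum_sub_distrib, Finset.sum_const, nsmul_eq_mul,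
      Finset.sum_comm]
    congr 1
    exact Finset.sum_congr rfl fun x _ => by rw [Finset.mul_sum]
  have h2 : ∑ x, w x * ∑ i ∈ T, Cv (pw w T x) f (S i) ^ 2 / dg (pw w T x) i ≤ B * FS w T f := by
    rw [FS_eq_avg hw T f, Finset.mul_sum]
    refine Finset.sum_le_sum fun x _ => ?_
    calc w x * ∑ i ∈ T, Cv (pw w T x) f (S i) ^ 2 / dg (pw w T x) i
        ≤ w x * (B * Cv (pw w T x) f f) := by
          refine mul_le_mul_of_nonneg_left ?_ (hw x).le
          exact dual_bound (isW_pw hw T x) B hB (fun ξ => h T hT x ξ) T
            (fun i hi => dg_pw_pos hw T x hi) f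
      _ = B * (w x * Cv (pw w T x) f f) := by ring
  rw [h1]
  linarith

end SKG
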