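import Pool.Agent.Lib.MP_c42713_pr.MatDefs

namespace SKG

variable {n : ℕ}

theorem QF_offd (M : Matrix (Fin n) (Fin n) ℝ) (v : Fin n → ℝ) :
    QF (offd M) (fun j => M j j) v = ∑ i, ∑ j, M i j * v i * v j := by
  unfold QF
  rw [← Finset.sum_add_distrib]
  apply Finset.sum_congr rfl
  intro i _
  have h1 : ∀ j, M i j * v i * v j =
      offd M i j * v i * v j + (if i = j then M i j * v i * v j else 0) := by
    intro j
    unfold offd
    split_ifs <;> ring
  rw [Finset.sum_congr rfl (fun j _ => h1 j), Finset.sum_add_distrib, Finset.sum_ite_eq]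
  simp only [Finset.mem_univ, if_true]
  ring

theorem offd_symm {M : Matrix (Fin n) (Fin n) ℝ} (h : M.IsSymm) : (offd M).IsSymm := by
  apply Matrix.IsSymm.ext
  intro i j
  unfold offd
  by_cases hij : i = j
  · rw [if_pos hij, if_pos hij.symm]
  · rw [if_neg hij, if_neg (fun h' => hij h'.symm)]
    exact h.apply i j

theorem JMat_expand (A : Matrix (Fin n) (Fin n) ℝ) (hA : A.IsSymm) (v z : Fin n → ℝ) (t : ℝ) :
    ∑ i, ∑ j, A i j * (v i - t * z i) * (v j - t * z j) =
      ∑ i, ∑ j, A i j * v i * v j - 2 * t * ∑ i, z i * ∑ j, A i j * v j +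
        t ^ 2 * ∑ i, ∑ j, A i j * z i * z j := by
  have h1 : ∑ i, ∑ j, A i j * v i * z j = ∑ i, z i * ∑ j, A i j * v j := by
    rw [Finset.sum_comm]
    apply Finset.sum_congr rfl
    intro i _
    rw [Finset.mul_sum]
    apply Finset.sum_congr rfl
    intro j _
    rw [hA.apply i j]
    ring
  have h2 : ∑ i, ∑ j, A i j * z i * v j = ∑ i, z i * ∑ j, A i j * v j := by
    apply Finset.sum_congr rfl
    intro i _
    rw [Finset.mul_sum]
    apply Finset.sum_congr rfl
    intro j _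
    ring
  have h3 : ∑ i, ∑ j, A i j * (v i - t * z i) * (v j - t * z j) =
      ∑ i, ∑ j, A i j * v i * v j - t * ∑ i, ∑ j, A i j * v i * z j -
        t * ∑ i, ∑ j, A i j * z i * v j + t ^ 2 * ∑ i, ∑ j, A i j * z i * z j := by
    simp only [Finset.mul_sum, ← Finset.sum_sub_distrib, ← Finset.sum_add_distrib]
    apply Finset.sum_congr rfl
    intro i _
    apply Finset.sum_congr rfl
    intro j _
    ring
  rw [h3, h1, h2]
  ring

/-- for a symmetric matrix with `0 ≤ A ≤ c` one has `|Av|^2 ≤ c v^T A v` -/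
theorem sq_le_of_form (A : Matrix (Fin n) (Fin n) ℝ) (hA : A.IsSymm) (c : ℝ)
    (h0 : ∀ v : Fin n → ℝ, 0 ≤ ∑ i, ∑ j, A i j * v i * v j)
    (h1 : ∀ v : Fin n → ℝ, ∑ i, ∑ j, A i j * v i * v j ≤ c * ∑ i, v i ^ 2) (v : Fin n → ℝ) :
    ∑ i, (∑ j, A i j * v j) ^ 2 ≤ c * ∑ i, ∑ j, A i j * v i * v j := by
  set z : Fin n → ℝ := fun i => ∑ j, A i j * v j with hz
  have hzz : ∑ i, z i * ∑ j, A i j * v j = ∑ i, z i ^ 2 := by
    apply Finset.sum_congr rfl
    intro i _
    simp only [hz]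
    ring
  have hz2 : 0 ≤ ∑ i, z i ^ 2 := Finset.sum_nonneg fun i _ => sq_nonneg _
  have hv2 : 0 ≤ ∑ i, v i ^ 2 := Finset.sum_nonneg fun i _ => sq_nonneg _
  have key : ∀ t : ℝ, 0 ≤ ∑ i, ∑ j, A i j * v i * v j - 2 * t * ∑ i, z i ^ 2 +
      t ^ 2 * (c * ∑ i, z i ^ 2) := by
    intro t
    have h2 := h0 (fun i => v i - t * z i)
    rw [JMat_expand A hA v z t, hzz] at h2
    have h3 := mul_le_mul_of_nonneg_left (h1 z) (sq_nonneg t)
    linarith
  have hvv := h0 v
  show ∑ i, z i ^ 2 ≤ _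
  rcases le_or_gt c 0 with hc | hc
  · have h2 : ∑ i, ∑ j, A i j * v i * v j = 0 := by
      apply le_antisymm _ hvv
      refine (h1 v).trans ?_
      exact mul_nonpos_of_nonpos_of_nonneg hc hv2
    have h3 := key 1
    rw [h2] at h3 ⊢
    have h4 : c * ∑ i, z i ^ 2 ≤ 0 := mul_nonpos_of_nonpos_of_nonneg hc hz2
    linarith
  · have h3 := key (1 / c)
    have h4 : (1 / c) ^ 2 * (c * ∑ i, z i ^ 2) = (1 / c) * ∑ i, z i ^ 2 := by
      field_simp
    rw [h4] at h3
    have h5 : 0 ≤ c * (∑ i, ∑ j, A i j * v i * v j - 2 * (1 / c) * ∑ i, z i ^ 2 +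
        (1 / c) * ∑ i, z i ^ 2) := mul_nonneg hc.le h3
    have h6 : c * (∑ i, ∑ j, A i j * v i * v j - 2 * (1 / c) * ∑ i, z i ^ 2 +
        (1 / c) * ∑ i, z i ^ 2) = c * (∑ i, ∑ j, A i j * v i * v j) - ∑ i, z i ^ 2 := by
      field_simp
      ring
    linarith

/-- operator norm bound from the form bound -/
theorem norm_of_form (W : Matrix (Fin n) (Fin n) ℝ) (hW : W.IsSymm) (L : ℝ) (hL : 0 ≤ L)
    (h : ∀ v : Fin n → ℝ, |∑ i, ∑ j, W i j * v i * v j| ≤ L * ∑ i, v i ^ 2) (v : Fin n → ℝ) :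
    ∑ i, (∑ j, W i j * v j) ^ 2 ≤ L ^ 2 * ∑ i, v i ^ 2 := by
  set A : Matrix (Fin n) (Fin n) ℝ := fun i j => (if i = j then L else 0) - W i j with hAdef
  have hrow : ∀ (v : Fin n → ℝ) (i : Fin n), ∑ j, A i j * v j = L * v i - ∑ j, W i j * v j := by
    intro v i
    simp only [hAdef, sub_mul, Finset.sum_sub_distrib, ite_mul, zero_mul, Finset.sum_ite_eq,
      Finset.mem_univ, if_true]
  have hform : ∀ v : Fin n → ℝ, ∑ i, ∑ j, A i j * v i * v j =
      L * ∑ i, v i ^ 2 - ∑ i, ∑ j, W i j * v i * v j := by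
    intro v
    rw [Finset.mul_sum, ← Finset.sum_sub_distrib]
    apply Finset.sum_congr rfl
    intro i _
    have h1 : ∑ j, A i j * v i * v j = v i * ∑ j, A i j * v j := by
      rw [Finset.mul_sum]
      apply Finset.sum_congr rfl
      intro j _
      ring
    have h2 : ∑ j, W i j * v i * v j = v i * ∑ j, W i j * v j := by
      rw [Finset.mul_sum]
      apply Finset.sum_congr rfl
      intro j _
      ring
    rw [h1, h2, hrow]
    ring
  have hA : A.IsSymm := by
    apply Matrix.IsSymm.ext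
    intro i j
    simp only [hAdef]
    rw [hW.apply i j]
    by_cases hij : i = j
    · rw [if_pos hij, if_pos hij.symm]
    · rw [if_neg hij, if_neg (fun h' => hij h'.symm)]
  have h3 := sq_le_of_form A hA (2 * L) (fun v => by
      rw [hform]
      have := (abs_le.1 (h v)).2
      linarith) (fun v => by
      rw [hform]
      have := (abs_le.1 (h v)).1
      linarith) v
  rw [hform] at h3
  have h4 : ∑ i, (∑ j, A i j * v j) ^ 2 = L ^ 2 * ∑ i, v i ^ 2 -
      2 * L * (∑ i, ∑ j, W i j * v i * v j) + ∑ i, (∑ j, W i j * v j) ^ 2 := by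
    rw [Finset.mul_sum, Finset.mul_sum, ← Finset.sum_sub_distrib, ← Finset.sum_add_distrib]
    apply Finset.sum_congr rfl
    intro i _
    have h2 : ∑ j, W i j * v i * v j = v i * ∑ j, W i j * v j := by
      rw [Finset.mul_sum]
      apply Finset.sum_congr rfl
      intro j _
      ring
    rw [hrow, h2]
    ring
  rw [h4] at h3
  have h5 : 0 ≤ ∑ i, v i ^ 2 := Finset.sum_nonneg fun i _ => sq_nonneg _
  nlinarith

end SKG
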