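import Pool.Agent.Lib.MP_c42713_pr.JFact

namespace SKG

variable {n d : ℕ}

/-- `gg` splits into the free part and the pinned part -/
theorem JPoint_split (J : Matrix (Fin n) (Fin n) ℝ) (a : Fin d → ℝ) (u η : Fin n → ℝ) :
    gg J a u η = gg J a u (fun i => if 1 - u i ^ 2 = 0 then 0 else η i) +
      ∑ i, if 1 - u i ^ 2 = 0 then η i ^ 2 * (dd J u i * (omh a 0 - 1)) else 0 := by
  classical
  have h1 : ∀ i, η i ^ 2 * (dd J u i * omh a ((1 - u i ^ 2) * dd J u i)) =
      (if 1 - u i ^ 2 = 0 then 0 else η i) ^ 2 * (dd J u i * omh a ((1 - u i ^ 2) * dd J u i)) +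
        (if 1 - u i ^ 2 = 0 then η i ^ 2 * (dd J u i * omh a 0) else 0) := by
    intro i
    split_ifs with h
    · rw [h]
      simp
    · simp
  have h2 : ∀ i j, η i * η j * cc J u i j =
      (if 1 - u i ^ 2 = 0 then 0 else η i) * (if 1 - u j ^ 2 = 0 then 0 else η j) * cc J u i j +
        (if i = j then (if 1 - u i ^ 2 = 0 then η i ^ 2 * dd J u i else 0) else 0) := by
    intro i j
    by_cases hij : i = j
    · subst hij
      have hc : cc J u i i = dd J u i := by simp [cc]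
      rw [hc, if_pos rfl]
      split_ifs with h
      · ring
      · ring
    · rw [if_neg hij]
      by_cases hi : 1 - u i ^ 2 = 0
      · have hc : cc J u i j = 0 := by simp [cc, hij, hi]
        rw [hc]
        ring
      · by_cases hj : 1 - u j ^ 2 = 0
        · have hc : cc J u i j = 0 := by simp [cc, hij, hj]
          rw [hc]
          ring
        · rw [if_neg hi, if_neg hj]
          ring
  have h3 : ∑ i, (if 1 - u i ^ 2 = 0 then η i ^ 2 * (dd J u i * (omh a 0 - 1)) else 0) =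
      ∑ i, (if 1 - u i ^ 2 = 0 then η i ^ 2 * (dd J u i * omh a 0) else 0) -
        ∑ i, (if 1 - u i ^ 2 = 0 then η i ^ 2 * dd J u i else 0) := by
    rw [← Finset.sum_sub_distrib]
    refine Finset.sum_congr rfl fun i _ => ?_
    split_ifs
    · ring
    · ring
  have h4 : ∑ i, ∑ j, (if i = j then (if 1 - u i ^ 2 = 0 then η i ^ 2 * dd J u i else 0) else 0) =
      ∑ i, (if 1 - u i ^ 2 = 0 then η i ^ 2 * dd J u i else 0) := by
    refine Finset.sum_congr rfl fun i _ => ?_
    rw [Finset.sum_ite_eq]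
    simp
  rw [h3]
  unfold gg
  rw [Finset.sum_congr rfl fun i _ => h1 i, Finset.sum_add_distrib,
    Finset.sum_congr rfl fun i _ => Finset.sum_congr rfl fun j _ => h2 i j]
  simp only [Finset.sum_add_distrib]
  rw [h4]
  ring

/-- a zero of `gg` gives a touching vector -/
theorem touch_point (J : Matrix (Fin n) (Fin n) ℝ) (a : Fin d → ℝ) {u : Fin n → ℝ} (hu : Cube u)
    (hnn : ∀ η, 0 ≤ gg J a u η) (h1 : 1 < omh a 0) (η : Fin n → ℝ) (hη : η ≠ 0)
    (hz : gg J a u η = 0) :
    ∃ ξ : Fin n → ℝ, ξ ≠ 0 ∧ (∀ i, ξ i ≠ 0 → 0 < dg (iw J u) i) ∧ GG (iw J u) a ξ = 0 := by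
  classical
  have hu2 : ∀ i, 0 ≤ 1 - u i ^ 2 := by
    intro i
    have h := (sq_le_one_iff_abs_le_one (u i)).2 (hu i)
    linarith
  have hsplit := JPoint_split J a u η
  rw [hz] at hsplit
  have hterm : ∀ i ∈ (Finset.univ : Finset (Fin n)),
      0 ≤ if 1 - u i ^ 2 = 0 then η i ^ 2 * (dd J u i * (omh a 0 - 1)) else 0 := by
    intro i _
    split_ifs
    · exact mul_nonneg (sq_nonneg _) (mul_nonneg (dd_pos J hu i).le (by linarith))
    · exact le_refl _
  have hsum0 : ∑ i, (if 1 - u i ^ 2 = 0 then η i ^ 2 * (dd J u i * (omh a 0 - 1)) else 0) = 0 := by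
    have hA := hnn (fun i => if 1 - u i ^ 2 = 0 then 0 else η i)
    have hB := Finset.sum_nonneg hterm
    linarith
  have hpin : ∀ i, 1 - u i ^ 2 = 0 → η i = 0 := by
    intro i hi
    have h2 := (Finset.sum_eq_zero_iff_of_nonneg hterm).1 hsum0 i (Finset.mem_univ i)
    rw [if_pos hi] at h2
    have h3 : dd J u i * (omh a 0 - 1) ≠ 0 := (mul_pos (dd_pos J hu i) (by linarith)).ne'
    rcases mul_eq_zero.1 h2 with h4 | h4
    · exact pow_eq_zero_iff (two_ne_zero) |>.1 h4
    · exact absurd h4 h3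
  have hmul : (fun i => Real.sqrt (1 - u i ^ 2) * (η i / Real.sqrt (1 - u i ^ 2))) = η := by
    funext i
    by_cases hi : 1 - u i ^ 2 = 0
    · rw [hpin i hi]
      simp
    · have hs : Real.sqrt (1 - u i ^ 2) ≠ 0 :=
        (Real.sqrt_pos.2 (lt_of_le_of_ne (hu2 i) (Ne.symm hi))).ne'
      field_simp
  refine ⟨fun i => η i / Real.sqrt (1 - u i ^ 2), ?_, ?_, ?_⟩
  · intro h0
    apply hη
    rw [← hmul]
    funext i
    have h2 : η i / Real.sqrt (1 - u i ^ 2) = 0 := congrFun h0 i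
    show Real.sqrt (1 - u i ^ 2) * (η i / Real.sqrt (1 - u i ^ 2)) = 0
    rw [h2, mul_zero]
  · intro i hi
    have hne : 1 - u i ^ 2 ≠ 0 := by
      intro h2
      apply hi
      show η i / Real.sqrt (1 - u i ^ 2) = 0
      rw [hpin i h2, zero_div]
    rw [dg_fact J hu i]
    exact mul_pos (lt_of_le_of_ne (hu2 i) (Ne.symm hne)) (dd_pos J hu i)
  · rw [GG_eq_gg J hu a, hmul]
    exact hz

/-- a quadratic `2 s b + s^2 c` that is nonnegative for all `s` has `b = 0` -/
theorem JPoint_quad {b c : ℝ} (h : ∀ s : ℝ, 0 ≤ 2 * s * b + s ^ 2 * c) : b = 0 := by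
  by_contra hb
  have hb2 : 0 < b ^ 2 := by positivity
  have hc : 0 < 1 + c ^ 2 := by positivity
  have h1 := h (-b / (1 + c ^ 2))
  have h2 : 2 * (-b / (1 + c ^ 2)) * b + (-b / (1 + c ^ 2)) ^ 2 * c =
      b ^ 2 / (1 + c ^ 2) ^ 2 * (c - 2 * (1 + c ^ 2)) := by
    field_simp
    ring
  rw [h2] at h1
  have h3 : c - 2 * (1 + c ^ 2) < 0 := by nlinarith [sq_nonneg (c - 1)]
  have h4 : 0 < b ^ 2 / (1 + c ^ 2) ^ 2 := by positivity
  have h5 := mul_neg_of_pos_of_neg h4 h3
  linarith

/-- kernel equation at a touching vector -/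
theorem kernel_eq {w : Conf n → ℝ} (hw : IsW w) (a : Fin d → ℝ)
    (hnn : ∀ ξ : Fin n → ℝ, 0 ≤ GG w a ξ) (ξ : Fin n → ℝ) (hz : GG w a ξ = 0) (i : Fin n) :
    Cv w (S i) (lin ξ) = om a (dg w i) * ξ i := by
  classical
  have hlin : ∀ s : ℝ, lin (Function.update ξ i (ξ i + s)) = fun x => lin ξ x + s * S i x := by
    intro s
    funext x
    unfold lin S
    rw [← Finset.add_sum_erase Finset.univ _ (Finset.mem_univ i),
      ← Finset.add_sum_erase Finset.univ (fun j => ξ j * sg (x j)) (Finset.mem_univ i)]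
    have hrest : ∑ j ∈ Finset.univ.erase i, Function.update ξ i (ξ i + s) j * sg (x j) =
        ∑ j ∈ Finset.univ.erase i, ξ j * sg (x j) := by
      refine Finset.sum_congr rfl fun j hj => ?_
      rw [Function.update_of_ne (Finset.ne_of_mem_erase hj)]
    rw [hrest, Function.update_self]
    ring
  have hsum : ∀ s : ℝ, ∑ j, Function.update ξ i (ξ i + s) j ^ 2 * om a (dg w j) =
      ∑ j, ξ j ^ 2 * om a (dg w j) + (2 * s * ξ i + s ^ 2) * om a (dg w i) := by
    intro s
    rw [← Finset.add_sum_erase Finset.univ _ (Finset.mem_univ i),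
      ← Finset.add_sum_erase Finset.univ (fun j => ξ j ^ 2 * om a (dg w j)) (Finset.mem_univ i)]
    have hrest : ∑ j ∈ Finset.univ.erase i, Function.update ξ i (ξ i + s) j ^ 2 * om a (dg w j) =
        ∑ j ∈ Finset.univ.erase i, ξ j ^ 2 * om a (dg w j) := by
      refine Finset.sum_congr rfl fun j hj => ?_
      rw [Function.update_of_ne (Finset.ne_of_mem_erase hj)]
    rw [hrest, Function.update_self]
    ring
  have hexp : ∀ s : ℝ, GG w a (Function.update ξ i (ξ i + s)) =
      2 * s * (om a (dg w i) * ξ i - Cv w (S i) (lin ξ)) +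
        s ^ 2 * (om a (dg w i) - Cv w (S i) (S i)) := by
    intro s
    have hz' := hz
    unfold GG at hz' ⊢
    rw [hsum s, hlin s, Cv_add_left, Cv_add_right, Cv_add_right, Cv_smul_left, Cv_smul_right,
      Cv_smul_right, Cv_smul_left, Cv_comm w (lin ξ) (S i)]
    linarith
  have hb := JPoint_quad (b := om a (dg w i) * ξ i - Cv w (S i) (lin ξ))
    (c := om a (dg w i) - Cv w (S i) (S i)) (fun s => by
      rw [← hexp s]
      exact hnn _)
  linarith

end SKG
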