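import Pool.Agent.Lib.MP_c42713_pr.FlowDefs

namespace SKG

variable {n : ℕ}

theorem JQlow_cv2_self {w : Conf n → ℝ} (hw : IsW w) (j : Fin n) : cv2 w j j = dg w j := by
  unfold cv2 dg Cv
  have h : (fun x : Conf n => S j x * S j x) = fun _ => (1 : ℝ) := by
    funext x
    unfold S sg
    by_cases hx : x j
    · simp [hx]
    · simp [hx]
  rw [h, Ex_const hw]
  ring

theorem JQlow_expand (E : Matrix (Fin n) (Fin n) ℝ) (hE : E.IsSymm) (hE0 : ∀ i, E i i = 0)
    (C : Fin n → ℝ) (v : Fin n → ℝ) (j : Fin n) :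
    QF E C (fun k => if k = j then 0 else v k) =
      QF E C v - 2 * v j * (∑ k, E j k * v k) - C j * v j ^ 2 := by
  unfold QF
  have hsym : ∀ k, E k j = E j k := fun k => by
    have := congrFun (congrFun hE j) k
    rw [Matrix.transpose_apply] at this
    exact this
  have e1 : ∀ k l, E k l * (if k = j then 0 else v k) * (if l = j then 0 else v l) =
      E k l * v k * v l - (if k = j then v j * (E j l * v l) else 0) -
        (if l = j then v j * (E j k * v k) else 0) := by
    intro k l
    by_cases hk : k = j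
    · subst hk
      by_cases hl : l = k
      · subst hl
        simp [hE0]
      · simp [hl]
        ring
    · by_cases hl : l = j
      · subst hl
        simp [hk, hsym]
        ring
      · simp [hk, hl]
  have e2 : ∀ k, C k * (if k = j then 0 else v k) ^ 2 = C k * v k ^ 2 - (if k = j then C j * v j ^ 2 else 0) := by
    intro k
    by_cases hk : k = j
    · subst hk
      simp
    · simp [hk]
  simp only [e1, e2, Finset.sum_sub_distrib]
  have s1 : ∑ k : Fin n, ∑ l : Fin n, (if k = j then v j * (E j l * v l) else 0) =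
      v j * ∑ l, E j l * v l := by
    rw [Finset.sum_comm]
    simp only [Finset.sum_ite_eq', Finset.mem_univ, if_true]
    rw [Finset.mul_sum]
  have s2 : ∑ k : Fin n, ∑ l : Fin n, (if l = j then v j * (E j k * v k) else 0) =
      v j * ∑ k, E j k * v k := by
    simp only [Finset.sum_ite_eq', Finset.mem_univ, if_true]
    rw [Finset.mul_sum]
  have s3 : ∑ k : Fin n, (if k = j then C j * v j ^ 2 else 0) = C j * v j ^ 2 := by
    simp only [Finset.sum_ite_eq', Finset.mem_univ, if_true]
  rw [s1, s2, s3]
  ring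

/-- lower bound for `(ΣQΣ)_jj` -/
theorem QF_lower {w : Conf n → ℝ} (hw : IsW w) (E : Matrix (Fin n) (Fin n) ℝ) (hE : E.IsSymm)
    (hE0 : ∀ i, E i i = 0) (C : Fin n → ℝ) (hQ : ∀ v, 0 ≤ QF E C v) (j : Fin n) :
    dg w j ^ 2 * C j + 2 * dg w j * (∑ k, E j k * cv2 w j k) ≤ QF E C (cv2 w j) := by
  have h1 := hQ (fun k => if k = j then 0 else cv2 w j k)
  rw [JQlow_expand E hE hE0 C (cv2 w j) j, JQlow_cv2_self hw j] at h1
  linarith

end SKG
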