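import Pool.Agent.Lib.MP_c42713_pr.JTouch
import Pool.Agent.Lib.MP_c42713_pr.JAssoc
import Pool.Agent.Lib.MP_c42713_pr.JCont
import Pool.Agent.Lib.MP_c42713_pr.JFirst
import Pool.Agent.Lib.MP_c42713_pr.JPoint
import Pool.Agent.Lib.MP_c42713_pr.JQlow

namespace SKG

variable {n d : ℕ}

/-- strict form implies the covariance bound -/
theorem CB_of_SB (J : Matrix (Fin n) (Fin n) ℝ) (a : Fin d → ℝ)
    (h : ∀ u, Cube u → ∀ η : Fin n → ℝ, 0 ≤ gg J a u η) : CB J a := by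
  intro u hu ξ; rw [GG_eq_gg J hu]; exact h u hu _

theorem JPhase_GG_scale {w w' : Conf n → ℝ} {c : ℝ} (hc : 0 < c) (h : ∀ x, w x = c * w' x)
    (a : Fin d → ℝ) (ξ : Fin n → ℝ) : GG w a ξ = GG w' a ξ := by
  have hw : w = fun x => c * w' x := funext h
  unfold GG dg
  rw [hw]
  simp only [Ex_scale hc.ne', Cv_scale hc.ne']

theorem JPhase_dg_mem {w : Conf n → ℝ} (hw : IsW w) (j : Fin n) : dg w j ∈ Set.Icc (0 : ℝ) 1 := by
  constructor
  · have h1 := Cv_self_nonneg hw (S j)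
    have h2 : cv2 w j j = dg w j := by
      unfold cv2 dg Cv
      have h : (fun x : Conf n => S j x * S j x) = fun _ => (1 : ℝ) := by
        funext x
        unfold S sg
        by_cases hx : x j
        · simp [hx]
        · simp [hx]
      rw [h, Ex_const hw]
      ring
    rw [← h2]
    exact h1
  · unfold dg
    have := sq_nonneg (Ex w (S j))
    linarith

theorem JPhase_gg_zero (J : Matrix (Fin n) (Fin n) ℝ) (a : Fin d → ℝ) (u : Fin n → ℝ) :
    gg J a u 0 = 0 := by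
  have h := gg_smul J a u 0 0
  simp only [Pi.zero_apply, mul_zero, zero_pow (two_ne_zero), zero_mul] at h
  exact h

/-- nonnegativity on the sphere gives nonnegativity everywhere -/
theorem JPhase_nonneg_of_sphere (J : Matrix (Fin n) (Fin n) ℝ) (a : Fin d → ℝ) (u : Fin n → ℝ)
    (h : ∀ η : Fin n → ℝ, ∑ i, η i ^ 2 = 1 → 0 ≤ gg J a u η) (η : Fin n → ℝ) : 0 ≤ gg J a u η := by
  by_cases h0 : ∑ i, η i ^ 2 = 0
  · have hz : η = 0 := by
      funext i
      have := (Finset.sum_eq_zero_iff_of_nonneg (fun i _ => sq_nonneg (η i))).1 h0 i (Finset.mem_univ i)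
      exact pow_eq_zero_iff (two_ne_zero) |>.1 this
    rw [hz, JPhase_gg_zero]
  · have hpos : 0 < ∑ i, η i ^ 2 :=
      lt_of_le_of_ne (Finset.sum_nonneg (fun i _ => sq_nonneg (η i))) (Ne.symm h0)
    set r := Real.sqrt (∑ i, η i ^ 2) with hr
    have hr0 : 0 < r := Real.sqrt_pos.2 hpos
    have hr2 : r ^ 2 = ∑ i, η i ^ 2 := Real.sq_sqrt hpos.le
    have h1 : ∑ i, (r⁻¹ * η i) ^ 2 = 1 := by
      simp only [mul_pow]
      rw [← Finset.mul_sum, ← hr2, inv_pow, inv_mul_cancel₀]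
      positivity
    have h2 := h (fun i => r⁻¹ * η i) h1
    rw [gg_smul] at h2
    have h3 : 0 < (r⁻¹) ^ 2 := by positivity
    exact nonneg_of_mul_nonneg_right (by rwa [mul_comm] at h2 ⊢) h3

/-- normalisation of a bad vector -/
theorem JPhase_bad_of_ne (J : Matrix (Fin n) (Fin n) ℝ) (a : Fin d → ℝ) (u : Fin n → ℝ)
    (η : Fin n → ℝ) (hη : η ≠ 0) (h : gg J a u η ≤ 0) :
    ∃ η' : Fin n → ℝ, ∑ i, η' i ^ 2 = 1 ∧ gg J a u η' ≤ 0 := by
  have hpos : 0 < ∑ i, η i ^ 2 := by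
    obtain ⟨i, hi⟩ : ∃ i, η i ≠ 0 := by
      by_contra hcon
      push Not at hcon
      exact hη (funext hcon)
    exact Finset.sum_pos' (fun i _ => sq_nonneg (η i)) ⟨i, Finset.mem_univ i, by positivity⟩
  set r := Real.sqrt (∑ i, η i ^ 2) with hr
  have hr0 : 0 < r := Real.sqrt_pos.2 hpos
  have hr2 : r ^ 2 = ∑ i, η i ^ 2 := Real.sq_sqrt hpos.le
  refine ⟨fun i => r⁻¹ * η i, ?_, ?_⟩
  · simp only [mul_pow]
    rw [← Finset.mul_sum, ← hr2, inv_pow, inv_mul_cancel₀]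
    positivity
  · rw [gg_smul]
    have h3 : 0 ≤ (r⁻¹) ^ 2 := by positivity
    exact mul_nonpos_of_nonneg_of_nonpos h3 h

/-- The phase theorem: the covariance bound propagates along `J_t = J0 + t E`. -/
theorem phase (J0 E : Matrix (Fin n) (Fin n) ℝ) (hJ : J0.IsSymm) (hJ0 : ∀ i, J0 i i = 0)
    (hE : E.IsSymm) (hE0 : ∀ i, E i i = 0) (C : Fin n → ℝ) (τ p : ℝ) (κ : ℝ → ℝ) (hτ : 0 ≤ τ)
    (hC : ∀ j, τ * p ≤ C j) (hQ0 : ∀ v, 0 ≤ QF E C v) (hQ1 : ∀ v, QF E C v ≤ τ * ∑ i, v i ^ 2)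
    (hA : ∀ t ∈ Set.Ioc (0 : ℝ) 1, ∀ j, ∃ lam > 0,
      ∑ k, (E j k - lam * (J0 + t • E) j k) ^ 2 ≤ 4 * lam * κ t)
    (a a' : Fin d → ℝ → ℝ) (hc : ∀ k, ContinuousOn (a k) (Set.Icc 0 1))
    (ha : ∀ k, ∀ t ∈ Set.Ioc (0 : ℝ) 1, HasDerivAt (a k) (a' k t) t)
    (B : ℝ → ℝ) (hB : ∀ t ∈ Set.Icc (0 : ℝ) 1, ∀ D ∈ Set.Icc (0 : ℝ) 1, om (fun k => a k t) D ≤ B t)
    (hpsi : ∀ t ∈ Set.Icc (0 : ℝ) 1, ∀ D ∈ Set.Icc (0 : ℝ) 1, 0 ≤ psi (fun k => a k t) D)
    (h1 : ∀ t ∈ Set.Icc (0 : ℝ) 1, 1 < omh (fun k => a k t) 0)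
    (hS : ∀ t ∈ Set.Ioc (0 : ℝ) 1, ∀ D ∈ Set.Ioc (0 : ℝ) 1,
      0 < om (fun k => a' k t) D + (τ * p - 2 * B t * κ t) * D ^ 2 * psi (fun k => a k t) D
        - τ * om (fun k => a k t) D ^ 2)
    (hinit : SB J0 (fun k => a k 0)) :
    ∀ t ∈ Set.Icc (0 : ℝ) 1, SB (J0 + t • E) (fun k => a k t) := by
  by_contra hcon
  push Not at hcon
  obtain ⟨t₁, ht₁, hbad⟩ := hcon
  have hbad' : ∃ u, Cube u ∧ ∃ η : Fin n → ℝ, η ≠ 0 ∧ gg (J0 + t₁ • E) (fun k => a k t₁) u η ≤ 0 := by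
    by_contra hh
    push Not at hh
    exact hbad (fun u hu η hη => hh u hu η hη)
  obtain ⟨u₁, hu₁, η₁, hη₁, hg₁⟩ := hbad'
  obtain ⟨η₂, hη₂, hg₂⟩ := JPhase_bad_of_ne _ _ _ _ hη₁ hg₁
  -- the first time
  have hcont := cont_gg J0 E a hc
  obtain ⟨t, ht, hnn, ⟨u, η⟩, ⟨hu, hη⟩, hz⟩ := first_time (Y := (Fin n → ℝ) × (Fin n → ℝ))
    (K := {u : Fin n → ℝ | Cube u} ×ˢ {η : Fin n → ℝ | ∑ i, η i ^ 2 = 1}) (isCompact_cube_sphere n)
    (fun s y => gg (J0 + s • E) (fun k => a k s) y.1 y.2)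
    (hcont.mono (Set.prod_mono (le_refl _) (Set.prod_mono (le_refl _) (Set.subset_univ _))))
    (by
      rintro ⟨u, η⟩ ⟨hu, hη⟩
      have hη0 : η ≠ 0 := by
        rintro rfl
        have : ∑ i : Fin n, (0 : Fin n → ℝ) i ^ 2 = 1 := hη
        simp at this
      have := hinit u hu η hη0
      show 0 < gg (J0 + (0 : ℝ) • E) (fun k => a k 0) u η
      rw [zero_smul, add_zero]
      exact this)
    ⟨t₁, ht₁, (u₁, η₂), ⟨hu₁, hη₂⟩, hg₂⟩
  have hu' : Cube u := hu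
  have hη' : ∑ i, η i ^ 2 = 1 := hη
  have hz' : gg (J0 + t • E) (fun k => a k t) u η = 0 := hz
  have htI : t ∈ Set.Icc (0 : ℝ) 1 := ⟨ht.1.le, ht.2⟩
  -- nonnegativity up to the time `t`
  have hnn' : ∀ s ∈ Set.Icc 0 t, ∀ u, Cube u → ∀ η : Fin n → ℝ,
      0 ≤ gg (J0 + s • E) (fun k => a k s) u η := by
    intro s hs u hu η
    apply JPhase_nonneg_of_sphere
    intro η hη
    exact hnn s hs (u, η) ⟨hu, hη⟩
  have hCB : ∀ s ∈ Set.Icc 0 t, CB (J0 + s • E) (fun k => a k s) := fun s hs =>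
    CB_of_SB _ _ (hnn' s hs)
  have htt : t ∈ Set.Icc 0 t := ⟨ht.1.le, le_refl _⟩
  -- the touching vector
  have hη0 : η ≠ 0 := by
    rintro rfl
    simp at hη'
  obtain ⟨ξ, hξ0, hξD, hξz⟩ := touch_point (J0 + t • E) (fun k => a k t) hu' (hnn' t htt u hu')
    (h1 t htI) η hη0 hz'
  set J := J0 + t • E with hJdef
  have hJsym : J.IsSymm := hJ.add (hE.smul t)
  have hJdiag : ∀ i, J i i = 0 := by
    intro i
    rw [hJdef, Matrix.add_apply, Matrix.smul_apply, hJ0, hE0, smul_zero, add_zero]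
  have hw : IsW (iw J u) := isW_iw J hu'
  -- the touching inequality
  have htouch := touch hw E hE C hQ0 ξ a (fun k => a' k t) t (fun k => ha k t ht) hξz
    (by
      intro v
      obtain ⟨u', hu'', -, -, c, hc0, hcx⟩ := iw_tilt J hu' v
      rw [JPhase_GG_scale hc0 hcx]
      exact hCB t htt u' hu'' ξ)
    (by
      refine ⟨t, ht.1, fun s hs1 hs2 => ?_⟩
      have hs : s ∈ Set.Icc 0 t := ⟨by linarith, hs2.le⟩
      have e1 : J0 + s • E = J + (s - t) • E := by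
        rw [hJdef, add_assoc, ← add_smul]
        congr 2
        ring
      have h2 := hCB s hs u hu' ξ
      rw [e1, iw_time] at h2
      exact h2)
  -- the right-hand side
  have hRHS : QF E C (fun k => Cv (iw J u) (S k) (lin ξ)) ≤
      τ * ∑ k, ξ k ^ 2 * om (fun k => a k t) (dg (iw J u) k) ^ 2 := by
    refine (hQ1 _).trans (le_of_eq ?_)
    congr 1
    refine Finset.sum_congr rfl (fun k _ => ?_)
    rw [kernel_eq hw (fun k => a k t) (hCB t htt u hu') ξ hξz k]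
    ring
  -- the left-hand side
  have hQF : ∀ j, (τ * p - 2 * B t * κ t) * dg (iw J u) j ^ 2 ≤ QF E C (cv2 (iw J u) j) := by
    intro j
    have hlow := QF_lower hw E hE hE0 C hQ0 j
    obtain ⟨lam, hlam, hr⟩ := hA t ht j
    have has := assoc J hJsym hJdiag (fun k => a k t) (B t) (hB t htI) (hCB t htt) (fun k => E j k) j
      (hE0 j) lam (κ t) hlam hr hu'
    have hD := JPhase_dg_mem hw j
    have hD0 : 0 ≤ dg (iw J u) j := hD.1
    have e1 : dg (iw J u) j ^ 2 * (τ * p) ≤ dg (iw J u) j ^ 2 * C j :=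
      mul_le_mul_of_nonneg_left (hC j) (sq_nonneg _)
    have e2 : 2 * dg (iw J u) j * -(dg (iw J u) j * (B t * κ t)) ≤
        2 * dg (iw J u) j * ∑ k, E j k * cv2 (iw J u) j k :=
      mul_le_mul_of_nonneg_left has (by linarith)
    nlinarith
  -- the contradiction
  have hterm : ∀ j, 0 ≤ ξ j ^ 2 * (om (fun k => a' k t) (dg (iw J u) j) +
      psi (fun k => a k t) (dg (iw J u) j) * QF E C (cv2 (iw J u) j) -
        τ * om (fun k => a k t) (dg (iw J u) j) ^ 2) ∧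
      (ξ j ≠ 0 → 0 < ξ j ^ 2 * (om (fun k => a' k t) (dg (iw J u) j) +
      psi (fun k => a k t) (dg (iw J u) j) * QF E C (cv2 (iw J u) j) -
        τ * om (fun k => a k t) (dg (iw J u) j) ^ 2)) := by
    intro j
    by_cases hj : ξ j = 0
    · refine ⟨?_, fun hh => absurd hj hh⟩
      rw [hj]
      simp
    · have hD := JPhase_dg_mem hw j
      have hDpos := hξD j hj
      have hs := hS t ht (dg (iw J u) j) ⟨hDpos, hD.2⟩
      have hp := hpsi t htI (dg (iw J u) j) hD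
      have hq := mul_le_mul_of_nonneg_left (hQF j) hp
      have hpos : 0 < om (fun k => a' k t) (dg (iw J u) j) +
          psi (fun k => a k t) (dg (iw J u) j) * QF E C (cv2 (iw J u) j) -
          τ * om (fun k => a k t) (dg (iw J u) j) ^ 2 := by
        have e3 : psi (fun k => a k t) (dg (iw J u) j) * ((τ * p - 2 * B t * κ t) * dg (iw J u) j ^ 2) =
            (τ * p - 2 * B t * κ t) * dg (iw J u) j ^ 2 * psi (fun k => a k t) (dg (iw J u) j) := by ring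
        rw [e3] at hq
        linarith
      have h2 : 0 < ξ j ^ 2 := by positivity
      have h3 := mul_pos h2 hpos
      exact ⟨h3.le, fun _ => h3⟩
  have hsum : 0 < ∑ j, ξ j ^ 2 * (om (fun k => a' k t) (dg (iw J u) j) +
      psi (fun k => a k t) (dg (iw J u) j) * QF E C (cv2 (iw J u) j) -
        τ * om (fun k => a k t) (dg (iw J u) j) ^ 2) := by
    obtain ⟨j, hj⟩ : ∃ j, ξ j ≠ 0 := by
      by_contra hh
      push Not at hh
      exact hξ0 (funext hh)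
    exact Finset.sum_pos' (fun j _ => (hterm j).1) ⟨j, Finset.mem_univ j, (hterm j).2 hj⟩
  have hexp : ∑ j, ξ j ^ 2 * (om (fun k => a' k t) (dg (iw J u) j) +
      psi (fun k => a k t) (dg (iw J u) j) * QF E C (cv2 (iw J u) j) -
        τ * om (fun k => a k t) (dg (iw J u) j) ^ 2) =
      (∑ j, ξ j ^ 2 * om (fun k => a' k t) (dg (iw J u) j)
      + ∑ j, ξ j ^ 2 * psi (fun k => a k t) (dg (iw J u) j) * QF E C (cv2 (iw J u) j)) -
      τ * ∑ k, ξ k ^ 2 * om (fun k => a k t) (dg (iw J u) k) ^ 2 := by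
    rw [Finset.mul_sum, ← Finset.sum_add_distrib, ← Finset.sum_sub_distrib]
    refine Finset.sum_congr rfl (fun j _ => ?_)
    ring
  rw [hexp] at hsum
  linarith

end SKG
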