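import Pool.Agent.Lib.MP_c42713_pr.JIw

namespace SKG

variable {n : ℕ}

/-- the factor of the weight that does not involve `u_j` -/
noncomputable def JPinA (J : Matrix (Fin n) (Fin n) ℝ) (u : Fin n → ℝ) (j : Fin n) (x : Conf n) : ℝ :=
  Real.exp (quad J x / 2) * ∏ i ∈ Finset.univ.erase j, (1 + u i * sg (x i))

theorem JPin_iw (J : Matrix (Fin n) (Fin n) ℝ) (u : Fin n → ℝ) (j : Fin n) (x : Conf n) :
    iw J u x = JPinA J u j x * (1 + u j * sg (x j)) := by
  unfold iw JPinA
  rw [← Finset.mul_prod_erase Finset.univ (fun i => 1 + u i * sg (x i)) (Finset.mem_univ j)]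
  ring

theorem JPin_upd (J : Matrix (Fin n) (Fin n) ℝ) (u : Fin n → ℝ) (j : Fin n) (c : ℝ) (x : Conf n) :
    iw J (Function.update u j c) x = JPinA J u j x * (1 + c * sg (x j)) := by
  rw [JPin_iw J _ j x, Function.update_self]
  congr 1
  unfold JPinA
  congr 1
  refine Finset.prod_congr rfl fun i hi => ?_
  rw [Function.update_of_ne (Finset.ne_of_mem_erase hi)]

theorem JPin_sg (b : Bool) : sg b * sg b = 1 := by cases b <;> simp [sg]

theorem JPin_cube {u : Fin n → ℝ} (hu : Cube u) (j : Fin n) {c : ℝ} (hc : |c| ≤ 1) :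
    Cube (Function.update u j c) := by
  intro i
  by_cases h : i = j
  · subst h
    rw [Function.update_self]
    exact hc
  · rw [Function.update_of_ne h]
    exact hu i

/-- the weight is a combination of the two pinned weights -/
theorem JPin_mix (J : Matrix (Fin n) (Fin n) ℝ) (u : Fin n → ℝ) (j : Fin n) (f : Conf n → ℝ) :
    ∑ x, iw J u x * f x = (1 + u j) / 2 * ∑ x, iw J (Function.update u j 1) x * f x +
      (1 - u j) / 2 * ∑ x, iw J (Function.update u j (-1)) x * f x := by
  rw [Finset.mul_sum, Finset.mul_sum, ← Finset.sum_add_distrib]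
  refine Finset.sum_congr rfl fun x _ => ?_
  rw [JPin_iw J u j x, JPin_upd, JPin_upd]
  ring

theorem JPin_mixS (J : Matrix (Fin n) (Fin n) ℝ) (u : Fin n → ℝ) (j : Fin n) (f : Conf n → ℝ) :
    ∑ x, iw J u x * (S j x * f x) = (1 + u j) / 2 * ∑ x, iw J (Function.update u j 1) x * f x -
      (1 - u j) / 2 * ∑ x, iw J (Function.update u j (-1)) x * f x := by
  rw [Finset.mul_sum, Finset.mul_sum, ← Finset.sum_sub_distrib]
  refine Finset.sum_congr rfl fun x _ => ?_
  rw [JPin_iw J u j x, JPin_upd, JPin_upd]
  unfold S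
  have h := JPin_sg (x j)
  have e : JPinA J u j x * (1 + u j * sg (x j)) * (sg (x j) * f x) =
      JPinA J u j x * (sg (x j) + u j * (sg (x j) * sg (x j))) * f x := by ring
  rw [e, h]
  ring

/-- covariance of a spin with any observable in terms of pinned expectations -/
theorem Cv_pin (J : Matrix (Fin n) (Fin n) ℝ) {u : Fin n → ℝ} (hu : Cube u) (j : Fin n)
    (f : Conf n → ℝ) :
    Cv (iw J u) (S j) f = dg (iw J u) j / 2 *
      (Ex (iw J (Function.update u j 1)) f - Ex (iw J (Function.update u j (-1))) f) := by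
  have hP : 0 < ∑ x, iw J (Function.update u j 1) x := (isW_iw J (JPin_cube hu j (by norm_num))).pos
  have hN : 0 < ∑ x, iw J (Function.update u j (-1)) x := (isW_iw J (JPin_cube hu j (by norm_num))).pos
  have hZ : 0 < ∑ x, iw J u x := (isW_iw J hu).pos
  have m1 := JPin_mix J u j f
  have m2 := JPin_mixS J u j f
  have m3 := JPin_mix J u j (fun _ => 1)
  have m4 := JPin_mixS J u j (fun _ => 1)
  simp only [mul_one] at m3 m4
  unfold dg Cv Ex
  rw [m1, m2, m4]
  rw [m3] at hZ ⊢
  generalize (∑ x, iw J (Function.update u j 1) x) = P at *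
  generalize (∑ x, iw J (Function.update u j (-1)) x) = N at *
  generalize (∑ x, iw J (Function.update u j 1) x * f x) = Pf at *
  generalize (∑ x, iw J (Function.update u j (-1)) x * f x) = Nf at *
  generalize (1 + u j) / 2 = α at *
  generalize (1 - u j) / 2 = β at *
  have hP' := hP.ne'
  have hN' := hN.ne'
  have hZ' := hZ.ne'
  field_simp
  ring

/-- flipping a spin -/
def JPinF (j : Fin n) (x : Conf n) : Conf n := Function.update x j (!(x j))

theorem JPinF_inv (j : Fin n) : Function.Involutive (JPinF (n := n) j) := by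
  intro x
  unfold JPinF
  rw [Function.update_idem, Function.update_self, Bool.not_not, Function.update_eq_self]

theorem JPin_sgF (j : Fin n) (x : Conf n) (i : Fin n) :
    sg (JPinF j x i) = sg (x i) - 2 * (if i = j then sg (x j) else 0) := by
  unfold JPinF
  by_cases h : i = j
  · subst h
    rw [Function.update_self, if_pos rfl]
    cases x i <;> simp [sg] <;> norm_num
  · rw [Function.update_of_ne h, if_neg h]
    ring

theorem JPin_quadF (J : Matrix (Fin n) (Fin n) ℝ) (hJ : J.IsSymm) (j : Fin n) (hj : J j j = 0) (x : Conf n) :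
    quad J (JPinF j x) = quad J x - 4 * sg (x j) * lin (J j) x := by
  unfold quad
  have h1 : ∀ i k, J i k * sg (JPinF j x i) * sg (JPinF j x k) =
      J i k * sg (x i) * sg (x k) - (if i = j then 2 * J j k * sg (x j) * sg (x k) else 0) -
        (if k = j then 2 * J i j * sg (x i) * sg (x j) else 0) := by
    intro i k
    rw [JPin_sgF, JPin_sgF]
    by_cases hi : i = j
    · by_cases hk : k = j
      · subst hi
        subst hk
        simp only [if_true, hj]
        ring
      · subst hi
        simp only [if_true, if_neg hk]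
        ring
    · by_cases hk : k = j
      · subst hk
        simp only [if_neg hi, if_true]
        ring
      · simp only [if_neg hi, if_neg hk]
        ring
  simp only [h1, Finset.sum_sub_distrib]
  have h2 : ∑ i, ∑ k, (if i = j then 2 * J j k * sg (x j) * sg (x k) else 0) =
      2 * sg (x j) * lin (J j) x := by
    rw [Finset.sum_comm]
    unfold lin
    rw [Finset.mul_sum]
    refine Finset.sum_congr rfl fun k _ => ?_
    rw [Finset.sum_ite_eq' Finset.univ j, if_pos (Finset.mem_univ j)]
    ring
  have h3 : ∑ i, ∑ k, (if k = j then 2 * J i j * sg (x i) * sg (x j) else 0) =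
      2 * sg (x j) * lin (J j) x := by
    unfold lin
    rw [Finset.mul_sum]
    refine Finset.sum_congr rfl fun i _ => ?_
    rw [Finset.sum_ite_eq' Finset.univ j, if_pos (Finset.mem_univ j), hJ.apply j i]
    ring
  rw [h2, h3]
  ring

/-- the pinned weight at `-1` after the flip -/
theorem JPin_flip (J : Matrix (Fin n) (Fin n) ℝ) (hJ : J.IsSymm) (j : Fin n) (hj : J j j = 0)
    (u : Fin n → ℝ) (x : Conf n) :
    iw J (Function.update u j (-1)) (JPinF j x) =
      tilt (iw J (Function.update u j 1)) (fun x => -2 * lin (J j) x) x := by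
  unfold tilt
  rw [JPin_upd, JPin_upd, JPin_sgF, if_pos rfl]
  have hA : JPinA J u j (JPinF j x) = Real.exp (quad J (JPinF j x) / 2) *
      ∏ i ∈ Finset.univ.erase j, (1 + u i * sg (x i)) := by
    unfold JPinA
    congr 1
    refine Finset.prod_congr rfl fun i hi => ?_
    rw [JPin_sgF, if_neg (Finset.ne_of_mem_erase hi)]
    ring
  rw [hA, JPin_quadF J hJ j hj]
  unfold JPinA
  cases hx : x j
  · have : sg false = -1 := by simp [sg]
    rw [this]
    ring
  · have : sg true = 1 := by simp [sg]
    rw [this]
    have e : (quad J x - 4 * 1 * lin (J j) x) / 2 = quad J x / 2 + (-2 * lin (J j) x) := by ring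
    rw [e, Real.exp_add]
    ring

/-- pinning at `-1` is a tilt of pinning at `+1` for observables which do not see `x_j` -/
theorem Ex_flip (J : Matrix (Fin n) (Fin n) ℝ) (hJ : J.IsSymm) (j : Fin n) (hj : J j j = 0)
    (u : Fin n → ℝ) (f : Conf n → ℝ) (hf : ∀ x b, f (Function.update x j b) = f x) :
    Ex (iw J (Function.update u j (-1))) f =
      Ex (tilt (iw J (Function.update u j 1)) (fun x => -2 * lin (J j) x)) f := by
  unfold Ex
  have h1 : ∑ x, iw J (Function.update u j (-1)) x * f x =
      ∑ x, tilt (iw J (Function.update u j 1)) (fun x => -2 * lin (J j) x) x * f x := by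
    rw [← Equiv.sum_comp (JPinF_inv j).toPerm]
    refine Finset.sum_congr rfl fun x _ => ?_
    show iw J (Function.update u j (-1)) (JPinF j x) * f (JPinF j x) = _
    rw [JPin_flip J hJ j hj u x]
    congr 1
    exact hf x _
  have h2 : ∑ x, iw J (Function.update u j (-1)) x =
      ∑ x, tilt (iw J (Function.update u j 1)) (fun x => -2 * lin (J j) x) x := by
    rw [← Equiv.sum_comp (JPinF_inv j).toPerm]
    exact Finset.sum_congr rfl fun x _ => JPin_flip J hJ j hj u x
  rw [h1, h2]

end SKG
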