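import Pool.Agent.Lib.MP_c42713_pr.JCmp

namespace SKG

variable {n : ℕ}

theorem JPoin_PB (J : Matrix (Fin n) (Fin n) ℝ) (K : ℕ)
    (hcov : ∀ u : Fin n → ℝ, Cube u → ∀ ξ : Fin n → ℝ,
      Cv (iw J u) (lin ξ) (lin ξ) ≤ K * ∑ i, ξ i ^ 2 * dg (iw J u) i)
    {u : Fin n → ℝ} (hu : ∀ i, |u i| < 1) : PB (iw J u) Finset.univ K := by
  intro T _ x ξ
  obtain ⟨u', hu', c, hc, h⟩ := pw_iw J hu T x
  have h1 : pw (iw J u) T x = fun y => c * iw J u' y := funext h
  have h2 : ∀ i, dg (fun y => c * iw J u' y) i = dg (iw J u') i := by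
    intro i
    unfold dg
    rw [Ex_scale hc.ne']
  rw [h1, Cv_scale hc.ne']
  simp only [h2]
  exact hcov u' hu' ξ

/-- Poincare inequality for the single-site dynamics from the covariance bound -/
theorem poincare (J : Matrix (Fin n) (Fin n) ℝ) (hJ : ∀ i j, |J i j| ≤ 1) (K : ℕ) (hK1 : 1 ≤ K)
    (hK : K ≤ n)
    (hcov : ∀ u : Fin n → ℝ, Cube u → ∀ ξ : Fin n → ℝ,
      Cv (iw J u) (lin ξ) (lin ξ) ≤ K * ∑ i, ξ i ^ 2 * dg (iw J u) i)
    {u : Fin n → ℝ} (hu : ∀ i, |u i| < 1) (f : Conf n → ℝ) :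
    FS (iw J u) Finset.univ f ≤ Real.exp ((K : ℝ) ^ 2) * (n : ℝ) ^ K * ∑ i, FS (iw J u) {i} f := by
  have hw := iw_pos J hu
  have hF : ∀ T, 0 ≤ FS (iw J u) T f := fun T =>
    Finset.sum_nonneg fun x _ => mul_nonneg (hw x).le (sq_nonneg _)
  have hPB := JPoin_PB J K hcov hu
  have h1 := comb_iter K hK (fun T => FS (iw J u) T f) hF (fun T =>
    FS_local hw Finset.univ K (Nat.cast_nonneg K) hPB T (Finset.subset_univ T) f)
  have hS : 0 ≤ ∑ i, FS (iw J u) {i} f := Finset.sum_nonneg fun i _ => hF {i}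
  have h2 : ∀ T ∈ Finset.powersetCard K (Finset.univ : Finset (Fin n)),
      FS (iw J u) T f ≤ Real.exp ((K : ℝ) ^ 2) * ∑ i, FS (iw J u) {i} f := by
    intro T hT
    have hc : T.card = K := (Finset.mem_powersetCard.1 hT).2
    have h3 := FS_block J hJ hu T f
    rw [hc] at h3
    refine h3.trans (mul_le_mul_of_nonneg_left ?_ (Real.exp_pos _).le)
    exact Finset.sum_le_sum_of_subset_of_nonneg (Finset.subset_univ T) (fun i _ _ => hF {i})
  have h4 : ((Finset.powersetCard K (Finset.univ : Finset (Fin n))).card : ℝ) ≤ (n : ℝ) ^ K := by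
    rw [Finset.card_powersetCard, Finset.card_univ, Fintype.card_fin]
    exact_mod_cast Nat.choose_le_pow n K
  calc FS (iw J u) Finset.univ f
      ≤ ∑ T ∈ Finset.powersetCard K (Finset.univ : Finset (Fin n)), FS (iw J u) T f := h1
    _ ≤ ∑ T ∈ Finset.powersetCard K (Finset.univ : Finset (Fin n)),
          Real.exp ((K : ℝ) ^ 2) * ∑ i, FS (iw J u) {i} f := Finset.sum_le_sum h2
    _ = ((Finset.powersetCard K (Finset.univ : Finset (Fin n))).card : ℝ) *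
          (Real.exp ((K : ℝ) ^ 2) * ∑ i, FS (iw J u) {i} f) := by
        rw [Finset.sum_const, nsmul_eq_mul]
    _ ≤ (n : ℝ) ^ K * (Real.exp ((K : ℝ) ^ 2) * ∑ i, FS (iw J u) {i} f) :=
        mul_le_mul_of_nonneg_right h4 (mul_nonneg (Real.exp_pos _).le hS)
    _ = Real.exp ((K : ℝ) ^ 2) * (n : ℝ) ^ K * ∑ i, FS (iw J u) {i} f := by ring

end SKG
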