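import Pool.Agent.Lib.MP_c42713_pr.FlowDefs

namespace SKG

variable {n d : ℕ}

theorem JQuad_quad (E : Matrix (Fin n) (Fin n) ℝ) (x : Conf n) :
    quad E x / 2 = ∑ k, ∑ l, (E k l / 2) * (S k x * S l x) := by
  unfold quad S
  rw [Finset.sum_div]
  refine Finset.sum_congr rfl fun k _ => ?_
  rw [Finset.sum_div]
  exact Finset.sum_congr rfl fun l _ => by ring

theorem JQuad_Cv_mul {X : Type*} [Fintype X] {w : X → ℝ} (hw : IsW w) (f g h : X → ℝ) :
    Cv w f (fun x => g x * h x) = k3 w f g h + Ex w g * Cv w f h + Ex w h * Cv w f g := by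
  have h1 : (fun x => (f x - Ex w f) * (g x - Ex w g) * (h x - Ex w h)) =
      fun x => ((f x * (g x * h x) - Ex w g * (f x * h x)) - (Ex w h * (f x * g x) - Ex w g * Ex w h * f x)) -
        Ex w f * ((g x * h x - Ex w g * h x) - (Ex w h * g x - Ex w g * Ex w h)) := by
    funext x; ring
  unfold k3
  rw [h1, Ex_sub, Ex_smul, Ex_sub, Ex_sub, Ex_sub, Ex_sub, Ex_sub, Ex_sub, Ex_smul, Ex_smul, Ex_smul, Ex_smul,
    Ex_smul, Ex_const hw]
  unfold Cv
  ring

theorem JQuad_k3_Ex {X : Type*} [Fintype X] (w : X → ℝ) (f g h : X → ℝ) :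
    k3 w f g h = Ex w (fun x => ((f x - Ex w f) * (g x - Ex w g)) * h x) -
      Ex w h * Ex w (fun x => (f x - Ex w f) * (g x - Ex w g)) := by
  unfold k3
  rw [← Ex_smul, ← Ex_sub]
  congr 1
  funext x
  ring

theorem JQuad_k3_sum {X : Type*} [Fintype X] {ι : Type*} (s : Finset ι) (w f g : X → ℝ) (h : ι → X → ℝ) :
    k3 w f g (fun x => ∑ i ∈ s, h i x) = ∑ i ∈ s, k3 w f g (h i) := by
  simp only [JQuad_k3_Ex]
  rw [Finset.sum_sub_distrib, ← Finset.sum_mul, ← Ex_sum, ← Ex_sum]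
  congr 2
  funext x
  rw [Finset.mul_sum]

theorem JQuad_k3_smul {X : Type*} [Fintype X] (w f g : X → ℝ) (a : ℝ) (h : X → ℝ) :
    k3 w f g (fun x => a * h x) = a * k3 w f g h := by
  simp only [JQuad_k3_Ex]
  rw [Ex_smul]
  have : (fun x => (f x - Ex w f) * (g x - Ex w g) * (a * h x)) =
      fun x => a * ((f x - Ex w f) * (g x - Ex w g) * h x) := by funext x; ring
  rw [this, Ex_smul]
  ring

theorem JQuad_k3_mul {X : Type*} [Fintype X] {w : X → ℝ} (hw : IsW w) (f g h k : X → ℝ) :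
    k3 w f g (fun x => h x * k x) = (k4 w f g h k - Cv w f g * Cv w h k) + Ex w h * k3 w f g k +
      Ex w k * k3 w f g h := by
  have hc : Ex w (fun x => (f x - Ex w f) * (g x - Ex w g)) = Cv w f g := (Cv_eq_centred hw f g).symm
  rw [JQuad_k3_Ex, hc]
  have h1 : (fun x => (f x - Ex w f) * (g x - Ex w g) * (h x * k x)) =
      fun x => ((f x - Ex w f) * (g x - Ex w g) * (h x - Ex w h) * (k x - Ex w k) +
        Ex w h * ((f x - Ex w f) * (g x - Ex w g) * k x)) +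
        (Ex w k * ((f x - Ex w f) * (g x - Ex w g) * h x) - Ex w h * Ex w k * ((f x - Ex w f) * (g x - Ex w g))) := by
    funext x; ring
  rw [h1, Ex_add, Ex_add, Ex_sub, Ex_smul, Ex_smul, Ex_smul, hc, JQuad_k3_Ex w f g k, JQuad_k3_Ex w f g h, hc]
  unfold k4
  have h2 : Ex w (fun x => h x * k x) = Cv w h k + Ex w h * Ex w k := by unfold Cv; ring
  rw [h2]
  ring

/-- symmetric sums -/
theorem JQuad_symm (E : Matrix (Fin n) (Fin n) ℝ) (hE : E.IsSymm) (m c : Fin n → ℝ) :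
    ∑ k, ∑ l, (E k l / 2) * (m k * c l + m l * c k) = ∑ k, (∑ l, E k l * m l) * c k := by
  have h1 : ∑ k, ∑ l, (E k l / 2) * (m k * c l) = ∑ k, ∑ l, (E k l / 2) * (m l * c k) := by
    rw [Finset.sum_comm]
    refine Finset.sum_congr rfl fun k _ => Finset.sum_congr rfl fun l _ => ?_
    rw [hE.apply k l]
  calc ∑ k, ∑ l, (E k l / 2) * (m k * c l + m l * c k)
      = ∑ k, ∑ l, ((E k l / 2) * (m k * c l) + (E k l / 2) * (m l * c k)) := by
        refine Finset.sum_congr rfl fun k _ => Finset.sum_congr rfl fun l _ => ?_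
        ring
    _ = ∑ k, ∑ l, (E k l / 2) * (m k * c l) + ∑ k, ∑ l, (E k l / 2) * (m l * c k) := by
        simp only [Finset.sum_add_distrib]
    _ = ∑ k, ∑ l, (E k l / 2) * (m l * c k) + ∑ k, ∑ l, (E k l / 2) * (m l * c k) := by rw [h1]
    _ = ∑ k, (∑ l, E k l * m l) * c k := by
        rw [← Finset.sum_add_distrib]
        refine Finset.sum_congr rfl fun k _ => ?_
        rw [← Finset.sum_add_distrib, Finset.sum_mul]
        exact Finset.sum_congr rfl fun l _ => by ring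

theorem JQuad_half (E : Matrix (Fin n) (Fin n) ℝ) (F : Fin n → Fin n → ℝ) :
    ∑ k, ∑ l, (E k l / 2) * F k l = (1 / 2) * ∑ k, ∑ l, E k l * F k l := by
  rw [Finset.mul_sum]
  refine Finset.sum_congr rfl fun k _ => ?_
  rw [Finset.mul_sum]
  exact Finset.sum_congr rfl fun l _ => by ring

/-- covariance with the quadratic form -/
theorem Cv_quad {w : Conf n → ℝ} (hw : IsW w) (E : Matrix (Fin n) (Fin n) ℝ) (hE : E.IsSymm)
    (f : Conf n → ℝ) :
    Cv w f (fun x => quad E x / 2) =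
      (1 / 2) * (∑ k, ∑ l, E k l * k3 w f (S k) (S l)) +
        ∑ k, (∑ l, E k l * Ex w (S l)) * Cv w f (S k) := by
  rw [← JQuad_symm E hE, ← JQuad_half, ← Finset.sum_add_distrib]
  simp only [JQuad_quad]
  rw [Cv_sum_right]
  refine Finset.sum_congr rfl fun k _ => ?_
  rw [Cv_sum_right, ← Finset.sum_add_distrib]
  refine Finset.sum_congr rfl fun l _ => ?_
  rw [Cv_smul_right, JQuad_Cv_mul hw]
  ring

/-- third cumulant with the quadratic form -/
theorem k3_quad {w : Conf n → ℝ} (hw : IsW w) (E : Matrix (Fin n) (Fin n) ℝ) (hE : E.IsSymm)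
    (f g : Conf n → ℝ) :
    k3 w f g (fun x => quad E x / 2) =
      (1 / 2) * (∑ k, ∑ l, E k l * (k4 w f g (S k) (S l) - Cv w f g * cv2 w k l)) +
        ∑ k, (∑ l, E k l * Ex w (S l)) * k3 w f g (S k) := by
  rw [← JQuad_symm E hE, ← JQuad_half, ← Finset.sum_add_distrib]
  simp only [JQuad_quad]
  rw [JQuad_k3_sum]
  refine Finset.sum_congr rfl fun k _ => ?_
  rw [JQuad_k3_sum, ← Finset.sum_add_distrib]
  refine Finset.sum_congr rfl fun l _ => ?_
  rw [JQuad_k3_smul, JQuad_k3_mul hw]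
  unfold cv2
  ring

theorem JQuad_swap (E : Matrix (Fin n) (Fin n) ℝ) (A : Fin n → ℝ) (F : Fin n → Fin n → Fin n → ℝ) :
    ∑ j, A j * (∑ k, ∑ l, E k l * F j k l) = ∑ k, ∑ l, E k l * ∑ j, A j * F j k l := by
  calc ∑ j, A j * (∑ k, ∑ l, E k l * F j k l) = ∑ j, ∑ k, ∑ l, E k l * (A j * F j k l) := by
        refine Finset.sum_congr rfl fun j _ => ?_
        rw [Finset.mul_sum]
        refine Finset.sum_congr rfl fun k _ => ?_
        rw [Finset.mul_sum]
        exact Finset.sum_congr rfl fun l _ => by ring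
    _ = ∑ k, ∑ j, ∑ l, E k l * (A j * F j k l) := Finset.sum_comm
    _ = ∑ k, ∑ l, ∑ j, E k l * (A j * F j k l) := Finset.sum_congr rfl fun k _ => Finset.sum_comm
    _ = ∑ k, ∑ l, E k l * ∑ j, A j * F j k l := by
        refine Finset.sum_congr rfl fun k _ => Finset.sum_congr rfl fun l _ => ?_
        rw [Finset.mul_sum]

theorem JQuad_swap1 (b : Fin n → ℝ) (A : Fin n → ℝ) (F : Fin n → Fin n → ℝ) :
    ∑ j, A j * (∑ k, b k * F j k) = ∑ k, b k * ∑ j, A j * F j k := by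
  calc ∑ j, A j * (∑ k, b k * F j k) = ∑ j, ∑ k, b k * (A j * F j k) := by
        refine Finset.sum_congr rfl fun j _ => ?_
        rw [Finset.mul_sum]
        exact Finset.sum_congr rfl fun k _ => by ring
    _ = ∑ k, ∑ j, b k * (A j * F j k) := Finset.sum_comm
    _ = ∑ k, b k * ∑ j, A j * F j k := by
        refine Finset.sum_congr rfl fun k _ => ?_
        rw [Finset.mul_sum]

/-- `G1` in the quadratic direction -/
theorem G1_quad {w : Conf n → ℝ} (hw : IsW w) (a : Fin d → ℝ) (ξ : Fin n → ℝ)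
    (E : Matrix (Fin n) (Fin n) ℝ) (hE : E.IsSymm) :
    G1 w a ξ (fun x => quad E x / 2) =
      (1 / 2) * (∑ k, ∑ l, E k l * Hm w a ξ k l)
      + ∑ j, ξ j ^ 2 * psi a (dg w j) * (∑ k, ∑ l, E k l * cv2 w j k * cv2 w j l)
      - ∑ k, ∑ l, E k l * Cv w (S k) (lin ξ) * Cv w (S l) (lin ξ)
      + ∑ k, (∑ l, E k l * Ex w (S l)) * G1 w a ξ (S k) := by
  have e1 : G1 w a ξ (fun x => quad E x / 2) =
      ∑ j, (ξ j ^ 2 * omD a (dg w j) * (-2 * Ex w (S j)) * (1 / 2)) *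
        (∑ k, ∑ l, E k l * k3 w (S j) (S k) (S l)) +
      ∑ j, (ξ j ^ 2 * omD a (dg w j) * (-2 * Ex w (S j))) * (∑ k, (∑ l, E k l * Ex w (S l)) * Cv w (S j) (S k)) -
      ((1 / 2) * (∑ k, ∑ l, E k l * (k4 w (lin ξ) (lin ξ) (S k) (S l) - Cv w (lin ξ) (lin ξ) * cv2 w k l)) +
        ∑ k, (∑ l, E k l * Ex w (S l)) * k3 w (lin ξ) (lin ξ) (S k)) := by
    unfold G1
    rw [k3_quad hw E hE, ← Finset.sum_add_distrib]
    congr 1
    refine Finset.sum_congr rfl fun j _ => ?_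
    rw [Cv_quad hw E hE]
    ring
  have e2 : ∑ k, (∑ l, E k l * Ex w (S l)) * G1 w a ξ (S k) =
      ∑ j, (ξ j ^ 2 * omD a (dg w j) * (-2 * Ex w (S j))) * (∑ k, (∑ l, E k l * Ex w (S l)) * Cv w (S j) (S k)) -
        ∑ k, (∑ l, E k l * Ex w (S l)) * k3 w (lin ξ) (lin ξ) (S k) := by
    rw [JQuad_swap1, ← Finset.sum_sub_distrib]
    refine Finset.sum_congr rfl fun k _ => ?_
    rw [← mul_sub]
    congr 1
    unfold G1
    congr 1
    exact Finset.sum_congr rfl fun j _ => by ring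
  have e3 : ∑ j, ξ j ^ 2 * psi a (dg w j) * (∑ k, ∑ l, E k l * cv2 w j k * cv2 w j l) =
      ∑ k, ∑ l, E k l * ∑ j, (ξ j ^ 2 * psi a (dg w j)) * (cv2 w j k * cv2 w j l) := by
    rw [← JQuad_swap]
    refine Finset.sum_congr rfl fun j _ => ?_
    congr 1
    refine Finset.sum_congr rfl fun k _ => Finset.sum_congr rfl fun l _ => ?_
    ring
  rw [e1, e2, e3, JQuad_swap]
  have key : ∑ k, ∑ l, E k l * ∑ j, (ξ j ^ 2 * omD a (dg w j) * (-2 * Ex w (S j)) * (1 / 2)) * k3 w (S j) (S k) (S l)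
      - (1 / 2) * (∑ k, ∑ l, E k l * (k4 w (lin ξ) (lin ξ) (S k) (S l) - Cv w (lin ξ) (lin ξ) * cv2 w k l)) =
      (1 / 2) * (∑ k, ∑ l, E k l * Hm w a ξ k l) +
      ∑ k, ∑ l, E k l * ∑ j, (ξ j ^ 2 * psi a (dg w j)) * (cv2 w j k * cv2 w j l)
      - ∑ k, ∑ l, E k l * Cv w (S k) (lin ξ) * Cv w (S l) (lin ξ) := by
    rw [← JQuad_half, ← JQuad_half, ← Finset.sum_sub_distrib, ← Finset.sum_add_distrib, ← Finset.sum_sub_distrib]
    refine Finset.sum_congr rfl fun k _ => ?_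
    rw [← Finset.sum_sub_distrib, ← Finset.sum_add_distrib, ← Finset.sum_sub_distrib]
    refine Finset.sum_congr rfl fun l _ => ?_
    have hH : Hm w a ξ k l = (∑ j, ξ j ^ 2 * (omDD a (dg w j) * (4 * Ex w (S j) ^ 2 * (cv2 w j k * cv2 w j l)) +
      omD a (dg w j) * (-2 * (cv2 w j k * cv2 w j l) - 2 * Ex w (S j) * k3 w (S j) (S k) (S l)))) -
      (k4 w (lin ξ) (lin ξ) (S k) (S l) - Cv w (lin ξ) (lin ξ) * cv2 w k l
      - 2 * (Cv w (lin ξ) (S k) * Cv w (lin ξ) (S l))) := rfl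
    have hs : ∑ j, (ξ j ^ 2 * omD a (dg w j) * (-2 * Ex w (S j)) * (1 / 2)) * k3 w (S j) (S k) (S l) =
        (1 / 2) * (∑ j, ξ j ^ 2 * (omDD a (dg w j) * (4 * Ex w (S j) ^ 2 * (cv2 w j k * cv2 w j l)) +
      omD a (dg w j) * (-2 * (cv2 w j k * cv2 w j l) - 2 * Ex w (S j) * k3 w (S j) (S k) (S l)))) +
        ∑ j, (ξ j ^ 2 * psi a (dg w j)) * (cv2 w j k * cv2 w j l) := by
      rw [Finset.mul_sum, ← Finset.sum_add_distrib]
      refine Finset.sum_congr rfl fun j _ => ?_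
      unfold psi
      have hd : 1 - dg w j = Ex w (S j) ^ 2 := by unfold dg; ring
      rw [hd]
      ring
    rw [hs, hH, Cv_comm w (S k) (lin ξ), Cv_comm w (S l) (lin ξ)]
    ring
  linarith [key]

end SKG
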