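import Mathlib

namespace SKG

open Filter Topology in
/-- second derivative test at a global minimum with value zero -/
theorem second_test (g g1 : ℝ → ℝ) (g2 : ℝ) (h1 : ∀ s, HasDerivAt g (g1 s) s)
    (h2 : HasDerivAt g1 g2 0) (h0 : g 0 = 0) (hn : ∀ s, 0 ≤ g s) : g1 0 = 0 ∧ 0 ≤ g2 := by
  have hmin : IsLocalMin g 0 := Filter.Eventually.of_forall fun s => by rw [h0]; exact hn s
  have h3 : g1 0 = 0 := hmin.hasDerivAt_eq_zero (h1 0)
  refine ⟨h3, ?_⟩
  by_contra hneg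
  push Not at hneg
  have h4 : ∀ᶠ s in 𝓝[≠] (0 : ℝ), slope g1 0 s < 0 :=
    (hasDerivAt_iff_tendsto_slope.1 h2).eventually_lt_const hneg
  have h5 : ∀ᶠ s in 𝓝[>] (0 : ℝ), slope g1 0 s < 0 :=
    h4.filter_mono (nhdsWithin_mono 0 (fun x hx => ne_of_gt hx))
  obtain ⟨d, hd, h6⟩ := (mem_nhdsGT_iff_exists_Ioo_subset).1 h5
  have hd' : (0 : ℝ) < d := hd
  have h7 : ∀ s ∈ Set.Ioo (0 : ℝ) d, g1 s < 0 := by
    intro s hs
    have h8 : slope g1 0 s < 0 := h6 hs
    rw [slope_def_field, h3, sub_zero, sub_zero] at h8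
    by_contra hc
    push Not at hc
    exact absurd (div_nonneg hc hs.1.le) (not_le.2 h8)
  have hcont : ContinuousOn g (Set.Icc 0 (d / 2)) := fun s _ =>
    (h1 s).continuousAt.continuousWithinAt
  have hanti : StrictAntiOn g (Set.Icc 0 (d / 2)) := by
    refine strictAntiOn_of_deriv_neg (convex_Icc _ _) hcont ?_
    intro s hs
    rw [interior_Icc] at hs
    rw [(h1 s).deriv]
    exact h7 s ⟨hs.1, by linarith [hs.2]⟩
  have h9 := hanti (Set.left_mem_Icc.2 (by linarith)) (Set.right_mem_Icc.2 (by linarith))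
    (by linarith : (0 : ℝ) < d / 2)
  rw [h0] at h9
  linarith [hn (d / 2)]

end SKG
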