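import Pool.Agent.Lib.MP_c42713_pr.JGrad

namespace SKG

variable {n d : ℕ}

/-- time derivative of `GG`: the coefficients and the weight move together -/
theorem hasDerivAt_GG_time {w : Conf n → ℝ} (hw : IsW w) (a : Fin d → ℝ → ℝ) (a' : Fin d → ℝ)
    (t : ℝ) (ha : ∀ k, HasDerivAt (a k) (a' k) t) (ξ : Fin n → ℝ) (q : Conf n → ℝ) :
    HasDerivAt (fun s => GG (tilt w (fun x => (s - t) * q x)) (fun k => a k s) ξ)
      (∑ j, ξ j ^ 2 * om a' (dg w j) + G1 w (fun k => a k t) ξ q) t := by
  have e0 : tilt w (fun x => (t - t) * q x) = w := by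
    funext x
    simp only [tilt, sub_self, zero_mul, Real.exp_zero, mul_one]
  have e1 : tilt w (fun x => (0 : ℝ) * q x) = w := by
    funext x
    simp only [tilt, zero_mul, Real.exp_zero, mul_one]
  have hD : ∀ j, HasDerivAt (fun s => dg (tilt w (fun x => (s - t) * q x)) j)
      (-2 * Ex w (S j) * Cv w (S j) q) t := by
    intro j
    have h1 := JGrad_dg hw q j 0
    rw [e1] at h1
    rw [← sub_self t] at h1
    exact h1.comp_sub_const t t
  have hC : HasDerivAt (fun s => Cv (tilt w (fun x => (s - t) * q x)) (lin ξ) (lin ξ))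
      (k3 w (lin ξ) (lin ξ) q) t := by
    have h1 := hasDerivAt_Cv hw q (lin ξ) (lin ξ) 0
    rw [e1] at h1
    rw [← sub_self t] at h1
    exact h1.comp_sub_const t t
  have hO : ∀ j, HasDerivAt (fun s => om (fun k => a k s) (dg (tilt w (fun x => (s - t) * q x)) j))
      (om a' (dg w j) + omD (fun k => a k t) (dg w j) * (-2 * Ex w (S j) * Cv w (S j) q)) t := by
    intro j
    have h1 : (fun s => om (fun k => a k s) (dg (tilt w (fun x => (s - t) * q x)) j)) =
        fun s => ∑ k : Fin d, a k s * (dg (tilt w (fun x => (s - t) * q x)) j) ^ ((k : ℕ) + 1) := by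
      funext s
      exact JGrad_om_eq _ _
    rw [h1, JGrad_om_eq, omD, Finset.sum_mul, ← Finset.sum_add_distrib]
    refine HasDerivAt.fun_sum fun k _ => ?_
    refine ((ha k).fun_mul ((hD j).fun_pow ((k : ℕ) + 1))).congr_deriv ?_
    rw [e0]
    push_cast
    ring
  have hsum : HasDerivAt (fun s => ∑ j, ξ j ^ 2 *
      om (fun k => a k s) (dg (tilt w (fun x => (s - t) * q x)) j))
      (∑ j, ξ j ^ 2 * (om a' (dg w j) +
        omD (fun k => a k t) (dg w j) * (-2 * Ex w (S j) * Cv w (S j) q))) t :=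
    HasDerivAt.fun_sum fun j _ => (hO j).const_mul _
  unfold GG G1
  refine (hsum.fun_sub hC).congr_deriv ?_
  have e2 : ∑ j, ξ j ^ 2 * (om a' (dg w j) +
        omD (fun k => a k t) (dg w j) * (-2 * Ex w (S j) * Cv w (S j) q)) =
      ∑ j, ξ j ^ 2 * om a' (dg w j) +
      ∑ j, ξ j ^ 2 * (omD (fun k => a k t) (dg w j) * (-2 * Ex w (S j) * Cv w (S j) q)) := by
    rw [← Finset.sum_add_distrib]
    refine Finset.sum_congr rfl fun j _ => ?_
    ring
  rw [e2]
  ring

end SKG
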