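import Pool.Agent.Lib.MP_c42713_pr.FlowDefs

namespace SKG

variable {n : ℕ}

theorem JTrace_factor (H : Fin n → Fin n → ℝ) (hs : ∀ k l, H k l = H l k)
    (hH : ∀ v : Fin n → ℝ, 0 ≤ ∑ k, ∑ l, v k * v l * H k l) :
    ∃ B : Matrix (Fin n) (Fin n) ℝ, ∀ k l, H k l = ∑ r, B r k * B r l := by
  have hpsd : (Matrix.of H).PosSemidef := by
    refine .of_dotProduct_mulVec_nonneg ?_ (fun x => ?_)
    · ext k l
      simp only [Matrix.conjTranspose_apply, Matrix.of_apply, star_trivial]
      exact hs l k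
    · have h := hH x
      refine h.trans_eq ?_
      simp only [dotProduct, Matrix.mulVec, Matrix.of_apply, star_trivial, Finset.mul_sum]
      refine Finset.sum_congr rfl fun k _ => Finset.sum_congr rfl fun l _ => ?_
      ring
  open scoped MatrixOrder in
  obtain ⟨B, hB⟩ := CStarAlgebra.nonneg_iff_eq_star_mul_self.mp hpsd.nonneg
  refine ⟨B, fun k l => ?_⟩
  have h1 : Matrix.of H k l = (star B * B) k l := by rw [hB]
  rw [Matrix.mul_apply] at h1
  exact h1

/-- trace of a product of two positive semidefinite forms is nonnegative -/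
theorem trace_nonneg (E : Matrix (Fin n) (Fin n) ℝ) (hE : E.IsSymm) (C : Fin n → ℝ)
    (hQ : ∀ v, 0 ≤ QF E C v) (H : Fin n → Fin n → ℝ) (hs : ∀ k l, H k l = H l k)
    (hH : ∀ v : Fin n → ℝ, 0 ≤ ∑ k, ∑ l, v k * v l * H k l) :
    0 ≤ ∑ k, ∑ l, E k l * H k l + ∑ k, C k * H k k := by
  obtain ⟨B, hB⟩ := JTrace_factor H hs hH
  have h1 : ∑ k, ∑ l, E k l * H k l + ∑ k, C k * H k k = ∑ r, QF E C (B r) := by
    unfold QF
    rw [Finset.sum_add_distrib]
    congr 1
    · calc ∑ k, ∑ l, E k l * H k l = ∑ k, ∑ l, ∑ r, E k l * B r k * B r l := by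
            refine Finset.sum_congr rfl fun k _ => Finset.sum_congr rfl fun l _ => ?_
            rw [hB, Finset.mul_sum]
            exact Finset.sum_congr rfl fun r _ => by ring
        _ = ∑ k, ∑ r, ∑ l, E k l * B r k * B r l :=
            Finset.sum_congr rfl fun k _ => Finset.sum_comm
        _ = ∑ r, ∑ k, ∑ l, E k l * B r k * B r l := Finset.sum_comm
    · calc ∑ k, C k * H k k = ∑ k, ∑ r, C k * B r k ^ 2 := by
            refine Finset.sum_congr rfl fun k _ => ?_
            rw [hB, Finset.mul_sum]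
            exact Finset.sum_congr rfl fun r _ => by ring
        _ = ∑ r, ∑ k, C k * B r k ^ 2 := Finset.sum_comm
  rw [h1]
  exact Finset.sum_nonneg fun r _ => hQ _

end SKG
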