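import Pool.Agent.Lib.MP_c42713_pr.JSecond
import Pool.Agent.Lib.MP_c42713_pr.JTime
import Pool.Agent.Lib.MP_c42713_pr.JHess
import Pool.Agent.Lib.MP_c42713_pr.JDiag
import Pool.Agent.Lib.MP_c42713_pr.JQuad
import Pool.Agent.Lib.MP_c42713_pr.JTrace

namespace SKG

variable {n d : ℕ}

private theorem JTouch_tilt_zero {X : Type*} (w c : X → ℝ) : tilt w (fun x => 0 * c x) = w := by
  funext x
  simp [tilt]

private theorem JTouch_deriv_nonpos {g : ℝ → ℝ} {g' t δ : ℝ} (hg : HasDerivAt g g' t)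
    (hδ : 0 < δ) (h0 : g t = 0) (h : ∀ s, t - δ < s → s < t → 0 ≤ g s) : g' ≤ 0 := by
  have h1 : Filter.Tendsto (slope g t) (nhdsWithin t (Set.Iio t)) (nhds g') :=
    (hasDerivWithinAt_iff_tendsto_slope' (s := Set.Iio t) (by simp)).1 hg.hasDerivWithinAt
  refine le_of_tendsto h1 ?_
  filter_upwards [Ioo_mem_nhdsLT (sub_lt_self t hδ)] with s hs
  rw [slope_def_field, h0, sub_zero]
  exact div_nonpos_of_nonneg_of_nonpos (h s hs.1 hs.2) (by linarith [hs.2])

private theorem JTouch_lin_smul (v : Fin n → ℝ) (s : ℝ) :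
    (fun x : Conf n => s * lin v x) = lin (fun i => s * v i) := by
  funext x
  unfold lin
  rw [Finset.mul_sum]
  exact Finset.sum_congr rfl fun i _ => by ring

private theorem JTouch_second {w : Conf n → ℝ} (hw : IsW w) (b : Fin d → ℝ) (ξ : Fin n → ℝ)
    (h0 : GG w b ξ = 0) (h1 : ∀ v : Fin n → ℝ, 0 ≤ GG (tilt w (lin v)) b ξ) (v : Fin n → ℝ) :
    G1 w b ξ (lin v) = 0 ∧ 0 ≤ G2 w b ξ (lin v) := by
  have h := second_test (fun s => GG (tilt w (fun x => s * lin v x)) b ξ)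
    (fun s => G1 (tilt w (fun x => s * lin v x)) b ξ (lin v))
    (G2 (tilt w (fun x => 0 * lin v x)) b ξ (lin v))
    (fun s => hasDerivAt_GG hw b ξ (lin v) s) (hasDerivAt_G1 hw b ξ (lin v) 0)
    (by
      show GG (tilt w (fun x => 0 * lin v x)) b ξ = 0
      rw [JTouch_tilt_zero, h0])
    (by
      intro s
      show 0 ≤ GG (tilt w (fun x => s * lin v x)) b ξ
      rw [JTouch_lin_smul]
      exact h1 _)
  have h2 : G1 (tilt w (fun x => 0 * lin v x)) b ξ (lin v) = 0 := h.1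
  have h3 := h.2
  rw [JTouch_tilt_zero] at h2 h3
  exact ⟨h2, h3⟩

private theorem JTouch_grad {w : Conf n → ℝ} (b : Fin d → ℝ) (ξ : Fin n → ℝ)
    (h : ∀ v : Fin n → ℝ, G1 w b ξ (lin v) = 0) (k : Fin n) : G1 w b ξ (S k) = 0 := by
  have h1 := h (Pi.single k 1)
  rw [G1_lin] at h1
  rw [Finset.sum_eq_single k] at h1
  · simpa using h1
  · intro l _ hl
    rw [Pi.single_eq_of_ne hl, zero_mul]
  · intro hk
    exact absurd (Finset.mem_univ k) hk

/-- the touching inequality -/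
theorem touch {w : Conf n → ℝ} (hw : IsW w) (E : Matrix (Fin n) (Fin n) ℝ) (hE : E.IsSymm)
    (C : Fin n → ℝ) (hQ : ∀ v, 0 ≤ QF E C v) (ξ : Fin n → ℝ)
    (a : Fin d → ℝ → ℝ) (a' : Fin d → ℝ) (t : ℝ) (ha : ∀ k, HasDerivAt (a k) (a' k) t)
    (h0 : GG w (fun k => a k t) ξ = 0)
    (h1 : ∀ v : Fin n → ℝ, 0 ≤ GG (tilt w (lin v)) (fun k => a k t) ξ)
    (h2 : ∃ δ > 0, ∀ s, t - δ < s → s < t →
      0 ≤ GG (tilt w (fun x => (s - t) * (quad E x / 2))) (fun k => a k s) ξ) :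
    ∑ j, ξ j ^ 2 * om a' (dg w j)
      + ∑ j, ξ j ^ 2 * psi (fun k => a k t) (dg w j) * QF E C (cv2 w j)
      ≤ QF E C (fun k => Cv w (S k) (lin ξ)) := by
  obtain ⟨δ, hδ, h2⟩ := h2
  have hsec := JTouch_second hw (fun k => a k t) ξ h0 h1
  have hgr := JTouch_grad (fun k => a k t) ξ fun v => (hsec v).1
  -- the Hessian
  have hH : ∀ v : Fin n → ℝ, 0 ≤ ∑ k, ∑ l, v k * v l * Hm w (fun k => a k t) ξ k l := by
    intro v
    rw [← G2_lin]
    exact (hsec v).2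
  have htr := trace_nonneg E hE C hQ (Hm w (fun k => a k t) ξ)
    (fun k l => Hm_symm w (fun k => a k t) ξ k l) hH
  -- the time derivative
  have hder := hasDerivAt_GG_time hw a a' t ha ξ (fun x => quad E x / 2)
  have hle : ∑ j, ξ j ^ 2 * om a' (dg w j)
      + G1 w (fun k => a k t) ξ (fun x => quad E x / 2) ≤ 0 := by
    refine JTouch_deriv_nonpos hder hδ ?_ h2
    show GG (tilt w (fun x => (t - t) * (quad E x / 2))) (fun k => a k t) ξ = 0
    rw [sub_self, JTouch_tilt_zero, h0]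
  rw [G1_quad hw (fun k => a k t) ξ E hE] at hle
  have hz : ∑ k, (∑ l, E k l * Ex w (S l)) * G1 w (fun k => a k t) ξ (S k) = 0 :=
    Finset.sum_eq_zero fun k _ => by rw [hgr k, mul_zero]
  rw [hz] at hle
  have hdiag : ∑ k, C k * Hm w (fun k => a k t) ξ k k
      = -2 * (∑ j, ξ j ^ 2 * psi (fun k => a k t) (dg w j) * ∑ k, C k * cv2 w j k ^ 2)
        + 2 * ∑ k, C k * Cv w (S k) (lin ξ) ^ 2 := by
    have e1 : ∀ k, C k * Hm w (fun k => a k t) ξ k k
        = -2 * (∑ j, ξ j ^ 2 * psi (fun k => a k t) (dg w j) * (C k * cv2 w j k ^ 2))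
          + 2 * (C k * Cv w (S k) (lin ξ) ^ 2) := by
      intro k
      have e2 : ∑ j, ξ j ^ 2 * psi (fun k => a k t) (dg w j) * (C k * cv2 w j k ^ 2)
          = C k * ∑ j, ξ j ^ 2 * psi (fun k => a k t) (dg w j) * cv2 w j k ^ 2 := by
        rw [Finset.mul_sum]
        exact Finset.sum_congr rfl fun j _ => by ring
      rw [Hm_diag hw, hgr k, e2]
      ring
    rw [Finset.sum_congr rfl fun k _ => e1 k, Finset.sum_add_distrib, ← Finset.mul_sum,
      ← Finset.mul_sum, Finset.sum_comm]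
    congr 2
    refine Finset.sum_congr rfl fun j _ => ?_
    rw [Finset.mul_sum]
  rw [hdiag] at htr
  have hQF : ∀ v : Fin n → ℝ, QF E C v = ∑ k, ∑ l, E k l * v k * v l + ∑ k, C k * v k ^ 2 :=
    fun v => rfl
  have hsplit : ∑ j, ξ j ^ 2 * psi (fun k => a k t) (dg w j) * QF E C (cv2 w j)
      = ∑ j, ξ j ^ 2 * psi (fun k => a k t) (dg w j) * (∑ k, ∑ l, E k l * cv2 w j k * cv2 w j l)
        + ∑ j, ξ j ^ 2 * psi (fun k => a k t) (dg w j) * ∑ k, C k * cv2 w j k ^ 2 := by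
    rw [← Finset.sum_add_distrib]
    refine Finset.sum_congr rfl fun j _ => ?_
    rw [hQF]
    ring
  rw [hsplit, hQF]
  linarith

end SKG
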