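import Pool.Agent.Lib.MP_c42713_pr.FlowDefs

/-! # Local variances -/

namespace SKG

variable {n : ℕ}

open Classical in
/-- the weight `w` restricted to the configurations which agree with `x` off `T` -/
noncomputable def pw (w : Conf n → ℝ) (T : Finset (Fin n)) (x : Conf n) : Conf n → ℝ :=
  fun y => if ∀ k, k ∉ T → y k = x k then w y else 0

/-- conditional expectation given the coordinates off `T` -/
noncomputable def cE (w : Conf n → ℝ) (T : Finset (Fin n)) (f : Conf n → ℝ) (x : Conf n) : ℝ :=
  Ex (pw w T x) f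

/-- total local variance when the coordinates in `T` are free (not normalised) -/
noncomputable def FS (w : Conf n → ℝ) (T : Finset (Fin n)) (f : Conf n → ℝ) : ℝ :=
  ∑ x, w x * (f x - cE w T f x) ^ 2

/-- covariance bound for all pinnings of the coordinates off subsets of `T0` -/
def PB (w : Conf n → ℝ) (T0 : Finset (Fin n)) (B : ℝ) : Prop :=
  ∀ T ⊆ T0, ∀ x : Conf n, ∀ ξ : Fin n → ℝ,
    Cv (pw w T x) (lin ξ) (lin ξ) ≤ B * ∑ i, ξ i ^ 2 * dg (pw w T x) i

end SKG
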