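import Pool.Agent.Lib.MP_c42713_pr.MMin

namespace SKG

variable {n : ℕ}

/-- fields truncated to `[-R, R]` -/
noncomputable def clip (R : ℝ) (h : Fin n → ℝ) : Fin n → ℝ := fun i => max (-R) (min (h i) R)

private theorem mclip_sg_sq (b : Bool) : sg b * sg b = 1 := by
  cases b <;> simp [sg]

private theorem mclip_abs_sg (b : Bool) : |sg b| = 1 := by
  cases b <;> simp [sg]

private theorem mclip_lin (h : Fin n → ℝ) (x : Conf n) (i : Fin n) (b : Bool) :
    lin h (Function.update x i b) = h i * sg b + ∑ j ∈ Finset.univ.erase i, h j * sg (x j) := by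
  unfold lin
  rw [← Finset.add_sum_erase Finset.univ _ (Finset.mem_univ i), Function.update_self]
  congr 1
  apply Finset.sum_congr rfl
  intro j hj
  rw [Function.update_of_ne (Finset.ne_of_mem_erase hj)]

private theorem mclip_quad (J : Matrix (Fin n) (Fin n) ℝ) (hs : J.IsSymm) (x : Conf n)
    (i : Fin n) (b : Bool) :
    quad J (Function.update x i b) =
      J i i + 2 * sg b * (∑ j ∈ Finset.univ.erase i, J i j * sg (x j)) +
        ∑ k ∈ Finset.univ.erase i, ∑ l ∈ Finset.univ.erase i, J k l * sg (x k) * sg (x l) := by
  unfold quad
  rw [← Finset.add_sum_erase Finset.univ _ (Finset.mem_univ i), Function.update_self]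
  have h1 : ∑ j, J i j * sg b * sg (Function.update x i b j) =
      J i i + sg b * ∑ j ∈ Finset.univ.erase i, J i j * sg (x j) := by
    rw [← Finset.add_sum_erase Finset.univ _ (Finset.mem_univ i), Function.update_self,
      Finset.mul_sum]
    congr 1
    · rw [mul_assoc, mclip_sg_sq, mul_one]
    · apply Finset.sum_congr rfl
      intro j hj
      rw [Function.update_of_ne (Finset.ne_of_mem_erase hj)]
      ring
  have h2 : ∑ k ∈ Finset.univ.erase i,
      ∑ j, J k j * sg (Function.update x i b k) * sg (Function.update x i b j) =
      sg b * ∑ j ∈ Finset.univ.erase i, J i j * sg (x j) +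
        ∑ k ∈ Finset.univ.erase i, ∑ l ∈ Finset.univ.erase i, J k l * sg (x k) * sg (x l) := by
    rw [Finset.mul_sum, ← Finset.sum_add_distrib]
    apply Finset.sum_congr rfl
    intro k hk
    rw [← Finset.add_sum_erase Finset.univ _ (Finset.mem_univ i), Function.update_self,
      Function.update_of_ne (Finset.ne_of_mem_erase hk)]
    congr 1
    · have h3 : J k i = J i k := hs.apply i k
      rw [h3]
      ring
    · apply Finset.sum_congr rfl
      intro j hj
      rw [Function.update_of_ne (Finset.ne_of_mem_erase hj)]
  rw [h1, h2]
  ring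

/-- the ratio of the weights of a flipped configuration: with the conditional field
`θ_i = ∑_{j≠i} J_ij x_j` one has `w(x^{i,b}) / w(x^{i,-b}) = exp(2 b (θ_i + h_i))` -/
theorem wt_ratio (J : Matrix (Fin n) (Fin n) ℝ) (hs : J.IsSymm) (h : Fin n → ℝ) (x : Conf n)
    (i : Fin n) :
    wt J h (Function.update x i true) =
      Real.exp (2 * ((∑ j ∈ Finset.univ.erase i, J i j * sg (x j)) + h i)) *
        wt J h (Function.update x i false) := by
  have hq1 := mclip_quad J hs x i true
  have hq2 := mclip_quad J hs x i false
  have hl1 := mclip_lin h x i true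
  have hl2 := mclip_lin h x i false
  have s1 : sg true = 1 := rfl
  have s2 : sg false = -1 := rfl
  rw [s1] at hq1 hl1
  rw [s2] at hq2 hl2
  unfold wt
  rw [← Real.exp_add, hq1, hq2, hl1, hl2]
  congr 1
  ring

private theorem mclip_wt_pos (J : Matrix (Fin n) (Fin n) ℝ) (h : Fin n → ℝ) (x : Conf n) :
    0 < wt J h x := Real.exp_pos _

private theorem mclip_frac {E w Z : ℝ} (hw : 0 < w) (hZ : 0 < Z) :
    E * w / Z / (E * w / Z + w / Z) = E / (E + 1) ∧
      w / Z / (E * w / Z + w / Z) = 1 / (E + 1) := by
  constructor
  · have h1 : E * w / Z + w / Z = (E + 1) * (w / Z) := by ring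
    have h2 : E * w / Z = E * (w / Z) := by ring
    rw [h1, h2, mul_div_mul_right _ _ (div_pos hw hZ).ne']
  · have h1 : E * w / Z + w / Z = (E + 1) * (w / Z) := by ring
    have h2 : w / Z = 1 * (w / Z) := by ring
    rw [h1]
    nth_rw 1 [h2]
    rw [mul_div_mul_right _ _ (div_pos hw hZ).ne']

private theorem mclip_gibbs (J : Matrix (Fin n) (Fin n) ℝ) (hs : J.IsSymm) (h : Fin n → ℝ)
    (x : Conf n) (i : Fin n) :
    gibbs J h (Function.update x i true) /
        (gibbs J h (Function.update x i true) + gibbs J h (Function.update x i false)) =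
      Real.exp (2 * ((∑ j ∈ Finset.univ.erase i, J i j * sg (x j)) + h i)) /
        (Real.exp (2 * ((∑ j ∈ Finset.univ.erase i, J i j * sg (x j)) + h i)) + 1) ∧
    gibbs J h (Function.update x i false) /
        (gibbs J h (Function.update x i true) + gibbs J h (Function.update x i false)) =
      1 / (Real.exp (2 * ((∑ j ∈ Finset.univ.erase i, J i j * sg (x j)) + h i)) + 1) := by
  have hZ : 0 < ∑ y : Conf n, wt J h y :=
    Finset.sum_pos (fun y _ => mclip_wt_pos J h y) ⟨x, Finset.mem_univ _⟩
  unfold gibbs
  rw [wt_ratio J hs h x i]
  exact mclip_frac (mclip_wt_pos J h _) hZ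

private theorem mclip_scalar {R : ℝ} (hR : 0 ≤ R) (t : ℝ) {θ : ℝ} (hθ : |θ| ≤ R / 2) :
    |Real.exp (2 * (θ + t)) / (Real.exp (2 * (θ + t)) + 1) -
        Real.exp (2 * (θ + max (-R) (min t R))) /
          (Real.exp (2 * (θ + max (-R) (min t R))) + 1)| ≤ Real.exp (-R) ∧
      |1 / (Real.exp (2 * (θ + t)) + 1) -
        1 / (Real.exp (2 * (θ + max (-R) (min t R))) + 1)| ≤ Real.exp (-R) := by
  obtain ⟨a, ha⟩ : ∃ a, a = Real.exp (2 * (θ + t)) := ⟨_, rfl⟩
  obtain ⟨b, hb⟩ : ∃ b, b = Real.exp (2 * (θ + max (-R) (min t R))) := ⟨_, rfl⟩
  have ha0 : 0 < a := by rw [ha]; exact Real.exp_pos _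
  have hb0 : 0 < b := by rw [hb]; exact Real.exp_pos _
  rw [← ha, ← hb]
  have e1 : a / (a + 1) - b / (b + 1) = -(1 / (a + 1) - 1 / (b + 1)) := by
    field_simp
    ring
  have key : |1 / (a + 1) - 1 / (b + 1)| ≤ Real.exp (-R) := by
    have hθ' := abs_le.1 hθ
    have hE := Real.exp_pos (-R)
    rcases le_or_gt t R with h1 | h1
    · rcases le_or_gt (-R) t with h2 | h2
      · have h3 : max (-R) (min t R) = t := by
          rw [min_eq_left h1, max_eq_right h2]
        rw [h3] at hb
        rw [ha, hb, sub_self, abs_zero]
        exact hE.le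
      · have h3 : max (-R) (min t R) = -R := by
          rw [min_eq_left h1, max_eq_left h2.le]
        rw [h3] at hb
        have ha1 : a ≤ Real.exp (-R) := by
          rw [ha]
          apply Real.exp_le_exp.2
          linarith
        have hb1 : b ≤ Real.exp (-R) := by
          rw [hb]
          apply Real.exp_le_exp.2
          linarith
        have k1 : 1 - a ≤ 1 / (a + 1) := by
          rw [le_div_iff₀ (by linarith)]
          nlinarith
        have k2 : 1 / (a + 1) ≤ 1 := by
          rw [div_le_one (by linarith)]
          linarith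
        have k3 : 1 - b ≤ 1 / (b + 1) := by
          rw [le_div_iff₀ (by linarith)]
          nlinarith
        have k4 : 1 / (b + 1) ≤ 1 := by
          rw [div_le_one (by linarith)]
          linarith
        rw [abs_le]
        constructor <;> linarith
    · have h3 : max (-R) (min t R) = R := by
        rw [min_eq_right h1.le, max_eq_right (by linarith)]
      rw [h3] at hb
      have ha1 : Real.exp R ≤ a := by
        rw [ha]
        apply Real.exp_le_exp.2
        linarith
      have hb1 : Real.exp R ≤ b := by
        rw [hb]
        apply Real.exp_le_exp.2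
        linarith
      have hR0 := Real.exp_pos R
      have k0 : Real.exp (-R) = 1 / Real.exp R := by
        rw [Real.exp_neg, one_div]
      have k1 : 1 / (a + 1) ≤ Real.exp (-R) := by
        rw [k0]
        exact one_div_le_one_div_of_le hR0 (by linarith)
      have k2 : 1 / (b + 1) ≤ Real.exp (-R) := by
        rw [k0]
        exact one_div_le_one_div_of_le hR0 (by linarith)
      have k3 : 0 < 1 / (a + 1) := by positivity
      have k4 : 0 < 1 / (b + 1) := by positivity
      rw [abs_le]
      constructor <;> linarith
  refine ⟨?_, key⟩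
  rw [e1, abs_neg]
  exact key

/-- clipping the fields at `n` changes the transition matrix by very little -/
theorem kernel_clip (hn : 0 < n) (J : Matrix (Fin n) (Fin n) ℝ) (hs : J.IsSymm) (h : Fin n → ℝ)
    (hJ : ∀ i, ∑ j, |J i j| ≤ (n : ℝ) / 2) (x : Conf n) :
    ∑ y, |glauber (gibbs J h) x y - glauber (gibbs J (clip n h)) x y| ≤ 2 * Real.exp (-n) := by
  have hn0 : (0 : ℝ) < n := by exact_mod_cast hn
  have hsite : ∀ i : Fin n, ∑ y : Conf n,
      |(if (∀ j, j ≠ i → y j = x j) then gibbs J h y /
          (gibbs J h (Function.update x i true) + gibbs J h (Function.update x i false)) else 0) -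
        (if (∀ j, j ≠ i → y j = x j) then gibbs J (clip n h) y /
          (gibbs J (clip n h) (Function.update x i true) +
            gibbs J (clip n h) (Function.update x i false)) else 0)| ≤ 2 * Real.exp (-n) := by
    intro i
    have hθ : |∑ j ∈ Finset.univ.erase i, J i j * sg (x j)| ≤ (n : ℝ) / 2 := by
      refine (Finset.abs_sum_le_sum_abs _ _).trans ?_
      refine le_trans ?_ (hJ i)
      have h1 : ∀ j ∈ Finset.univ.erase i, |J i j * sg (x j)| = |J i j| := by
        intro j _
        rw [abs_mul, mclip_abs_sg, mul_one]
      rw [Finset.sum_congr rfl h1]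
      exact Finset.sum_le_sum_of_subset_of_nonneg (Finset.subset_univ _)
        (fun j _ _ => abs_nonneg _)
    have hne : Function.update x i true ≠ Function.update x i false := by
      intro h1
      have h2 := congrFun h1 i
      rw [Function.update_self, Function.update_self] at h2
      exact Bool.noConfusion h2
    have hsub : ∑ y ∈ ({Function.update x i true, Function.update x i false} : Finset (Conf n)),
        |(if (∀ j, j ≠ i → y j = x j) then gibbs J h y /
          (gibbs J h (Function.update x i true) + gibbs J h (Function.update x i false)) else 0) -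
        (if (∀ j, j ≠ i → y j = x j) then gibbs J (clip n h) y /
          (gibbs J (clip n h) (Function.update x i true) +
            gibbs J (clip n h) (Function.update x i false)) else 0)| = ∑ y : Conf n,
        |(if (∀ j, j ≠ i → y j = x j) then gibbs J h y /
          (gibbs J h (Function.update x i true) + gibbs J h (Function.update x i false)) else 0) -
        (if (∀ j, j ≠ i → y j = x j) then gibbs J (clip n h) y /
          (gibbs J (clip n h) (Function.update x i true) +
            gibbs J (clip n h) (Function.update x i false)) else 0)| := by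
      apply Finset.sum_subset (Finset.subset_univ _)
      intro y _ hy
      have h1 : ¬ (∀ j, j ≠ i → y j = x j) := by
        intro h2
        apply hy
        rw [Finset.mem_insert, Finset.mem_singleton]
        have h3 : y = Function.update x i (y i) := by
          funext j
          rcases eq_or_ne j i with hj | hj
          · rw [hj, Function.update_self]
          · rw [Function.update_of_ne hj]
            exact h2 j hj
        cases hyi : y i
        · right
          rw [hyi] at h3
          exact h3
        · left
          rw [hyi] at h3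
          exact h3
      rw [if_neg h1, if_neg h1, sub_zero, abs_zero]
    rw [← hsub, Finset.sum_pair hne]
    have hT : ∀ b : Bool, ∀ j, j ≠ i → Function.update x i b j = x j :=
      fun b j hj => Function.update_of_ne hj _ _
    rw [if_pos (hT true), if_pos (hT true), if_pos (hT false), if_pos (hT false)]
    obtain ⟨g1, g2⟩ := mclip_gibbs J hs h x i
    obtain ⟨g3, g4⟩ := mclip_gibbs J hs (clip n h) x i
    rw [g1, g2, g3, g4]
    have hsc := mclip_scalar hn0.le (h i) hθ
    have hc : clip n h i = max (-(n : ℝ)) (min (h i) n) := rfl
    rw [hc]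
    obtain ⟨k1, k2⟩ := hsc
    linarith
  unfold glauber
  calc ∑ y : Conf n, |(∑ i, if (∀ j, j ≠ i → y j = x j) then gibbs J h y /
          (gibbs J h (Function.update x i true) + gibbs J h (Function.update x i false)) else 0) / n -
        (∑ i, if (∀ j, j ≠ i → y j = x j) then gibbs J (clip n h) y /
          (gibbs J (clip n h) (Function.update x i true) +
            gibbs J (clip n h) (Function.update x i false)) else 0) / n|
      ≤ ∑ y : Conf n, (∑ i, |(if (∀ j, j ≠ i → y j = x j) then gibbs J h y /
          (gibbs J h (Function.update x i true) + gibbs J h (Function.update x i false)) else 0) -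
        (if (∀ j, j ≠ i → y j = x j) then gibbs J (clip n h) y /
          (gibbs J (clip n h) (Function.update x i true) +
            gibbs J (clip n h) (Function.update x i false)) else 0)|) / n := by
        apply Finset.sum_le_sum
        intro y _
        rw [← sub_div, ← Finset.sum_sub_distrib, abs_div, abs_of_pos hn0]
        exact div_le_div_of_nonneg_right (Finset.abs_sum_le_sum_abs _ _) hn0.le
    _ = (∑ i, ∑ y : Conf n, |(if (∀ j, j ≠ i → y j = x j) then gibbs J h y /
          (gibbs J h (Function.update x i true) + gibbs J h (Function.update x i false)) else 0) -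
        (if (∀ j, j ≠ i → y j = x j) then gibbs J (clip n h) y /
          (gibbs J (clip n h) (Function.update x i true) +
            gibbs J (clip n h) (Function.update x i false)) else 0)|) / n := by
        rw [← Finset.sum_div, Finset.sum_comm]
    _ ≤ (∑ i : Fin n, 2 * Real.exp (-n)) / n :=
        div_le_div_of_nonneg_right (Finset.sum_le_sum fun i _ => hsite i) hn0.le
    _ = 2 * Real.exp (-n) := by
        rw [Finset.sum_const, Finset.card_univ, Fintype.card_fin, nsmul_eq_mul]
        field_simp

end SKG
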