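import Pool.Agent.Lib.MP_c42713_pr.MGl

namespace SKG

variable {n : ℕ}

theorem MGap_cE_mean {μ : Conf n → ℝ} (hμ : ∀ x, 0 < μ x) (f : Conf n → ℝ) (i : Fin n) :
    ∑ x, μ x * cE μ {i} f x = ∑ x, μ x * f x := by
  have h := sum_cE_mul hμ {i} f (fun _ => 1) (fun _ _ _ => rfl)
  simpa using h

theorem MGap_cE_sq {μ : Conf n → ℝ} (hμ : ∀ x, 0 < μ x) (f : Conf n → ℝ) (i : Fin n) :
    ∑ x, μ x * cE μ {i} f x ^ 2 = ∑ x, μ x * f x ^ 2 - FS μ {i} f := by
  have h := sum_cE_mul hμ {i} f (cE μ {i} f) (fun x y hxy => cE_congr μ {i} f hxy)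
  have h2 : FS μ {i} f = ∑ x, μ x * f x ^ 2 - 2 * ∑ x, μ x * (f x * cE μ {i} f x) +
      ∑ x, μ x * cE μ {i} f x ^ 2 := by
    unfold FS
    rw [Finset.mul_sum, ← Finset.sum_sub_distrib, ← Finset.sum_add_distrib]
    apply Finset.sum_congr rfl
    intro x _
    ring
  have h3 : ∑ x, μ x * (cE μ {i} f x * cE μ {i} f x) = ∑ x, μ x * cE μ {i} f x ^ 2 := by
    apply Finset.sum_congr rfl
    intro x _
    ring
  rw [h3] at h
  rw [h2, ← h]
  ring

theorem MGap_FS_univ {μ : Conf n → ℝ} (hs : ∑ x, μ x = 1) (f : Conf n → ℝ)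
    (hf : ∑ x, μ x * f x = 0) : FS μ Finset.univ f = ∑ x, μ x * f x ^ 2 := by
  unfold FS
  apply Finset.sum_congr rfl
  intro x _
  have h1 : cE μ Finset.univ f x = 0 := by
    unfold cE Ex
    have h2 : pw μ Finset.univ x = μ := by
      funext y
      unfold pw
      rw [if_pos]
      intro k hk
      exact absurd (Finset.mem_univ k) hk
    rw [h2, hf, zero_div]
  rw [h1, sub_zero]

/-- one step contracts mean zero functions -/
theorem gap_step (hn : 0 < n) {μ : Conf n → ℝ} (hμ : ∀ x, 0 < μ x) (hs : ∑ x, μ x = 1) (M : ℝ)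
    (hM1 : 1 ≤ M) (hM : ∀ f : Conf n → ℝ, FS μ Finset.univ f ≤ M * ∑ i, FS μ {i} f)
    (f : Conf n → ℝ) (hf : ∑ x, μ x * f x = 0) :
    ∑ x, μ x * (glauber μ).mulVec f x = 0 ∧
    ∑ x, μ x * ((glauber μ).mulVec f x) ^ 2 ≤ (1 - 1 / (n * M)) * ∑ x, μ x * f x ^ 2 := by
  have hnR : (0 : ℝ) < n := by exact_mod_cast hn
  have hM0 : 0 < M := by linarith
  constructor
  · have h1 : ∀ x, μ x * (glauber μ).mulVec f x = (∑ i, μ x * cE μ {i} f x) / n := by
      intro x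
      rw [glauber_mulVec hμ, ← Finset.mul_sum]
      ring
    rw [Finset.sum_congr rfl (fun x _ => h1 x), ← Finset.sum_div, Finset.sum_comm]
    have h2 : ∀ i ∈ (Finset.univ : Finset (Fin n)), ∑ x, μ x * cE μ {i} f x = 0 := by
      intro i _
      rw [MGap_cE_mean hμ, hf]
    rw [Finset.sum_eq_zero h2, zero_div]
  · have h1 : ∀ x ∈ (Finset.univ : Finset (Conf n)), μ x * ((glauber μ).mulVec f x) ^ 2 ≤
        (∑ i, μ x * cE μ {i} f x ^ 2) / n := by
      intro x _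
      rw [glauber_mulVec hμ]
      have h2 := sq_sum_le_card_mul_sum_sq (s := (Finset.univ : Finset (Fin n)))
        (f := fun i => cE μ {i} f x)
      rw [Finset.card_univ, Fintype.card_fin] at h2
      have h3 : ((∑ i, cE μ {i} f x) / n) ^ 2 ≤ (∑ i, cE μ {i} f x ^ 2) / n := by
        rw [div_pow, div_le_div_iff₀ (by positivity) hnR]
        nlinarith
      calc μ x * ((∑ i, cE μ {i} f x) / n) ^ 2 ≤ μ x * ((∑ i, cE μ {i} f x ^ 2) / n) :=
            mul_le_mul_of_nonneg_left h3 (hμ x).le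
        _ = (∑ i, μ x * cE μ {i} f x ^ 2) / n := by
            rw [← Finset.mul_sum]
            ring
    refine (Finset.sum_le_sum h1).trans ?_
    rw [← Finset.sum_div, Finset.sum_comm, Finset.sum_congr rfl (fun i _ => MGap_cE_sq hμ f i),
      Finset.sum_sub_distrib, Finset.sum_const, Finset.card_univ, Fintype.card_fin, nsmul_eq_mul]
    have h4 := hM f
    rw [MGap_FS_univ hs f hf] at h4
    have h5 : (∑ x, μ x * f x ^ 2) / M ≤ ∑ i, FS μ {i} f := by
      rw [div_le_iff₀ hM0]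
      linarith
    have h6 : (1 - 1 / (n * M)) * ∑ x, μ x * f x ^ 2 =
        (n * (∑ x, μ x * f x ^ 2) - (∑ x, μ x * f x ^ 2) / M) / n := by
      field_simp
    rw [h6]
    apply div_le_div_of_nonneg_right _ hnR.le
    linarith

theorem MGap_pow_succ (μ : Conf n → ℝ) (f : Conf n → ℝ) (t : ℕ) :
    (glauber μ ^ (t + 1)).mulVec f = (glauber μ).mulVec ((glauber μ ^ t).mulVec f) := by
  rw [pow_succ', Matrix.mulVec_mulVec]

theorem MGap_factor (hn : 0 < n) {M : ℝ} (hM1 : 1 ≤ M) : 0 ≤ 1 - 1 / ((n : ℝ) * M) := by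
  have hnR : (1 : ℝ) ≤ n := by exact_mod_cast hn
  have h1 : 1 ≤ (n : ℝ) * M := by nlinarith
  have h2 : 1 / ((n : ℝ) * M) ≤ 1 := by
    rw [div_le_one (by linarith)]
    exact h1
  linarith

theorem MGap_iter (hn : 0 < n) {μ : Conf n → ℝ} (hμ : ∀ x, 0 < μ x) (hs : ∑ x, μ x = 1) (M : ℝ)
    (hM1 : 1 ≤ M) (hM : ∀ f : Conf n → ℝ, FS μ Finset.univ f ≤ M * ∑ i, FS μ {i} f)
    (f : Conf n → ℝ) (hf : ∑ x, μ x * f x = 0) (t : ℕ) :
    ∑ x, μ x * (glauber μ ^ t).mulVec f x = 0 ∧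
    ∑ x, μ x * ((glauber μ ^ t).mulVec f x) ^ 2 ≤ (1 - 1 / (n * M)) ^ t * ∑ x, μ x * f x ^ 2 := by
  induction t with
  | zero =>
    rw [pow_zero, Matrix.one_mulVec, pow_zero, one_mul]
    exact ⟨hf, le_rfl⟩
  | succ t ih =>
    rw [MGap_pow_succ]
    have h1 := gap_step hn hμ hs M hM1 hM _ ih.1
    refine ⟨h1.1, h1.2.trans ?_⟩
    rw [pow_succ']
    have h2 := mul_le_mul_of_nonneg_left ih.2 (MGap_factor hn hM1)
    linarith

/-- iteration -/
theorem gap_iter (hn : 0 < n) {μ : Conf n → ℝ} (hμ : ∀ x, 0 < μ x) (hs : ∑ x, μ x = 1) (M : ℝ)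
    (hM1 : 1 ≤ M) (hM : ∀ f : Conf n → ℝ, FS μ Finset.univ f ≤ M * ∑ i, FS μ {i} f)
    (f : Conf n → ℝ) (hf : ∑ x, μ x * f x = 0) (t : ℕ) :
    ∑ x, μ x * ((glauber μ ^ t).mulVec f x) ^ 2 ≤ (1 - 1 / (n * M)) ^ t * ∑ x, μ x * f x ^ 2 :=
  (MGap_iter hn hμ hs M hM1 hM f hf t).2

theorem MGap_row (hn : 0 < n) {μ : Conf n → ℝ} (hμ : ∀ x, 0 < μ x) (t : ℕ) (x : Conf n) :
    ∑ y, (glauber μ ^ t) x y = 1 := by
  induction t generalizing x with
  | zero =>
    rw [pow_zero]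
    simp [Matrix.one_apply]
  | succ t ih =>
    rw [pow_succ']
    simp only [Matrix.mul_apply]
    rw [Finset.sum_comm]
    have h1 : ∀ z ∈ (Finset.univ : Finset (Conf n)), ∑ y, glauber μ x z * (glauber μ ^ t) z y =
        glauber μ x z := by
      intro z _
      rw [← Finset.mul_sum, ih z, mul_one]
    rw [Finset.sum_congr rfl h1]
    exact glauber_row hn hμ x

theorem MGap_var (μ h : Conf n → ℝ) (a : ℝ) : ∑ y, μ y * (|h y| - a) ^ 2 =
    ∑ y, μ y * h y ^ 2 - 2 * a * ∑ y, μ y * |h y| + a ^ 2 * ∑ y, μ y := by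
  rw [Finset.mul_sum, Finset.mul_sum, ← Finset.sum_sub_distrib, ← Finset.sum_add_distrib]
  apply Finset.sum_congr rfl
  intro y _
  rw [← sq_abs (h y)]
  ring

/-- total variation bound -/
theorem tv_gap (hn : 0 < n) {μ : Conf n → ℝ} (hμ : ∀ x, 0 < μ x) (hs : ∑ x, μ x = 1) (M : ℝ)
    (hM1 : 1 ≤ M) (hM : ∀ f : Conf n → ℝ, FS μ Finset.univ f ≤ M * ∑ i, FS μ {i} f)
    (t : ℕ) (x : Conf n) :
    tv ((glauber μ ^ t) x) μ ≤ Real.sqrt ((1 - 1 / (n * M)) ^ t / μ x) / 2 := by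
  classical
  set f : Conf n → ℝ := fun y => (if y = x then 1 / μ x else 0) - 1 with hfdef
  have hμx := hμ x
  have hf : ∑ y, μ y * f y = 0 := by
    simp only [hfdef, mul_sub, mul_one, Finset.sum_sub_distrib, mul_ite, mul_zero,
      Finset.sum_ite_eq', Finset.mem_univ, if_true, hs]
    field_simp
    ring
  have hf2 : ∑ y, μ y * f y ^ 2 ≤ 1 / μ x := by
    have h1 : ∀ y ∈ (Finset.univ : Finset (Conf n)), μ y * f y ^ 2 =
        (if y = x then (1 / μ x - 2) else 0) + μ y := by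
      intro y _
      simp only [hfdef]
      by_cases hy : y = x
      · subst hy
        simp only [if_true]
        field_simp
        ring
      · rw [if_neg hy, if_neg hy]
        ring
    rw [Finset.sum_congr rfl h1, Finset.sum_add_distrib, Finset.sum_ite_eq', hs]
    simp only [Finset.mem_univ, if_true]
    linarith
  have hPf : ∀ y, μ y * (glauber μ ^ t).mulVec f y = (glauber μ ^ t) x y - μ y := by
    intro y
    have h1 : (glauber μ ^ t).mulVec f y = (glauber μ ^ t) y x / μ x - 1 := by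
      unfold Matrix.mulVec dotProduct
      simp only [hfdef, mul_sub, mul_one, Finset.sum_sub_distrib, mul_ite, mul_zero,
        Finset.sum_ite_eq', Finset.mem_univ, if_true]
      rw [MGap_row hn hμ t y]
      ring
    rw [h1, mul_sub, mul_one]
    have h2 := glauber_pow_rev hμ t x y
    congr 1
    field_simp
    linarith
  have hit := gap_iter hn hμ hs M hM1 hM f hf t
  set h : Conf n → ℝ := (glauber μ ^ t).mulVec f with hh
  set A : ℝ := ∑ y, μ y * |h y| with hA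
  have hA0 : 0 ≤ A := Finset.sum_nonneg fun y _ => mul_nonneg (hμ y).le (abs_nonneg _)
  have htv : tv ((glauber μ ^ t) x) μ = A / 2 := by
    unfold tv
    rw [hA]
    congr 1
    apply Finset.sum_congr rfl
    intro y _
    rw [← hPf y, abs_mul, abs_of_pos (hμ y)]
  have hA2 : A ^ 2 ≤ ∑ y, μ y * h y ^ 2 := by
    have h1 : 0 ≤ ∑ y, μ y * (|h y| - A) ^ 2 :=
      Finset.sum_nonneg fun y _ => mul_nonneg (hμ y).le (sq_nonneg _)
    rw [MGap_var μ h A, ← hA, hs] at h1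
    nlinarith
  rw [htv]
  apply div_le_div_of_nonneg_right _ (by norm_num)
  apply Real.le_sqrt_of_sq_le
  refine hA2.trans (hit.trans ?_)
  have h3 : 0 ≤ (1 - 1 / ((n : ℝ) * M)) ^ t := pow_nonneg (MGap_factor hn hM1) t
  have h4 := mul_le_mul_of_nonneg_left hf2 h3
  have h5 : (1 - 1 / ((n : ℝ) * M)) ^ t * (1 / μ x) = (1 - 1 / ((n : ℝ) * M)) ^ t / μ x := by ring
  linarith

end SKG
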