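import Mathlib

namespace SKG

/-- the elementary asymptotics -/
theorem mix_num (K : ℕ) : ∃ n0 : ℕ, ∀ n : ℕ, n0 ≤ n → ∀ m : ℝ, Real.exp (-(4 * (n : ℝ) ^ 2)) ≤ m →
    Real.sqrt ((1 - 1 / (n * (Real.exp ((K : ℝ) ^ 2) * (n : ℝ) ^ K))) ^ (n ^ (K + 4)) / m) / 2 ≤ 1 / 16 ∧
    ((n ^ (K + 4) : ℕ) : ℝ) * Real.exp (-n) ≤ 1 / 16 := by
  have h1 : ∀ᶠ x : ℝ in Filter.atTop, x ^ (K + 4) * Real.exp (-x) < 1 / 16 :=
    (Real.tendsto_pow_mul_exp_neg_atTop_nhds_zero (K + 4)).eventually_lt_const (by norm_num)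
  obtain ⟨n1, hn1⟩ := Filter.eventually_atTop.mp ((tendsto_natCast_atTop_atTop (R := ℝ)).eventually h1)
  obtain ⟨n2, hn2⟩ := exists_nat_gt (5 * Real.exp ((K : ℝ) ^ 2))
  refine ⟨max (max n1 n2) 8, fun n hn m hm => ⟨?_, ?_⟩⟩
  · have hn8 : 8 ≤ n := le_trans (le_max_right _ _) hn
    have hnn2 : n2 ≤ n := le_trans (le_trans (le_max_right _ _) (le_max_left _ _)) hn
    have hN : (8 : ℝ) ≤ n := by exact_mod_cast hn8
    have hN2 : (n2 : ℝ) ≤ n := by exact_mod_cast hnn2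
    obtain ⟨c, hc⟩ : ∃ c : ℝ, c = Real.exp ((K : ℝ) ^ 2) := ⟨_, rfl⟩
    rw [← hc] at hn2 ⊢
    have hc1 : 1 ≤ c := by
      rw [hc]
      exact Real.one_le_exp (by positivity)
    have hcn : 5 * c ≤ n := by linarith
    obtain ⟨N, hNdef⟩ : ∃ N : ℝ, N = (n : ℝ) := ⟨_, rfl⟩
    rw [← hNdef] at hN hcn hm ⊢
    have hN0 : 0 < N := by linarith
    have hNK : 1 ≤ N ^ K := one_le_pow₀ (by linarith)
    have hM1 : 1 ≤ N * (c * N ^ K) := by
      have h2 : 1 ≤ c * N ^ K := one_le_mul_of_one_le_of_one_le hc1 hNK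
      exact one_le_mul_of_one_le_of_one_le (by linarith) h2
    have hM0 : 0 < N * (c * N ^ K) := by linarith
    have hb0 : 0 ≤ 1 - 1 / (N * (c * N ^ K)) := by
      have : 1 / (N * (c * N ^ K)) ≤ 1 := by
        rw [div_le_one hM0]
        exact hM1
      linarith
    have hb1 : 1 - 1 / (N * (c * N ^ K)) ≤ Real.exp (-(1 / (N * (c * N ^ K)))) := Real.one_sub_le_exp_neg _
    have hpow : (1 - 1 / (N * (c * N ^ K))) ^ (n ^ (K + 4)) ≤ Real.exp (-(5 * N ^ 2)) := by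
      refine le_trans (pow_le_pow_left₀ hb0 hb1 _) ?_
      rw [← Real.exp_nat_mul]
      apply Real.exp_le_exp.mpr
      have hcast : ((n ^ (K + 4) : ℕ) : ℝ) = N ^ (K + 4) := by
        rw [hNdef]
        push_cast
        rfl
      rw [hcast, mul_neg, neg_le_neg_iff, mul_one_div, le_div_iff₀ hM0]
      have h3 : N ^ (K + 4) = N ^ K * N ^ 4 := pow_add _ _ _
      rw [h3]
      have h4 : 5 * N ^ 2 * (N * (c * N ^ K)) = N ^ K * (N ^ 3 * (5 * c)) := by ring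
      rw [h4]
      refine mul_le_mul_of_nonneg_left ?_ (by positivity)
      calc N ^ 3 * (5 * c) ≤ N ^ 3 * N := mul_le_mul_of_nonneg_left hcn (by positivity)
        _ = N ^ 4 := by ring
    have hm0 : 0 < m := lt_of_lt_of_le (Real.exp_pos _) hm
    have hx : (1 - 1 / (N * (c * N ^ K))) ^ (n ^ (K + 4)) / m ≤ (1 / 8) ^ 2 := by
      rw [div_le_iff₀ hm0]
      refine le_trans hpow ?_
      have h5 : Real.exp (-(5 * N ^ 2)) = Real.exp (-(N ^ 2)) * Real.exp (-(4 * N ^ 2)) := by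
        rw [← Real.exp_add]
        congr 1
        ring
      rw [h5]
      have h6 : Real.exp (-(N ^ 2)) ≤ (1 / 8) ^ 2 := by
        rw [Real.exp_neg]
        have h7 : 64 ≤ Real.exp (N ^ 2) := by
          have h8 : N ^ 2 + 1 ≤ Real.exp (N ^ 2) := Real.add_one_le_exp _
          nlinarith
        calc (Real.exp (N ^ 2))⁻¹ ≤ (64 : ℝ)⁻¹ := inv_anti₀ (by norm_num) h7
          _ = (1 / 8) ^ 2 := by norm_num
      exact mul_le_mul h6 hm (Real.exp_pos _).le (by norm_num)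
    have hs : Real.sqrt ((1 - 1 / (N * (c * N ^ K))) ^ (n ^ (K + 4)) / m) ≤ 1 / 8 :=
      Real.sqrt_le_iff.mpr ⟨by norm_num, hx⟩
    linarith
  · have hnn1 : n1 ≤ n := le_trans (le_trans (le_max_left _ _) (le_max_left _ _)) hn
    have h2 := hn1 n hnn1
    push_cast
    exact h2.le

end SKG
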