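import Pool.Agent.Lib.MP_c42713_pr.Defs

namespace SKG

variable {α : Type*} [Fintype α] [DecidableEq α]

private theorem MStat_tv_triangle (a b c : α → ℝ) : tv a c ≤ tv a b + tv b c := by
  unfold tv
  rw [← add_div, ← Finset.sum_add_distrib]
  gcongr with x _
  exact abs_sub_le _ _ _

private theorem MStat_tv_comm (a b : α → ℝ) : tv a b = tv b a := by
  unfold tv
  congr 1
  exact Finset.sum_congr rfl fun x _ => abs_sub_comm _ _

private theorem MStat_pow_nonneg (Q : Matrix α α ℝ) (hQ0 : ∀ x y, 0 ≤ Q x y) (t : ℕ) :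
    ∀ x y, 0 ≤ (Q ^ t) x y := by
  induction t with
  | zero =>
    intro x y
    rw [pow_zero, Matrix.one_apply]
    split_ifs <;> norm_num
  | succ t ih =>
    intro x y
    rw [pow_succ, Matrix.mul_apply]
    exact Finset.sum_nonneg fun z _ => mul_nonneg (ih x z) (hQ0 z y)

private theorem MStat_pow_sum (Q : Matrix α α ℝ) (hQ1 : ∀ x, ∑ y, Q x y = 1) (t : ℕ) :
    ∀ x, ∑ y, (Q ^ t) x y = 1 := by
  induction t with
  | zero =>
    intro x
    simp [Matrix.one_apply]
  | succ t ih =>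
    intro x
    have : ∀ y, (Q ^ (t + 1)) x y = ∑ z, (Q ^ t) x z * Q z y := fun y => by
      rw [pow_succ, Matrix.mul_apply]
    simp_rw [this]
    rw [Finset.sum_comm]
    simp_rw [← Finset.mul_sum, hQ1, mul_one]
    exact ih x

private theorem MStat_close (P Q : Matrix α α ℝ) (hP0 : ∀ x y, 0 ≤ P x y)
    (hP1 : ∀ x, ∑ y, P x y = 1) (hQ0 : ∀ x y, 0 ≤ Q x y) (hQ1 : ∀ x, ∑ y, Q x y = 1)
    (δ : ℝ) (hPQ : ∀ x, ∑ y, |P x y - Q x y| ≤ 2 * δ) (t : ℕ) :
    ∀ x, ∑ z, |(P ^ t) x z - (Q ^ t) x z| ≤ 2 * (t * δ) := by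
  induction t with
  | zero => intro x; simp
  | succ t ih =>
    intro x
    have key : ∀ z, |(P ^ (t + 1)) x z - (Q ^ (t + 1)) x z| ≤
        ∑ y, P x y * |(P ^ t) y z - (Q ^ t) y z| + ∑ y, |P x y - Q x y| * (Q ^ t) y z := by
      intro z
      have e : (P ^ (t + 1)) x z - (Q ^ (t + 1)) x z =
          ∑ y, (P x y * ((P ^ t) y z - (Q ^ t) y z) + (P x y - Q x y) * (Q ^ t) y z) := by
        rw [pow_succ', pow_succ', Matrix.mul_apply, Matrix.mul_apply, ← Finset.sum_sub_distrib]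
        exact Finset.sum_congr rfl fun y _ => by ring
      rw [e]
      refine (Finset.abs_sum_le_sum_abs _ _).trans ?_
      rw [← Finset.sum_add_distrib]
      refine Finset.sum_le_sum fun y _ => ?_
      refine (abs_add_le _ _).trans ?_
      rw [abs_mul, abs_mul, abs_of_nonneg (hP0 x y),
        abs_of_nonneg (MStat_pow_nonneg Q hQ0 t y z)]
    calc ∑ z, |(P ^ (t + 1)) x z - (Q ^ (t + 1)) x z|
        ≤ ∑ z, (∑ y, P x y * |(P ^ t) y z - (Q ^ t) y z| +
            ∑ y, |P x y - Q x y| * (Q ^ t) y z) := Finset.sum_le_sum fun z _ => key z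
      _ = ∑ y, P x y * ∑ z, |(P ^ t) y z - (Q ^ t) y z| +
            ∑ y, |P x y - Q x y| * ∑ z, (Q ^ t) y z := by
          rw [Finset.sum_add_distrib, Finset.sum_comm]
          congr 1
          · exact Finset.sum_congr rfl fun y _ => by rw [Finset.mul_sum]
          · rw [Finset.sum_comm]
            exact Finset.sum_congr rfl fun y _ => by rw [Finset.mul_sum]
      _ ≤ ∑ y, P x y * (2 * (t * δ)) + ∑ y, |P x y - Q x y| * 1 := by
          gcongr with y _ y _
          · exact hP0 x y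
          · exact ih y
          · exact (MStat_pow_sum Q hQ1 t y).le
      _ = 2 * (t * δ) + ∑ y, |P x y - Q x y| := by
          rw [← Finset.sum_mul, hP1, one_mul]
          simp
      _ ≤ 2 * (t * δ) + 2 * δ := by linarith [hPQ x]
      _ = 2 * (((t + 1 : ℕ) : ℝ) * δ) := by push_cast; ring

/-- comparison of two Markov chains with close transition matrices -/
theorem stat_compare (P Q : Matrix α α ℝ) (hP0 : ∀ x y, 0 ≤ P x y) (hP1 : ∀ x, ∑ y, P x y = 1)
    (hQ0 : ∀ x y, 0 ≤ Q x y) (hQ1 : ∀ x, ∑ y, Q x y = 1) (p q : α → ℝ)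
    (hp0 : ∀ x, 0 ≤ p x) (hp1 : ∑ x, p x = 1) (hp : ∀ y, ∑ x, p x * P x y = p y)
    (δ η : ℝ) (hPQ : ∀ x, ∑ y, |P x y - Q x y| ≤ 2 * δ) (t : ℕ)
    (hη : ∀ x, tv ((Q ^ t) x) q ≤ η) (x : α) :
    tv ((P ^ t) x) p ≤ 2 * t * δ + 2 * η := by
  have hcl : ∀ x, tv ((P ^ t) x) ((Q ^ t) x) ≤ t * δ := by
    intro x
    unfold tv
    have := MStat_close P Q hP0 hP1 hQ0 hQ1 δ hPQ t x
    linarith
  have hpt : ∀ s : ℕ, ∀ y, ∑ x, p x * (P ^ s) x y = p y := by
    intro s
    induction s with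
    | zero => intro y; simp [Matrix.one_apply]
    | succ s ih =>
      intro y
      have : ∀ x, p x * (P ^ (s + 1)) x y = ∑ z, (p x * (P ^ s) x z) * P z y := fun x => by
        rw [pow_succ, Matrix.mul_apply, Finset.mul_sum]
        exact Finset.sum_congr rfl fun z _ => by ring
      simp_rw [this]
      rw [Finset.sum_comm]
      simp_rw [← Finset.sum_mul, ih]
      exact hp y
  have hPq : ∀ y, tv ((P ^ t) y) q ≤ t * δ + η := fun y =>
    (MStat_tv_triangle _ ((Q ^ t) y) _).trans (add_le_add (hcl y) (hη y))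
  have hpq : tv p q ≤ t * δ + η := by
    have h1 : tv p q ≤ ∑ y, p y * tv ((P ^ t) y) q := by
      unfold tv
      have e1 : ∀ z, |p z - q z| ≤ ∑ y, p y * |(P ^ t) y z - q z| := by
        intro z
        have : p z - q z = ∑ y, p y * ((P ^ t) y z - q z) := by
          simp_rw [mul_sub, Finset.sum_sub_distrib, hpt t z, ← Finset.sum_mul, hp1, one_mul]
        rw [this]
        refine (Finset.abs_sum_le_sum_abs _ _).trans (Finset.sum_le_sum fun y _ => ?_)
        rw [abs_mul, abs_of_nonneg (hp0 y)]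
      calc (∑ z, |p z - q z|) / 2 ≤ (∑ z, ∑ y, p y * |(P ^ t) y z - q z|) / 2 := by
            gcongr with z _
            exact e1 z
        _ = ∑ y, p y * ((∑ z, |(P ^ t) y z - q z|) / 2) := by
            rw [Finset.sum_comm, Finset.sum_div]
            exact Finset.sum_congr rfl fun y _ => by rw [← Finset.mul_sum, mul_div_assoc]
    calc tv p q ≤ ∑ y, p y * tv ((P ^ t) y) q := h1
      _ ≤ ∑ y, p y * (t * δ + η) := by
          gcongr with y _
          · exact hp0 y
          · exact hPq y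
      _ = t * δ + η := by rw [← Finset.sum_mul, hp1, one_mul]
  have h2 := MStat_tv_triangle ((P ^ t) x) q p
  rw [MStat_tv_comm q p] at h2
  have h3 := hPq x
  linarith

end SKG
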