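import Pool.Agent.Lib.MP_c42713_pr.JCov
import Pool.Agent.Lib.MP_c42713_pr.JPoin
import Pool.Agent.Lib.MP_c42713_pr.MGap
import Pool.Agent.Lib.MP_c42713_pr.MClip
import Pool.Agent.Lib.MP_c42713_pr.MStat
import Pool.Agent.Lib.MP_c42713_pr.MNum

namespace SKG

variable {n : ℕ}

private theorem pw_scale {w : Conf n → ℝ} (c : ℝ) (T : Finset (Fin n)) (x : Conf n) :
    pw (fun x => c * w x) T x = fun y => c * pw w T x y := by
  funext y; unfold pw; split_ifs <;> simp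

theorem FS_scale {w : Conf n → ℝ} (c : ℝ) (hc : 0 < c) (T : Finset (Fin n)) (f : Conf n → ℝ) :
    FS (fun x => c * w x) T f = c * FS w T f := by
  unfold FS
  rw [Finset.mul_sum]
  refine Finset.sum_congr rfl fun x _ => ?_
  have : cE (fun x => c * w x) T f x = cE w T f x := by
    unfold cE; rw [pw_scale, Ex_scale hc.ne']
  rw [this]; ring

/-- entrywise bounds for a good matrix -/
theorem good_entries (W : Matrix (Fin n) (Fin n) ℝ) (ε : ℝ) (h1 : ε ≤ 1 / 10000)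
    (hW : Good W ε) (β : ℝ) (hβ : 0 < β) (hβ1 : β ≤ 2 / 5) :
    (∀ i j, |(β • W) i j| ≤ 1) ∧ ∀ i, ∑ j, |(β • W) i j| ≤ (n : ℝ) / 2 := by
  have hrow : ∀ i, ∑ k, W i k ^ 2 ≤ 10001 / 10000 := by
    intro i
    have := (abs_le.1 (hW.sq i)).2
    linarith
  have hrowβ : ∀ i, ∑ k, ((β • W) i k) ^ 2 ≤ 1 / 5 := by
    intro i
    have e : ∑ k, ((β • W) i k) ^ 2 = β ^ 2 * ∑ k, W i k ^ 2 := by
      rw [Finset.mul_sum]; refine Finset.sum_congr rfl fun k _ => ?_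
      simp [Matrix.smul_apply, mul_pow]
    rw [e]
    have h2 : β ^ 2 ≤ (2 / 5) ^ 2 := by gcongr
    have h3 : 0 ≤ ∑ k, W i k ^ 2 := Finset.sum_nonneg fun _ _ => sq_nonneg _
    calc β ^ 2 * ∑ k, W i k ^ 2 ≤ (2 / 5) ^ 2 * (10001 / 10000) :=
          mul_le_mul h2 (hrow i) h3 (by norm_num)
      _ ≤ 1 / 5 := by norm_num
  constructor
  · intro i j
    rw [← sq_le_one_iff_abs_le_one]
    have : ((β • W) i j) ^ 2 ≤ ∑ k, ((β • W) i k) ^ 2 :=
      Finset.single_le_sum (f := fun k => ((β • W) i k) ^ 2) (fun k _ => sq_nonneg _) (Finset.mem_univ j)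
    linarith [hrowβ i]
  · intro i
    have hn : 1 ≤ (n : ℝ) := by
      have : 0 < n := i.pos
      exact_mod_cast this
    have hcs : (∑ j, |(β • W) i j|) ^ 2 ≤ n * ∑ j, ((β • W) i j) ^ 2 := by
      have := sq_sum_le_card_mul_sum_sq (s := (Finset.univ : Finset (Fin n))) (f := fun j => |(β • W) i j|)
      simp only [sq_abs, Finset.card_univ, Fintype.card_fin] at this
      exact this
    have h0 : 0 ≤ ∑ j, |(β • W) i j| := Finset.sum_nonneg fun _ _ => abs_nonneg _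
    have h4 : (∑ j, |(β • W) i j|) ^ 2 ≤ ((n : ℝ) / 2) ^ 2 := by
      calc (∑ j, |(β • W) i j|) ^ 2 ≤ n * ∑ j, ((β • W) i j) ^ 2 := hcs
        _ ≤ n * (1 / 5) := by gcongr; exact hrowβ i
        _ ≤ ((n : ℝ) / 2) ^ 2 := by nlinarith
    exact (pow_le_pow_iff_left₀ h0 (by positivity) (by norm_num)).1 h4

/-- Poincare inequality for the Gibbs measure -/
theorem gibbs_poincare (hn : 111 ≤ n) (β ε : ℝ) (hβ : 0 < β) (h0 : 0 < ε) (h1 : ε ≤ 1 / 10000)
    (hL : β * (2 + ε) ≤ 4 / 5) (W : Matrix (Fin n) (Fin n) ℝ) (hW : Good W ε) (h : Fin n → ℝ)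
    (f : Conf n → ℝ) :
    FS (gibbs (β • W) h) Finset.univ f ≤
      Real.exp (((111 : ℕ) : ℝ) ^ 2) * (n : ℝ) ^ 111 * ∑ i, FS (gibbs (β • W) h) {i} f := by
  have hβ1 : β ≤ 2 / 5 := by nlinarith
  have hc : 0 < ∏ i, Real.cosh (h i) := Finset.prod_pos fun i _ => Real.cosh_pos _
  have hZ : 0 < ∑ y, wt (β • W) h y := Finset.sum_pos (fun y _ => Real.exp_pos _) ⟨fun _ => true, Finset.mem_univ _⟩
  have e : gibbs (β • W) h = fun x => ((∏ i, Real.cosh (h i)) / ∑ y, wt (β • W) h y) *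
      iw (β • W) (fun i => Real.tanh (h i)) x := by
    funext x; unfold gibbs; rw [wt_eq_iw]; ring
  rw [e]
  have hc2 : 0 < (∏ i, Real.cosh (h i)) / ∑ y, wt (β • W) h y := div_pos hc hZ
  simp only [FS_scale _ hc2]
  rw [← Finset.mul_sum]
  have hp := poincare (β • W) (good_entries W ε h1 hW β hβ hβ1).1 111 (by norm_num) hn
    (fun u hu ξ => by
      have := cov_final β ε hβ h0 h1 hL W hW hu ξ
      simpa using this)
    (u := fun i => Real.tanh (h i)) (fun i => Real.abs_tanh_lt_one (h i)) f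
  calc _ ≤ ((∏ i, Real.cosh (h i)) / ∑ y, wt (β • W) h y) * _ := mul_le_mul_of_nonneg_left hp hc2.le
    _ = _ := by ring

/-- deterministic mixing theorem for good matrices -/
theorem mix_good : ∃ n0 : ℕ, ∀ n : ℕ, n0 ≤ n → ∀ (β ε : ℝ), 0 < β → 0 < ε → ε ≤ 1 / 10000 →
    β * (2 + ε) ≤ 4 / 5 → ∀ W : Matrix (Fin n) (Fin n) ℝ, Good W ε → ∀ h : Fin n → ℝ,
      MixLE (β • W) h ((n : ℝ) ^ 115) := by
  obtain ⟨n0, hn0⟩ := mix_num 111
  refine ⟨max n0 111, fun n hn β ε hβ h0 h1 hL W hW h => ?_⟩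
  have hn1 : 111 ≤ n := le_trans (le_max_right _ _) hn
  have hn2 : n0 ≤ n := le_trans (le_max_left _ _) hn
  have hnpos : 0 < n := by omega
  have hβ1 : β ≤ 2 / 5 := by nlinarith
  obtain ⟨e1, e2⟩ := good_entries W ε h1 hW β hβ hβ1
  have hsym : (β • W).IsSymm := by
    have := hW.symm
    unfold Matrix.IsSymm at this ⊢
    rw [Matrix.transpose_smul, this]
  refine ⟨n ^ 115, by push_cast; exact le_rfl, fun x => ?_⟩
  -- the clipped fields
  set h' := clip (n : ℝ) h with hh'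
  have hclip : ∀ i, |h' i| ≤ n := by
    intro i
    rw [hh', abs_le]
    unfold clip
    have hnn : (0 : ℝ) ≤ n := by positivity
    exact ⟨le_max_left _ _, max_le (by linarith) (min_le_right _ _)⟩
  have hM1 : 1 ≤ Real.exp (((111 : ℕ) : ℝ) ^ 2) * (n : ℝ) ^ 111 := by
    have a1 : 1 ≤ Real.exp (((111 : ℕ) : ℝ) ^ 2) := Real.one_le_exp (by positivity)
    have a2 : (1 : ℝ) ≤ (n : ℝ) ^ 111 := one_le_pow₀ (by exact_mod_cast hnpos)
    nlinarith
  have hgap := fun (x : Conf n) => tv_gap hnpos (gibbs_pos (β • W) h') (gibbs_sum (β • W) h')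
    (Real.exp (((111 : ℕ) : ℝ) ^ 2) * (n : ℝ) ^ 111) hM1
    (gibbs_poincare hn1 β ε hβ h0 h1 hL W hW h') (n ^ 115) x
  have hnum := fun (x : Conf n) => hn0 n hn2 (gibbs (β • W) h' x) (gibbs_min (β • W) h' e2 hclip x)
  have hη : ∀ x, tv ((glauber (gibbs (β • W) h') ^ (n ^ 115)) x) (gibbs (β • W) h') ≤ 1 / 16 :=
    fun x => le_trans (hgap x) (hnum x).1
  have hst := stat_compare (glauber (gibbs (β • W) h)) (glauber (gibbs (β • W) h'))
    (glauber_nonneg (gibbs_pos _ _)) (glauber_row hnpos (gibbs_pos _ _))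
    (glauber_nonneg (gibbs_pos _ _)) (glauber_row hnpos (gibbs_pos _ _))
    (gibbs (β • W) h) (gibbs (β • W) h') (fun x => (gibbs_pos _ _ x).le) (gibbs_sum _ _)
    (glauber_stat hnpos (gibbs_pos _ _)) (Real.exp (-n)) (1 / 16)
    (kernel_clip hnpos (β • W) hsym h e2) (n ^ 115) hη x
  have h9 := (hnum x).2
  have : 2 * ((n ^ 115 : ℕ) : ℝ) * Real.exp (-n) + 2 * (1 / 16) ≤ 1 / 4 := by
    have h10 : ((n ^ 115 : ℕ) : ℝ) * Real.exp (-n) ≤ 1 / 16 := h9
    nlinarith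
  exact le_trans hst this

end SKG
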