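import Pool.Agent.Lib.MP_c42713_pr.JLocA

namespace SKG

variable {n : ℕ}

theorem MGl_split (i : Fin n) (x : Conf n) (F : Conf n → ℝ) (P : Conf n → Prop) [DecidablePred P]
    (hP : ∀ y, P y ↔ ∀ j, j ≠ i → y j = x j) :
    ∑ y, (if P y then F y else 0) = F (Function.update x i true) + F (Function.update x i false) := by
  have h : ∀ y, (if P y then F y else 0) =
      (if y = Function.update x i true then F y else 0) +
        (if y = Function.update x i false then F y else 0) := by
    intro y
    have hne : Function.update x i true ≠ Function.update x i false := by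
      intro h
      have := congrFun h i
      simp at this
    by_cases hp : P y
    · rw [if_pos hp]
      have h1 := (hP y).1 hp
      rcases hb : y i with _ | _
      · have e : y = Function.update x i false := by
          funext j
          by_cases hj : j = i
          · subst hj; simp [hb]
          · simp [Function.update_of_ne hj, h1 j hj]
        rw [if_pos e, if_neg, zero_add]
        rw [e]
        exact fun h => hne h.symm
      · have e : y = Function.update x i true := by
          funext j
          by_cases hj : j = i
          · subst hj; simp [hb]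
          · simp [Function.update_of_ne hj, h1 j hj]
        rw [if_pos e, if_neg, add_zero]
        rw [e]
        exact hne
    · rw [if_neg hp, if_neg, if_neg, add_zero]
      · rintro rfl
        exact hp ((hP _).2 fun j hj => Function.update_of_ne hj _ _)
      · rintro rfl
        exact hp ((hP _).2 fun j hj => Function.update_of_ne hj _ _)
  rw [Finset.sum_congr rfl fun y _ => h y, Finset.sum_add_distrib, Finset.sum_ite_eq', Finset.sum_ite_eq']
  simp

theorem MGl_cE (μ : Conf n → ℝ) (i : Fin n) (f : Conf n → ℝ) (x : Conf n) :
    cE μ {i} f x = (μ (Function.update x i true) * f (Function.update x i true) +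
      μ (Function.update x i false) * f (Function.update x i false)) /
      (μ (Function.update x i true) + μ (Function.update x i false)) := by
  classical
  unfold cE Ex pw
  have hP : ∀ y : Conf n, (∀ k, k ∉ ({i} : Finset (Fin n)) → y k = x k) ↔ ∀ j, j ≠ i → y j = x j := by
    intro y
    simp only [Finset.mem_singleton, ne_eq]
  have h1 := MGl_split i x (fun y => μ y * f y) (fun y => ∀ k, k ∉ ({i} : Finset (Fin n)) → y k = x k) hP
  have h2 := MGl_split i x μ (fun y => ∀ k, k ∉ ({i} : Finset (Fin n)) → y k = x k) hP
  rw [← h1, ← h2]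
  congr 1
  refine Finset.sum_congr rfl fun y _ => ?_
  rw [ite_mul, zero_mul]

/-- the Glauber operator is the average of the single-site conditional expectations -/
theorem glauber_mulVec {μ : Conf n → ℝ} (hμ : ∀ x, 0 < μ x) (f : Conf n → ℝ) (x : Conf n) :
    (glauber μ).mulVec f x = (∑ i, cE μ {i} f x) / n := by
  classical
  unfold Matrix.mulVec dotProduct glauber
  have h1 : ∀ y : Conf n, (∑ i, if (∀ j, j ≠ i → y j = x j) then
      μ y / (μ (Function.update x i true) + μ (Function.update x i false)) else 0) / n * f y =
      (∑ i, if (∀ j, j ≠ i → y j = x j) then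
        μ y * f y / (μ (Function.update x i true) + μ (Function.update x i false)) else 0) / n := by
    intro y
    rw [div_mul_eq_mul_div, Finset.sum_mul]
    congr 1
    refine Finset.sum_congr rfl fun i _ => ?_
    split_ifs
    · rw [div_mul_eq_mul_div]
    · rw [zero_mul]
  rw [Finset.sum_congr rfl fun y _ => h1 y, ← Finset.sum_div, Finset.sum_comm]
  congr 1
  refine Finset.sum_congr rfl fun i _ => ?_
  rw [MGl_cE, MGl_split i x
    (fun y => μ y * f y / (μ (Function.update x i true) + μ (Function.update x i false)))
    (fun y => ∀ j, j ≠ i → y j = x j) (fun y => Iff.rfl), ← add_div]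

theorem glauber_nonneg {μ : Conf n → ℝ} (hμ : ∀ x, 0 < μ x) (x y : Conf n) : 0 ≤ glauber μ x y := by
  unfold glauber
  refine div_nonneg (Finset.sum_nonneg fun i _ => ?_) (Nat.cast_nonneg n)
  split_ifs
  · exact div_nonneg (hμ _).le (add_nonneg (hμ _).le (hμ _).le)
  · exact le_rfl

theorem glauber_row {μ : Conf n → ℝ} (hn : 0 < n) (hμ : ∀ x, 0 < μ x) (x : Conf n) :
    ∑ y, glauber μ x y = 1 := by
  have h := glauber_mulVec hμ (fun _ => (1 : ℝ)) x
  unfold Matrix.mulVec dotProduct at h
  simp only [mul_one] at h
  rw [h]
  have h2 : ∀ i : Fin n, cE μ {i} (fun _ => (1 : ℝ)) x = 1 := fun i => Ex_const (isW_pw hμ {i} x) 1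
  rw [Finset.sum_congr rfl fun i _ => h2 i]
  have h3 : (n : ℝ) ≠ 0 := by exact_mod_cast hn.ne'
  simp [h3]

/-- reversibility -/
theorem glauber_rev {μ : Conf n → ℝ} (hμ : ∀ x, 0 < μ x) (x y : Conf n) :
    μ x * glauber μ x y = μ y * glauber μ y x := by
  unfold glauber
  rw [mul_div_assoc', mul_div_assoc', Finset.mul_sum, Finset.mul_sum]
  congr 1
  refine Finset.sum_congr rfl fun i _ => ?_
  by_cases h : ∀ j, j ≠ i → y j = x j
  · have h' : ∀ j, j ≠ i → x j = y j := fun j hj => (h j hj).symm
    have e : ∀ b, Function.update y i b = Function.update x i b := by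
      intro b
      funext j
      by_cases hj : j = i
      · subst hj; simp
      · rw [Function.update_of_ne hj, Function.update_of_ne hj, h j hj]
    rw [if_pos h, if_pos h', e, e]
    ring
  · have h' : ¬ ∀ j, j ≠ i → x j = y j := fun h2 => h fun j hj => (h2 j hj).symm
    rw [if_neg h, if_neg h', mul_zero, mul_zero]

/-- reversibility of the powers -/
theorem glauber_pow_rev {μ : Conf n → ℝ} (hμ : ∀ x, 0 < μ x) (t : ℕ) (x y : Conf n) :
    μ x * (glauber μ ^ t) x y = μ y * (glauber μ ^ t) y x := by
  induction t generalizing x y with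
  | zero =>
    simp only [pow_zero, Matrix.one_apply]
    by_cases h : x = y
    · subst h; rfl
    · rw [if_neg h, if_neg (Ne.symm h), mul_zero, mul_zero]
  | succ t ih =>
    rw [pow_succ, Matrix.mul_apply, ← pow_succ, pow_succ', Matrix.mul_apply, Finset.mul_sum, Finset.mul_sum]
    refine Finset.sum_congr rfl fun z _ => ?_
    rw [← mul_assoc, ih x z, ← mul_assoc, ← glauber_rev hμ z y]
    ring

/-- stationarity -/
theorem glauber_stat {μ : Conf n → ℝ} (hn : 0 < n) (hμ : ∀ x, 0 < μ x) (y : Conf n) :
    ∑ x, μ x * glauber μ x y = μ y := by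
  rw [Finset.sum_congr rfl fun x _ => glauber_rev hμ x y, ← Finset.mul_sum, glauber_row hn hμ, mul_one]

end SKG
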