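import Pool.Agent.Lib.MP_c42713_pr.Defs

namespace SKG

variable {n : ℕ}

theorem MMin_wt_pos (J : Matrix (Fin n) (Fin n) ℝ) (h : Fin n → ℝ) (x : Conf n) : 0 < wt J h x :=
  Real.exp_pos _

theorem MMin_Z_pos (J : Matrix (Fin n) (Fin n) ℝ) (h : Fin n → ℝ) : 0 < ∑ y, wt J h y :=
  Finset.sum_pos (fun y _ => MMin_wt_pos J h y) ⟨fun _ => true, Finset.mem_univ _⟩

theorem gibbs_pos (J : Matrix (Fin n) (Fin n) ℝ) (h : Fin n → ℝ) (x : Conf n) : 0 < gibbs J h x :=
  div_pos (MMin_wt_pos J h x) (MMin_Z_pos J h)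

theorem gibbs_sum (J : Matrix (Fin n) (Fin n) ℝ) (h : Fin n → ℝ) : ∑ x, gibbs J h x = 1 := by
  unfold gibbs
  rw [← Finset.sum_div]
  exact div_self (MMin_Z_pos J h).ne'

theorem MMin_abs_sg (b : Bool) : |sg b| = 1 := by
  unfold sg
  cases b <;> simp

/-- lower bound for the Gibbs measure when the fields are bounded -/
theorem gibbs_min (J : Matrix (Fin n) (Fin n) ℝ) (h : Fin n → ℝ)
    (hJ : ∀ i, ∑ j, |J i j| ≤ (n : ℝ) / 2) (hh : ∀ i, |h i| ≤ n) (x : Conf n) :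
    Real.exp (-(4 * (n : ℝ) ^ 2)) ≤ gibbs J h x := by
  have hq : ∀ y : Conf n, |quad J y| ≤ (n : ℝ) ^ 2 / 2 := by
    intro y
    unfold quad
    calc |∑ i, ∑ j, J i j * sg (y i) * sg (y j)|
        ≤ ∑ i, |∑ j, J i j * sg (y i) * sg (y j)| := Finset.abs_sum_le_sum_abs _ _
      _ ≤ ∑ _i : Fin n, (n : ℝ) / 2 := by
          refine Finset.sum_le_sum fun i _ => ?_
          refine (Finset.abs_sum_le_sum_abs _ _).trans (le_trans (le_of_eq ?_) (hJ i))
          refine Finset.sum_congr rfl fun j _ => ?_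
          rw [abs_mul, abs_mul, MMin_abs_sg, MMin_abs_sg, mul_one, mul_one]
      _ = (n : ℝ) ^ 2 / 2 := by
          rw [Finset.sum_const, Finset.card_univ, Fintype.card_fin, nsmul_eq_mul]
          ring
  have hl : ∀ y : Conf n, |lin h y| ≤ (n : ℝ) ^ 2 := by
    intro y
    unfold lin
    calc |∑ i, h i * sg (y i)| ≤ ∑ i, |h i * sg (y i)| := Finset.abs_sum_le_sum_abs _ _
      _ ≤ ∑ _i : Fin n, (n : ℝ) := by
          refine Finset.sum_le_sum fun i _ => ?_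
          rw [abs_mul, MMin_abs_sg, mul_one]
          exact hh i
      _ = (n : ℝ) ^ 2 := by
          rw [Finset.sum_const, Finset.card_univ, Fintype.card_fin, nsmul_eq_mul]
          ring
  have hlow : Real.exp (-(5 / 4 * (n : ℝ) ^ 2)) ≤ wt J h x := by
    unfold wt
    refine Real.exp_le_exp.2 ?_
    have h1 := (abs_le.1 (hq x)).1
    have h2 := (abs_le.1 (hl x)).1
    linarith
  have hup : ∀ y, wt J h y ≤ Real.exp (5 / 4 * (n : ℝ) ^ 2) := by
    intro y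
    unfold wt
    refine Real.exp_le_exp.2 ?_
    have h1 := (abs_le.1 (hq y)).2
    have h2 := (abs_le.1 (hl y)).2
    linarith
  have hn : (n : ℝ) ≤ (n : ℝ) ^ 2 := by
    rcases Nat.eq_zero_or_pos n with h0 | h0
    · simp [h0]
    · have : (1 : ℝ) ≤ n := by exact_mod_cast h0
      nlinarith
  have h2n : (2 : ℝ) ^ n ≤ Real.exp ((n : ℝ) ^ 2) := by
    calc (2 : ℝ) ^ n ≤ (Real.exp 1) ^ n := by
          refine pow_le_pow_left₀ (by norm_num) ?_ n
          have := Real.add_one_le_exp (1 : ℝ)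
          linarith
      _ = Real.exp (n : ℝ) := by
          rw [← Real.exp_nat_mul, mul_one]
      _ ≤ Real.exp ((n : ℝ) ^ 2) := Real.exp_le_exp.2 hn
  have hZ : ∑ y, wt J h y ≤ Real.exp (9 / 4 * (n : ℝ) ^ 2) := by
    calc ∑ y, wt J h y ≤ ∑ _y : Conf n, Real.exp (5 / 4 * (n : ℝ) ^ 2) :=
          Finset.sum_le_sum fun y _ => hup y
      _ = (2 : ℝ) ^ n * Real.exp (5 / 4 * (n : ℝ) ^ 2) := by
          rw [Finset.sum_const, Finset.card_univ, nsmul_eq_mul]
          simp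
      _ ≤ Real.exp ((n : ℝ) ^ 2) * Real.exp (5 / 4 * (n : ℝ) ^ 2) :=
          mul_le_mul_of_nonneg_right h2n (Real.exp_pos _).le
      _ = Real.exp (9 / 4 * (n : ℝ) ^ 2) := by
          rw [← Real.exp_add]
          congr 1
          ring
  unfold gibbs
  rw [le_div_iff₀ (MMin_Z_pos J h)]
  calc Real.exp (-(4 * (n : ℝ) ^ 2)) * ∑ y, wt J h y
      ≤ Real.exp (-(4 * (n : ℝ) ^ 2)) * Real.exp (9 / 4 * (n : ℝ) ^ 2) :=
        mul_le_mul_of_nonneg_left hZ (Real.exp_pos _).le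
    _ = Real.exp (-(7 / 4 * (n : ℝ) ^ 2)) := by
        rw [← Real.exp_add]
        congr 1
        ring
    _ ≤ Real.exp (-(5 / 4 * (n : ℝ) ^ 2)) := by
        refine Real.exp_le_exp.2 ?_
        nlinarith [sq_nonneg (n : ℝ)]
    _ ≤ wt J h x := hlow

end SKG
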