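import Pool.Agent.Lib.MP_c42713_pr.RChern

namespace SKG

open MeasureTheory ProbabilityTheory Filter Topology

private def RRow_e {n : ℕ} (j k : Fin n) : Fin n × Fin n := if j < k then (j, k) else (k, j)

private theorem RRow_e_inj {n : ℕ} (j : Fin n) : Function.Injective (RRow_e j) := by
  intro k l h
  unfold RRow_e at h
  split_ifs at h with h1 h2 h2
  · exact (Prod.mk.inj h).2
  · have h3 := (Prod.mk.inj h).2
    rw [h3] at h1
    exact absurd h1 (lt_irrefl j)
  · have h3 := (Prod.mk.inj h).2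
    rw [← h3] at h2
    exact absurd h2 (lt_irrefl j)
  · exact (Prod.mk.inj h).1

private theorem RRow_e_diag {n : ℕ} (j k : Fin n) : RRow_e j k = (j, j) ↔ k = j := by
  unfold RRow_e
  split_ifs with h1
  · constructor
    · intro h
      exact (Prod.mk.inj h).2
    · intro h
      rw [h]
  · constructor
    · intro h
      exact (Prod.mk.inj h).1
    · intro h
      rw [h]

private noncomputable def RRow_d {n : ℕ} (j k : Fin n) : ℝ := if k = j then 2 else 1

private noncomputable def RRow_c {n : ℕ} (j : Fin n) (p : Fin n × Fin n) : ℝ :=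
  if p ∈ Finset.univ.image (RRow_e j) then (if p = (j, j) then 2 else 1) else 0

private theorem RRow_c_e {n : ℕ} (j k : Fin n) : RRow_c j (RRow_e j k) = RRow_d j k := by
  unfold RRow_c RRow_d
  rw [if_pos (Finset.mem_image_of_mem _ (Finset.mem_univ k))]
  by_cases h : k = j
  · rw [if_pos h, if_pos ((RRow_e_diag j k).2 h)]
  · rw [if_neg h, if_neg fun h' => h ((RRow_e_diag j k).1 h')]

private theorem RRow_sum {n : ℕ} (j : Fin n) (F : Fin n × Fin n → ℝ) :
    ∑ p, RRow_c j p * F p = ∑ k, RRow_d j k * F (RRow_e j k) := by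
  have h1 : ∑ p ∈ Finset.univ.image (RRow_e j), RRow_c j p * F p = ∑ p, RRow_c j p * F p := by
    refine Finset.sum_subset (Finset.subset_univ _) fun p _ hp => ?_
    unfold RRow_c
    rw [if_neg hp, zero_mul]
  rw [← h1, Finset.sum_image fun a _ b _ h => RRow_e_inj j h]
  exact Finset.sum_congr rfl fun k _ => by rw [RRow_c_e]

private theorem RRow_sum_d {n : ℕ} (j : Fin n) : ∑ k, RRow_d j k = n + 1 := by
  have h1 : ∀ k, RRow_d j k = 1 + if k = j then (1 : ℝ) else 0 := by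
    intro k
    unfold RRow_d
    split_ifs <;> norm_num
  rw [Finset.sum_congr rfl fun k _ => h1 k, Finset.sum_add_distrib]
  simp

private theorem RRow_sum_dd {n : ℕ} (j : Fin n) : ∑ k, RRow_d j k * RRow_d j k = n + 3 := by
  have h1 : ∀ k, RRow_d j k * RRow_d j k = 1 + if k = j then (3 : ℝ) else 0 := by
    intro k
    unfold RRow_d
    split_ifs <;> norm_num
  rw [Finset.sum_congr rfl fun k _ => h1 k, Finset.sum_add_distrib]
  simp

private theorem RRow_goe {n : ℕ} (hn : 0 < n) (g : Smp n) (j k : Fin n) :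
    (n : ℝ) * goe n g j k ^ 2 = RRow_d j k * g (RRow_e j k) ^ 2 := by
  have hn' : (0 : ℝ) < n := by exact_mod_cast hn
  have hs : Real.sqrt n ^ 2 = (n : ℝ) := Real.sq_sqrt hn'.le
  have hs2 : Real.sqrt (2 / n) ^ 2 = 2 / (n : ℝ) := Real.sq_sqrt (by positivity)
  unfold goe RRow_d RRow_e
  by_cases h : j = k
  · subst h
    rw [if_pos rfl, if_pos rfl, if_neg (lt_irrefl j), mul_pow, hs2]
    field_simp
  · have hkj : ¬ k = j := fun h' => h h'.symm
    rw [if_neg h, if_neg hkj]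
    by_cases h1 : j < k
    · rw [if_pos h1, if_pos h1, div_pow, hs]
      field_simp
    · rw [if_neg h1, if_neg h1, div_pow, hs]
      field_simp

/-- row sum of squares of GOE as a weighted sum of squares -/
theorem row_sq (n : ℕ) (hn : 0 < n) (j : Fin n) : ∃ c : Fin n × Fin n → ℝ, (∀ p, 0 ≤ c p) ∧
    (∀ p, c p ≤ 2) ∧ ∑ p, c p = n + 1 ∧ ∑ p, c p ^ 2 = n + 3 ∧
    ∀ g : Smp n, (n : ℝ) * ∑ k, goe n g j k ^ 2 = ∑ p, c p * g p ^ 2 := by
  refine ⟨RRow_c j, ?_, ?_, ?_, ?_, ?_⟩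
  · intro p
    unfold RRow_c
    split_ifs <;> norm_num
  · intro p
    unfold RRow_c
    split_ifs <;> norm_num
  · have h := RRow_sum j fun _ => (1 : ℝ)
    simp only [mul_one] at h
    rw [h, RRow_sum_d]
  · have h := RRow_sum j (RRow_c j)
    have h1 : ∑ p, RRow_c j p ^ 2 = ∑ p, RRow_c j p * RRow_c j p :=
      Finset.sum_congr rfl fun p _ => sq _
    rw [h1, h, Finset.sum_congr rfl fun k _ => by rw [RRow_c_e], RRow_sum_dd]
  · intro g
    rw [RRow_sum j fun p => g p ^ 2, Finset.mul_sum]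
    exact Finset.sum_congr rfl fun k _ => RRow_goe hn g j k

/-- the three events for one row -/
private theorem RRow_row {n : ℕ} (hn : 4 ≤ n) (j : Fin n) {η : ℝ} (h0 : 0 < η) (h1 : η ≤ 1) :
    gauss n {g | η < |goe n g j j| ∨ η < |∑ k, goe n g j k ^ 2 - 1|} ≤
      ENNReal.ofReal (3 * Real.exp (1 - η ^ 2 / 32 * n)) := by
  have hn0 : 0 < n := by omega
  have hn' : (0 : ℝ) < n := by exact_mod_cast hn0
  obtain ⟨c, hc0, hc2, hs1, hs2, hc⟩ := row_sq n hn0 j
  have hη2 : η ^ 2 ≤ 1 := pow_le_one₀ h0.le h1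
  have hηn : 0 ≤ η ^ 2 * n := by positivity
  -- the diagonal entry
  have hA : gauss n {g | η < |goe n g j j|} ≤
      ENNReal.ofReal (Real.exp (1 - η ^ 2 / 32 * n)) := by
    have e1 := chern_up (ι := Fin n × Fin n) (fun p => if p = (j, j) then (1 : ℝ) else 0)
      (fun p => by split_ifs <;> norm_num) (fun p => by split_ifs <;> norm_num) (1 / 8)
      (by norm_num) le_rfl (η ^ 2 * n / 2)
    have e2 : ∑ p : Fin n × Fin n, (if p = (j, j) then (1 : ℝ) else 0) = 1 := by
      rw [Finset.sum_ite_eq' Finset.univ (j, j), if_pos (Finset.mem_univ _)]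
    have e3 : ∑ p : Fin n × Fin n, (if p = (j, j) then (1 : ℝ) else 0) ^ 2 = 1 := by
      have : ∀ p : Fin n × Fin n, (if p = (j, j) then (1 : ℝ) else 0) ^ 2
          = if p = (j, j) then (1 : ℝ) else 0 := fun p => by split_ifs <;> norm_num
      rw [Finset.sum_congr rfl fun p _ => this p, e2]
    rw [e2, e3] at e1
    refine le_trans (measure_mono ?_) (e1.trans (ENNReal.ofReal_le_ofReal ?_))
    · intro g hg
      have hg' : η < |goe n g j j| := hg
      show η ^ 2 * n / 2 ≤ ∑ p : Fin n × Fin n, (if p = (j, j) then (1 : ℝ) else 0) * g p ^ 2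
      have e4 : ∑ p : Fin n × Fin n, (if p = (j, j) then (1 : ℝ) else 0) * g p ^ 2
          = g (j, j) ^ 2 := by
        simp only [ite_mul, one_mul, zero_mul]
        rw [Finset.sum_ite_eq' Finset.univ (j, j), if_pos (Finset.mem_univ _)]
      rw [e4]
      have e5 : (n : ℝ) * goe n g j j ^ 2 = 2 * g (j, j) ^ 2 := by
        have e6 := RRow_goe hn0 g j j
        rw [(RRow_e_diag j j).2 rfl] at e6
        rw [e6]
        unfold RRow_d
        rw [if_pos rfl]
      have e7 : η ^ 2 ≤ goe n g j j ^ 2 := by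
        rw [← sq_abs (goe n g j j)]
        exact pow_le_pow_left₀ h0.le hg'.le 2
      have e8 : (n : ℝ) * η ^ 2 ≤ n * goe n g j j ^ 2 := mul_le_mul_of_nonneg_left e7 hn'.le
      linarith
    · refine Real.exp_le_exp.2 ?_
      norm_num
      linarith
  -- the upper tail
  have hB : gauss n {g | (n : ℝ) * (1 + η) ≤ ∑ p, c p * g p ^ 2} ≤
      ENNReal.ofReal (Real.exp (1 - η ^ 2 / 32 * n)) := by
    have e1 := chern_up c hc0 hc2 (η / 16) (by linarith) (by linarith) ((n : ℝ) * (1 + η))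
    refine e1.trans (ENNReal.ofReal_le_ofReal (Real.exp_le_exp.2 ?_))
    rw [hs1, hs2]
    have e2 : -(η / 16 * ((n : ℝ) * (1 + η))) + η / 16 * (n + 1)
        + 2 * (η / 16) ^ 2 * (n + 3) = -(7 / 128) * (η ^ 2 * n) + η / 16 + 3 / 128 * η ^ 2 := by
      ring
    rw [e2]
    linarith
  -- the lower tail
  have hC : gauss n {g | ∑ p, c p * g p ^ 2 ≤ (n : ℝ) * (1 - η)} ≤
      ENNReal.ofReal (Real.exp (1 - η ^ 2 / 32 * n)) := by
    have e1 := chern_low c hc0 (η / 16) (by linarith) ((n : ℝ) * (1 - η))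
    refine e1.trans (ENNReal.ofReal_le_ofReal (Real.exp_le_exp.2 ?_))
    rw [hs1, hs2]
    have e2 : η / 16 * ((n : ℝ) * (1 - η)) - η / 16 * (n + 1) + (η / 16) ^ 2 * (n + 3)
        = -(15 / 256) * (η ^ 2 * n) - η / 16 + 3 / 256 * η ^ 2 := by
      ring
    rw [e2]
    linarith
  have hsub : {g : Smp n | η < |goe n g j j| ∨ η < |∑ k, goe n g j k ^ 2 - 1|} ⊆
      {g | η < |goe n g j j|} ∪ ({g | (n : ℝ) * (1 + η) ≤ ∑ p, c p * g p ^ 2} ∪
        {g | ∑ p, c p * g p ^ 2 ≤ (n : ℝ) * (1 - η)}) := by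
    intro g hg
    rcases hg with hg | hg
    · exact Or.inl hg
    · right
      rcases lt_abs.1 hg with h | h
      · left
        show (n : ℝ) * (1 + η) ≤ ∑ p, c p * g p ^ 2
        rw [← hc g]
        exact mul_le_mul_of_nonneg_left (by linarith) hn'.le
      · right
        show ∑ p, c p * g p ^ 2 ≤ (n : ℝ) * (1 - η)
        rw [← hc g]
        exact mul_le_mul_of_nonneg_left (by linarith) hn'.le
  have hx := (Real.exp_pos (1 - η ^ 2 / 32 * n)).le
  calc gauss n {g : Smp n | η < |goe n g j j| ∨ η < |∑ k, goe n g j k ^ 2 - 1|}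
      ≤ _ := measure_mono hsub
    _ ≤ _ := (measure_union_le _ _).trans (add_le_add_right (measure_union_le _ _) _)
    _ ≤ ENNReal.ofReal (Real.exp (1 - η ^ 2 / 32 * n))
        + (ENNReal.ofReal (Real.exp (1 - η ^ 2 / 32 * n))
          + ENNReal.ofReal (Real.exp (1 - η ^ 2 / 32 * n))) :=
        add_le_add hA (add_le_add hB hC)
    _ = ENNReal.ofReal (3 * Real.exp (1 - η ^ 2 / 32 * n)) := by
        rw [← ENNReal.ofReal_add hx hx, ← ENNReal.ofReal_add hx (add_nonneg hx hx)]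
        congr 1
        ring

private theorem RRow_tendsto {b : ℝ} (hb : 0 < b) :
    Tendsto (fun n : ℕ => ENNReal.ofReal ((n : ℝ) * (3 * Real.exp (1 - b * n)))) atTop (𝓝 0) := by
  have h1 : Tendsto (fun x : ℝ => x ^ 1 * Real.exp (-x)) atTop (𝓝 0) :=
    Real.tendsto_pow_mul_exp_neg_atTop_nhds_zero 1
  have h2 : Tendsto (fun n : ℕ => b * (n : ℝ)) atTop atTop :=
    tendsto_natCast_atTop_atTop.const_mul_atTop hb
  have h3 := (h1.comp h2).const_mul (3 * Real.exp 1 / b)
  rw [mul_zero] at h3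
  have h4 : (fun n : ℕ => 3 * Real.exp 1 / b * ((fun x : ℝ => x ^ 1 * Real.exp (-x))
      ∘ fun n : ℕ => b * (n : ℝ)) n) = fun n : ℕ => (n : ℝ) * (3 * Real.exp (1 - b * n)) := by
    funext n
    simp only [Function.comp, pow_one]
    rw [sub_eq_add_neg, Real.exp_add]
    field_simp
  rw [h4] at h3
  have h5 := ENNReal.tendsto_ofReal h3
  rwa [ENNReal.ofReal_zero] at h5

/-- all diagonal entries are small and all rows have norm close to one -/
theorem goe_rows (ε : ℝ) (hε : 0 < ε) :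
    ∃ p : ℕ → ENNReal, Tendsto p atTop (𝓝 0) ∧ ∀ n, 4 ≤ n →
      gauss n {g | ∃ j, ε < |goe n g j j| ∨ ε < |∑ k, goe n g j k ^ 2 - 1|} ≤ p n := by
  obtain ⟨η, h0, h1, h2⟩ : ∃ η : ℝ, 0 < η ∧ η ≤ 1 ∧ η ≤ ε :=
    ⟨min 1 ε, lt_min one_pos hε, min_le_left _ _, min_le_right _ _⟩
  refine ⟨fun n : ℕ => ENNReal.ofReal ((n : ℝ) * (3 * Real.exp (1 - η ^ 2 / 32 * n))),
    RRow_tendsto (by positivity), ?_⟩
  intro n hn
  have hsub : {g : Smp n | ∃ j, ε < |goe n g j j| ∨ ε < |∑ k, goe n g j k ^ 2 - 1|} ⊆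
      ⋃ j, {g | η < |goe n g j j| ∨ η < |∑ k, goe n g j k ^ 2 - 1|} := by
    intro g hg
    obtain ⟨j, hj⟩ := hg
    rw [Set.mem_iUnion]
    refine ⟨j, ?_⟩
    rcases hj with hj | hj
    · exact Or.inl (lt_of_le_of_lt h2 hj)
    · exact Or.inr (lt_of_le_of_lt h2 hj)
  calc gauss n {g : Smp n | ∃ j, ε < |goe n g j j| ∨ ε < |∑ k, goe n g j k ^ 2 - 1|}
      ≤ _ := measure_mono hsub
    _ ≤ _ := measure_iUnion_fintype_le _ _
    _ ≤ ∑ _j : Fin n, ENNReal.ofReal (3 * Real.exp (1 - η ^ 2 / 32 * n)) :=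
        Finset.sum_le_sum fun j _ => RRow_row hn j h0 h1
    _ = ENNReal.ofReal ((n : ℝ) * (3 * Real.exp (1 - η ^ 2 / 32 * n))) := by
        rw [Finset.sum_const, Finset.card_univ, Fintype.card_fin, nsmul_eq_mul,
          ENNReal.ofReal_mul (Nat.cast_nonneg n), ENNReal.ofReal_natCast]

end SKG
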