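import Pool.Agent.Lib.MP_c42713_pr.RNorm
import Pool.Agent.Lib.MP_c42713_pr.RRow

namespace SKG

open MeasureTheory ProbabilityTheory Filter Topology

theorem RGood_symm (n : ℕ) (g : Smp n) : (goe n g).IsSymm := by
  apply Matrix.IsSymm.ext
  intro i j
  unfold goe
  rcases lt_trichotomy i j with h | h | h
  · rw [if_neg h.ne', if_neg (not_lt.2 h.le), if_neg h.ne, if_pos h]
  · rw [h]
  · rw [if_neg h.ne, if_pos h, if_neg h.ne', if_neg (not_lt.2 h.le)]

theorem RGood_cont (n : ℕ) (i j : Fin n) : Continuous fun g : Smp n => goe n g i j := by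
  unfold goe
  split_ifs
  · exact continuous_const.mul (continuous_apply _)
  · exact (continuous_apply _).div_const _
  · exact (continuous_apply _).div_const _

/-- the good event is measurable (it is closed) -/
theorem good_meas (n : ℕ) (ε : ℝ) : MeasurableSet {g : Smp n | Good (goe n g) ε} := by
  have h : {g : Smp n | Good (goe n g) ε} =
      {g : Smp n | ∀ v : Fin n → ℝ,
        |∑ i, ∑ j, goe n g i j * v i * v j| ≤ (2 + ε) * ∑ i, v i ^ 2} ∩
      ({g : Smp n | ∀ j, |goe n g j j| ≤ ε} ∩
        {g : Smp n | ∀ j, |∑ k, goe n g j k ^ 2 - 1| ≤ ε}) := by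
    ext g
    constructor
    · intro hg
      exact ⟨hg.norm, hg.diag, hg.sq⟩
    · rintro ⟨h1, h2, h3⟩
      exact ⟨RGood_symm n g, h1, h2, h3⟩
  rw [h]
  refine IsClosed.measurableSet (IsClosed.inter ?_ (IsClosed.inter ?_ ?_))
  · rw [Set.setOf_forall]
    refine isClosed_iInter fun v => isClosed_le ?_ continuous_const
    refine Continuous.abs (continuous_finset_sum _ fun i _ => continuous_finset_sum _ fun j _ => ?_)
    exact ((RGood_cont n i j).mul continuous_const).mul continuous_const
  · rw [Set.setOf_forall]
    exact isClosed_iInter fun j => isClosed_le (RGood_cont n j j).abs continuous_const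
  · rw [Set.setOf_forall]
    refine isClosed_iInter fun j => isClosed_le ?_ continuous_const
    refine Continuous.abs (Continuous.sub ?_ continuous_const)
    exact continuous_finset_sum _ fun k _ => (RGood_cont n j k).pow 2

/-- the good event has probability tending to one -/
theorem good_prob (ε : ℝ) (hε : 0 < ε) :
    Tendsto (fun n => gauss n {g | Good (goe n g) ε}) atTop (𝓝 1) := by
  obtain ⟨p, hp, hpn⟩ := goe_norm ε hε
  obtain ⟨q, hq, hqn⟩ := goe_rows ε hε
  have hlow : Tendsto (fun n => 1 - (p n + q n)) atTop (𝓝 (1 : ENNReal)) := by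
    have h1 := ENNReal.Tendsto.sub (tendsto_const_nhds (x := (1 : ENNReal)) (f := atTop (α := ℕ)))
      (hp.add hq) (Or.inl ENNReal.one_ne_top)
    simpa using h1
  refine tendsto_of_tendsto_of_tendsto_of_le_of_le' hlow tendsto_const_nhds ?_ ?_
  · filter_upwards [eventually_ge_atTop 4] with n hn
    have hcompl : gauss n {g | Good (goe n g) ε}ᶜ ≤ p n + q n := by
      refine (measure_mono ?_).trans ((measure_union_le _ _).trans
        (add_le_add (hpn n hn) (hqn n hn)))
      intro g hg
      by_contra hno
      apply hg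
      rw [Set.mem_union, not_or] at hno
      obtain ⟨h1, h2⟩ := hno
      simp only [Set.mem_setOf_eq, not_not] at h1
      simp only [Set.mem_setOf_eq, not_exists, not_or, not_lt] at h2
      exact ⟨RGood_symm n g, h1, fun j => (h2 j).1, fun j => (h2 j).2⟩
    have h3 := prob_compl_eq_one_sub (μ := gauss n) (good_meas n ε).compl
    rw [compl_compl] at h3
    rw [h3]
    exact tsub_le_tsub_left hcompl 1
  · exact Eventually.of_forall fun n => prob_le_one

end SKG
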