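import Pool.Agent.Lib.MP_c42713_pr.MDet
import Pool.Agent.Lib.MP_c42713_pr.RGood

namespace SKG

open MeasureTheory ProbabilityTheory Filter Topology

/-- Polynomial mixing of the Glauber dynamics of the Sherrington-Kirkpatrick model for all
`β < 2/5`, simultaneously for all external fields. -/
theorem main : ∃ C : ℕ, ∀ β : ℝ, 0 < β → β < 2 / 5 →
    (∃ A : ∀ n, Set (Smp n), (∀ n, MeasurableSet (A n)) ∧
      Tendsto (fun n => gauss n (A n)) atTop (𝓝 1) ∧
      ∀ n, ∀ g ∈ A n, ∀ h : Fin n → ℝ, MixLE (β • goe n g) h ((n : ℝ) ^ C)) ∧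
    ∀ h : ∀ n, Fin n → ℝ,
      Tendsto (fun n => gauss n {g | MixLE (β • goe n g) (h n) ((n : ℝ) ^ C)}) atTop (𝓝 1) := by
  obtain ⟨n0, hn0⟩ := mix_good
  refine ⟨115, fun β hβ hβ2 => ?_⟩
  -- choice of ε
  obtain ⟨ε, h0, h1, hL⟩ : ∃ ε : ℝ, 0 < ε ∧ ε ≤ 1 / 10000 ∧ β * (2 + ε) ≤ 4 / 5 := by
    refine ⟨min (1 / 10000) (2 - 5 * β), lt_min (by norm_num) (by linarith), min_le_left _ _, ?_⟩
    have h2 : min (1 / 10000) (2 - 5 * β) ≤ 2 - 5 * β := min_le_right _ _
    nlinarith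
  have hA : ∃ A : ∀ n, Set (Smp n), (∀ n, MeasurableSet (A n)) ∧
      Tendsto (fun n => gauss n (A n)) atTop (𝓝 1) ∧
      ∀ n, ∀ g ∈ A n, ∀ h : Fin n → ℝ, MixLE (β • goe n g) h ((n : ℝ) ^ 115) := by
    refine ⟨fun n => if n0 ≤ n then {g | Good (goe n g) ε} else ∅, fun n => ?_, ?_, fun n g hg h => ?_⟩
    · by_cases hn : n0 ≤ n
      · simp only [hn, if_true]; exact good_meas n ε
      · simp only [hn, if_false]; exact MeasurableSet.empty
    · refine (good_prob ε h0).congr' ?_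
      filter_upwards [eventually_ge_atTop n0] with n hn
      simp only [hn, if_true]
    · by_cases hn : n0 ≤ n
      · simp only [hn, if_true] at hg
        exact hn0 n hn β ε hβ h0 h1 hL _ hg h
      · simp only [hn, if_false] at hg
        exact absurd hg (Set.notMem_empty g)
  refine ⟨hA, fun h => ?_⟩
  obtain ⟨A, -, hA1, hA2⟩ := hA
  refine tendsto_of_tendsto_of_tendsto_of_le_of_le hA1 tendsto_const_nhds (fun n => ?_) (fun n => ?_)
  · exact measure_mono fun g hg => hA2 n g hg (h n)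
  · exact prob_le_one

end SKG
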