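import Pool.Agent.Lib.MP_c42713_pr.RExp

namespace SKG

open MeasureTheory ProbabilityTheory

variable {ι : Type} [Fintype ι]

/-- product formula for the exponential moment -/
theorem RChern_lint (d : ι → ℝ) (hd : ∀ i, d i < 1 / 2) :
    ∫⁻ g, ENNReal.ofReal (Real.exp (∑ i, d i * g i ^ 2)) ∂(stdG ι) =
      ∏ i, ENNReal.ofReal (1 / Real.sqrt (1 - 2 * d i)) := by
  have h1 : ∀ g : ι → ℝ, ENNReal.ofReal (Real.exp (∑ i, d i * g i ^ 2)) =
      ∏ i, ENNReal.ofReal (Real.exp (d i * g i ^ 2)) := by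
    intro g
    rw [Real.exp_sum, ENNReal.ofReal_prod_of_nonneg (fun i _ => (Real.exp_pos _).le)]
  simp only [h1]
  have hmeas : ∀ i, Measurable (fun x : ℝ => ENNReal.ofReal (Real.exp (d i * x ^ 2))) := by
    intro i; fun_prop
  have hind : iIndepFun (fun (i : ι) (g : ι → ℝ) => ENNReal.ofReal (Real.exp (d i * g i ^ 2))) (stdG ι) :=
    iIndepFun_pi (μ := fun _ : ι => gaussianReal 0 1)
      (X := fun (i : ι) (x : ℝ) => ENNReal.ofReal (Real.exp (d i * x ^ 2)))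
      (fun i => (hmeas i).aemeasurable)
  rw [lintegral_prod_eq_prod_lintegral_of_indepFun Finset.univ
    (fun (i : ι) (g : ι → ℝ) => ENNReal.ofReal (Real.exp (d i * g i ^ 2))) hind
    (fun i => (hmeas i).comp (measurable_pi_apply i))]
  refine Finset.prod_congr rfl (fun i _ => ?_)
  rw [← lint_exp_sq (d i) (hd i)]
  have h2 := (measurePreserving_eval (fun _ : ι => gaussianReal 0 1) i).lintegral_comp (hmeas i)
  exact h2

/-- exponential Markov inequality -/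
theorem RChern_markov {Ω : Type} [MeasurableSpace Ω] (μ : Measure Ω) (X : Ω → ℝ) (hX : Measurable X) (s : ℝ) :
    μ {ω | s ≤ X ω} ≤ ENNReal.ofReal (Real.exp (-s)) * ∫⁻ ω, ENNReal.ofReal (Real.exp (X ω)) ∂μ := by
  have h1 := mul_meas_ge_le_lintegral (μ := μ) (f := fun ω => ENNReal.ofReal (Real.exp (X ω)))
    (by fun_prop) (ENNReal.ofReal (Real.exp s))
  have h2 : {ω | s ≤ X ω} ⊆ {ω | ENNReal.ofReal (Real.exp s) ≤ ENNReal.ofReal (Real.exp (X ω))} := by
    intro ω hω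
    exact ENNReal.ofReal_le_ofReal (Real.exp_le_exp.2 hω)
  have h3 : ENNReal.ofReal (Real.exp (-s)) * ENNReal.ofReal (Real.exp s) = 1 := by
    rw [← ENNReal.ofReal_mul (Real.exp_pos _).le, ← Real.exp_add, neg_add_cancel, Real.exp_zero,
      ENNReal.ofReal_one]
  calc μ {ω | s ≤ X ω} = ENNReal.ofReal (Real.exp (-s)) * (ENNReal.ofReal (Real.exp s) * μ {ω | s ≤ X ω}) := by
        rw [← mul_assoc, h3, one_mul]
    _ ≤ ENNReal.ofReal (Real.exp (-s)) * ∫⁻ ω, ENNReal.ofReal (Real.exp (X ω)) ∂μ := by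
        gcongr
        refine le_trans ?_ h1
        gcongr

/-- Chernoff bound, upper tail of a weighted sum of squares -/
theorem chern_up (c : ι → ℝ) (hc0 : ∀ i, 0 ≤ c i) (hc : ∀ i, c i ≤ 2) (l : ℝ) (hl0 : 0 ≤ l)
    (hl : l ≤ 1 / 8) (s : ℝ) :
    stdG ι {g | s ≤ ∑ i, c i * g i ^ 2} ≤
      ENNReal.ofReal (Real.exp (-(l * s) + l * ∑ i, c i + 2 * l ^ 2 * ∑ i, c i ^ 2)) := by
  have hd : ∀ i, l * c i ≤ 1 / 4 := by
    intro i
    nlinarith [hc0 i, hc i]
  have hd0 : ∀ i, 0 ≤ l * c i := fun i => mul_nonneg hl0 (hc0 i)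
  have h1 : {g : ι → ℝ | s ≤ ∑ i, c i * g i ^ 2} ⊆ {g | l * s ≤ ∑ i, (l * c i) * g i ^ 2} := by
    intro g hg
    have h2 : ∑ i, (l * c i) * g i ^ 2 = l * ∑ i, c i * g i ^ 2 := by
      rw [Finset.mul_sum]
      exact Finset.sum_congr rfl (fun i _ => by ring)
    show l * s ≤ ∑ i, (l * c i) * g i ^ 2
    rw [h2]
    exact mul_le_mul_of_nonneg_left hg hl0
  refine (measure_mono h1).trans ((RChern_markov _ _ (by fun_prop) _).trans ?_)
  rw [RChern_lint _ (fun i => lt_of_le_of_lt (hd i) (by norm_num)),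
    ← ENNReal.ofReal_prod_of_nonneg (fun i _ => by positivity), ← ENNReal.ofReal_mul (Real.exp_pos _).le]
  apply ENNReal.ofReal_le_ofReal
  have h3 : ∏ i, (1 / Real.sqrt (1 - 2 * (l * c i))) ≤ ∏ i, Real.exp (l * c i + 2 * (l * c i) ^ 2) :=
    Finset.prod_le_prod (fun i _ => by positivity) (fun i _ => exp_up _ (hd0 i) (hd i))
  refine (mul_le_mul_of_nonneg_left h3 (Real.exp_pos _).le).trans ?_
  rw [← Real.exp_sum, ← Real.exp_add]
  apply le_of_eq
  congr 1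
  rw [Finset.sum_add_distrib, Finset.mul_sum, Finset.mul_sum, add_assoc]
  congr 2
  exact Finset.sum_congr rfl (fun i _ => by ring)

/-- Chernoff bound, lower tail -/
theorem chern_low (c : ι → ℝ) (hc0 : ∀ i, 0 ≤ c i) (l : ℝ) (hl0 : 0 ≤ l) (s : ℝ) :
    stdG ι {g | ∑ i, c i * g i ^ 2 ≤ s} ≤
      ENNReal.ofReal (Real.exp (l * s - l * ∑ i, c i + l ^ 2 * ∑ i, c i ^ 2)) := by
  have hd0 : ∀ i, 0 ≤ l * c i := fun i => mul_nonneg hl0 (hc0 i)
  have h1 : {g : ι → ℝ | ∑ i, c i * g i ^ 2 ≤ s} ⊆ {g | -(l * s) ≤ ∑ i, (-(l * c i)) * g i ^ 2} := by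
    intro g hg
    have h2 : ∑ i, (-(l * c i)) * g i ^ 2 = -(l * ∑ i, c i * g i ^ 2) := by
      rw [Finset.mul_sum, ← Finset.sum_neg_distrib]
      exact Finset.sum_congr rfl (fun i _ => by ring)
    show -(l * s) ≤ ∑ i, (-(l * c i)) * g i ^ 2
    rw [h2]
    exact neg_le_neg (mul_le_mul_of_nonneg_left hg hl0)
  refine (measure_mono h1).trans ((RChern_markov _ _ (by fun_prop) _).trans ?_)
  rw [RChern_lint _ (fun i => lt_of_le_of_lt (neg_nonpos.2 (hd0 i)) (by norm_num)),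
    ← ENNReal.ofReal_prod_of_nonneg (fun i _ => by positivity), ← ENNReal.ofReal_mul (Real.exp_pos _).le]
  apply ENNReal.ofReal_le_ofReal
  have h3 : ∏ i, (1 / Real.sqrt (1 - 2 * (-(l * c i)))) ≤ ∏ i, Real.exp (-(l * c i) + (l * c i) ^ 2) := by
    refine Finset.prod_le_prod (fun i _ => by positivity) (fun i _ => ?_)
    have h4 := exp_low _ (hd0 i)
    have e : 1 - 2 * (-(l * c i)) = 1 + 2 * (l * c i) := by ring
    rw [e]
    exact h4
  refine (mul_le_mul_of_nonneg_left h3 (Real.exp_pos _).le).trans ?_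
  rw [← Real.exp_sum, ← Real.exp_add]
  apply le_of_eq
  congr 1
  rw [Finset.sum_add_distrib, Finset.mul_sum, Finset.mul_sum, neg_neg, Finset.sum_neg_distrib, ← add_assoc,
    ← sub_eq_add_neg]
  congr 1
  exact Finset.sum_congr rfl (fun i _ => by ring)

end SKG
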