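import Pool.Agent.Lib.MP_c42713_pr.RDefs

namespace SKG

open Filter Topology
open scoped ContDiff

theorem RCut_smooth : ContDiff ℝ ∞ Real.smoothTransition := Real.smoothTransition.contDiff

theorem RCut_diff : Differentiable ℝ Real.smoothTransition :=
  (contDiff_infty_iff_deriv.1 RCut_smooth).1

theorem RCut_smooth1 : ContDiff ℝ ∞ (deriv Real.smoothTransition) :=
  (contDiff_infty_iff_deriv.1 RCut_smooth).2

theorem RCut_diff1 : Differentiable ℝ (deriv Real.smoothTransition) :=
  (contDiff_infty_iff_deriv.1 RCut_smooth1).1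

theorem RCut_smooth2 : ContDiff ℝ ∞ (deriv (deriv Real.smoothTransition)) :=
  (contDiff_infty_iff_deriv.1 RCut_smooth1).2

theorem RCut_zero1 {x : ℝ} (hx : x < 0 ∨ 1 < x) : deriv Real.smoothTransition x = 0 := by
  rcases hx with hx | hx
  · have : Real.smoothTransition =ᶠ[𝓝 x] fun _ => 0 := by
      filter_upwards [Iio_mem_nhds hx] with y hy
      exact Real.smoothTransition.zero_of_nonpos (le_of_lt hy)
    rw [this.deriv_eq, deriv_const]
  · have : Real.smoothTransition =ᶠ[𝓝 x] fun _ => 1 := by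
      filter_upwards [Ioi_mem_nhds hx] with y hy
      exact Real.smoothTransition.one_of_one_le (le_of_lt hy)
    rw [this.deriv_eq, deriv_const]

theorem RCut_zero2 {x : ℝ} (hx : x < 0 ∨ 1 < x) : deriv (deriv Real.smoothTransition) x = 0 := by
  rcases hx with hx | hx
  · have : deriv Real.smoothTransition =ᶠ[𝓝 x] fun _ => 0 := by
      filter_upwards [Iio_mem_nhds hx] with y hy
      exact RCut_zero1 (Or.inl hy)
    rw [this.deriv_eq, deriv_const]
  · have : deriv Real.smoothTransition =ᶠ[𝓝 x] fun _ => 0 := by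
      filter_upwards [Ioi_mem_nhds hx] with y hy
      exact RCut_zero1 (Or.inr hy)
    rw [this.deriv_eq, deriv_const]

theorem RCut_bound {h : ℝ → ℝ} (hc : Continuous h) (h0 : ∀ x, x < 0 ∨ 1 < x → h x = 0) :
    ∃ C, 0 ≤ C ∧ ∀ x, |h x| ≤ C := by
  obtain ⟨C, hC⟩ := (isCompact_Icc (a := (0 : ℝ)) (b := 1)).exists_bound_of_continuousOn
    hc.continuousOn
  refine ⟨max C 0, le_max_right _ _, fun x => ?_⟩
  by_cases hx : x < 0 ∨ 1 < x
  · rw [h0 x hx, abs_zero]
    exact le_max_right _ _
  · push Not at hx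
    exact (hC x ⟨hx.1, hx.2⟩).trans (le_max_left _ _)

theorem RCut_nonneg (x : ℝ) : 0 ≤ deriv Real.smoothTransition x := by
  have h1 := (RCut_diff x).hasDerivAt
  rw [hasDerivAt_iff_tendsto_slope] at h1
  have h2 : (𝓝[≠] x).NeBot := inferInstance
  refine ge_of_tendsto h1 ?_
  filter_upwards [self_mem_nhdsWithin] with y hy
  have hmono := Real.smoothTransition.monotone
  rw [slope_def_field]
  rcases lt_or_gt_of_ne hy with h | h
  · exact div_nonneg_of_nonpos (sub_nonpos.2 (hmono h.le)) (by linarith)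
  · exact div_nonneg (sub_nonneg.2 (hmono h.le)) (by linarith)

theorem exists_cut (t δ : ℝ) (hδ : 0 < δ) : ∃ B f f1 f2, 1 ≤ B ∧ Cut t δ B f f1 f2 := by
  obtain ⟨C1, hC1, hb1⟩ := RCut_bound (RCut_smooth1.continuous) (fun x hx => RCut_zero1 hx)
  obtain ⟨C2, hC2, hb2⟩ := RCut_bound (RCut_smooth2.continuous) (fun x hx => RCut_zero2 hx)
  have hlin : ∀ x : ℝ, HasDerivAt (fun x : ℝ => (x - t) / δ) (1 / δ) x := by
    intro x
    exact ((hasDerivAt_id x).sub_const t).div_const δ
  refine ⟨1 + C1 / δ + C2 / δ ^ 2, fun x => 1 - Real.smoothTransition ((x - t) / δ),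
    fun x => -(deriv Real.smoothTransition ((x - t) / δ) * (1 / δ)),
    fun x => -(deriv (deriv Real.smoothTransition) ((x - t) / δ) * (1 / δ) * (1 / δ)), ?_, ?_⟩
  · have : 0 ≤ C1 / δ + C2 / δ ^ 2 := by positivity
    linarith
  · refine ⟨?_, ?_, ?_, ?_, ?_, ?_, ?_, ?_, ?_, ?_⟩
    · intro x
      have h1 := (RCut_diff ((x - t) / δ)).hasDerivAt.comp x (hlin x)
      have h2 := (hasDerivAt_const x (1 : ℝ)).sub h1
      rw [zero_sub] at h2
      exact h2
    · intro x
      have h1 := (RCut_diff1 ((x - t) / δ)).hasDerivAt.comp x (hlin x)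
      exact (h1.mul_const (1 / δ)).neg
    · have h1 := RCut_smooth2.continuous
      have h2 : Continuous (fun x : ℝ => (x - t) / δ) := by fun_prop
      exact (((h1.comp h2).mul continuous_const).mul continuous_const).neg
    · intro x
      exact sub_nonneg.2 (Real.smoothTransition.le_one _)
    · intro x
      have := Real.smoothTransition.nonneg ((x - t) / δ)
      linarith
    · intro x
      have := RCut_nonneg ((x - t) / δ)
      have h2 : 0 ≤ deriv Real.smoothTransition ((x - t) / δ) * (1 / δ) := by positivity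
      linarith
    · intro x
      rw [abs_neg, abs_mul, abs_of_pos (by positivity : 0 < 1 / δ)]
      have h1 := mul_le_mul_of_nonneg_right (hb1 ((x - t) / δ)) (by positivity : 0 ≤ 1 / δ)
      have h2 : 0 ≤ C2 / δ ^ 2 := by positivity
      have h3 : C1 * (1 / δ) = C1 / δ := by ring
      linarith
    · intro x
      rw [abs_neg, abs_mul, abs_mul, abs_of_pos (by positivity : 0 < 1 / δ)]
      have h1 := mul_le_mul_of_nonneg_right (hb2 ((x - t) / δ)) (by positivity : 0 ≤ 1 / δ * (1 / δ))
      have h2 : 0 ≤ C1 / δ := by positivity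
      have h3 : C2 * (1 / δ * (1 / δ)) = C2 / δ ^ 2 := by
        field_simp
      have h4 : |deriv (deriv Real.smoothTransition) ((x - t) / δ)| * (1 / δ) * (1 / δ) =
          |deriv (deriv Real.smoothTransition) ((x - t) / δ)| * (1 / δ * (1 / δ)) := by ring
      rw [h4]
      linarith
    · intro x hx
      have : (x - t) / δ ≤ 0 := div_nonpos_of_nonpos_of_nonneg (by linarith) hδ.le
      rw [Real.smoothTransition.zero_of_nonpos this, sub_zero]
    · intro x hx
      have : 1 ≤ (x - t) / δ := by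
        rw [le_div_iff₀ hδ]
        linarith
      rw [Real.smoothTransition.one_of_one_le this, sub_self]

end SKG
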