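import Pool.Agent.Lib.MP_c42713_pr.GDefs

namespace SKG

/-- a `C^2` decreasing cut-off function with bounded derivatives -/
structure Cut (t δ B : ℝ) (f f1 f2 : ℝ → ℝ) : Prop where
  d1 : ∀ x, HasDerivAt f (f1 x) x
  d2 : ∀ x, HasDerivAt f1 (f2 x) x
  c2 : Continuous f2
  nonneg : ∀ x, 0 ≤ f x
  le_one : ∀ x, f x ≤ 1
  anti : ∀ x, f1 x ≤ 0
  b1 : ∀ x, |f1 x| ≤ B
  b2 : ∀ x, |f2 x| ≤ B
  left : ∀ x ≤ t, f x = 1
  right : ∀ x, t + δ ≤ x → f x = 0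

variable {ι κ : Type} [Fintype ι] [Fintype κ] [DecidableEq ι] [DecidableEq κ]

/-- linear functional -/
noncomputable def lf (c g : ι → ℝ) : ℝ := ∑ i, c i * g i

/-- `∏ φ(x_u)` along the family of linear functionals `c` -/
noncomputable def Ph (f : ℝ → ℝ) (c : κ → ι → ℝ) (g : ι → ℝ) : ℝ := ∏ u, f (lf (c u) g)

/-- first partial derivative -/
noncomputable def Ph1 (f f1 : ℝ → ℝ) (c : κ → ι → ℝ) (u : κ) (g : ι → ℝ) : ℝ :=
  f1 (lf (c u) g) * ∏ v ∈ Finset.univ.erase u, f (lf (c v) g)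

/-- second partial derivative -/
noncomputable def Ph2 (f f1 f2 : ℝ → ℝ) (c : κ → ι → ℝ) (u v : κ) (g : ι → ℝ) : ℝ :=
  if u = v then f2 (lf (c u) g) * ∏ w ∈ Finset.univ.erase u, f (lf (c w) g)
  else f1 (lf (c u) g) * f1 (lf (c v) g) * ∏ w ∈ (Finset.univ.erase u).erase v, f (lf (c w) g)

end SKG
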