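import Pool.Agent.Lib.MP_c42713_pr.GDefs

namespace SKG

open MeasureTheory ProbabilityTheory

/-- exponential moment of the square of a standard Gaussian -/
theorem lint_exp_sq (l : ℝ) (hl : l < 1 / 2) :
    ∫⁻ x, ENNReal.ofReal (Real.exp (l * x ^ 2)) ∂(gaussianReal 0 1) =
      ENNReal.ofReal (1 / Real.sqrt (1 - 2 * l)) := by
  have hb : 0 < 1 / 2 - l := by linarith
  rw [gaussianReal_of_var_ne_zero 0 one_ne_zero,
    lintegral_withDensity_eq_lintegral_mul _ (measurable_gaussianPDF 0 1) (by fun_prop)]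
  have h1 : ∀ x : ℝ, (gaussianPDF 0 1 * fun x => ENNReal.ofReal (Real.exp (l * x ^ 2))) x =
      ENNReal.ofReal ((Real.sqrt (2 * Real.pi))⁻¹ * Real.exp (-(1 / 2 - l) * x ^ 2)) := by
    intro x
    rw [Pi.mul_apply, gaussianPDF, ← ENNReal.ofReal_mul (gaussianPDFReal_nonneg 0 1 x)]
    congr 1
    rw [gaussianPDFReal]
    simp only [NNReal.coe_one, mul_one, sub_zero]
    rw [mul_assoc, ← Real.exp_add]
    congr 2
    ring
  simp only [h1]
  have hint : Integrable (fun x : ℝ => (Real.sqrt (2 * Real.pi))⁻¹ * Real.exp (-(1 / 2 - l) * x ^ 2)) :=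
    (integrable_exp_neg_mul_sq hb).const_mul _
  rw [← ofReal_integral_eq_lintegral_ofReal hint
    (Filter.Eventually.of_forall fun x => by positivity), integral_const_mul, integral_gaussian]
  congr 1
  have hpi := Real.pi_pos
  have e1 : Real.pi / (1 / 2 - l) = (2 * Real.pi) / (1 - 2 * l) := by
    rw [div_eq_div_iff (by linarith) (by linarith)]
    ring
  rw [e1, Real.sqrt_div (by positivity)]
  have h2 : Real.sqrt (2 * Real.pi) ≠ 0 := by positivity
  field_simp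

/-- square root comparison -/
theorem RExp_sqrt {y E : ℝ} (hy : 0 < y) (hE : 0 < E) (h : 1 ≤ E ^ 2 * y) :
    1 / Real.sqrt y ≤ E := by
  rw [div_le_iff₀ (Real.sqrt_pos.2 hy)]
  have h1 : Real.sqrt (E ^ 2 * y) = E * Real.sqrt y := by
    rw [Real.sqrt_mul (by positivity), Real.sqrt_sq hE.le]
  rw [← h1]
  exact Real.one_le_sqrt.2 h

theorem exp_up (l : ℝ) (h0 : 0 ≤ l) (h1 : l ≤ 1 / 4) :
    1 / Real.sqrt (1 - 2 * l) ≤ Real.exp (l + 2 * l ^ 2) := by
  refine RExp_sqrt (by linarith) (Real.exp_pos _) ?_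
  have e : Real.exp (l + 2 * l ^ 2) ^ 2 = Real.exp (2 * l + (2 * l) ^ 2) := by
    rw [← Real.exp_nat_mul]
    congr 1
    push_cast
    ring
  rw [e]
  set x := 2 * l with hx
  have hx0 : 0 ≤ x := by rw [hx]; linarith
  have hx1 : x ≤ 1 / 2 := by rw [hx]; linarith
  have h2 := Real.quadratic_le_exp_of_nonneg (x := x + x ^ 2) (by positivity)
  have h3 : 1 ≤ (1 + (x + x ^ 2) + (x + x ^ 2) ^ 2 / 2) * (1 - x) := by
    have h4 : (1 + (x + x ^ 2) + (x + x ^ 2) ^ 2 / 2) * (1 - x) - 1 =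
        x ^ 2 / 2 * (1 - x - x ^ 2 - x ^ 3) := by ring
    have h5 : x ^ 2 ≤ 1 / 4 := by nlinarith
    have h6 : x ^ 3 ≤ 1 / 8 := by nlinarith [mul_nonneg hx0 (sq_nonneg x)]
    have h7 : 0 ≤ x ^ 2 / 2 * (1 - x - x ^ 2 - x ^ 3) := by
      apply mul_nonneg (by positivity)
      linarith
    linarith
  refine h3.trans ?_
  exact mul_le_mul_of_nonneg_right h2 (by linarith)

theorem exp_low (l : ℝ) (h0 : 0 ≤ l) :
    1 / Real.sqrt (1 + 2 * l) ≤ Real.exp (-l + l ^ 2) := by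
  refine RExp_sqrt (by linarith) (Real.exp_pos _) ?_
  have e : Real.exp (-l + l ^ 2) ^ 2 = Real.exp (-(2 * l - (2 * l) ^ 2 / 2)) := by
    rw [← Real.exp_nat_mul]
    congr 1
    push_cast
    ring
  rw [e]
  set x := 2 * l with hx
  have hx0 : 0 ≤ x := by rw [hx]; linarith
  have h2 := Real.le_log_one_add_of_nonneg hx0
  have h3 : x - x ^ 2 / 2 ≤ Real.log (1 + x) := by
    refine le_trans ?_ h2
    rw [le_div_iff₀ (by linarith)]
    nlinarith [mul_nonneg hx0 (sq_nonneg x)]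
  have h4 : Real.exp (x - x ^ 2 / 2) ≤ 1 + x := by
    rw [← Real.exp_log (by linarith : 0 < 1 + x)]
    exact Real.exp_le_exp.2 h3
  rw [Real.exp_neg, inv_mul_eq_div, le_div_iff₀ (Real.exp_pos _), one_mul]
  exact h4

end SKG
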