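import Pool.Agent.Lib.MP_c42713_pr.RDefs

namespace SKG

open MeasureTheory ProbabilityTheory

variable {ι κ : Type} [Fintype ι] [Fintype κ] [DecidableEq ι] [DecidableEq κ]

theorem RProdD_lf (a b : ι → ℝ) (p q : ℝ) (g : ι → ℝ) :
    lf (fun i => p * b i + q * a i) g = p * lf b g + q * lf a g := by
  unfold lf
  rw [Finset.mul_sum, Finset.mul_sum, ← Finset.sum_add_distrib]
  apply Finset.sum_congr rfl
  intro i _
  ring

theorem RProdD_lf_cont (c : ι → ℝ) : Continuous (lf c) := by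
  unfold lf
  fun_prop

theorem RProdD_lf_deriv (a b : ι → ℝ) (g : ι → ℝ) (θ : ℝ) :
    HasDerivAt (fun θ : ℝ => lf (fun i => Real.cos θ * b i + Real.sin θ * a i) g)
      (lf (fun i => - Real.sin θ * b i + Real.cos θ * a i) g) θ := by
  have h1 : (fun θ : ℝ => lf (fun i => Real.cos θ * b i + Real.sin θ * a i) g) =
      fun θ : ℝ => Real.cos θ * lf b g + Real.sin θ * lf a g := by
    funext θ
    exact RProdD_lf a b _ _ g
  rw [h1, RProdD_lf]
  exact ((Real.hasDerivAt_cos θ).mul_const _).add ((Real.hasDerivAt_sin θ).mul_const _)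

theorem RProdD_int_coord (i : ι) : Integrable (fun g : ι → ℝ => g i) (stdG ι) := by
  have h1 : MeasurePreserving (Function.eval i) (stdG ι) (gaussianReal 0 1) := by
    unfold stdG
    exact measurePreserving_eval (fun _ => gaussianReal 0 1) i
  have h2 : Integrable (id : ℝ → ℝ) (gaussianReal 0 1) :=
    (memLp_id_gaussianReal (μ := 0) (v := 1) 1).integrable le_rfl
  exact h1.integrable_comp_of_integrable h2

theorem RProdD_cut_cont {t δ B : ℝ} {f f1 f2 : ℝ → ℝ} (h : Cut t δ B f f1 f2) : Continuous f :=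
  continuous_iff_continuousAt.2 fun x => (h.d1 x).continuousAt

theorem RProdD_cut_cont1 {t δ B : ℝ} {f f1 f2 : ℝ → ℝ} (h : Cut t δ B f f1 f2) : Continuous f1 :=
  continuous_iff_continuousAt.2 fun x => (h.d2 x).continuousAt

theorem RProdD_Ph_cont {t δ B : ℝ} {f f1 f2 : ℝ → ℝ} (h : Cut t δ B f f1 f2) (c : κ → ι → ℝ) :
    Continuous (Ph f c) := by
  unfold Ph
  apply continuous_finsetProd
  intro u _
  exact (RProdD_cut_cont h).comp (RProdD_lf_cont _)

theorem RProdD_Ph1_cont {t δ B : ℝ} {f f1 f2 : ℝ → ℝ} (h : Cut t δ B f f1 f2) (c : κ → ι → ℝ)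
    (u : κ) : Continuous (Ph1 f f1 c u) := by
  unfold Ph1
  apply Continuous.mul
  · exact (RProdD_cut_cont1 h).comp (RProdD_lf_cont _)
  · apply continuous_finsetProd
    intro v _
    exact (RProdD_cut_cont h).comp (RProdD_lf_cont _)

theorem RProdD_prod_bd {t δ B : ℝ} {f f1 f2 : ℝ → ℝ} (h : Cut t δ B f f1 f2) (c : κ → ι → ℝ)
    (s : Finset κ) (g : ι → ℝ) : 0 ≤ ∏ v ∈ s, f (lf (c v) g) ∧ ∏ v ∈ s, f (lf (c v) g) ≤ 1 :=
  ⟨Finset.prod_nonneg fun v _ => h.nonneg _,
    Finset.prod_le_one (fun v _ => h.nonneg _) fun v _ => h.le_one _⟩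

theorem RProdD_Ph1_bd {t δ B : ℝ} {f f1 f2 : ℝ → ℝ} (h : Cut t δ B f f1 f2) (c : κ → ι → ℝ)
    (u : κ) (g : ι → ℝ) : |Ph1 f f1 c u g| ≤ B := by
  unfold Ph1
  obtain ⟨h1, h2⟩ := RProdD_prod_bd h c (Finset.univ.erase u) g
  rw [abs_mul, abs_of_nonneg h1]
  calc |f1 (lf (c u) g)| * ∏ v ∈ Finset.univ.erase u, f (lf (c v) g)
      ≤ |f1 (lf (c u) g)| * 1 := mul_le_mul_of_nonneg_left h2 (abs_nonneg _)
    _ ≤ B := by
        rw [mul_one]
        exact h.b1 _

theorem RProdD_lf_bd {e : ι → ℝ} {K : ι → ℝ} (hK : ∀ i, |e i| ≤ K i) (g : ι → ℝ) :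
    |lf e g| ≤ ∑ i, K i * |g i| := by
  unfold lf
  refine (Finset.abs_sum_le_sum_abs _ _).trans (Finset.sum_le_sum fun i _ => ?_)
  rw [abs_mul]
  exact mul_le_mul_of_nonneg_right (hK i) (abs_nonneg _)

theorem RProdD_int_bd (K : ι → ℝ) (B : ℝ) :
    Integrable (fun g : ι → ℝ => (∑ i, K i * |g i|) * B) (stdG ι) := by
  apply Integrable.mul_const
  apply integrable_finsetSum
  intro i _
  exact (RProdD_int_coord i).abs.const_mul _

theorem RProdD_int_term {t δ B : ℝ} {f f1 f2 : ℝ → ℝ} (h : Cut t δ B f f1 f2)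
    (c : κ → ι → ℝ) (u : κ) (e : ι → ℝ) :
    Integrable (fun g => lf e g * Ph1 f f1 c u g) (stdG ι) := by
  refine (RProdD_int_bd (fun i => |e i|) B).mono' ?_ (ae_of_all _ fun g => ?_)
  · exact ((RProdD_lf_cont e).mul (RProdD_Ph1_cont h c u)).aestronglyMeasurable
  · rw [Real.norm_eq_abs, abs_mul]
    have h1 := RProdD_lf_bd (e := e) (K := fun i => |e i|) (fun i => le_rfl) g
    have h2 := RProdD_Ph1_bd h c u g
    exact mul_le_mul h1 h2 (abs_nonneg _)
      (Finset.sum_nonneg fun i _ => mul_nonneg (abs_nonneg _) (abs_nonneg _))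

/-- derivative of the interpolation -/
theorem hasDerivAt_Ph {t δ B : ℝ} {f f1 f2 : ℝ → ℝ} (hB : 1 ≤ B) (h : Cut t δ B f f1 f2)
    (a b : κ → ι → ℝ) (θ : ℝ) :
    HasDerivAt (fun θ : ℝ => ∫ g, Ph f (fun u i => Real.cos θ * b u i + Real.sin θ * a u i) g ∂(stdG ι))
      (∑ u, ∫ g, lf (fun i => - Real.sin θ * b u i + Real.cos θ * a u i) g *
        Ph1 f f1 (fun u i => Real.cos θ * b u i + Real.sin θ * a u i) u g ∂(stdG ι)) θ := by
  have hpt : ∀ (θ : ℝ) (g : ι → ℝ),
      HasDerivAt (fun θ : ℝ => Ph f (fun u i => Real.cos θ * b u i + Real.sin θ * a u i) g)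
      (∑ u, lf (fun i => - Real.sin θ * b u i + Real.cos θ * a u i) g *
        Ph1 f f1 (fun u i => Real.cos θ * b u i + Real.sin θ * a u i) u g) θ := by
    intro θ g
    have h1 : ∀ u ∈ (Finset.univ : Finset κ), HasDerivAt
        (fun θ : ℝ => f (lf (fun i => Real.cos θ * b u i + Real.sin θ * a u i) g))
        (f1 (lf (fun i => Real.cos θ * b u i + Real.sin θ * a u i) g) *
          lf (fun i => - Real.sin θ * b u i + Real.cos θ * a u i) g) θ := by
      intro u _
      exact (h.d1 _).comp θ (RProdD_lf_deriv (a u) (b u) g θ)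
    have h2 := HasDerivAt.fun_finsetProd h1
    refine h2.congr_deriv ?_
    apply Finset.sum_congr rfl
    intro u _
    unfold Ph1
    rw [smul_eq_mul]
    ring
  have hmain := hasDerivAt_integral_of_dominated_loc_of_deriv_le (μ := stdG ι) (s := Set.univ)
    (x₀ := θ)
    (F := fun θ g => Ph f (fun u i => Real.cos θ * b u i + Real.sin θ * a u i) g)
    (F' := fun θ g => ∑ u, lf (fun i => - Real.sin θ * b u i + Real.cos θ * a u i) g *
        Ph1 f f1 (fun u i => Real.cos θ * b u i + Real.sin θ * a u i) u g)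
    (bound := fun g => ∑ u, (∑ i, (|b u i| + |a u i|) * |g i|) * B) Filter.univ_mem
    (Filter.Eventually.of_forall fun θ => (RProdD_Ph_cont h _).aestronglyMeasurable)
    ?_ ?_ ?_ ?_ ?_
  · have h3 := hmain.2
    rw [integral_finsetSum] at h3
    · exact h3
    · intro u _
      exact RProdD_int_term h _ u _
  · refine (integrable_const (1 : ℝ)).mono' (RProdD_Ph_cont h _).aestronglyMeasurable
      (ae_of_all _ fun g => ?_)
    rw [Real.norm_eq_abs]
    obtain ⟨h1, h2⟩ := RProdD_prod_bd h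
      (fun u i => Real.cos θ * b u i + Real.sin θ * a u i) Finset.univ g
    unfold Ph
    rw [abs_of_nonneg h1]
    exact h2
  · apply Continuous.aestronglyMeasurable
    apply continuous_finsetSum
    intro u _
    exact (RProdD_lf_cont _).mul (RProdD_Ph1_cont h _ u)
  · refine ae_of_all _ fun g θ _ => ?_
    rw [Real.norm_eq_abs]
    refine (Finset.abs_sum_le_sum_abs _ _).trans (Finset.sum_le_sum fun u _ => ?_)
    rw [abs_mul]
    have h1 := RProdD_lf_bd (e := fun i => - Real.sin θ * b u i + Real.cos θ * a u i)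
      (K := fun i => |b u i| + |a u i|) (fun i => by
        refine (abs_add_le _ _).trans ?_
        rw [abs_mul, abs_mul, abs_neg]
        have h5 := mul_le_mul_of_nonneg_right (Real.abs_sin_le_one θ) (abs_nonneg (b u i))
        have h6 := mul_le_mul_of_nonneg_right (Real.abs_cos_le_one θ) (abs_nonneg (a u i))
        linarith) g
    exact mul_le_mul h1 (RProdD_Ph1_bd h _ u g) (abs_nonneg _)
      (Finset.sum_nonneg fun i _ => by positivity)
  · apply integrable_finsetSum
    intro u _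
    exact RProdD_int_bd _ B
  · exact ae_of_all _ fun g θ _ => hpt θ g

end SKG
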