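import Pool.Agent.Lib.MP_c42713_pr.RProd
import Pool.Agent.Lib.MP_c42713_pr.RProdD
import Pool.Agent.Lib.MP_c42713_pr.RCut

namespace SKG

open MeasureTheory ProbabilityTheory

variable {ι κ : Type} [Fintype ι] [Fintype κ] [DecidableEq ι] [DecidableEq κ]

/-- mixed second derivatives are nonnegative -/
theorem Ph2_nonneg {t δ B : ℝ} {f f1 f2 : ℝ → ℝ} (h : Cut t δ B f f1 f2)
    (c : κ → ι → ℝ) {u v : κ} (huv : u ≠ v) (g : ι → ℝ) : 0 ≤ Ph2 f f1 f2 c u v g := by
  unfold Ph2
  rw [if_neg huv]
  apply mul_nonneg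
  · exact mul_nonneg_of_nonpos_of_nonpos (h.anti _) (h.anti _)
  · exact Finset.prod_nonneg fun w _ => h.nonneg _

theorem RSlep_coef (a b : κ → ι → ℝ) (hab : ∀ u v, ∑ i, a u i * b v i = 0) (u v : κ) (p q : ℝ) :
    ∑ i, (-q * b u i + p * a u i) * (p * b v i + q * a v i) =
      q * p * (∑ i, a u i * a v i - ∑ i, b u i * b v i) := by
  have h1 : ∑ i, (-q * b u i + p * a u i) * (p * b v i + q * a v i) =
      q * p * (∑ i, a u i * a v i - ∑ i, b u i * b v i) + p ^ 2 * ∑ i, a u i * b v i -
        q ^ 2 * ∑ i, a v i * b u i := by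
    rw [mul_sub, Finset.mul_sum, Finset.mul_sum, Finset.mul_sum, Finset.mul_sum,
      ← Finset.sum_sub_distrib, ← Finset.sum_add_distrib, ← Finset.sum_sub_distrib]
    apply Finset.sum_congr rfl
    intro i _
    ring
  rw [h1, hab, hab]
  ring

/-- Slepian comparison, smooth form (the two families live on orthogonal subspaces) -/
theorem slepian_smooth {t δ B : ℝ} {f f1 f2 : ℝ → ℝ} (hB : 1 ≤ B) (h : Cut t δ B f f1 f2)
    (a b : κ → ι → ℝ) (hab : ∀ u v, ∑ i, a u i * b v i = 0)
    (hn : ∀ u, ∑ i, a u i ^ 2 = ∑ i, b u i ^ 2)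
    (hc : ∀ u v, ∑ i, b u i * b v i ≤ ∑ i, a u i * a v i) :
    ∫ g, Ph f b g ∂(stdG ι) ≤ ∫ g, Ph f a g ∂(stdG ι) := by
  set φ : ℝ → ℝ := fun θ : ℝ =>
    ∫ g, Ph f (fun u i => Real.cos θ * b u i + Real.sin θ * a u i) g ∂(stdG ι) with hφ
  have hd := fun θ => hasDerivAt_Ph hB h a b θ
  have hpi := Real.pi_pos
  have hmono : MonotoneOn φ (Set.Icc 0 (Real.pi / 2)) := by
    apply monotoneOn_of_deriv_nonneg (convex_Icc _ _)
    · intro θ _
      exact (hd θ).continuousAt.continuousWithinAt
    · intro θ _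
      exact (hd θ).differentiableAt.differentiableWithinAt
    · intro θ hθ
      rw [interior_Icc] at hθ
      have hsin : 0 ≤ Real.sin θ := Real.sin_nonneg_of_nonneg_of_le_pi hθ.1.le (by linarith [hθ.2])
      have hcos : 0 ≤ Real.cos θ := Real.cos_nonneg_of_neg_pi_div_two_le_of_le
        (by linarith [hθ.1]) hθ.2.le
      rw [(hd θ).deriv]
      apply Finset.sum_nonneg
      intro u _
      rw [(ibp_Ph hB h (fun u i => Real.cos θ * b u i + Real.sin θ * a u i) u
        (fun i => - Real.sin θ * b u i + Real.cos θ * a u i)).2]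
      apply Finset.sum_nonneg
      intro v _
      rw [RSlep_coef a b hab u v (Real.cos θ) (Real.sin θ)]
      by_cases huv : u = v
      · subst huv
        have h0 : ∑ i, a u i * a u i - ∑ i, b u i * b u i = 0 := by
          have h1 := hn u
          simp only [sq] at h1
          rw [h1, sub_self]
        rw [h0]
        simp
      · apply mul_nonneg
        · exact mul_nonneg (mul_nonneg hsin hcos) (sub_nonneg.2 (hc u v))
        · exact integral_nonneg fun g => Ph2_nonneg h _ huv g
  have h0 := hmono (Set.left_mem_Icc.2 (by linarith)) (Set.right_mem_Icc.2 (by linarith))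
    (by linarith : (0 : ℝ) ≤ Real.pi / 2)
  simp only [hφ, Real.cos_zero, Real.sin_zero, Real.cos_pi_div_two, Real.sin_pi_div_two, one_mul,
    zero_mul, add_zero, zero_add] at h0
  exact h0

/-- Slepian comparison for finite families -/
theorem slepian (a b : κ → ι → ℝ) (hab : ∀ u v, ∑ i, a u i * b v i = 0)
    (hn : ∀ u, ∑ i, a u i ^ 2 = ∑ i, b u i ^ 2)
    (hc : ∀ u v, ∑ i, b u i * b v i ≤ ∑ i, a u i * a v i) (t δ : ℝ) (hδ : 0 < δ) :
    stdG ι {g | ∀ u, ∑ i, b u i * g i ≤ t} ≤ stdG ι {g | ∀ u, ∑ i, a u i * g i ≤ t + δ} := by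
  obtain ⟨B, f, f1, f2, hB, h⟩ := exists_cut t δ hδ
  have hmain := slepian_smooth hB h a b hab hn hc
  have hcont : ∀ c : κ → ι → ℝ, Continuous (Ph f c) := fun c => RProdD_Ph_cont h c
  have hclosed : ∀ (c : κ → ι → ℝ) (s : ℝ), MeasurableSet {g : ι → ℝ | ∀ u, ∑ i, c u i * g i ≤ s} := by
    intro c s
    have : {g : ι → ℝ | ∀ u, ∑ i, c u i * g i ≤ s} = ⋂ u, {g : ι → ℝ | ∑ i, c u i * g i ≤ s} := by
      ext g
      simp
    rw [this]
    apply MeasurableSet.iInter
    intro u
    apply (isClosed_le _ continuous_const).measurableSet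
    fun_prop
  have hint : ∀ c : κ → ι → ℝ, Integrable (Ph f c) (stdG ι) := by
    intro c
    refine (integrable_const (1 : ℝ)).mono' (hcont c).aestronglyMeasurable (ae_of_all _ fun g => ?_)
    rw [Real.norm_eq_abs]
    obtain ⟨h1, h2⟩ := RProdD_prod_bd h c Finset.univ g
    unfold Ph
    rw [abs_of_nonneg h1]
    exact h2
  -- lower bound
  have h1 : (stdG ι).real {g | ∀ u, ∑ i, b u i * g i ≤ t} ≤ ∫ g, Ph f b g ∂(stdG ι) := by
    rw [← integral_indicator_one (hclosed b t)]
    apply integral_mono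
    · exact (integrable_const (1 : ℝ)).indicator (hclosed b t)
    · exact hint b
    · intro g
      by_cases hg : g ∈ {g : ι → ℝ | ∀ u, ∑ i, b u i * g i ≤ t}
      · rw [Set.indicator_of_mem hg]
        have : Ph f b g = 1 := by
          unfold Ph
          apply Finset.prod_eq_one
          intro u _
          exact h.left _ (hg u)
        rw [this]
        exact le_refl _
      · rw [Set.indicator_of_notMem hg]
        exact (RProdD_prod_bd h b Finset.univ g).1
  have h2 : ∫ g, Ph f a g ∂(stdG ι) ≤ (stdG ι).real {g | ∀ u, ∑ i, a u i * g i ≤ t + δ} := by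
    rw [← integral_indicator_one (hclosed a (t + δ))]
    apply integral_mono
    · exact hint a
    · exact (integrable_const (1 : ℝ)).indicator (hclosed a (t + δ))
    · intro g
      by_cases hg : g ∈ {g : ι → ℝ | ∀ u, ∑ i, a u i * g i ≤ t + δ}
      · rw [Set.indicator_of_mem hg]
        exact (RProdD_prod_bd h a Finset.univ g).2
      · rw [Set.indicator_of_notMem hg]
        simp only [Set.mem_ofPred_eq, not_forall, not_le] at hg
        obtain ⟨u, hu⟩ := hg
        have : Ph f a g = 0 := by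
          unfold Ph
          apply Finset.prod_eq_zero (Finset.mem_univ u)
          exact h.right _ hu.le
        rw [this]
  have h3 : (stdG ι).real {g | ∀ u, ∑ i, b u i * g i ≤ t} ≤
      (stdG ι).real {g | ∀ u, ∑ i, a u i * g i ≤ t + δ} := h1.trans (hmain.trans h2)
  exact (ENNReal.toReal_le_toReal (measure_ne_top _ _) (measure_ne_top _ _)).1 h3

end SKG
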