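import Pool.Agent.Lib.MP_c42713_pr.RVec
import Pool.Agent.Lib.MP_c42713_pr.RSlep
import Pool.Agent.Lib.MP_c42713_pr.RChern

namespace SKG

open MeasureTheory ProbabilityTheory Filter Topology

private theorem RFin_tendsto {c : ℝ} (hc : 0 < c) (a : ℝ) :
    Tendsto (fun n : ℕ => ENNReal.ofReal (Real.exp (a - n * c))) atTop (𝓝 0) := by
  have h1 : Tendsto (fun n : ℕ => (n : ℝ) * c) atTop atTop :=
    tendsto_natCast_atTop_atTop.atTop_mul_const hc
  have h2 : Tendsto (fun n : ℕ => Real.exp (-((n : ℝ) * c))) atTop (𝓝 0) :=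
    Real.tendsto_exp_neg_atTop_nhds_zero.comp h1
  have h3 : Tendsto (fun n : ℕ => Real.exp a * Real.exp (-((n : ℝ) * c))) atTop (𝓝 0) := by
    simpa using h2.const_mul (Real.exp a)
  have h4 := ENNReal.tendsto_ofReal h3
  rw [ENNReal.ofReal_zero] at h4
  refine h4.congr fun n => ?_
  rw [← Real.exp_add, sub_eq_add_neg]

/-- Chernoff for the comparison family -/
private theorem RFin_chern_q {n : ℕ} {q : Fin n → Fin n × Fin n} {p0 : Fin n × Fin n}
    (h : Low q p0) {ε : ℝ} (hε : 0 < ε) :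
    gauss n {g | (2 + ε / 2) * n ≤ 2 * ∑ i, g (q i) ^ 2} ≤
      ENNReal.ofReal (Real.exp (0 - n * (min (1 / 8) (ε / 32) * ε / 4))) := by
  classical
  set l : ℝ := min (1 / 8) (ε / 32) with hl
  have hl0 : 0 ≤ l := by rw [hl]; positivity
  have hl8 : l ≤ 1 / 8 := min_le_left _ _
  have hlε : l ≤ ε / 32 := min_le_right _ _
  set c : Fin n × Fin n → ℝ := fun p => if p ∈ Finset.univ.image q then 2 else 0 with hc
  have hsum : ∀ F : Fin n × Fin n → ℝ, ∑ p, c p * F p = 2 * ∑ i, F (q i) := by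
    intro F
    have h1 : ∑ p, c p * F p = ∑ p ∈ Finset.univ.image q, 2 * F p := by
      rw [← Finset.sum_filter_add_sum_filter_not Finset.univ (fun p => p ∈ Finset.univ.image q)]
      have h2 : ∑ p ∈ Finset.univ.filter (fun p => p ∉ Finset.univ.image q), c p * F p = 0 := by
        refine Finset.sum_eq_zero fun p hp => ?_
        simp only [hc, if_neg (Finset.mem_filter.mp hp).2, zero_mul]
      rw [h2, add_zero]
      have h3 : Finset.univ.filter (fun p => p ∈ Finset.univ.image q) = Finset.univ.image q := by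
        ext p; simp
      rw [h3]
      refine Finset.sum_congr rfl fun p hp => ?_
      simp only [hc, if_pos hp]
    rw [h1, Finset.sum_image (fun a _ b _ hab => h.inj hab), Finset.mul_sum]
  have hc0 : ∀ p, 0 ≤ c p := by
    intro p; simp only [hc]; split_ifs <;> norm_num
  have hc2 : ∀ p, c p ≤ 2 := by
    intro p; simp only [hc]; split_ifs <;> norm_num
  have hs1 : ∑ p, c p = 2 * n := by
    have := hsum (fun _ => 1)
    simpa using this
  have hs2 : ∑ p, c p ^ 2 = 4 * n := by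
    have h1 : ∑ p, c p ^ 2 = ∑ p, c p * 2 := by
      refine Finset.sum_congr rfl fun p _ => ?_
      simp only [hc]
      split_ifs <;> norm_num
    rw [h1, ← Finset.sum_mul, hs1]
    ring
  have h1 := chern_up c hc0 hc2 l hl0 hl8 ((2 + ε / 2) * n)
  rw [hs1, hs2] at h1
  rw [gauss_eq]
  have h2 : {g : Fin n × Fin n → ℝ | (2 + ε / 2) * n ≤ 2 * ∑ i, g (q i) ^ 2} =
      {g | (2 + ε / 2) * n ≤ ∑ p, c p * g p ^ 2} := by
    ext g
    simp only [Set.mem_ofPred_eq]
    rw [hsum (fun p => g p ^ 2)]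
  rw [h2]
  refine h1.trans (ENNReal.ofReal_le_ofReal (Real.exp_le_exp.mpr ?_))
  have hn0 : (0 : ℝ) ≤ n := Nat.cast_nonneg n
  have h3 : 0 ≤ (n : ℝ) * l * (ε / 32 - l) := by
    have : 0 ≤ ε / 32 - l := by linarith
    positivity
  nlinarith

private theorem RFin_chern_p (n : ℕ) (p0 : Fin n × Fin n) (ε : ℝ) :
    gauss n {g | ε ^ 2 * n / 8 ≤ g p0 ^ 2} ≤
      ENNReal.ofReal (Real.exp (1 - n * (ε ^ 2 / 64))) := by
  classical
  set c : Fin n × Fin n → ℝ := fun p => if p = p0 then 1 else 0 with hc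
  have hc0 : ∀ p, 0 ≤ c p := by
    intro p; simp only [hc]; split_ifs <;> norm_num
  have hc2 : ∀ p, c p ≤ 2 := by
    intro p; simp only [hc]; split_ifs <;> norm_num
  have hs1 : ∑ p, c p = 1 := by simp [hc]
  have hs2 : ∑ p, c p ^ 2 = 1 := by simp [hc]
  have h1 := chern_up c hc0 hc2 (1 / 8) (by norm_num) le_rfl (ε ^ 2 * n / 8)
  rw [hs1, hs2] at h1
  rw [gauss_eq]
  have h2 : {g : Fin n × Fin n → ℝ | ε ^ 2 * n / 8 ≤ g p0 ^ 2} =
      {g | ε ^ 2 * n / 8 ≤ ∑ p, c p * g p ^ 2} := by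
    ext g
    simp only [Set.mem_ofPred_eq]
    simp [hc]
  rw [h2]
  refine h1.trans (ENNReal.ofReal_le_ofReal (Real.exp_le_exp.mpr ?_))
  have h3 : -(1 / 8 * (ε ^ 2 * n / 8)) + 1 / 8 * 1 + 2 * (1 / 8) ^ 2 * 1 =
      5 / 32 - n * (ε ^ 2 / 64) := by ring
  rw [h3]
  linarith

/-- upper bound for the quadratic form of GOE on finite sets of unit vectors; the failure
probability does not depend on the finite set -/
theorem goe_finite (ε : ℝ) (hε : 0 < ε) :
    ∃ p : ℕ → ENNReal, Tendsto p atTop (𝓝 0) ∧ ∀ n, 4 ≤ n → ∀ (m : ℕ) (U : Fin m → Fin n → ℝ),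
      (∀ k, ∑ i, U k i ^ 2 = 1) →
      gauss n {g | ∃ k, 2 + ε < ∑ i, ∑ j, goe n g i j * U k i * U k j} ≤ p n := by
  classical
  refine ⟨fun n => ENNReal.ofReal (Real.exp (0 - n * (min (1 / 8) (ε / 32) * ε / 4))) +
    ENNReal.ofReal (Real.exp (1 - n * (ε ^ 2 / 64))), ?_, ?_⟩
  · have h1 := RFin_tendsto (c := min (1 / 8) (ε / 32) * ε / 4) (by positivity) 0
    have h2 := RFin_tendsto (c := ε ^ 2 / 64) (by positivity) 1
    simpa using h1.add h2
  · intro n hn m U hU
    obtain ⟨q, p0, h⟩ := exists_low hn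
    have hn0 : (0 : ℝ) < n := by
      have : 0 < n := by omega
      exact_mod_cast this
    set r : ℝ := Real.sqrt (n / 2) with hr
    have hr0 : 0 < r := Real.sqrt_pos.mpr (by positivity)
    have hr2 : r ^ 2 = n / 2 := Real.sq_sqrt (by positivity)
    have hrr : Real.sqrt (2 / n) * r = 1 := by
      rw [hr, ← Real.sqrt_mul (by positivity)]
      have : (2 / (n : ℝ)) * (n / 2) = 1 := by field_simp
      rw [this, Real.sqrt_one]
    have hr'0 : 0 ≤ Real.sqrt (2 / n) := Real.sqrt_nonneg _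
    set A : Set (Smp n) := {g | ∀ k, ∑ p, va p0 (U k) p * g p ≤ (2 + ε / 4) * r + ε / 4 * r}
      with hA
    set B : Set (Smp n) := {g | ∀ k, ∑ p, vb q (U k) p * g p ≤ (2 + ε / 4) * r} with hB
    have hmeas : ∀ (a : Fin m → Fin n × Fin n → ℝ) (t : ℝ),
        MeasurableSet {g : Smp n | ∀ k, ∑ p, a k p * g p ≤ t} := by
      intro a t
      have h1 : {g : Smp n | ∀ k, ∑ p, a k p * g p ≤ t} = ⋂ k, {g : Smp n | ∑ p, a k p * g p ≤ t} := by
        ext g; simp
      rw [h1]
      refine MeasurableSet.iInter fun k => ?_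
      refine measurableSet_le ?_ measurable_const
      exact Finset.measurable_sum _ fun p _ => (measurable_pi_apply p).const_mul _
    have hAm : MeasurableSet A := hmeas _ _
    have hBm : MeasurableSet B := hmeas _ _
    have hBA : gauss n B ≤ gauss n A := by
      rw [gauss_eq]
      refine slepian (fun k => va p0 (U k)) (fun k => vb q (U k))
        (fun u v => vab_inner h (U u) (U v)) (fun u => ?_) (fun u v => ?_)
        ((2 + ε / 4) * r) (ε / 4 * r) (by positivity)
      · have h1 := va_inner h (U u) (U u)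
        have h2 := vb_inner h (U u) (U u)
        have h3 : ∑ i, U u i * U u i = 1 := by
          rw [← hU u]
          exact Finset.sum_congr rfl fun i _ => by ring
        rw [h3] at h1 h2
        simp only [← pow_two] at h1 h2
        rw [h1, h2]
        norm_num
      · rw [va_inner h, vb_inner h]
        nlinarith [sq_nonneg (∑ i, U u i * U v i - 1)]
    have hBc : Bᶜ ⊆ {g | (2 + ε / 2) * n ≤ 2 * ∑ i, g (q i) ^ 2} := by
      intro g hg
      by_contra hcon
      apply hg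
      intro k
      simp only [Set.mem_ofPred_eq, not_le] at hcon
      refine vb_le h (U k) (hU k) g ((2 + ε / 4) * r) (by positivity) ?_
      refine hcon.le.trans ?_
      rw [mul_pow, hr2]
      nlinarith [mul_pos hε hε, mul_pos (mul_pos hε hε) hn0]
    have hsub : {g : Smp n | ∃ k, 2 + ε < ∑ i, ∑ j, goe n g i j * U k i * U k j} ⊆
        Aᶜ ∪ {g | ε ^ 2 * n / 8 ≤ g p0 ^ 2} := by
      rintro g ⟨k, hk⟩
      by_contra hcon
      rw [Set.mem_union, not_or, Set.notMem_compl_iff] at hcon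
      obtain ⟨h1, h2⟩ := hcon
      have h3 := h1 k
      simp only [Set.mem_ofPred_eq, not_le] at h2
      have h4 : g p0 ^ 2 < (ε / 2 * r) ^ 2 := by
        rw [mul_pow, hr2]
        calc g p0 ^ 2 < ε ^ 2 * n / 8 := h2
          _ = (ε / 2) ^ 2 * (n / 2) := by ring
      have h5 := abs_lt_of_sq_lt_sq h4 (by positivity)
      have h6 : -(ε / 2 * r) < g p0 := (abs_lt.mp h5).1
      rw [goe_form h] at hk
      have h7 : ∑ p, va p0 (U k) p * g p - g p0 ≤ (2 + ε) * r := by
        have : (2 + ε / 4) * r + ε / 4 * r + ε / 2 * r = (2 + ε) * r := by ring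
        linarith
      have h8 : Real.sqrt (2 / n) * (∑ p, va p0 (U k) p * g p - g p0) ≤ 2 + ε := by
        calc _ ≤ Real.sqrt (2 / n) * ((2 + ε) * r) := mul_le_mul_of_nonneg_left h7 hr'0
          _ = (2 + ε) * (Real.sqrt (2 / n) * r) := by ring
          _ = 2 + ε := by rw [hrr, mul_one]
      linarith
    have hAc : gauss n Aᶜ ≤ gauss n Bᶜ := by
      rw [prob_compl_eq_one_sub hAm, prob_compl_eq_one_sub hBm]
      exact tsub_le_tsub_left hBA 1
    calc gauss n {g : Smp n | ∃ k, 2 + ε < ∑ i, ∑ j, goe n g i j * U k i * U k j}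
        ≤ gauss n (Aᶜ ∪ {g | ε ^ 2 * n / 8 ≤ g p0 ^ 2}) := measure_mono hsub
      _ ≤ gauss n Aᶜ + gauss n {g | ε ^ 2 * n / 8 ≤ g p0 ^ 2} := measure_union_le _ _
      _ ≤ gauss n {g | (2 + ε / 2) * n ≤ 2 * ∑ i, g (q i) ^ 2} +
          gauss n {g | ε ^ 2 * n / 8 ≤ g p0 ^ 2} := by
          exact add_le_add (hAc.trans (measure_mono hBc)) le_rfl
      _ ≤ _ := add_le_add (RFin_chern_q h hε) (RFin_chern_p n p0 ε)

end SKG
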