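import Pool.Agent.Lib.MP_c42713_pr.RIbpA

namespace SKG

open MeasureTheory ProbabilityTheory

theorem RIbp_meas {ι : Type} [Fintype ι] [DecidableEq ι] (i : ι) :
    Measurable (fun p : (ι → ℝ) × ℝ => Function.update p.1 i p.2) := by
  rw [measurable_pi_iff]
  intro j
  by_cases h : j = i
  · subst h
    simp only [Function.update_self]
    exact measurable_snd
  · simp only [Function.update_of_ne h]
    exact (measurable_pi_apply j).comp measurable_fst

/-- resampling one coordinate -/
theorem map_update {ι : Type} [Fintype ι] [DecidableEq ι] (i : ι) :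
    ((stdG ι).prod (gaussianReal 0 1)).map (fun p => Function.update p.1 i p.2) = stdG ι := by
  symm
  refine Measure.pi_eq (fun s hs => ?_)
  rw [Measure.map_apply (RIbp_meas i) (MeasurableSet.univ_pi hs)]
  have h1 : (fun p : (ι → ℝ) × ℝ => Function.update p.1 i p.2) ⁻¹' (Set.univ.pi s) =
      (Set.univ.pi (Function.update s i Set.univ)) ×ˢ (s i) := by
    ext p
    simp only [Set.mem_preimage, Set.mem_pi, Set.mem_univ, forall_true_left, Set.mem_prod]
    constructor
    · intro h
      refine ⟨fun j => ?_, ?_⟩
      · by_cases hj : j = i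
        · subst hj
          rw [Function.update_self]
          exact Set.mem_univ _
        · rw [Function.update_of_ne hj]
          have := h j
          rwa [Function.update_of_ne hj] at this
      · have := h i
        rwa [Function.update_self] at this
    · rintro ⟨h, h'⟩ j
      by_cases hj : j = i
      · subst hj
        rw [Function.update_self]
        exact h'
      · have := h j
        rw [Function.update_of_ne hj] at this
        rwa [Function.update_of_ne hj]
  rw [h1, Measure.prod_prod, stdG, Measure.pi_pi, ← Finset.mul_prod_erase Finset.univ _ (Finset.mem_univ i),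
    ← Finset.mul_prod_erase Finset.univ (fun j => (gaussianReal 0 1) (s j)) (Finset.mem_univ i),
    Function.update_self, measure_univ, one_mul, mul_comm]
  congr 1
  refine Finset.prod_congr rfl (fun j hj => ?_)
  rw [Function.update_of_ne (Finset.ne_of_mem_erase hj)]

theorem RIbp_int {ι : Type} [Fintype ι] [DecidableEq ι] (i : ι) (H : (ι → ℝ) → ℝ) (hH : Continuous H)
    (hi : Integrable H (stdG ι)) :
    ∫ g, H g ∂(stdG ι) = ∫ g, ∫ x, H (Function.update g i x) ∂(gaussianReal 0 1) ∂(stdG ι) := by
  conv_lhs => rw [← map_update i]
  rw [integral_map (RIbp_meas i).aemeasurable hH.aestronglyMeasurable]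
  have h1 : Integrable (fun p : (ι → ℝ) × ℝ => H (Function.update p.1 i p.2))
      ((stdG ι).prod (gaussianReal 0 1)) := by
    rw [← map_update i] at hi
    exact (integrable_map_measure hH.aestronglyMeasurable (RIbp_meas i).aemeasurable).1 hi
  rw [integral_prod _ h1]

theorem RIbp_coord {ι : Type} [Fintype ι] (i : ι) : Integrable (fun g : ι → ℝ => g i) (stdG ι) := by
  have h1 : Integrable (fun x : ℝ => x) (gaussianReal 0 1) :=
    (memLp_id_gaussianReal (μ := 0) (v := 1) 1).integrable (le_refl _)
  have h2 := measurePreserving_eval (fun _ : ι => gaussianReal 0 1) i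
  exact h2.integrable_comp_of_integrable h1

/-- Gaussian integration by parts on `ι → ℝ` -/
theorem ibp_pi {ι : Type} [Fintype ι] [DecidableEq ι] (i : ι) (F F' : (ι → ℝ) → ℝ)
    (hF : Continuous F) (hF' : Continuous F')
    (hd : ∀ g, HasDerivAt (fun s => F (Function.update g i s)) (F' g) (g i)) (B : ℝ)
    (hB : ∀ g, |F g| ≤ B) (hB' : ∀ g, |F' g| ≤ B) :
    Integrable (fun g => g i * F g) (stdG ι) ∧
      ∫ g, g i * F g ∂(stdG ι) = ∫ g, F' g ∂(stdG ι) := by
  have hc1 : Continuous (fun g : ι → ℝ => g i * F g) := (continuous_apply i).mul hF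
  have h1 : Integrable (fun g : ι → ℝ => g i * F g) (stdG ι) := by
    refine Integrable.mono' ((RIbp_coord i).norm.const_mul B) hc1.aestronglyMeasurable ?_
    refine Filter.Eventually.of_forall (fun g => ?_)
    rw [norm_mul, mul_comm]
    exact mul_le_mul_of_nonneg_right (hB g) (norm_nonneg _)
  have h2 : Integrable F' (stdG ι) := by
    refine Integrable.mono' (integrable_const B) hF'.aestronglyMeasurable ?_
    exact Filter.Eventually.of_forall (fun g => hB' g)
  refine ⟨h1, ?_⟩
  rw [RIbp_int i _ hc1 h1, RIbp_int i _ hF' h2]
  refine integral_congr_ae (Filter.Eventually.of_forall (fun g => ?_))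
  simp only [Function.update_self]
  have hcu : Continuous (fun x : ℝ => Function.update g i x) := continuous_const.update i continuous_id
  refine ibp_real (fun x => F (Function.update g i x)) (fun x => F' (Function.update g i x)) ?_
    (hF'.comp hcu) B (fun x => hB _) (fun x => hB' _)
  intro x
  have h3 := hd (Function.update g i x)
  simp only [Function.update_idem, Function.update_self] at h3
  exact h3

end SKG
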