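import Pool.Agent.Lib.MP_c42713_pr.GDefs

namespace SKG

open MeasureTheory ProbabilityTheory

theorem RIbpA_pdf (x : ℝ) : gaussianPDFReal 0 1 x = (√(2 * Real.pi))⁻¹ * Real.exp (-(1 / 2) * x ^ 2) := by
  unfold gaussianPDFReal
  simp only [NNReal.coe_one, mul_one, sub_zero]
  congr 2
  ring

theorem RIbpA_deriv (x : ℝ) :
    HasDerivAt (gaussianPDFReal 0 1) (-(x * gaussianPDFReal 0 1 x)) x := by
  have h1 : gaussianPDFReal 0 1 = fun x : ℝ => (√(2 * Real.pi))⁻¹ * Real.exp (-(1 / 2) * x ^ 2) := by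
    funext y
    exact RIbpA_pdf y
  have h2 : HasDerivAt (fun y : ℝ => -(1 / 2) * y ^ 2) (-(1 / 2) * (2 * x)) x := by
    have := (hasDerivAt_pow 2 x).const_mul (-(1 / 2 : ℝ))
    simpa using this
  have h3 := (h2.exp).const_mul ((√(2 * Real.pi))⁻¹)
  rw [h1]
  refine h3.congr_deriv ?_
  simp only
  ring

theorem RIbpA_int : Integrable (fun x : ℝ => x * gaussianPDFReal 0 1 x) := by
  have h1 := (integrable_mul_exp_neg_mul_sq (b := 1 / 2) (by norm_num)).const_mul
    ((√(2 * Real.pi))⁻¹)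
  refine h1.congr (ae_of_all _ fun x => ?_)
  simp only
  rw [RIbpA_pdf]
  ring

/-- Gaussian integration by parts on the line -/
theorem ibp_real (f f' : ℝ → ℝ) (hf : ∀ x, HasDerivAt f (f' x) x) (hc : Continuous f') (B : ℝ)
    (hB : ∀ x, |f x| ≤ B) (hB' : ∀ x, |f' x| ≤ B) :
    ∫ x, x * f x ∂(gaussianReal 0 1) = ∫ x, f' x ∂(gaussianReal 0 1) := by
  have hfc : Continuous f := continuous_iff_continuousAt.2 fun x => (hf x).continuousAt
  have hφ : Integrable (gaussianPDFReal 0 1) := integrable_gaussianPDFReal 0 1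
  have hu1 : Integrable (f * fun x => -(x * gaussianPDFReal 0 1 x)) := by
    apply RIbpA_int.neg.bdd_mul (c := B) hfc.aestronglyMeasurable
    exact ae_of_all _ fun x => by
      rw [Real.norm_eq_abs]
      exact hB x
  have hu2 : Integrable (f' * gaussianPDFReal 0 1) := by
    apply hφ.bdd_mul (c := B) hc.aestronglyMeasurable
    exact ae_of_all _ fun x => by
      rw [Real.norm_eq_abs]
      exact hB' x
  have hu3 : Integrable (f * gaussianPDFReal 0 1) := by
    apply hφ.bdd_mul (c := B) hfc.aestronglyMeasurable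
    exact ae_of_all _ fun x => by
      rw [Real.norm_eq_abs]
      exact hB x
  have key := integral_mul_deriv_eq_deriv_mul_of_integrable (u := f) (v := gaussianPDFReal 0 1)
    (u' := f') (v' := fun x => -(x * gaussianPDFReal 0 1 x)) (fun x _ => hf x)
    (fun x _ => RIbpA_deriv x) hu1 hu2 hu3
  rw [integral_gaussianReal_eq_integral_smul one_ne_zero,
    integral_gaussianReal_eq_integral_smul one_ne_zero]
  have e1 : (∫ x : ℝ, gaussianPDFReal 0 1 x • (x * f x)) =
      -∫ x : ℝ, f x * -(x * gaussianPDFReal 0 1 x) := by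
    rw [← integral_neg]
    congr 1
    funext x
    simp only [smul_eq_mul]
    ring
  have e2 : (∫ x : ℝ, gaussianPDFReal 0 1 x • f' x) = ∫ x : ℝ, f' x * gaussianPDFReal 0 1 x := by
    congr 1
    funext x
    simp only [smul_eq_mul]
    ring
  rw [e1, e2, key, neg_neg]

end SKG
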