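import Pool.Agent.Lib.MP_c42713_pr.GDefs

namespace SKG

open MeasureTheory ProbabilityTheory

private theorem RNeg_pres (n : ℕ) : MeasurePreserving (fun (g : Smp n) => -g) (gauss n) (gauss n) := by
  have h : MeasurePreserving (fun x : ℝ => -x) (gaussianReal 0 1) (gaussianReal 0 1) := by
    refine ⟨measurable_neg, ?_⟩
    rw [gaussianReal_map_neg, neg_zero]
  exact measurePreserving_pi (fun _ : Fin n × Fin n => gaussianReal 0 1) (fun _ => gaussianReal 0 1)
    (fun _ => h)

/-- symmetry of the Gaussian measure -/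
theorem gauss_neg (n : ℕ) (s : Set (Smp n)) : gauss n {g | -g ∈ s} = gauss n s := by
  have h : MeasurePreserving (MeasurableEquiv.neg (Smp n)) (gauss n) (gauss n) := RNeg_pres n
  exact h.measure_preimage_equiv s

theorem goe_neg (n : ℕ) (g : Smp n) (i j : Fin n) : goe n (-g) i j = - goe n g i j := by
  unfold goe
  simp only [Pi.neg_apply]
  split_ifs <;> ring

theorem goe_symm (n : ℕ) (g : Smp n) : (goe n g).IsSymm := by
  ext i j
  rw [Matrix.transpose_apply]
  unfold goe
  rcases lt_trichotomy i j with h | h | h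
  · rw [if_neg h.ne', if_neg (not_lt.2 h.le), if_neg h.ne, if_pos h]
  · subst h
    rfl
  · rw [if_neg h.ne, if_pos h, if_neg h.ne', if_neg (not_lt.2 h.le)]

end SKG
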