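import Pool.Agent.Lib.MP_c42713_pr.GDefs

namespace SKG

variable {n : ℕ}

/-- finite nets of the unit sphere -/
theorem exists_net (n : ℕ) (δ : ℝ) (hδ : 0 < δ) :
    ∃ (m : ℕ) (U : Fin m → Fin n → ℝ), (∀ k, ∑ i, U k i ^ 2 = 1) ∧
      ∀ v : Fin n → ℝ, ∑ i, v i ^ 2 = 1 → ∃ k, ∑ i, (v i - U k i) ^ 2 ≤ δ ^ 2 := by
  have hc : IsCompact (Metric.sphere (0 : EuclideanSpace ℝ (Fin n)) 1) := isCompact_sphere _ _
  obtain ⟨t, hts, htf, hcov⟩ := hc.finite_cover_balls hδ
  let e := htf.toFinset.equivFin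
  refine ⟨htf.toFinset.card, fun k i => (e.symm k).1 i, ?_, ?_⟩
  · intro k
    have h1 : (e.symm k).1 ∈ t := (Set.Finite.mem_toFinset htf).1 (e.symm k).2
    have h2 := hts h1
    rw [mem_sphere_zero_iff_norm] at h2
    have h3 := EuclideanSpace.norm_sq_eq (e.symm k).1
    rw [h2] at h3
    simp only [Real.norm_eq_abs, sq_abs] at h3
    rw [← h3]; norm_num
  · intro v hv
    have h1 : (WithLp.toLp 2 v : EuclideanSpace ℝ (Fin n)) ∈
        Metric.sphere (0 : EuclideanSpace ℝ (Fin n)) 1 := by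
      rw [mem_sphere_zero_iff_norm]
      have h3 := EuclideanSpace.norm_sq_eq (WithLp.toLp 2 v : EuclideanSpace ℝ (Fin n))
      simp only [Real.norm_eq_abs, sq_abs] at h3
      have h4 : ‖(WithLp.toLp 2 v : EuclideanSpace ℝ (Fin n))‖ ^ 2 = 1 := by
        rw [h3]; exact hv
      have h5 : 0 ≤ ‖(WithLp.toLp 2 v : EuclideanSpace ℝ (Fin n))‖ := norm_nonneg _
      nlinarith
    have h2 := hcov h1
    simp only [Set.mem_iUnion, Metric.mem_ball, exists_prop] at h2
    obtain ⟨x, hx, hd⟩ := h2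
    refine ⟨e ⟨x, (Set.Finite.mem_toFinset htf).2 hx⟩, ?_⟩
    rw [EuclideanSpace.dist_eq] at hd
    have h6 : ∑ i, (v i - x i) ^ 2 < δ ^ 2 := by
      have := (Real.sqrt_lt' hδ).1 hd
      simpa [Real.dist_eq, sq_abs] using this
    simp only [Equiv.symm_apply_apply]
    exact h6.le

private def RNet_B (W : Matrix (Fin n) (Fin n) ℝ) (x y : Fin n → ℝ) : ℝ :=
  ∑ i, ∑ j, W i j * x i * y j

private theorem RNet_symm (W : Matrix (Fin n) (Fin n) ℝ) (hW : W.IsSymm) (x y : Fin n → ℝ) :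
    RNet_B W x y = RNet_B W y x := by
  unfold RNet_B
  rw [Finset.sum_comm]
  apply Finset.sum_congr rfl
  intro i _
  apply Finset.sum_congr rfl
  intro j _
  rw [hW.apply i j]
  ring

private theorem RNet_add_left (W : Matrix (Fin n) (Fin n) ℝ) (x x' y : Fin n → ℝ) :
    RNet_B W (fun i => x i + x' i) y = RNet_B W x y + RNet_B W x' y := by
  unfold RNet_B
  rw [← Finset.sum_add_distrib]
  apply Finset.sum_congr rfl
  intro i _
  rw [← Finset.sum_add_distrib]
  apply Finset.sum_congr rfl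
  intro j _
  ring

private theorem RNet_smul_left (W : Matrix (Fin n) (Fin n) ℝ) (a : ℝ) (x y : Fin n → ℝ) :
    RNet_B W (fun i => a * x i) y = a * RNet_B W x y := by
  unfold RNet_B
  rw [Finset.mul_sum]
  apply Finset.sum_congr rfl
  intro i _
  rw [Finset.mul_sum]
  apply Finset.sum_congr rfl
  intro j _
  ring

private theorem RNet_lin (W : Matrix (Fin n) (Fin n) ℝ) (hW : W.IsSymm) (a b : ℝ)
    (x y : Fin n → ℝ) :
    RNet_B W (fun i => a * x i + b * y i) (fun i => a * x i + b * y i)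
      = a ^ 2 * RNet_B W x x + 2 * a * b * RNet_B W x y + b ^ 2 * RNet_B W y y := by
  have e1 := RNet_add_left W (fun i => a * x i) (fun i => b * y i)
    (fun i => a * x i + b * y i)
  have e2 : ∀ z, RNet_B W z (fun i => a * x i + b * y i)
      = a * RNet_B W z x + b * RNet_B W z y := by
    intro z
    rw [RNet_symm W hW z, RNet_add_left W (fun i => a * x i) (fun i => b * y i),
      RNet_smul_left, RNet_smul_left, RNet_symm W hW x z, RNet_symm W hW y z]
  rw [e1, RNet_smul_left, RNet_smul_left, e2, e2, RNet_symm W hW y x]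
  ring

/-- from a net to the whole sphere -/
theorem net_norm (W : Matrix (Fin n) (Fin n) ℝ) (hW : W.IsSymm) (δ c : ℝ) (hδ : 0 < δ)
    (hδ1 : δ < 1 / 2) (m : ℕ) (U : Fin m → Fin n → ℝ) (hU : ∀ k, ∑ i, U k i ^ 2 = 1)
    (hnet : ∀ v : Fin n → ℝ, ∑ i, v i ^ 2 = 1 → ∃ k, ∑ i, (v i - U k i) ^ 2 ≤ δ ^ 2)
    (h : ∀ k, |∑ i, ∑ j, W i j * U k i * U k j| ≤ c) (v : Fin n → ℝ) :
    (1 - 2 * δ) * |∑ i, ∑ j, W i j * v i * v j| ≤ c * ∑ i, v i ^ 2 := by
  change (1 - 2 * δ) * |RNet_B W v v| ≤ c * ∑ i, v i ^ 2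
  by_cases hv : ∀ i, v i = 0
  · have e1 : RNet_B W v v = 0 := by
      unfold RNet_B
      apply Finset.sum_eq_zero
      intro i _
      apply Finset.sum_eq_zero
      intro j _
      rw [hv i]; ring
    have e2 : ∑ i, v i ^ 2 = 0 := by
      apply Finset.sum_eq_zero
      intro i _
      rw [hv i]; ring
    rw [e1, e2]; simp
  push Not at hv
  obtain ⟨i0, hi0⟩ := hv
  -- the maximum on the sphere
  set K : Set (Fin n → ℝ) := {u | ∑ i, u i ^ 2 = 1} with hK
  have hKc : IsCompact K := by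
    apply Metric.isCompact_of_isClosed_isBounded
    · exact isClosed_eq (by fun_prop) continuous_const
    · rw [Metric.isBounded_iff_subset_closedBall 0]
      refine ⟨1, fun u hu => ?_⟩
      rw [mem_closedBall_zero_iff, pi_norm_le_iff_of_nonneg zero_le_one]
      intro i
      have h1 : u i ^ 2 ≤ ∑ i, u i ^ 2 :=
        Finset.single_le_sum (f := fun i => u i ^ 2) (fun j _ => sq_nonneg _)
          (Finset.mem_univ i)
      have h2 : ∑ i, u i ^ 2 = 1 := hu
      rw [Real.norm_eq_abs]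
      rw [abs_le]
      constructor <;> nlinarith
  have hpos : ∀ w : Fin n → ℝ, w i0 ≠ 0 → 0 < ∑ i, w i ^ 2 := by
    intro w hw
    have h1 : w i0 ^ 2 ≤ ∑ i, w i ^ 2 :=
      Finset.single_le_sum (f := fun i => w i ^ 2) (fun j _ => sq_nonneg _)
        (Finset.mem_univ i0)
    have h2 : 0 < w i0 ^ 2 := by positivity
    linarith
  have hKne : K.Nonempty := by
    refine ⟨fun i => if i = i0 then 1 else 0, ?_⟩
    change ∑ i, (if i = i0 then (1 : ℝ) else 0) ^ 2 = 1
    rw [Finset.sum_eq_single i0]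
    · simp
    · intro j _ hj; simp [hj]
    · intro hh; exact absurd (Finset.mem_univ _) hh
  obtain ⟨v0, hv0, hmax⟩ := hKc.exists_isMaxOn hKne
    (f := fun u => |RNet_B W u u|) (by
      apply Continuous.continuousOn
      unfold RNet_B
      fun_prop)
  set M : ℝ := |RNet_B W v0 v0| with hM
  have hMn : 0 ≤ M := abs_nonneg _
  have hmax' : ∀ u ∈ K, |RNet_B W u u| ≤ M := fun u hu => hmax hu
  -- the bound for all vectors
  have hall : ∀ w : Fin n → ℝ, |RNet_B W w w| ≤ M * ∑ i, w i ^ 2 := by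
    intro w
    rcases (Finset.sum_nonneg (fun i _ => sq_nonneg (w i)) :
      0 ≤ ∑ i, w i ^ 2).eq_or_lt with h0 | h0
    · have hw0 : ∀ i, w i = 0 := by
        intro i
        have := (Finset.sum_eq_zero_iff_of_nonneg
          (fun i _ => sq_nonneg (w i))).1 h0.symm i (Finset.mem_univ i)
        exact pow_eq_zero_iff (two_ne_zero) |>.1 this
      have e1 : RNet_B W w w = 0 := by
        unfold RNet_B
        apply Finset.sum_eq_zero
        intro i _
        apply Finset.sum_eq_zero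
        intro j _
        rw [hw0 i]; ring
      rw [e1, ← h0]; simp
    · set s : ℝ := Real.sqrt (∑ i, w i ^ 2) with hs
      have hs0 : 0 < s := Real.sqrt_pos.2 h0
      have hs2 : s ^ 2 = ∑ i, w i ^ 2 := Real.sq_sqrt h0.le
      have hu : (fun i => s⁻¹ * w i) ∈ K := by
        change ∑ i, (s⁻¹ * w i) ^ 2 = 1
        have : ∑ i, (s⁻¹ * w i) ^ 2 = (s⁻¹) ^ 2 * ∑ i, w i ^ 2 := by
          rw [Finset.mul_sum]
          apply Finset.sum_congr rfl
          intro i _; ring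
        rw [this, ← hs2]
        field_simp
      have h1 := hmax' _ hu
      have h2 := RNet_lin W hW s⁻¹ 0 w w
      simp only [zero_mul, add_zero, mul_zero, ne_eq, OfNat.ofNat_ne_zero, not_false_eq_true,
        zero_pow] at h2
      rw [h2, abs_mul, abs_of_nonneg (by positivity : 0 ≤ (s⁻¹) ^ 2)] at h1
      rw [← hs2]
      have h3 : |RNet_B W w w| = s ^ 2 * ((s⁻¹) ^ 2 * |RNet_B W w w|) := by
        field_simp
      rw [h3]
      calc s ^ 2 * ((s⁻¹) ^ 2 * |RNet_B W w w|) ≤ s ^ 2 * M := by gcongr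
        _ = M * s ^ 2 := by ring
  -- compare with the net
  obtain ⟨k, hk⟩ := hnet v0 hv0
  have hv0' : ∑ i, v0 i ^ 2 = 1 := hv0
  have hx : ∑ i, (v0 i - U k i) ^ 2 = 2 - 2 * ∑ i, v0 i * U k i := by
    have : ∑ i, (v0 i - U k i) ^ 2
        = ∑ i, v0 i ^ 2 + ∑ i, U k i ^ 2 - 2 * ∑ i, v0 i * U k i := by
      rw [Finset.mul_sum, ← Finset.sum_add_distrib, ← Finset.sum_sub_distrib]
      apply Finset.sum_congr rfl
      intro i _; ring
    rw [this, hv0', hU k]; ring
  have hn0 : 0 ≤ ∑ i, (v0 i - U k i) ^ 2 := Finset.sum_nonneg (fun i _ => sq_nonneg _)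
  have hcomb : ∀ a b : ℝ, ∑ i, (a * v0 i + b * U k i) ^ 2
      = a ^ 2 + b ^ 2 + 2 * a * b * ∑ i, v0 i * U k i := by
    intro a b
    have : ∑ i, (a * v0 i + b * U k i) ^ 2
        = a ^ 2 * ∑ i, v0 i ^ 2 + b ^ 2 * ∑ i, U k i ^ 2 + 2 * a * b * ∑ i, v0 i * U k i := by
      rw [Finset.mul_sum, Finset.mul_sum, Finset.mul_sum, ← Finset.sum_add_distrib,
        ← Finset.sum_add_distrib]
      apply Finset.sum_congr rfl
      intro i _; ring
    rw [this, hv0', hU k]; ring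
  -- Q(v0) - Q(u) from two evaluations
  set a : ℝ := 2 / δ with ha
  have haδ : a * δ = 2 := by rw [ha]; field_simp
  have ha0 : 0 < a := by rw [ha]; positivity
  -- a (v0 - u) + (v0 + u) and a (v0 - u) - (v0 + u)
  have h1 := hall (fun i => (a + 1) * v0 i + (1 - a) * U k i)
  have h2 := hall (fun i => (a - 1) * v0 i + (-a - 1) * U k i)
  rw [hcomb] at h1 h2
  have e1 := RNet_lin W hW (a + 1) (1 - a) v0 (U k)
  have e2 := RNet_lin W hW (a - 1) (-a - 1) v0 (U k)
  rw [e1] at h1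
  rw [e2] at h2
  set p := ∑ i, v0 i * U k i with hp
  have hdiff : 4 * a * (RNet_B W v0 v0 - RNet_B W (U k) (U k))
      = ((a + 1) ^ 2 * RNet_B W v0 v0 + 2 * (a + 1) * (1 - a) * RNet_B W v0 (U k)
          + (1 - a) ^ 2 * RNet_B W (U k) (U k))
        - ((a - 1) ^ 2 * RNet_B W v0 v0 + 2 * (a - 1) * (-a - 1) * RNet_B W v0 (U k)
          + (-a - 1) ^ 2 * RNet_B W (U k) (U k)) := by ring
  have hbound : 4 * a * |RNet_B W v0 v0 - RNet_B W (U k) (U k)| ≤ 16 * M := by
    have h3 : 4 * a * |RNet_B W v0 v0 - RNet_B W (U k) (U k)|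
        = |4 * a * (RNet_B W v0 v0 - RNet_B W (U k) (U k))| := by
      rw [abs_mul, abs_of_nonneg (by positivity : 0 ≤ 4 * a)]
    rw [h3, hdiff]
    have h4 : a ^ 2 * (2 - 2 * p) ≤ 4 := by
      calc a ^ 2 * (2 - 2 * p) ≤ a ^ 2 * δ ^ 2 := by
            apply mul_le_mul_of_nonneg_left _ (by positivity)
            rw [← hx]; exact hk
        _ = (a * δ) ^ 2 := by ring
        _ = 4 := by rw [haδ]; norm_num
    have h5 : 2 + 2 * p ≤ 4 := by
      rw [hx] at hn0; linarith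
    calc _ ≤ _ := abs_sub _ _
      _ ≤ M * ((a + 1) ^ 2 + (1 - a) ^ 2 + 2 * (a + 1) * (1 - a) * p)
          + M * ((a - 1) ^ 2 + (-a - 1) ^ 2 + 2 * (a - 1) * (-a - 1) * p) := add_le_add h1 h2
      _ = M * (2 * (a ^ 2 * (2 - 2 * p)) + 2 * (2 + 2 * p)) := by ring
      _ ≤ M * (2 * 4 + 2 * 4) := by gcongr
      _ = 16 * M := by ring
  have hδM : |RNet_B W v0 v0 - RNet_B W (U k) (U k)| ≤ 2 * δ * M := by
    have h6 : 4 * a * |RNet_B W v0 v0 - RNet_B W (U k) (U k)| * δ ≤ 16 * M * δ := by gcongr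
    have h7 : 4 * a * |RNet_B W v0 v0 - RNet_B W (U k) (U k)| * δ
        = 4 * (a * δ) * |RNet_B W v0 v0 - RNet_B W (U k) (U k)| := by ring
    rw [h7, haδ] at h6
    linarith
  have hUk : |RNet_B W (U k) (U k)| ≤ c := h k
  have hMc : (1 - 2 * δ) * M ≤ c := by
    have : M ≤ |RNet_B W (U k) (U k)| + |RNet_B W v0 v0 - RNet_B W (U k) (U k)| := by
      have := abs_add_le (RNet_B W (U k) (U k)) (RNet_B W v0 v0 - RNet_B W (U k) (U k))
      rw [add_sub_cancel] at this
      exact this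
    linarith
  have hvn : 0 ≤ ∑ i, v i ^ 2 := Finset.sum_nonneg (fun i _ => sq_nonneg _)
  calc (1 - 2 * δ) * |RNet_B W v v| ≤ (1 - 2 * δ) * (M * ∑ i, v i ^ 2) := by
        apply mul_le_mul_of_nonneg_left (hall v)
        linarith
    _ = ((1 - 2 * δ) * M) * ∑ i, v i ^ 2 := by ring
    _ ≤ c * ∑ i, v i ^ 2 := by gcongr

end SKG
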