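import Pool.Agent.Lib.MP_c42713_pr.RFin
import Pool.Agent.Lib.MP_c42713_pr.RNet
import Pool.Agent.Lib.MP_c42713_pr.RNeg

namespace SKG

open MeasureTheory ProbabilityTheory Filter Topology

/-- operator norm of GOE -/
theorem goe_norm (ε : ℝ) (hε : 0 < ε) :
    ∃ p : ℕ → ENNReal, Tendsto p atTop (𝓝 0) ∧ ∀ n, 4 ≤ n →
      gauss n {g | ¬ ∀ v : Fin n → ℝ, |∑ i, ∑ j, goe n g i j * v i * v j| ≤ (2 + ε) * ∑ i, v i ^ 2}
        ≤ p n := by
  obtain ⟨p, hp, hpn⟩ := goe_finite (ε / 2) (by linarith)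
  refine ⟨fun n => p n + p n, ?_, ?_⟩
  · have := hp.add hp
    rwa [add_zero] at this
  intro n hn
  set δ : ℝ := ε / (4 * (2 + ε)) with hδ
  have h2ε : 0 < 2 + ε := by linarith
  have hδ0 : 0 < δ := by positivity
  have hδ1 : δ < 1 / 2 := by
    rw [hδ, div_lt_iff₀ (by positivity)]
    linarith
  have hδ2 : (1 - 2 * δ) * (2 + ε) = 2 + ε / 2 := by
    rw [hδ]
    field_simp
    ring
  obtain ⟨m, U, hU, hnet⟩ := exists_net n δ hδ0
  set A : Set (Smp n) := {g | ∃ k, 2 + ε / 2 < ∑ i, ∑ j, goe n g i j * U k i * U k j} with hA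
  have hAp : gauss n A ≤ p n := hpn n hn m U hU
  have hsub : {g | ¬ ∀ v : Fin n → ℝ,
      |∑ i, ∑ j, goe n g i j * v i * v j| ≤ (2 + ε) * ∑ i, v i ^ 2} ⊆ A ∪ {g | -g ∈ A} := by
    intro g hg
    by_contra hcon
    apply hg
    have h1 : g ∉ A := fun h => hcon (Or.inl h)
    have h2 : -g ∉ A := fun h => hcon (Or.inr h)
    have h3 : ∀ k, |∑ i, ∑ j, goe n g i j * U k i * U k j| ≤ 2 + ε / 2 := by
      intro k
      rw [abs_le]
      constructor
      · by_contra h4
        apply h2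
        refine ⟨k, ?_⟩
        have h5 : ∑ i, ∑ j, goe n (-g) i j * U k i * U k j =
            -∑ i, ∑ j, goe n g i j * U k i * U k j := by
          rw [← Finset.sum_neg_distrib]
          refine Finset.sum_congr rfl fun i _ => ?_
          rw [← Finset.sum_neg_distrib]
          refine Finset.sum_congr rfl fun j _ => ?_
          rw [goe_neg]
          ring
        rw [h5]
        linarith [not_le.1 h4]
      · by_contra h4
        exact h1 ⟨k, not_le.1 h4⟩
    intro v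
    have h6 := net_norm (goe n g) (goe_symm n g) δ (2 + ε / 2) hδ0 hδ1 m U hU hnet h3 v
    rw [← hδ2, mul_assoc] at h6
    exact le_of_mul_le_mul_left h6 (by linarith)
  calc gauss n {g | ¬ ∀ v : Fin n → ℝ,
      |∑ i, ∑ j, goe n g i j * v i * v j| ≤ (2 + ε) * ∑ i, v i ^ 2}
      ≤ gauss n (A ∪ {g | -g ∈ A}) := measure_mono hsub
    _ ≤ gauss n A + gauss n {g | -g ∈ A} := measure_union_le _ _
    _ = gauss n A + gauss n A := by rw [gauss_neg]
    _ ≤ p n + p n := add_le_add hAp hAp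

end SKG
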