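import Pool.Agent.Lib.MP_c42713_pr.RIbp
import Pool.Agent.Lib.MP_c42713_pr.RDefs

namespace SKG

open MeasureTheory ProbabilityTheory

variable {ι κ : Type} [Fintype ι] [Fintype κ] [DecidableEq ι] [DecidableEq κ]

theorem RProd_lf_cont (c : ι → ℝ) : Continuous (lf c) := by
  unfold lf
  exact continuous_finsetSum _ fun i _ => continuous_const.mul (continuous_apply i)

theorem RProd_lf_deriv (c : ι → ℝ) (g : ι → ℝ) (i : ι) (s : ℝ) :
    HasDerivAt (fun s => lf c (Function.update g i s)) (c i) s := by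
  have e : (fun s => lf c (Function.update g i s)) =
      fun s => c i * s + ∑ j ∈ Finset.univ.erase i, c j * g j := by
    funext s
    unfold lf
    rw [← Finset.add_sum_erase _ _ (Finset.mem_univ i), Function.update_self]
    congr 1
    refine Finset.sum_congr rfl fun j hj => ?_
    rw [Function.update_of_ne (Finset.ne_of_mem_erase hj)]
  rw [e]
  have h := ((hasDerivAt_id s).const_mul (c i)).add_const (∑ j ∈ Finset.univ.erase i, c j * g j)
  rw [mul_one] at h
  exact h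

theorem RProd_cut_cont {t δ B : ℝ} {f f1 f2 : ℝ → ℝ} (h : Cut t δ B f f1 f2) :
    Continuous f ∧ Continuous f1 :=
  ⟨continuous_iff_continuousAt.2 fun x => (h.d1 x).continuousAt,
    continuous_iff_continuousAt.2 fun x => (h.d2 x).continuousAt⟩

theorem RProd_prod_cont {f : ℝ → ℝ} (hf : Continuous f) (c : κ → ι → ℝ) (s : Finset κ) :
    Continuous (fun g : ι → ℝ => ∏ v ∈ s, f (lf (c v) g)) :=
  continuous_finsetProd _ fun v _ => hf.comp (RProd_lf_cont (c v))

theorem RProd_prod_bd {t δ B : ℝ} {f f1 f2 : ℝ → ℝ} (h : Cut t δ B f f1 f2) (c : κ → ι → ℝ)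
    (s : Finset κ) (g : ι → ℝ) :
    0 ≤ ∏ v ∈ s, f (lf (c v) g) ∧ ∏ v ∈ s, f (lf (c v) g) ≤ 1 :=
  ⟨Finset.prod_nonneg fun v _ => h.nonneg _,
    Finset.prod_le_one (fun v _ => h.nonneg _) fun v _ => h.le_one _⟩

theorem RProd_Ph1_cont {t δ B : ℝ} {f f1 f2 : ℝ → ℝ} (h : Cut t δ B f f1 f2) (c : κ → ι → ℝ)
    (u : κ) : Continuous (Ph1 f f1 c u) := by
  obtain ⟨hf, hf1⟩ := RProd_cut_cont h
  exact (hf1.comp (RProd_lf_cont (c u))).mul (RProd_prod_cont hf c _)

theorem RProd_Ph1_bd {t δ B : ℝ} {f f1 f2 : ℝ → ℝ} (h : Cut t δ B f f1 f2) (c : κ → ι → ℝ)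
    (u : κ) (g : ι → ℝ) : |Ph1 f f1 c u g| ≤ B := by
  obtain ⟨h1, h2⟩ := RProd_prod_bd h c (Finset.univ.erase u) g
  unfold Ph1
  rw [abs_mul, abs_of_nonneg h1]
  calc |f1 (lf (c u) g)| * ∏ v ∈ Finset.univ.erase u, f (lf (c v) g) ≤ |f1 (lf (c u) g)| * 1 :=
        mul_le_mul_of_nonneg_left h2 (abs_nonneg _)
    _ ≤ B := by rw [mul_one]; exact h.b1 _

theorem RProd_Ph2_cont {t δ B : ℝ} {f f1 f2 : ℝ → ℝ} (h : Cut t δ B f f1 f2) (c : κ → ι → ℝ)
    (u v : κ) : Continuous (Ph2 f f1 f2 c u v) := by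
  obtain ⟨hf, hf1⟩ := RProd_cut_cont h
  unfold Ph2
  split_ifs
  · exact (h.c2.comp (RProd_lf_cont (c u))).mul (RProd_prod_cont hf c _)
  · exact ((hf1.comp (RProd_lf_cont (c u))).mul (hf1.comp (RProd_lf_cont (c v)))).mul
      (RProd_prod_cont hf c _)

theorem RProd_Ph2_bd {t δ B : ℝ} {f f1 f2 : ℝ → ℝ} (hB : 1 ≤ B) (h : Cut t δ B f f1 f2)
    (c : κ → ι → ℝ) (u v : κ) (g : ι → ℝ) : |Ph2 f f1 f2 c u v g| ≤ B ^ 2 := by
  have hBB : B ≤ B ^ 2 := by nlinarith
  unfold Ph2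
  split_ifs
  · obtain ⟨h1, h2⟩ := RProd_prod_bd h c (Finset.univ.erase u) g
    rw [abs_mul, abs_of_nonneg h1]
    calc |f2 (lf (c u) g)| * ∏ v ∈ Finset.univ.erase u, f (lf (c v) g) ≤ |f2 (lf (c u) g)| * 1 :=
          mul_le_mul_of_nonneg_left h2 (abs_nonneg _)
      _ ≤ B ^ 2 := by rw [mul_one]; exact (h.b2 _).trans hBB
  · obtain ⟨h1, h2⟩ := RProd_prod_bd h c ((Finset.univ.erase u).erase v) g
    rw [abs_mul, abs_mul, abs_of_nonneg h1]
    have h3 : |f1 (lf (c u) g)| * |f1 (lf (c v) g)| ≤ B * B :=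
      mul_le_mul (h.b1 _) (h.b1 _) (abs_nonneg _) (by linarith)
    calc |f1 (lf (c u) g)| * |f1 (lf (c v) g)| *
          ∏ w ∈ (Finset.univ.erase u).erase v, f (lf (c w) g) ≤ (B * B) * 1 :=
          mul_le_mul h3 h2 h1 (by positivity)
      _ = B ^ 2 := by ring

theorem RProd_deriv {t δ B : ℝ} {f f1 f2 : ℝ → ℝ} (h : Cut t δ B f f1 f2) (c : κ → ι → ℝ)
    (u : κ) (i : ι) (g : ι → ℝ) :
    HasDerivAt (fun s => Ph1 f f1 c u (Function.update g i s))
      (∑ v, c v i * Ph2 f f1 f2 c u v g) (g i) := by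
  have hu : Function.update g i (g i) = g := Function.update_eq_self i g
  have hlf : ∀ v, HasDerivAt (fun s => lf (c v) (Function.update g i s)) (c v i) (g i) := fun v =>
    RProd_lf_deriv (c v) g i (g i)
  have hf : ∀ v, HasDerivAt (fun s => f (lf (c v) (Function.update g i s)))
      (f1 (lf (c v) g) * c v i) (g i) := by
    intro v
    have h1 := h.d1 (lf (c v) (Function.update g i (g i)))
    have h2 := HasDerivAt.comp (g i) h1 (hlf v)
    rw [hu] at h2
    exact h2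
  have hf1 : HasDerivAt (fun s => f1 (lf (c u) (Function.update g i s)))
      (f2 (lf (c u) g) * c u i) (g i) := by
    have h1 := h.d2 (lf (c u) (Function.update g i (g i)))
    have h2 := HasDerivAt.comp (g i) h1 (hlf u)
    rw [hu] at h2
    exact h2
  have hp := HasDerivAt.fun_finsetProd (u := Finset.univ.erase u)
    (f := fun v s => f (lf (c v) (Function.update g i s)))
    (f' := fun v => f1 (lf (c v) g) * c v i) (x := g i) (fun v _ => hf v)
  have hm := hf1.mul hp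
  rw [hu] at hm
  have e : ∑ v, c v i * Ph2 f f1 f2 c u v g =
      f2 (lf (c u) g) * c u i * ∏ v ∈ Finset.univ.erase u, f (lf (c v) g) +
      f1 (lf (c u) g) * ∑ v ∈ Finset.univ.erase u,
        (∏ w ∈ (Finset.univ.erase u).erase v, f (lf (c w) g)) • (f1 (lf (c v) g) * c v i) := by
    rw [← Finset.add_sum_erase _ _ (Finset.mem_univ u)]
    congr 1
    · unfold Ph2
      rw [if_pos rfl]
      ring
    · rw [Finset.mul_sum]
      refine Finset.sum_congr rfl fun v hv => ?_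
      unfold Ph2
      rw [if_neg (Finset.ne_of_mem_erase hv).symm, smul_eq_mul]
      ring
  rw [e]
  exact hm

/-- integration by parts for the product -/
theorem ibp_Ph {t δ B : ℝ} {f f1 f2 : ℝ → ℝ} (hB : 1 ≤ B) (h : Cut t δ B f f1 f2)
    (c : κ → ι → ℝ) (u : κ) (e : ι → ℝ) :
    Integrable (fun g => lf e g * Ph1 f f1 c u g) (stdG ι) ∧
    ∫ g, lf e g * Ph1 f f1 c u g ∂(stdG ι) =
      ∑ v, (∑ i, e i * c v i) * ∫ g, Ph2 f f1 f2 c u v g ∂(stdG ι) := by
  have hint2 : ∀ v, Integrable (fun g => Ph2 f f1 f2 c u v g) (stdG ι) := by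
    intro v
    refine Integrable.of_bound (RProd_Ph2_cont h c u v).aestronglyMeasurable (B ^ 2) ?_
    exact Filter.Eventually.of_forall fun g => by
      rw [Real.norm_eq_abs]
      exact RProd_Ph2_bd hB h c u v g
  have key : ∀ i, Integrable (fun g : ι → ℝ => g i * Ph1 f f1 c u g) (stdG ι) ∧
      ∫ g, g i * Ph1 f f1 c u g ∂(stdG ι) =
        ∑ v, c v i * ∫ g, Ph2 f f1 f2 c u v g ∂(stdG ι) := by
    intro i
    have hBd : 0 ≤ ∑ v, |c v i| * B ^ 2 := Finset.sum_nonneg fun v _ => by positivity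
    obtain ⟨h1, h2⟩ := ibp_pi i (Ph1 f f1 c u) (fun g => ∑ v, c v i * Ph2 f f1 f2 c u v g)
      (RProd_Ph1_cont h c u)
      (continuous_finsetSum _ fun v _ => continuous_const.mul (RProd_Ph2_cont h c u v))
      (RProd_deriv h c u i) (B + ∑ v, |c v i| * B ^ 2)
      (fun g => (RProd_Ph1_bd h c u g).trans (by linarith))
      (fun g => by
        have h3 : |∑ v, c v i * Ph2 f f1 f2 c u v g| ≤ ∑ v, |c v i| * B ^ 2 := by
          refine (Finset.abs_sum_le_sum_abs _ _).trans (Finset.sum_le_sum fun v _ => ?_)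
          rw [abs_mul]
          exact mul_le_mul_of_nonneg_left (RProd_Ph2_bd hB h c u v g) (abs_nonneg _)
        linarith)
    refine ⟨h1, ?_⟩
    rw [h2, integral_finsetSum _ fun v _ => (hint2 v).const_mul (c v i)]
    refine Finset.sum_congr rfl fun v _ => ?_
    rw [integral_const_mul]
  have e1 : (fun g : ι → ℝ => lf e g * Ph1 f f1 c u g) =
      fun g => ∑ i, e i * (g i * Ph1 f f1 c u g) := by
    funext g
    unfold lf
    rw [Finset.sum_mul]
    refine Finset.sum_congr rfl fun i _ => ?_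
    ring
  constructor
  · rw [e1]
    exact integrable_finsetSum _ fun i _ => (key i).1.const_mul (e i)
  · rw [e1, integral_finsetSum _ fun i _ => (key i).1.const_mul (e i)]
    have e2 : ∀ i ∈ (Finset.univ : Finset ι), ∫ g, e i * (g i * Ph1 f f1 c u g) ∂(stdG ι) =
        ∑ v, e i * (c v i * ∫ g, Ph2 f f1 f2 c u v g ∂(stdG ι)) := by
      intro i _
      rw [integral_const_mul, (key i).2, Finset.mul_sum]
    rw [Finset.sum_congr rfl e2, Finset.sum_comm]
    refine Finset.sum_congr rfl fun v _ => ?_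
    rw [Finset.sum_mul]
    refine Finset.sum_congr rfl fun i _ => ?_
    ring

end SKG
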