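import Pool.Agent.Lib.MP_c42713_pr.GDefs

namespace SKG

variable {n : ℕ}

theorem exists_low (hn : 4 ≤ n) : ∃ (q : Fin n → Fin n × Fin n) (p0 : Fin n × Fin n), Low q p0 := by
  refine ⟨fun i => if i.val = 0 then (⟨2, by omega⟩, ⟨0, by omega⟩) else (i, ⟨i.val - 1, by omega⟩),
    (⟨3, by omega⟩, ⟨0, by omega⟩), ?_, ?_, ?_, ?_⟩
  · intro i j hij
    by_cases hi : i.val = 0
    · by_cases hj : j.val = 0
      · exact Fin.ext (hi.trans hj.symm)
      · exfalso
        simp only [hi, hj, if_true, if_false, Prod.mk.injEq, Fin.ext_iff] at hij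
        omega
    · by_cases hj : j.val = 0
      · exfalso
        simp only [hi, hj, if_true, if_false, Prod.mk.injEq, Fin.ext_iff] at hij
        omega
      · simp only [hi, hj, if_false, Prod.mk.injEq] at hij
        exact hij.1
  · intro i
    by_cases hi : i.val = 0
    · simp only [hi, if_true, Fin.lt_def]
      omega
    · simp only [hi, if_false, Fin.lt_def]
      omega
  · simp only [Fin.lt_def]
    omega
  · intro i
    by_cases hi : i.val = 0
    · simp only [hi, if_true, ne_eq, Prod.mk.injEq, Fin.ext_iff]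
      omega
    · simp only [hi, if_false, ne_eq, Prod.mk.injEq, Fin.ext_iff]
      omega

private theorem RVec_sym (A : Fin n → ℝ) (B : Fin n → Fin n → ℝ) :
    ∑ i, ∑ j, (if i = j then A i else if i < j then B i j else B j i) =
      ∑ i, A i + ∑ i, ∑ j, (if i < j then 2 * B i j else 0) := by
  have h1 : ∀ i j : Fin n, (if i = j then A i else if i < j then B i j else B j i) =
      (if i = j then A i else 0) + (if i < j then B i j else 0) + (if j < i then B j i else 0) := by
    intro i j
    rcases lt_trichotomy i j with h | h | h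
    · simp [h, h.ne, not_lt.2 h.le]
    · subst h
      simp
    · simp [h, h.ne', not_lt.2 h.le]
  have h2 : ∑ i, ∑ j : Fin n, (if j < i then B j i else 0) = ∑ i, ∑ j, (if i < j then B i j else 0) := by
    rw [Finset.sum_comm]
  simp only [h1, Finset.sum_add_distrib]
  rw [h2]
  have h3 : ∑ i, ∑ j : Fin n, (if i < j then 2 * B i j else 0) =
      2 * ∑ i, ∑ j, (if i < j then B i j else 0) := by
    rw [Finset.mul_sum]
    refine Finset.sum_congr rfl fun i _ => ?_
    rw [Finset.mul_sum]
    refine Finset.sum_congr rfl fun j _ => ?_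
    split_ifs <;> simp
  have h4 : ∑ i, ∑ j : Fin n, (if i = j then A i else 0) = ∑ i, A i := by
    refine Finset.sum_congr rfl fun i _ => ?_
    simp
  rw [h3, h4]
  ring

/-- sums against `va` -/
private theorem RVec_va_sum {q : Fin n → Fin n × Fin n} {p0 : Fin n × Fin n} (h : Low q p0)
    (u : Fin n → ℝ) (f : Fin n × Fin n → ℝ) : ∑ p, va p0 u p * f p =
      ∑ i, u i ^ 2 * f (i, i) + ∑ i, ∑ j, (if i < j then Real.sqrt 2 * u i * u j * f (i, j) else 0) + f p0 := by
  have h1 : ∀ p : Fin n × Fin n, va p0 u p * f p =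
      (if p.1 = p.2 then u p.1 ^ 2 * f (p.1, p.1) else 0) +
      (if p.1 < p.2 then Real.sqrt 2 * u p.1 * u p.2 * f (p.1, p.2) else 0) +
      (if p = p0 then f p0 else 0) := by
    rintro ⟨i, j⟩
    have hp := h.lowp
    unfold va
    simp only
    rcases lt_trichotomy i j with hij | hij | hij
    · have hne : (i, j) ≠ p0 := by
        rintro rfl
        exact absurd hij (not_lt.2 hp.le)
      simp [hij, hij.ne, hne]
    · subst hij
      have hne : (i, i) ≠ p0 := by
        rintro rfl
        exact lt_irrefl _ hp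
      simp [hne]
    · by_cases hq : (i, j) = p0
      · rw [if_neg hij.ne', if_neg (not_lt.2 hij.le), if_pos hq, if_neg hij.ne', if_neg (not_lt.2 hij.le),
          if_pos hq, hq]
        ring
      · rw [if_neg hij.ne', if_neg (not_lt.2 hij.le), if_neg hq, if_neg hij.ne', if_neg (not_lt.2 hij.le),
          if_neg hq]
        ring
  simp only [h1, Finset.sum_add_distrib]
  rw [Fintype.sum_prod_type, Fintype.sum_prod_type]
  congr 1
  · congr 1
    refine Finset.sum_congr rfl fun i _ => ?_
    simp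
  · simp

theorem va_inner {q : Fin n → Fin n × Fin n} {p0 : Fin n × Fin n} (h : Low q p0)
    (u v : Fin n → ℝ) : ∑ p, va p0 u p * va p0 v p = (∑ i, u i * v i) ^ 2 + 1 := by
  rw [RVec_va_sum h]
  have e0 : va p0 v p0 = 1 := by
    have hp := h.lowp
    unfold va
    rw [if_neg hp.ne', if_neg (not_lt.2 hp.le), if_pos rfl]
  have e1 : ∀ i, va p0 v (i, i) = v i ^ 2 := fun i => by simp [va]
  have e2 : ∀ i j : Fin n, i < j → va p0 v (i, j) = Real.sqrt 2 * v i * v j := fun i j hij => by
    simp [va, hij, hij.ne]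
  rw [e0]
  congr 1
  have h5 : (∑ i, u i * v i) ^ 2 = ∑ i, ∑ j, (if i = j then (u i * v i) ^ 2 else
      if i < j then (u i * v i) * (u j * v j) else (u j * v j) * (u i * v i)) := by
    rw [sq, Finset.sum_mul_sum]
    refine Finset.sum_congr rfl fun i _ => Finset.sum_congr rfl fun j _ => ?_
    rcases lt_trichotomy i j with hij | hij | hij
    · simp [hij, hij.ne]
    · subst hij
      simp [sq]
    · rw [if_neg hij.ne', if_neg (not_lt.2 hij.le)]
      ring
  rw [h5, RVec_sym (fun i => (u i * v i) ^ 2) (fun i j => (u i * v i) * (u j * v j))]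
  congr 1
  · refine Finset.sum_congr rfl fun i _ => ?_
    rw [e1]
    ring
  · refine Finset.sum_congr rfl fun i _ => Finset.sum_congr rfl fun j _ => ?_
    by_cases hij : i < j
    · rw [if_pos hij, if_pos hij, e2 i j hij]
      have : Real.sqrt 2 * Real.sqrt 2 = 2 := Real.mul_self_sqrt (by norm_num)
      calc Real.sqrt 2 * u i * u j * (Real.sqrt 2 * v i * v j)
          = (Real.sqrt 2 * Real.sqrt 2) * (u i * v i * (u j * v j)) := by ring
        _ = _ := by rw [this]
    · rw [if_neg hij, if_neg hij]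

/-- sums against `vb` -/
private theorem RVec_vb_sum (q : Fin n → Fin n × Fin n) (u : Fin n → ℝ) (f : Fin n × Fin n → ℝ) :
    ∑ p, vb q u p * f p = ∑ i, Real.sqrt 2 * u i * f (q i) := by
  unfold vb
  simp only [Finset.sum_mul]
  rw [Finset.sum_comm]
  refine Finset.sum_congr rfl fun i _ => ?_
  rw [Finset.sum_eq_single (q i)]
  · simp
  · intro p _ hp
    rw [if_neg (Ne.symm hp), zero_mul]
  · intro hp
    exact absurd (Finset.mem_univ _) hp

private theorem RVec_vb_q {q : Fin n → Fin n × Fin n} {p0 : Fin n × Fin n} (h : Low q p0)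
    (v : Fin n → ℝ) (i : Fin n) : vb q v (q i) = Real.sqrt 2 * v i := by
  unfold vb
  rw [Finset.sum_eq_single i]
  · simp
  · intro j _ hj
    rw [if_neg (fun hq => hj (h.inj hq))]
  · intro hp
    exact absurd (Finset.mem_univ _) hp

theorem vb_inner {q : Fin n → Fin n × Fin n} {p0 : Fin n × Fin n} (h : Low q p0)
    (u v : Fin n → ℝ) : ∑ p, vb q u p * vb q v p = 2 * ∑ i, u i * v i := by
  rw [RVec_vb_sum, Finset.mul_sum]
  refine Finset.sum_congr rfl fun i _ => ?_
  rw [RVec_vb_q h]
  have : Real.sqrt 2 * Real.sqrt 2 = 2 := Real.mul_self_sqrt (by norm_num)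
  calc Real.sqrt 2 * u i * (Real.sqrt 2 * v i) = (Real.sqrt 2 * Real.sqrt 2) * (u i * v i) := by ring
    _ = _ := by rw [this]

private theorem RVec_va_q {q : Fin n → Fin n × Fin n} {p0 : Fin n × Fin n} (h : Low q p0)
    (u : Fin n → ℝ) (i : Fin n) : va p0 u (q i) = 0 := by
  have h1 := h.lowq i
  unfold va
  rw [if_neg h1.ne', if_neg (not_lt.2 h1.le), if_neg (h.ne i)]

theorem vab_inner {q : Fin n → Fin n × Fin n} {p0 : Fin n × Fin n} (h : Low q p0)
    (u v : Fin n → ℝ) : ∑ p, va p0 u p * vb q v p = 0 := by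
  have h1 : ∑ p, va p0 u p * vb q v p = ∑ p, vb q v p * va p0 u p :=
    Finset.sum_congr rfl fun p _ => mul_comm _ _
  rw [h1, RVec_vb_sum]
  refine Finset.sum_eq_zero fun i _ => ?_
  rw [RVec_va_q h, mul_zero]

/-- the quadratic form of the GOE matrix in terms of `va` -/
theorem goe_form {q : Fin n → Fin n × Fin n} {p0 : Fin n × Fin n} (h : Low q p0)
    (u : Fin n → ℝ) (g : Smp n) :
    ∑ i, ∑ j, goe n g i j * u i * u j = Real.sqrt (2 / n) * (∑ p, va p0 u p * g p - g p0) := by
  rw [RVec_va_sum h]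
  have h1 : ∑ i, ∑ j, goe n g i j * u i * u j = ∑ i, ∑ j, (if i = j then
      Real.sqrt (2 / n) * g (i, i) * u i * u i else
      if i < j then g (i, j) / Real.sqrt n * u i * u j else g (j, i) / Real.sqrt n * u j * u i) := by
    refine Finset.sum_congr rfl fun i _ => Finset.sum_congr rfl fun j _ => ?_
    unfold goe
    rcases lt_trichotomy i j with hij | hij | hij
    · simp [hij, hij.ne]
    · subst hij
      simp
    · rw [if_neg hij.ne', if_neg (not_lt.2 hij.le), if_neg hij.ne', if_neg (not_lt.2 hij.le)]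
      ring
  rw [h1, RVec_sym (fun i => Real.sqrt (2 / n) * g (i, i) * u i * u i)
    (fun i j => g (i, j) / Real.sqrt n * u i * u j)]
  have hs : Real.sqrt (2 / n) = Real.sqrt 2 / Real.sqrt n := Real.sqrt_div (by norm_num) _
  have h2 : Real.sqrt 2 * Real.sqrt 2 = 2 := Real.mul_self_sqrt (by norm_num)
  have h3 : ∑ i, Real.sqrt (2 / n) * g (i, i) * u i * u i =
      Real.sqrt (2 / n) * ∑ i, u i ^ 2 * g (i, i) := by
    rw [Finset.mul_sum]
    refine Finset.sum_congr rfl fun i _ => ?_
    ring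
  have h4 : ∑ i, ∑ j, (if i < j then 2 * (g (i, j) / Real.sqrt n * u i * u j) else 0) =
      Real.sqrt (2 / n) * ∑ i, ∑ j, (if i < j then Real.sqrt 2 * u i * u j * g (i, j) else 0) := by
    rw [Finset.mul_sum]
    refine Finset.sum_congr rfl fun i _ => ?_
    rw [Finset.mul_sum]
    refine Finset.sum_congr rfl fun j _ => ?_
    by_cases hij : i < j
    · rw [if_pos hij, if_pos hij, hs]
      calc 2 * (g (i, j) / Real.sqrt n * u i * u j)
          = (Real.sqrt 2 * Real.sqrt 2) * (g (i, j) / Real.sqrt n * u i * u j) := by rw [h2]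
        _ = _ := by ring
    · rw [if_neg hij, if_neg hij, mul_zero]
  rw [h3, h4]
  ring

theorem vb_le {q : Fin n → Fin n × Fin n} {p0 : Fin n × Fin n} (h : Low q p0)
    (u : Fin n → ℝ) (hu : ∑ i, u i ^ 2 = 1) (g : Smp n) (s : ℝ) (hs : 0 ≤ s)
    (hg : 2 * ∑ i, g (q i) ^ 2 ≤ s ^ 2) : ∑ p, vb q u p * g p ≤ s := by
  rw [RVec_vb_sum]
  have h2 : Real.sqrt 2 * Real.sqrt 2 = 2 := Real.mul_self_sqrt (by norm_num)
  have h1 : ∑ i, Real.sqrt 2 * u i * g (q i) = ∑ i, u i * (Real.sqrt 2 * g (q i)) :=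
    Finset.sum_congr rfl fun i _ => by ring
  rw [h1]
  have h3 := Finset.sum_mul_sq_le_sq_mul_sq Finset.univ u (fun i => Real.sqrt 2 * g (q i))
  rw [hu, one_mul] at h3
  have h4 : ∑ i, (Real.sqrt 2 * g (q i)) ^ 2 = 2 * ∑ i, g (q i) ^ 2 := by
    rw [Finset.mul_sum]
    refine Finset.sum_congr rfl fun i _ => ?_
    calc (Real.sqrt 2 * g (q i)) ^ 2 = (Real.sqrt 2 * Real.sqrt 2) * g (q i) ^ 2 := by ring
      _ = _ := by rw [h2]
  rw [h4] at h3
  exact le_of_sq_le_sq (h3.trans hg) hs

end SKG
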